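import Pool.Agent.Modu.Targets

/-!
# ADJ: adjusting the last index
-/

set_option autoImplicit false

open Complex Filter Topology Set
open Pool.Agent.Multibrot Pool.Agent.Limb

namespace Pool.Agent.Modu

namespace ADJ_

theorem rr_zero (s : ℕ → ℤ) : rr s 0 = 21 := rfl

theorem rr_succ (s : ℕ → ℤ) (k : ℕ) : rr s (k + 1) =
    max (4 * Real.exp (rr s k)) (2 * Real.pi * |(s (k + 1) : ℝ)| / 6000) := rfl

theorem rr_congr (s s' : ℕ → ℤ) (k : ℕ) (h : ∀ i, i ≤ k → s' i = s i) : rr s' k = rr s k := by
  induction k with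
  | zero => rfl
  | succ k ih =>
    rw [rr_succ, rr_succ, ih (fun i hi => h i (by omega)), h (k + 1) le_rfl]

theorem YY_re (n : ℕ) (s s' : ℕ → ℤ) (L : ℂ) (i : ℕ) : (YY n s' L i).re = (YY n s L i).re := by
  unfold YY
  simp

theorem YY_im (n : ℕ) (s : ℕ → ℤ) (L : ℂ) (i : ℕ) :
    (YY n s L i).im = (XX n L i).im + L.im - 2 * Real.pi * s i := by
  unfold YY
  simp

theorem YY_congr (n : ℕ) (s s' : ℕ → ℤ) (L : ℂ) (i : ℕ) (h : s' i = s i) :
    YY n s' L i = YY n s L i := by
  unfold YY
  rw [h]

theorem exp21 : (10 : ℝ) ^ 8 ≤ Real.exp 21 := by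
  have h1 : (2.7 : ℝ) ≤ Real.exp 1 := by
    have := Real.exp_one_gt_d9
    linarith
  have h2 : Real.exp 21 = Real.exp 1 ^ 21 := by
    rw [← Real.exp_nat_mul]
    norm_num
  rw [h2]
  calc (10 : ℝ) ^ 8 ≤ 2.7 ^ 21 := by norm_num
    _ ≤ Real.exp 1 ^ 21 := by
      apply pow_le_pow_left₀ (by norm_num) h1

theorem rr_near (s s' : ℕ → ℤ) (m : ℕ) (t : ℤ) (ht : |(t : ℝ)| ≤ 3)
    (h : ∀ i, i < m → s' i = s i) (hm : s' m = s m + t) : |rr s' m - rr s m| ≤ 1 / 100 := by
  cases m with
  | zero => rw [rr_zero, rr_zero]; norm_num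
  | succ k =>
    rw [rr_succ, rr_succ, rr_congr s s' k (fun i hi => h i (by omega)), max_comm,
      max_comm (4 * Real.exp (rr s k))]
    refine (abs_max_sub_max_le_abs _ _ _).trans ?_
    have h3 : 2 * Real.pi * |((s' (k + 1) : ℤ) : ℝ)| / 6000 -
          2 * Real.pi * |((s (k + 1) : ℤ) : ℝ)| / 6000 =
          (2 * Real.pi / 6000) * (|((s' (k + 1) : ℤ) : ℝ)| - |((s (k + 1) : ℤ) : ℝ)|) := by ring
    rw [h3, abs_mul, abs_of_pos (by positivity)]
    have h4 : |(|((s' (k + 1) : ℤ) : ℝ)| - |((s (k + 1) : ℤ) : ℝ)|)| ≤ 3 := by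
      refine (abs_abs_sub_abs_le_abs_sub _ _).trans ?_
      rw [hm]
      push_cast
      rw [add_sub_cancel_left]
      exact ht
    have h5 := Real.pi_lt_d2
    have h6 := Real.pi_pos
    calc 2 * Real.pi / 6000 * |(|((s' (k + 1) : ℤ) : ℝ)| - |((s (k + 1) : ℤ) : ℝ)|)|
        ≤ 2 * Real.pi / 6000 * 3 := by
          apply mul_le_mul_of_nonneg_left h4 (by positivity)
      _ ≤ 1 / 100 := by linarith

end ADJ_

open ADJ_ in
/-- ADJ (from CHP): adjusting the last index. -/
theorem p_ADJ (h1 : T_CHP) : T_ADJ := by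
  intro n α s m L hα hL hch hmar
  obtain ⟨hc0, hc1, hc2, -, -, -, -, -, -⟩ := h1 n s m L hch
  have hre : 21 ≤ L.re := by
    have h2 := hch.hr 0 (Nat.zero_le m)
    rw [rr_zero, hc0.1] at h2
    exact h2
  -- the lower bound for all margins
  have hrr : (21 : ℝ) ≤ (YY n s L m).re := by
    have h21 : ∀ k : ℕ, (21 : ℝ) ≤ rr s k := by
      intro k
      induction k with
      | zero => rw [rr_zero]
      | succ k ih =>
        rw [rr_succ]
        refine le_trans ?_ (le_max_left _ _)
        have := Real.add_one_le_exp (rr s k)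
        linarith
    exact le_trans (h21 m) (hch.hr m le_rfl)
  have hz : (10 : ℝ) ^ 8 ≤ ‖zz n L (m + 1)‖ := by
    rw [hc2 m le_rfl]
    exact exp21.trans (Real.exp_le_exp.mpr hrr)
  have harg := hα.arg (m + 1) L (by omega) hL hre hz
  have hlo := hα.lo (m + 1) L (by omega) hL hre hz
  have hhi := hα.hi (m + 1) L (by omega) hL hre hz
  have hznz : ‖zz n L (m + 1)‖ ≠ 0 := by
    intro h
    rw [h] at hz
    norm_num at hz
  -- the integer
  have hexp : exp ((YY n s L m).im * I) = exp (α (m + 1) L * I) := by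
    have h3 : exp (YY n s L m) = (‖zz n L (m + 1)‖ : ℂ) * exp ((YY n s L m).im * I) := by
      rw [hc2 m le_rfl]
      rw [ofReal_exp, ← exp_add, re_add_im]
    have h4 : (‖zz n L (m + 1)‖ : ℂ) ≠ 0 := by exact_mod_cast hznz
    rw [hc1 m le_rfl] at h3
    have h5 : (‖zz n L (m + 1)‖ : ℂ) * exp ((YY n s L m).im * I) =
        (‖zz n L (m + 1)‖ : ℂ) * exp (α (m + 1) L * I) := by
      rw [← h3, mul_comm, harg]
    exact mul_left_cancel₀ h4 h5
  obtain ⟨t, ht⟩ := Complex.exp_eq_exp_iff_exists_int.mp hexp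
  have ht' : (YY n s L m).im = α (m + 1) L + 2 * Real.pi * t := by
    have h6 := congrArg Complex.im ht
    simpa [mul_comm, mul_left_comm] using h6
  have him := hch.him
  have htb : |(t : ℝ)| ≤ 3 := by
    rw [abs_le] at him
    have hpi := Real.pi_gt_d2
    have hpp := Real.pi_pos
    have h7 : |t| ≤ 3 := by
      rw [abs_le]
      constructor
      · by_contra hcon
        have h8 : t ≤ -4 := by omega
        have h9 : (t : ℝ) ≤ -4 := by exact_mod_cast h8
        nlinarith
      · by_contra hcon
        have h8 : 4 ≤ t := by omega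
        have h9 : (4 : ℝ) ≤ t := by exact_mod_cast h8
        nlinarith
    exact_mod_cast h7
  refine ⟨Function.update s m (s m + t), ?_, ?_, ?_, ?_⟩
  · intro i hi
    rw [Function.update_of_ne (by omega)]
  · have hlow : ∀ i, i < m → Function.update s m (s m + t) i = s i := by
      intro i hi
      rw [Function.update_of_ne (by omega)]
    have hnear := rr_near s (Function.update s m (s m + t)) m t htb hlow
      (by rw [Function.update_self])
    have hnew : (YY n (Function.update s m (s m + t)) L m).im = α (m + 1) L := by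
      rw [YY_im, Function.update_self]
      rw [YY_im] at ht'
      push_cast
      linarith
    refine ⟨hch.hn, ?_, ?_, ?_, ?_, ?_⟩
    · rcases Nat.eq_zero_or_pos m with h0 | h0
      · subst h0
        rw [Function.update_self]
        have h10 : (YY n s L 0).im = L.im - 2 * Real.pi * s 0 := hc0.2
        rw [zero_add, hα.one, h10] at ht'
        have h11 : 2 * Real.pi * ((s 0 : ℝ) + t) = 0 := by linarith
        have h12 : ((s 0 : ℝ) + t) = 0 := by
          rcases mul_eq_zero.mp h11 with h | h
          · exact absurd h (by positivity)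
          · exact h
        push_cast
        rw [h12]
        norm_num
      · rw [hlow 0 h0]
        exact hch.h0
    · intro i hi
      rw [YY_re n s]
      rcases Nat.eq_or_lt_of_le hi with h | h
      · subst h
        rw [abs_le] at hnear
        linarith [hnear.2]
      · rw [rr_congr s _ i (fun j hj => hlow j (by omega))]
        exact hch.hr i hi
    · intro i hi
      rw [YY_congr n s _ L i (hlow i hi)]
      exact hch.hi i hi
    · rw [hnew, abs_le]
      constructor <;> linarith
    · intro i hi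
      rw [YY_re n s]
      exact hch.hle i hi
  · rw [YY_im, Function.update_self]
    rw [YY_im] at ht'
    push_cast
    linarith
  · refine rr_near s (Function.update s m (s m + t)) m t htb ?_ (by rw [Function.update_self])
    intro i hi
    rw [Function.update_of_ne (by omega)]

end Pool.Agent.Modu
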