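import Pool.Agent.Modu.Targets

/-!
# ADOWN: going down levels
-/

set_option autoImplicit false

open Complex Filter Topology Set
open Pool.Agent.Multibrot Pool.Agent.Limb

namespace Pool.Agent.Modu

namespace ADOWN_

/-- truncation of a chart -/
theorem trunc {n : ℕ} {s : ℕ → ℤ} {m m' : ℕ} {L : ℂ} (h : Ch n s m L) (hm : m' ≤ m) :
    Ch n s m' L := by
  refine ⟨h.hn, h.h0, fun i hi => h.hr i (hi.trans hm), fun i hi => h.hi i (by omega), ?_,
    fun i hi => h.hle i (hi.trans hm)⟩
  rcases Nat.lt_or_ge m' m with h1 | h1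
  · have := h.hi m' h1
    linarith
  · have h2 : m' = m := le_antisymm hm h1
    rw [h2]
    exact h.him

end ADOWN_

open ADOWN_ in
theorem p_ADOWN (h1 : T_ADJ) (h2 : T_CHP) : T_ADOWN := by
  intro n α s m m' L hα hL hm hch him
  rcases Nat.lt_or_ge m' m with h | h
  · have hmar : rr s m' + 1 ≤ (YY n s L m').re := (h2 n s m L hch).2.2.2.2.2.1 m' h
    obtain ⟨s', hs1, hs2, hs3, -⟩ := h1 n α s m' L hα hL (trunc hch hm) hmar
    exact ⟨s', hs1, hs2, hs3⟩
  · have hmm : m' = m := le_antisymm hm h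
    subst hmm
    exact ⟨s, fun _ _ => rfl, hch, him⟩

end Pool.Agent.Modu
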