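import Pool.Agent.Modu.Targets

/-!
# ALPHA: the argument in a chart on a connected set
-/

set_option autoImplicit false

open Complex Filter Topology Set
open Pool.Agent.Multibrot Pool.Agent.Limb

namespace Pool.Agent.Modu

namespace ALPHA_

theorem int_const {S : Set ℂ} (hS : IsPreconnected S) {f : ℂ → ℝ}
    (hf : ContinuousOn f S) (hi : ∀ t ∈ S, ∃ m : ℤ, f t = m) {a b : ℂ} (ha : a ∈ S) (hb : b ∈ S) :
    f a = f b := by
  have key : ∀ a ∈ S, ∀ b ∈ S, ¬ f a < f b := by
    intro a ha b hb hlt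
    obtain ⟨m, hm⟩ := hi a ha
    obtain ⟨m', hm'⟩ := hi b hb
    have h1 : m < m' := by
      have : (m : ℝ) < m' := by rw [← hm, ← hm']; exact hlt
      exact_mod_cast this
    have h2 : (m : ℝ) + 1 ≤ m' := by exact_mod_cast h1
    obtain ⟨x, hx, hfx⟩ := hS.intermediate_value ha hb hf
      (show f a + 1 / 2 ∈ Icc (f a) (f b) from ⟨by linarith, by rw [hm, hm']; linarith⟩)
    obtain ⟨p, hp⟩ := hi x hx
    have h3 : (p : ℝ) = m + 1 / 2 := by rw [← hp, hfx, hm]
    have h4 : ((2 * p : ℤ) : ℝ) = ((2 * m + 1 : ℤ) : ℝ) := by push_cast; linarith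
    have h5 : 2 * p = 2 * m + 1 := by exact_mod_cast h4
    omega
  rcases lt_trichotomy (f a) (f b) with h | h | h
  · exact absurd h (key a ha b hb)
  · exact h
  · exact absurd h (key b hb a ha)

theorem exp21 : (10 : ℝ) ^ 8 ≤ Real.exp 21 := by
  have h1 : (2.7 : ℝ) ≤ Real.exp 1 := by
    have := Real.exp_one_gt_d9
    linarith
  have h2 : Real.exp 21 = Real.exp 1 ^ 21 := by
    rw [← Real.exp_nat_mul]
    norm_num
  rw [h2]
  calc (10 : ℝ) ^ 8 ≤ 2.7 ^ 21 := by norm_num
    _ ≤ Real.exp 1 ^ 21 := by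
      apply pow_le_pow_left₀ (by norm_num) h1

theorem rr_ge (s : ℕ → ℤ) (k : ℕ) : (21 : ℝ) ≤ rr s k := by
  induction k with
  | zero => exact le_rfl
  | succ k ih =>
    have h1 : 4 * Real.exp (rr s k) ≤ rr s (k + 1) := le_max_left _ _
    have h2 := Real.add_one_le_exp (rr s k)
    linarith

end ALPHA_

open ALPHA_

theorem p_ALPHA (h1 : T_CHP) (h2 : T_CHCL) : T_ALPHA := by
  intro n α s m J hα hJ hJM hCh L0 hL0 he L hL
  have hpi := Real.pi_pos
  have key : ∀ L ∈ J, 21 ≤ L.re ∧ (10 : ℝ) ^ 8 ≤ ‖zz n L (m + 1)‖ ∧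
      exp (YY n s L m) = zz n L (m + 1) ∧ ‖zz n L (m + 1)‖ = Real.exp (YY n s L m).re := by
    intro L hL
    have h := hCh L hL
    obtain ⟨c0, c1, c2, -⟩ := h1 n s m L h
    have a1 : (21 : ℝ) ≤ L.re := by
      rw [← c0.1]
      exact h.hr 0 (Nat.zero_le _)
    have a2 := c2 m le_rfl
    have a3 := h.hr m le_rfl
    have a4 := rr_ge s m
    refine ⟨a1, ?_, c1 m le_rfl, a2⟩
    rw [a2]
    exact exp21.trans (Real.exp_le_exp.2 (a4.trans a3))
  have hc : ContinuousOn (fun L => ((YY n s L m).im - α (m + 1) L) / (2 * Real.pi)) J := by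
    have b1 : ContinuousOn (fun L => YY n s L m) J :=
      ((h2 n s m).2 m le_rfl).1.mono (fun L hL => hCh L hL)
    have b2 : ContinuousOn (fun L => (YY n s L m).im) J :=
      continuous_im.comp_continuousOn b1
    have b3 : ContinuousOn (α (m + 1)) J :=
      (hα.cont (m + 1) (by omega)).mono
        (fun L hL => ⟨hJM hL, (key L hL).1, (key L hL).2.1⟩)
    exact (b2.sub b3).div_const _
  have hi : ∀ L ∈ J, ∃ t : ℤ, ((YY n s L m).im - α (m + 1) L) / (2 * Real.pi) = t := by
    intro L hL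
    obtain ⟨a1, a2, a3, a4⟩ := key L hL
    have b1 := hα.arg (m + 1) L (by omega) (hJM hL) a1 a2
    rw [← a3, a3, a4, ← a3] at b1
    have b2 : exp ((α (m + 1) L : ℂ) * I + ((YY n s L m).re : ℂ)) = exp (YY n s L m) := by
      rw [exp_add, ← ofReal_exp]
      exact b1
    obtain ⟨t, ht⟩ := exp_eq_exp_iff_exists_int.1 b2
    have b3 := congrArg Complex.im ht
    simp only [add_im, mul_im, ofReal_re, ofReal_im, I_re, I_im, mul_one, zero_mul, mul_zero,
      add_zero, intCast_re, intCast_im, mul_re, re_ofNat, im_ofNat, sub_zero,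
      sub_self] at b3
    refine ⟨-t, ?_⟩
    rw [div_eq_iff (by positivity)]
    push_cast
    linarith
  have h3 := int_const hJ hc hi hL0 hL
  rw [he, sub_self, zero_div] at h3
  have h4 : (YY n s L m).im - α (m + 1) L = 0 := by
    rcases div_eq_zero_iff.1 h3.symm with h5 | h5
    · exact h5
    · exact absurd h5 (by positivity)
  linarith

end Pool.Agent.Modu
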