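import Pool.Agent.Modu.Targets

/-!
# ATTK: attachment to the spine of level `k`
-/

set_option autoImplicit false

open Complex Filter Topology Set
open Pool.Agent.Multibrot Pool.Agent.Limb

namespace Pool.Agent.Modu

namespace ATTK_

theorem re_YY (n : ℕ) (s : ℕ → ℤ) (L : ℂ) (i : ℕ) : (YY n s L i).re = (XX n L i).re + L.re := by
  unfold YY
  simp

theorem exp21 : (10 : ℝ) ^ 8 ≤ Real.exp 21 := by
  have h1 : (2.7182818283 : ℝ) < Real.exp 1 := Real.exp_one_gt_d9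
  have h2 : Real.exp 21 = Real.exp 1 ^ 21 := by
    rw [← Real.exp_nat_mul]
    norm_num
  rw [h2]
  calc (10 : ℝ) ^ 8 ≤ (2.7182818283 : ℝ) ^ 21 := by norm_num
    _ ≤ Real.exp 1 ^ 21 := pow_le_pow_left₀ (by norm_num) h1.le 21

theorem exp_thou : Real.exp (1 / 1000) ≤ 2 := by
  have h1 : Real.exp (1 / 1000) ≤ Real.exp (Real.log 2) := by
    apply Real.exp_le_exp.mpr
    have := Real.log_two_gt_d9
    linarith
  rwa [Real.exp_log (by norm_num)] at h1

theorem pow100 (i : ℕ) : (i : ℝ) + 1 ≤ 100 ^ i := by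
  have h1 : i + 1 ≤ 2 ^ i := Nat.lt_two_pow_self
  have h2 : 2 ^ i ≤ 100 ^ i := Nat.pow_le_pow_left (by norm_num) i
  exact_mod_cast h1.trans h2

theorem small_pow (k : ℕ) (hk : 1 ≤ k) : (1 / 10 ^ 7 : ℝ) ^ k * ((k : ℝ) + 30) ≤ 1 := by
  obtain ⟨t, rfl⟩ : ∃ t, k = t + 1 := ⟨k - 1, by omega⟩
  have h1 := pow100 t
  have h2 : (1 / 10 ^ 7 : ℝ) ^ t * 100 ^ t ≤ 1 := by
    rw [← mul_pow]
    exact pow_le_one₀ (by norm_num) (by norm_num)
  have h3 : (0 : ℝ) ≤ (1 / 10 ^ 7 : ℝ) ^ t := by positivity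
  have h4 : (1 / 10 ^ 7 : ℝ) ^ t ≤ 1 := pow_le_one₀ (by norm_num) (by norm_num)
  rw [pow_succ]
  push_cast
  nlinarith [mul_le_mul_of_nonneg_left h1 h3]

theorem small_pow' (i k : ℕ) (hk : i ≤ k) :
    (1 / 10 ^ 7 : ℝ) ^ (k - i) * ((k : ℝ) + 30) ≤ (i : ℝ) + 30 + 1 := by
  obtain ⟨t, rfl⟩ := Nat.exists_eq_add_of_le hk
  rw [Nat.add_sub_cancel_left]
  have h1 := pow100 t
  have h2 : (1 / 10 ^ 7 : ℝ) ^ t * 100 ^ t ≤ 1 := by
    rw [← mul_pow]
    exact pow_le_one₀ (by norm_num) (by norm_num)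
  have h3 : (0 : ℝ) ≤ (1 / 10 ^ 7 : ℝ) ^ t := by positivity
  have h4 : (1 / 10 ^ 7 : ℝ) ^ t ≤ 1 := pow_le_one₀ (by norm_num) (by norm_num)
  push_cast
  have h5 : (1 / 10 ^ 7 : ℝ) ^ t * (t : ℝ) ≤ 1 := by
    refine le_trans (mul_le_mul_of_nonneg_left ?_ h3) h2
    linarith
  have h6 : (1 / 10 ^ 7 : ℝ) ^ t * ((i : ℝ) + 30) ≤ 1 * ((i : ℝ) + 30) :=
    mul_le_mul_of_nonneg_right h4 (by positivity)
  linarith

/-- growth of the real parts -/
theorem grow (h6 : T_CHP) {n : ℕ} {s : ℕ → ℤ} {k : ℕ} {L : ℂ} (h : Ch n s k L) (a : ℝ)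
    (ha : a ≤ L.re) : ∀ i, i ≤ k → a * 100 ^ i ≤ (YY n s L i).re := by
  obtain ⟨c1, -, -, -, c5, -⟩ := h6 n s k L h
  intro i
  induction i with
  | zero =>
    intro _
    rw [c1.1]
    simpa using ha
  | succ i ih =>
    intro hi
    have := (c5 i (by omega)).2
    have := ih (by omega)
    rw [pow_succ]
    linarith

/-- the modulus at a point with a good margin is large -/
theorem big (h6 : T_CHP) {n : ℕ} {s : ℕ → ℤ} {k : ℕ} {L : ℂ} (h : Ch n s k L) :
    (10 : ℝ) ^ 8 ≤ ‖zz n L (k + 1)‖ := by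
  obtain ⟨-, -, c3, -, -, -, -, c8, -⟩ := h6 n s k L h
  rw [c3 k le_rfl]
  refine exp21.trans (Real.exp_le_exp.mpr ?_)
  exact (c8 k le_rfl).trans (h.hr k le_rfl)

/-- the lower bound for the modulus -/
theorem lower (k : ℕ) (y x u v : ℝ) (hy : 61 * 100 ^ k ≤ y)
    (hu : (1 / 2) ^ (k + 12) * Real.exp y ≤ u) (hv : u - 24 ≤ v) (hx : v - 1 ≤ Real.exp x) :
    y - 0.6932 * (k + 13) ≤ x := by
  have h1 : (61 : ℝ) + k ≤ y := by
    have := pow100 k
    have hk : (0 : ℝ) ≤ k := Nat.cast_nonneg k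
    nlinarith
  have he1 : (2 : ℝ) ≤ Real.exp 1 := by
    have := Real.exp_one_gt_d9
    linarith
  have h2 : (2 : ℝ) ^ (61 + k) ≤ Real.exp y := by
    calc (2 : ℝ) ^ (61 + k) ≤ Real.exp 1 ^ (61 + k) := pow_le_pow_left₀ (by norm_num) he1 _
      _ = Real.exp ((61 + k : ℕ) * 1) := by rw [Real.exp_nat_mul]
      _ ≤ Real.exp y := by
          apply Real.exp_le_exp.mpr
          push_cast
          linarith
  have h3 : (25 : ℝ) ≤ (1 / 2) ^ (k + 13) * Real.exp y := by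
    have e : (1 / 2 : ℝ) ^ (k + 13) * 2 ^ (61 + k) = 2 ^ 48 := by
      rw [show 61 + k = (k + 13) + 48 by ring, pow_add (2 : ℝ) (k + 13) 48, ← mul_assoc,
        ← mul_pow]
      norm_num
    have h4 : (1 / 2 : ℝ) ^ (k + 13) * 2 ^ (61 + k) ≤ (1 / 2) ^ (k + 13) * Real.exp y :=
      mul_le_mul_of_nonneg_left h2 (by positivity)
    rw [e] at h4
    linarith
  have h4 : (1 / 2 : ℝ) ^ (k + 12) = 2 * (1 / 2) ^ (k + 13) := by
    rw [show k + 13 = (k + 12) + 1 by ring, pow_succ (1 / 2 : ℝ) (k + 12)]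
    ring
  rw [h4] at hu
  have h5 : (1 / 2 : ℝ) ^ (k + 13) * Real.exp y ≤ Real.exp x := by linarith
  have h6 := Real.log_le_log (by positivity) h5
  rw [Real.log_exp, Real.log_mul (by positivity) (Real.exp_pos _).ne', Real.log_pow,
    Real.log_exp, one_div, Real.log_inv] at h6
  have h7 : Real.log 2 ≤ 0.6932 := by
    have := Real.log_two_lt_d9
    linarith
  have h8 : (0 : ℝ) ≤ ((k + 13 : ℕ) : ℝ) := Nat.cast_nonneg _
  have h9 := mul_le_mul_of_nonneg_left h7 h8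
  push_cast at h6 h9
  linarith

end ATTK_

open ATTK_ in
theorem p_ATTK (h1 : T_DESC) (h2 : T_COV) (h3 : T_DOWN) (h4 : T_STEP) (h5 : T_MARG)
    (h6 : T_CHP) (h7 : T_COMP) (h8 : T_LIP) (_h9 : T_FRX) (h10 : T_ALPHA) : T_ATTK := by
  intro n α s k P hα hHC hP hch him hre hz hAT
  have hFR : ∀ i, 1 ≤ i → i ≤ k → FR n P i := by
    intro i hi1 hi2
    have := hz i hi1 hi2
    have h0 := norm_nonneg (zz n P i)
    unfold FR
    linarith
  have hmar : rr s k + 30 ≤ (YY n s P k).re := h5 n s k P hP hch (by linarith) hFR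
  have hk0 : (0 : ℝ) ≤ k := Nat.cast_nonneg k
  by_cases hNF : NF n P (k + 1)
  · have h0 := hα.nf (k + 1) P (by omega) hP (by linarith) (big h6 hch) (Or.inl hNF)
    obtain ⟨J, J1, J2, J3, J4, J5⟩ := hHC s k P ⟨hP, hch, hmar, by rw [him]; exact h0.1,
      by rw [him]; exact h0.2, hNF⟩
    refine ⟨J, J1, J2, J3, J4, fun L hL => ⟨(J5 L hL).1, ?_⟩⟩
    have := (J5 L hL).2
    linarith
  have hFR1 : FR n P (k + 1) := by
    unfold NF at hNF
    unfold FR
    push Not at hNF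
    exact hNF.le
  have hIm : (1 / 2) ^ (k + 12) * ‖zz n P (k + 1)‖ ≤ |(XX n P (k + 1)).im| := by
    rcases hAT with h | h
    · exact absurd h hNF
    · exact h
  obtain ⟨J, J1, J2, J3, ⟨q, hq, hq'⟩, J5⟩ := h1 n α hα hHC (k + 1) P hP (by linarith) (by
    intro i hi1 hi2
    rcases Nat.lt_or_ge i (k + 1) with h | h
    · exact hFR i hi1 (by omega)
    · have : i = k + 1 := by omega
      rw [this]
      exact hFR1)
  obtain ⟨s1, hs1⟩ := h2 n α (k + 1) J hα J1 J2 (fun L hL => (J5 L hL).1)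
  obtain ⟨s2, hs2a, hs2b, hs2c, -, hs2e, -⟩ := h4 n α s k P hα hch hP (by linarith) hFR1
  have hs12 := (hs1 P J3).2.2 s2 hs2c hs2e
  have hs1a : ∀ i, i < k → s1 i = s i := fun i hi => by
    rw [← hs12 i (by omega)]
    exact hs2a i hi
  have hs1b : |((s1 k : ℤ) : ℝ) - s k| ≤ 1 := by
    rw [← hs12 k (by omega)]
    exact hs2b
  have hchJ : ∀ L ∈ J, Ch n s k L := fun L hL =>
    (h3 n s s1 k L (hs1 L hL).1 hch.h0 hs1a hs1b).1
  -- comparison
  have hcomp : ∀ L ∈ J, (∀ i, i ≤ k → (YY n s L i).re ≤ (YY n s P i).re + 1 / 1000) ∧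
      |(XX n L (k + 1)).im - (XX n P (k + 1)).im| ≤ 24 := by
    intro L hL
    have hc1 := (hs1 L hL).1
    have hc2 := (hs1 P J3).1
    have h0 : (YY n s1 L (k + 1)).re ≤ (YY n s1 P (k + 1)).re + 20 := by
      have e1 := (h6 n s1 (k + 1) L hc1).2.2.1 (k + 1) le_rfl
      have e2 := (h6 n s1 (k + 1) P hc2).2.2.1 (k + 1) le_rfl
      have e3 := (J5 L hL).2
      rw [e1, e2, Real.log_exp, Real.log_exp] at e3
      linarith
    obtain ⟨c1, c2, -⟩ := h7 n s1 (k + 1) P L hc2 hc1 h0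
    refine ⟨fun i hi => ?_, c2 (k + 1) (by omega) le_rfl⟩
    have := c1 i (by omega)
    rw [re_YY, re_YY] at this ⊢
    exact this
  -- the lower bound
  have hyP : 61 * 100 ^ k ≤ (YY n s P k).re := grow h6 hch 61 hre k le_rfl
  have hlow : ∀ L ∈ J, (YY n s P k).re - 0.6932 * (k + 13) ≤ (YY n s L k).re := by
    intro L hL
    have eP := (h6 n s k P hch).2.2.1 k le_rfl
    have eL := (h6 n s k L (hchJ L hL)).2.2.1 k le_rfl
    have hzX := ((h6 n s1 (k + 1) L (hs1 L hL).1).2.2.2.2.2.2.1 (k + 1) (by omega) le_rfl).2.2.2.2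
    refine lower k _ _ |(XX n P (k + 1)).im| |(XX n L (k + 1)).im| hyP ?_ ?_ ?_
    · rw [← eP]
      exact hIm
    · have h0 := (hcomp L hL).2
      have h0' := abs_sub_abs_le_abs_sub (XX n P (k + 1)).im (XX n L (k + 1)).im
      rw [abs_sub_comm] at h0'
      linarith
    · rw [← eL]
      have a1 := Complex.abs_im_le_norm (XX n L (k + 1))
      have a2 : ‖XX n L (k + 1)‖ ≤ ‖zz n L (k + 1)‖ + ‖zz n L (k + 1) - XX n L (k + 1)‖ := by
        have : XX n L (k + 1) = zz n L (k + 1) - (zz n L (k + 1) - XX n L (k + 1)) := by ring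
        calc ‖XX n L (k + 1)‖ = ‖zz n L (k + 1) - (zz n L (k + 1) - XX n L (k + 1))‖ := by
              rw [← this]
          _ ≤ _ := norm_sub_le _ _
      have a3 : (1 : ℝ) / 10 ^ 6 ≤ 1 := by norm_num
      linarith
  -- the point `q`
  have hchq := hchJ q hq
  have hlowq := hlow q hq
  have hupq := (hcomp q hq).1 k le_rfl
  have hD : ‖YY n s q k - YY n s P k‖ ≤ (k : ℝ) + 30 := by
    have a1 := Complex.norm_le_abs_re_add_abs_im (YY n s q k - YY n s P k)
    rw [Complex.sub_re, Complex.sub_im] at a1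
    have a2 : |(YY n s q k).re - (YY n s P k).re| ≤ 0.6932 * (k + 13) + 1 / 1000 := by
      rw [abs_le]
      constructor <;> nlinarith
    have a3 : |(YY n s q k).im - (YY n s P k).im| ≤ 20 := by
      have b1 := abs_le.mp hchq.him
      have b2 := abs_le.mp hch.him
      rw [abs_le]
      constructor <;> linarith [b1.1, b1.2, b2.1, b2.2]
    linarith
  have hLIP : ∀ i, i ≤ k → ‖YY n s q i - YY n s P i‖ ≤ (1 / 10 ^ 7) ^ (k - i) * ((k : ℝ) + 30) :=
    fun i hi => (h8 n s k P q hch hchq i hi).trans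
      (mul_le_mul_of_nonneg_left hD (by positivity))
  have hYY0 : ∀ L : ℂ, Ch n s k L → (YY n s L 0).re = L.re := fun L hL => (h6 n s k L hL).1.1
  have hreq : P.re - 9.1 ≤ q.re := by
    rcases Nat.eq_zero_or_pos k with h0 | h0
    · subst h0
      rw [hYY0 q hchq, hYY0 P hch] at hlowq
      norm_num at hlowq ⊢
      linarith
    · have a1 := hLIP 0 (by omega)
      have a2 := Complex.abs_re_le_norm (YY n s q 0 - YY n s P 0)
      rw [Nat.sub_zero] at a1
      have a3 := small_pow k h0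
      rw [Complex.sub_re, hYY0 q hchq, hYY0 P hch] at a2
      have a4 := (abs_le.mp (a2.trans (a1.trans a3))).1
      linarith
  have hrequ : q.re ≤ P.re + 1 / 1000 := by
    have := (hcomp q hq).1 0 (by omega)
    rw [hYY0 q hchq, hYY0 P hch] at this
    exact this
  have hFRq : ∀ i, 1 ≤ i → i ≤ k → ‖zz n q i‖ < 5000 * (XX n q i).re := by
    intro i hi1 hi2
    have a1 := (hLIP i hi2).trans (small_pow' i k hi2)
    have a2 := Complex.abs_re_le_norm (YY n s q i - YY n s P i)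
    rw [Complex.sub_re, re_YY, re_YY] at a2
    have a3 := (abs_le.mp (a2.trans a1)).1
    have a4 : (XX n P i).re - (i + 42) ≤ (XX n q i).re := by linarith
    have a5 := grow h6 hch 61 hre i hi2
    have a6 := ((h6 n s k P hch).2.2.2.2.2.2.1 i hi1 hi2).1
    have a7 := pow100 i
    have a8 : (100 : ℝ) ≤ 100 ^ i := by
      calc (100 : ℝ) = 100 ^ 1 := (pow_one _).symm
        _ ≤ 100 ^ i := pow_le_pow_right₀ (by norm_num) hi1
    have a9 : (60 : ℝ) * 100 ^ i ≤ (XX n P i).re := by linarith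
    have a10 : (XX n P i).re / 2 ≤ (XX n q i).re := by linarith
    have a11 := hz i hi1 hi2
    obtain ⟨j, rfl⟩ : ∃ j, i = j + 1 := ⟨i - 1, by omega⟩
    have e1 := (h6 n s k P hch).2.2.1 j (by omega)
    have e2 := (h6 n s k q hchq).2.2.1 j (by omega)
    have e3 := (hcomp q hq).1 j (by omega)
    have e4 : ‖zz n q (j + 1)‖ ≤ 2 * ‖zz n P (j + 1)‖ := by
      rw [e1, e2]
      calc Real.exp (YY n s q j).re ≤ Real.exp (1 / 1000 + (YY n s P j).re) :=
            Real.exp_le_exp.mpr (by linarith)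
        _ = Real.exp (1 / 1000) * Real.exp (YY n s P j).re := Real.exp_add _ _
        _ ≤ 2 * Real.exp (YY n s P j).re :=
            mul_le_mul_of_nonneg_right exp_thou (Real.exp_pos _).le
    linarith
  have hNFq : NF n q (k + 1) := by
    rcases hq' with ⟨i, hi1, hi2, hi3⟩ | h0 | h0
    · rcases Nat.lt_or_ge i (k + 1) with h | h
      · exfalso
        have := hFRq i hi1 (by omega)
        unfold NF at hi3
        linarith
      · have : i = k + 1 := by omega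
        rw [← this]
        exact hi3
    · exfalso
      linarith
    · exact absurd h0.1 (by omega)
  have hmarq : rr s k + 30 ≤ (YY n s q k).re := h5 n s k q (J2 hq) hchq (by linarith)
    (fun i hi1 hi2 => (hFRq i hi1 hi2).le)
  have himq : (YY n s q k).im = α (k + 1) q := h10 n α s k J hα J1 J2 hchJ P J3 him q hq
  have h0 := hα.nf (k + 1) q (by omega) (J2 hq) (by linarith) (big h6 hchq) (Or.inl hNFq)
  obtain ⟨J', K1, K2, K3, ⟨S, hS, hS'⟩, K5⟩ := hHC s k q ⟨J2 hq, hchq, hmarq,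
    by rw [himq]; exact h0.1, by rw [himq]; exact h0.2, hNFq⟩
  refine ⟨J ∪ J', IsPreconnected.union q hq K3 J1 K1, union_subset J2 K2, Or.inl J3,
    ⟨S, Or.inr hS, hS'⟩, ?_⟩
  rintro L (hL | hL)
  · refine ⟨hchJ L hL, ?_⟩
    have b1 := hlow L hL
    have b2 := (hcomp L hL).1 k le_rfl
    rw [abs_le]
    constructor <;> nlinarith
  · refine ⟨(K5 L hL).1, ?_⟩
    have b1 := abs_le.mp (K5 L hL).2
    rw [abs_le]
    constructor <;> nlinarith [b1.1, b1.2]

end Pool.Agent.Modu
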