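import Pool.Agent.Modu.Targets

/-!
# MODU: BBL, boundary bumping
-/

set_option autoImplicit false

open Complex Filter Topology Set

namespace Pool.Agent.Modu

namespace BBL_

theorem main (h1 : T_SEPC) : T_BBL := by
  intro Y F c hYc hYp hF hcY hcF hYF
  have hX : IsCompact (Y ∩ F) := hYc.inter_right hF
  have hcX : c ∈ Y ∩ F := ⟨hcY, hcF⟩
  have hDs : connectedComponentIn (Y ∩ F) c ⊆ Y ∩ F := connectedComponentIn_subset _ _
  have hDc : IsCompact (connectedComponentIn (Y ∩ F) c) := by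
    have hcs : CompactSpace (Y ∩ F : Set ℂ) := isCompact_iff_compactSpace.1 hX
    rw [connectedComponentIn_eq_image hcX]
    exact isClosed_connectedComponent.isCompact.image continuous_subtype_val
  refine ⟨connectedComponentIn (Y ∩ F) c, hDc, isPreconnected_connectedComponentIn,
    fun x hx => (hDs hx).1, fun x hx => (hDs hx).2, mem_connectedComponentIn hcX, ?_⟩
  by_contra hcon
  push Not at hcon
  obtain ⟨K, hKX, hKc, hXK, hcK, hKU, _⟩ := h1.1 (Y ∩ F) (closure (Y \ F))ᶜ c hX hcX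
    isClosed_closure.isOpen_compl hcon
  have hpre := isPreconnected_closed_iff.1 hYp K (((Y ∩ F) \ K) ∪ closure (Y \ F)) hKc.isClosed
    (hXK.isClosed.union isClosed_closure)
    (by
      intro y hy
      by_cases hyF : y ∈ F
      · by_cases hyK : y ∈ K
        · exact Or.inl hyK
        · exact Or.inr (Or.inl ⟨⟨hy, hyF⟩, hyK⟩)
      · exact Or.inr (Or.inr (subset_closure ⟨hy, hyF⟩)))
    ⟨c, hcY, hcK⟩
    (by
      obtain ⟨y, hy, hyF⟩ := not_subset.1 hYF
      exact ⟨y, hy, Or.inr (subset_closure ⟨hy, hyF⟩)⟩)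
  obtain ⟨y, hy, hyK, hy2 | hy2⟩ := hpre
  · exact hy2.2 hyK
  · exact hKU hyK hy2

end BBL_

theorem p_BBL (h1 : T_SEPC) : T_BBL := BBL_.main h1

end Pool.Agent.Modu
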