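import Pool.Agent.Modu.Targets

/-!
# MODU: basic lemmas on charts
-/

set_option autoImplicit false

open Complex Filter Topology Set
open Pool.Agent.Multibrot Pool.Agent.Limb

namespace Pool.Agent.Modu

/-! ### truncation and congruence -/

lemma Ch.trunc {n : ℕ} {s : ℕ → ℤ} {k m : ℕ} {L : ℂ} (h : Ch n s k L) (hm : m ≤ k) :
    Ch n s m L := by
  refine ⟨h.hn, h.h0, fun i hi => h.hr i (by omega), fun i hi => h.hi i (by omega), ?_,
    fun i hi => h.hle i (by omega)⟩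
  rcases Nat.lt_or_ge m k with h1 | h1
  · exact (h.hi m h1).trans (by norm_num)
  · have h2 : m = k := by omega
    rw [h2]
    exact h.him

lemma YY_congr {n : ℕ} {s s' : ℕ → ℤ} {L : ℂ} {i : ℕ} (h : s' i = s i) :
    YY n s' L i = YY n s L i := by
  unfold YY
  rw [h]

lemma rr_congr {s s' : ℕ → ℤ} {k : ℕ} (h : ∀ i, i ≤ k → s' i = s i) : rr s' k = rr s k := by
  induction k with
  | zero => rfl
  | succ k ih =>
    have h1 := ih (fun i hi => h i (by omega))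
    have h2 := h (k + 1) le_rfl
    simp only [rr, h1, h2]

lemma Ch.congr {n : ℕ} {s s' : ℕ → ℤ} {k : ℕ} {L : ℂ} (h : Ch n s k L)
    (hs : ∀ i, i ≤ k → s' i = s i) : Ch n s' k L := by
  refine ⟨h.hn, ?_, fun i hi => ?_, fun i hi => ?_, ?_, fun i hi => ?_⟩
  · rw [hs 0 (by omega)]
    exact h.h0
  · rw [rr_congr (fun j hj => hs j (by omega)), YY_congr (hs i hi)]
    exact h.hr i hi
  · rw [YY_congr (hs i hi.le)]
    exact h.hi i hi
  · rw [YY_congr (hs k le_rfl)]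
    exact h.him
  · rw [YY_congr (hs i hi)]
    exact h.hle i hi

lemma XX_zero (n : ℕ) (L : ℂ) : XX n L 0 = 0 := by
  simp [XX, zz_zero]

lemma YY_zero (n : ℕ) (s : ℕ → ℤ) (L : ℂ) : YY n s L 0 = L - 2 * Real.pi * I * s 0 := by
  simp [YY, XX_zero]

lemma two_pi_int_re (m : ℤ) : (2 * (Real.pi : ℂ) * I * m).re = 0 := by
  simp

lemma two_pi_int_im (m : ℤ) : (2 * (Real.pi : ℂ) * I * m).im = 2 * Real.pi * m := by
  simp

lemma YY_re (n : ℕ) (s : ℕ → ℤ) (L : ℂ) (i : ℕ) : (YY n s L i).re = (XX n L i).re + L.re := by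
  unfold YY
  rw [sub_re, add_re, two_pi_int_re, sub_zero]

lemma YY_im (n : ℕ) (s : ℕ → ℤ) (L : ℂ) (i : ℕ) :
    (YY n s L i).im = (XX n L i).im + L.im - 2 * Real.pi * s i := by
  unfold YY
  rw [sub_im, add_im, two_pi_int_im]

lemma YY_zero_re (n : ℕ) (s : ℕ → ℤ) (L : ℂ) : (YY n s L 0).re = L.re := by
  rw [YY_re, XX_zero]
  simp

lemma YY_zero_im (n : ℕ) (s : ℕ → ℤ) (L : ℂ) :
    (YY n s L 0).im = L.im - 2 * Real.pi * s 0 := by
  rw [YY_im, XX_zero]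
  simp

lemma exp_YY (n : ℕ) (s : ℕ → ℤ) (L : ℂ) (i : ℕ) : exp (YY n s L i) = exp (XX n L i + L) := by
  unfold YY
  rw [exp_sub]
  have : exp (2 * (Real.pi : ℂ) * I * s i) = 1 := by
    have h := Complex.exp_int_mul_two_pi_mul_I (s i)
    rw [← h]
    congr 1
    ring
  rw [this, div_one]

lemma exp_XX {n : ℕ} (hn : 1 ≤ n) {L : ℂ} {i : ℕ} (hz : zz n L i ≠ -n) :
    exp (XX n L i / n) = 1 + zz n L i / n := by
  have hn0 : (n : ℂ) ≠ 0 := by exact_mod_cast (by omega : n ≠ 0)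
  have h1 : 1 + zz n L i / n ≠ 0 := by
    intro h
    apply hz
    field_simp at h
    linear_combination h
  unfold XX
  rw [mul_comm, mul_div_assoc, div_self hn0, mul_one, exp_log h1]

/-- `z_{i+1} = exp (X_i + L)`. -/
lemma zz_succ_eq {n : ℕ} (hn : 1 ≤ n) {L : ℂ} {i : ℕ} (hz : zz n L i ≠ -n) :
    zz n L (i + 1) = exp (XX n L i + L) := by
  have hn0 : (n : ℂ) ≠ 0 := by exact_mod_cast (by omega : n ≠ 0)
  rw [zz_succ, Limb.E, ← exp_XX hn hz, ← exp_nat_mul, mul_div_cancel₀ _ hn0, exp_add]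
  ring

lemma rr_ge (s : ℕ → ℤ) (k : ℕ) : (21 : ℝ) ≤ rr s k := by
  induction k with
  | zero => exact le_rfl
  | succ k ih =>
    have h1 : 4 * Real.exp (rr s k) ≤ rr s (k + 1) := le_max_left _ _
    have h2 := Real.add_one_le_exp (rr s k)
    linarith

lemma rr_succ_ge (s : ℕ → ℤ) (k : ℕ) : 4 * Real.exp (rr s k) ≤ rr s (k + 1) := le_max_left _ _

lemma rr_succ_ge' (s : ℕ → ℤ) (k : ℕ) :
    2 * Real.pi * |(s (k + 1) : ℝ)| ≤ 6000 * rr s (k + 1) := by
  have h : 2 * Real.pi * |(s (k + 1) : ℝ)| / 6000 ≤ rr s (k + 1) := le_max_right _ _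
  linarith

end Pool.Agent.Modu
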