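import Pool.Agent.Modu.Targets

/-!
# MODU: the inverse chart
-/

set_option autoImplicit false

open Complex Filter Topology Set
open Pool.Agent.Multibrot Pool.Agent.Limb

namespace Pool.Agent.Modu

namespace CHART_

lemma rr_ge (s : ℕ → ℤ) : ∀ k, (21 : ℝ) ≤ rr s k
  | 0 => le_refl _
  | k + 1 => by
      have h := rr_ge s k
      have h1 := Real.add_one_le_exp (rr s k)
      exact le_trans (by linarith) (le_max_left _ _)

lemma exp21 : (10 : ℝ) ^ 9 ≤ Real.exp 21 := by
  have h : Real.exp 21 = Real.exp 1 ^ 21 := by rw [← Real.exp_nat_mul]; norm_num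
  rw [h]
  have h1 : (2.718 : ℝ) ≤ Real.exp 1 := by
    have := Real.exp_one_gt_d9
    linarith
  calc (10 : ℝ) ^ 9 ≤ 2.718 ^ 21 := by norm_num
    _ ≤ _ := pow_le_pow_left₀ (by norm_num) h1 21

lemma rr_succ_ge (s : ℕ → ℤ) (k : ℕ) : 4 * Real.exp (rr s k) ≤ rr s (k + 1) := le_max_left _ _

lemma rr_succ_ge' (s : ℕ → ℤ) (k : ℕ) :
    2 * Real.pi * |(s (k + 1) : ℝ)| ≤ 6000 * rr s (k + 1) := by
  have : 2 * Real.pi * |(s (k + 1) : ℝ)| / 6000 ≤ rr s (k + 1) := le_max_right _ _
  linarith

lemma rr_succ_big (s : ℕ → ℤ) (k : ℕ) : 4 * (10 : ℝ) ^ 9 ≤ rr s (k + 1) := by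
  have h := rr_succ_ge s k
  have h1 := Real.exp_le_exp.2 (rr_ge s k)
  have h2 := exp21
  linarith

lemma lg_sq {n : ℕ} (hn : (10 : ℝ) ^ 20 ≤ n) :
    (Real.log (4 * n)) ^ 2 ≤ n / 10 ^ 16 ∧ 1 ≤ Real.log (4 * n) := by
  have hn0 : (0 : ℝ) < n := lt_of_lt_of_le (by norm_num) hn
  have he : (10 : ℝ) ^ 20 ≤ 4 * n := by linarith
  have hx1 : (1 : ℝ) ≤ Real.log (4 * n) := by
    rw [Real.le_log_iff_exp_le (by linarith)]
    have := Real.exp_one_lt_d9
    nlinarith
  refine ⟨?_, hx1⟩
  set u : ℝ := (4 * n) / (4 * 10 ^ 20) with hu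
  have hu1 : 1 ≤ u := by
    rw [hu, le_div_iff₀ (by norm_num)]
    linarith
  have hsu : 1 ≤ Real.sqrt u := by
    rw [Real.one_le_sqrt]; exact hu1
  have h4 : (4 * n : ℝ) = (4 * 10 ^ 20) * u := by
    rw [hu]; field_simp
  have hl1 : Real.log (4 * 10 ^ 20) ≤ 50 := by
    rw [Real.log_le_iff_le_exp (by norm_num)]
    have h : Real.exp 50 = Real.exp 1 ^ 50 := by rw [← Real.exp_nat_mul]; norm_num
    rw [h]
    have h1 : (2.7 : ℝ) ≤ Real.exp 1 := by
      have := Real.exp_one_gt_d9
      linarith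
    calc (4 * 10 ^ 20 : ℝ) ≤ 2.7 ^ 50 := by norm_num
      _ ≤ _ := pow_le_pow_left₀ (by norm_num) h1 50
  have hl2 : Real.log u ≤ 2 * Real.sqrt u := by
    have h5 : u = Real.sqrt u ^ 2 := (Real.sq_sqrt (by linarith)).symm
    have h6 : Real.log u = 2 * Real.log (Real.sqrt u) := by
      conv_lhs => rw [h5]
      rw [Real.log_pow]; norm_num
    rw [h6]
    have := Real.log_le_sub_one_of_pos (show (0 : ℝ) < Real.sqrt u by linarith)
    linarith
  have hl : Real.log (4 * n) ≤ 100 * Real.sqrt u := by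
    rw [h4, Real.log_mul (by norm_num) (by linarith)]
    linarith
  calc (Real.log (4 * n)) ^ 2 ≤ (100 * Real.sqrt u) ^ 2 :=
        pow_le_pow_left₀ (by linarith) hl 2
    _ = 10 ^ 4 * u := by
        rw [mul_pow, Real.sq_sqrt (by linarith)]; norm_num
    _ = n / 10 ^ 16 := by
        rw [hu]; field_simp

lemma zx {n : ℕ} (hn : (10 : ℝ) ^ 20 ≤ n) {X : ℂ} (hX : ‖X‖ ≤ 7001 * Real.log (4 * n)) :
    ‖(n : ℂ) * (exp (X / n) - 1) - X‖ ≤ 1 / 10 ^ 8 ∧ ‖X / n‖ ≤ 1 / 10 ^ 6 := by
  have hn0 : (0 : ℝ) < n := lt_of_lt_of_le (by norm_num) hn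
  have hnc : (n : ℂ) ≠ 0 := by
    intro h; rw [Nat.cast_eq_zero] at h; rw [h] at hn0; simp at hn0
  obtain ⟨h1, h2⟩ := lg_sq hn
  have hX0 := norm_nonneg X
  have hsmall : ‖X / n‖ ≤ 1 / 10 ^ 6 := by
    rw [norm_div, Complex.norm_natCast, div_le_div_iff₀ hn0 (by norm_num)]
    have : Real.log (4 * n) ≤ n / 10 ^ 16 := by nlinarith
    nlinarith
  refine ⟨?_, hsmall⟩
  have h3 : (n : ℂ) * (exp (X / n) - 1) - X = n * (exp (X / n) - 1 - X / n) := by
    field_simp
  rw [h3, norm_mul, Complex.norm_natCast]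
  have h4 := Complex.norm_exp_sub_one_sub_id_le (x := X / n) (by
    refine hsmall.trans (by norm_num))
  calc (n : ℝ) * ‖exp (X / n) - 1 - X / n‖ ≤ n * ‖X / n‖ ^ 2 :=
        mul_le_mul_of_nonneg_left h4 hn0.le
    _ = ‖X‖ ^ 2 / n := by
        rw [norm_div, Complex.norm_natCast]; field_simp
    _ ≤ (7001 * Real.log (4 * n)) ^ 2 / n := by
        apply div_le_div_of_nonneg_right _ hn0.le
        exact pow_le_pow_left₀ hX0 hX 2
    _ ≤ (7001 ^ 2 * (n / 10 ^ 16)) / n := by
        apply div_le_div_of_nonneg_right _ hn0.le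
        rw [mul_pow]
        exact mul_le_mul_of_nonneg_left h1 (by norm_num)
    _ = 7001 ^ 2 / 10 ^ 16 := by field_simp
    _ ≤ 1 / 10 ^ 8 := by norm_num

/-- The convex set on which the logarithm is a contraction. -/
def CC (n : ℕ) : Set ℂ := {X : ℂ | 3900000000 ≤ X.re ∧ ‖X‖ ≤ 7001 * Real.log (4 * n)}

lemma convex_CC (n : ℕ) : Convex ℝ (CC n) := by
  have h1 : Convex ℝ {X : ℂ | 3900000000 ≤ X.re} := convex_halfSpace_re_ge _
  have h2 : Convex ℝ {X : ℂ | ‖X‖ ≤ 7001 * Real.log (4 * n)} := by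
    have := convex_closedBall (0 : ℂ) (7001 * Real.log (4 * n))
    simpa [Metric.closedBall, dist_zero_right] using this
  exact h1.inter h2

lemma zpos {n : ℕ} (hn : (10 : ℝ) ^ 20 ≤ n) {X : ℂ} (hX : X ∈ CC n) :
    3800000000 ≤ ((n : ℂ) * (exp (X / n) - 1)).re := by
  have h := (zx hn hX.2).1
  have h1 := Complex.abs_re_le_norm ((n : ℂ) * (exp (X / n) - 1) - X)
  rw [Complex.sub_re] at h1
  have h2 := (abs_le.1 (h1.trans h)).1
  have h3 := hX.1
  have h4 : (1 : ℝ) / 10 ^ 8 ≤ 1 := by norm_num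
  linarith

lemma glip {n : ℕ} (hn : (10 : ℝ) ^ 20 ≤ n) {X X' : ℂ} (hX : X ∈ CC n) (hX' : X' ∈ CC n) :
    ‖log ((n : ℂ) * (exp (X / n) - 1)) - log ((n : ℂ) * (exp (X' / n) - 1))‖ ≤
      1 / 10 ^ 9 * ‖X - X'‖ := by
  have hn0 : (0 : ℝ) < n := lt_of_lt_of_le (by norm_num) hn
  have hnc : (n : ℂ) ≠ 0 := by
    intro h; rw [Nat.cast_eq_zero] at h; rw [h] at hn0; simp at hn0
  refine (convex_CC n).norm_image_sub_le_of_norm_hasDerivWithin_le
    (f := fun X : ℂ => log ((n : ℂ) * (exp (X / n) - 1)))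
    (f' := fun X : ℂ => exp (X / n) / ((n : ℂ) * (exp (X / n) - 1))) (C := 1 / 10 ^ 9)
    ?_ ?_ hX' hX
  · intro x hx
    have hp := zpos hn hx
    have hs : (n : ℂ) * (exp (x / n) - 1) ∈ slitPlane := by
      left; linarith
    have h1 : HasDerivAt (fun X : ℂ => (n : ℂ) * (exp (X / n) - 1)) (exp (x / n)) x := by
      have h2 : HasDerivAt (fun X : ℂ => exp (X / n)) (exp (x / n) * (1 / n)) x :=
        ((hasDerivAt_id x).div_const (n : ℂ)).cexp
      have h3 := (h2.sub_const 1).const_mul (n : ℂ)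
      have h4 : (n : ℂ) * (exp (x / n) * (1 / n)) = exp (x / n) := by field_simp
      rw [h4] at h3
      exact h3
    exact (h1.clog hs).hasDerivWithinAt
  · intro x hx
    have hp := zpos hn hx
    rw [norm_div, div_le_iff₀ (by
      have := Complex.abs_re_le_norm ((n : ℂ) * (exp (x / n) - 1))
      have := le_abs_self ((n : ℂ) * (exp (x / n) - 1)).re
      linarith)]
    have h1 := Complex.abs_re_le_norm ((n : ℂ) * (exp (x / n) - 1))
    have h2 := le_abs_self ((n : ℂ) * (exp (x / n) - 1)).re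
    have h3 : ‖exp (x / n)‖ ≤ 3 := by
      rw [Complex.norm_exp]
      have h4 := (zx hn hx.2).2
      have h5 : (x / n).re ≤ 1 := (Complex.re_le_norm _).trans (h4.trans (by norm_num))
      have h6 := Real.exp_one_lt_d9
      have h7 := Real.exp_le_exp.2 h5
      linarith
    nlinarith

lemma trunc {n : ℕ} {s : ℕ → ℤ} {k : ℕ} {L : ℂ} (h : Ch n s (k + 1) L) : Ch n s k L where
  hn := h.hn
  h0 := h.h0
  hr := fun i hi => h.hr i (by omega)
  hi := fun i hi => h.hi i (by omega)
  him := (h.hi k (by omega)).trans (by norm_num)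
  hle := fun i hi => h.hle i (by omega)

lemma XX_zero (n : ℕ) (L : ℂ) : XX n L 0 = 0 := by
  simp [XX, zz_zero]

lemma YY_zero (n : ℕ) (s : ℕ → ℤ) (L : ℂ) : YY n s L 0 = L - 2 * Real.pi * I * s 0 := by
  simp [YY, XX_zero]

/-- The formula for the point in terms of `X`. -/
lemma zz_eq {n : ℕ} (hn : (10 : ℝ) ^ 20 ≤ n) {L : ℂ} {i : ℕ} (h : 1 + zz n L i / n ≠ 0) :
    zz n L i = (n : ℂ) * (exp (XX n L i / n) - 1) := by
  have hn0 : (0 : ℝ) < n := lt_of_lt_of_le (by norm_num) hn
  have hnc : (n : ℂ) ≠ 0 := by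
    intro h; rw [Nat.cast_eq_zero] at h; rw [h] at hn0; simp at hn0
  have h1 : XX n L i / n = log (1 + zz n L i / n) := by
    rw [XX]; field_simp
  rw [h1, exp_log h]
  field_simp
  ring

lemma zre (hP : T_CHP) {n : ℕ} {s : ℕ → ℤ} {k : ℕ} {L : ℂ} (h : Ch n s (k + 1) L) :
    0 ≤ (zz n L (k + 1)).re ∧ XX n L (k + 1) ∈ CC n := by
  obtain ⟨-, -, -, -, -, -, h7, -, -⟩ := hP n s (k + 1) L h
  obtain ⟨a1, a2, a3, a4, a5⟩ := h7 (k + 1) (by omega) le_rfl
  have h8 := h.hr (k + 1) le_rfl
  have h9 := rr_succ_big s k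
  have hXre : 3900000000 ≤ (XX n L (k + 1)).re := by
    norm_num at h9; linarith
  have hl := (lg_sq h.hn).2
  refine ⟨?_, hXre, by linarith⟩
  have h1 := Complex.abs_re_le_norm (zz n L (k + 1) - XX n L (k + 1))
  rw [Complex.sub_re] at h1
  have h2 := (abs_le.1 (h1.trans a5)).1
  have h3 : (1 : ℝ) / 10 ^ 6 ≤ 1 := by norm_num
  linarith

lemma uniq (hP : T_CHP) {n : ℕ} {s : ℕ → ℤ} : ∀ (k : ℕ) {L L' : ℂ}, Ch n s k L → Ch n s k L' →
    ‖L - L'‖ ≤ (1 / 10 ^ 8) ^ k * ‖YY n s L k - YY n s L' k‖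
  | 0, L, L', _, _ => by
      rw [YY_zero, YY_zero]
      simp
  | k + 1, L, L', h, h' => by
      have ih := uniq hP k (trunc h) (trunc h')
      obtain ⟨hz, hX⟩ := zre hP h
      obtain ⟨hz', hX'⟩ := zre hP h'
      have e1 := zz_eq h.hn (one_add_ne (n := n) hz)
      have e1' := zz_eq h.hn (one_add_ne (n := n) hz')
      obtain ⟨-, -, -, h4, -⟩ := hP n s (k + 1) L h
      obtain ⟨-, -, -, h4', -⟩ := hP n s (k + 1) L' h'
      have e2 := (h4 k (by omega)).1
      have e2' := (h4' k (by omega)).1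
      have g := glip h.hn hX hX'
      rw [← e1, ← e1', ← e2, ← e2'] at g
      have e3 : XX n L (k + 1) - XX n L' (k + 1) =
          (YY n s L (k + 1) - YY n s L' (k + 1)) - (L - L') := by
        simp only [YY]; ring
      have g2 : ‖XX n L (k + 1) - XX n L' (k + 1)‖ ≤
          ‖YY n s L (k + 1) - YY n s L' (k + 1)‖ + ‖L - L'‖ := by
        rw [e3]; exact norm_sub_le _ _
      set D := ‖L - L'‖
      set Y := ‖YY n s L (k + 1) - YY n s L' (k + 1)‖
      set q : ℝ := (1 / 10 ^ 8) ^ k with hq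
      have hq0 : 0 ≤ q := by positivity
      have hq1 : q ≤ 1 := pow_le_one₀ (by norm_num) (by norm_num)
      have hD : 0 ≤ D := norm_nonneg _
      have hY : 0 ≤ Y := norm_nonneg _
      have h5 : D ≤ q * (1 / 10 ^ 9 * (Y + D)) :=
        ih.trans (mul_le_mul_of_nonneg_left
          (g.trans (mul_le_mul_of_nonneg_left g2 (by norm_num))) hq0)
      have h6 : q * D ≤ D := by nlinarith
      rw [pow_succ, ← hq]
      have h7 : 0 ≤ q * Y := mul_nonneg hq0 hY
      nlinarith

lemma re_YY_le (hP : T_CHP) {n : ℕ} {s : ℕ → ℤ} {k : ℕ} {L : ℂ} (h : Ch n s k L) :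
    ∀ i, i ≤ k → (YY n s L 0).re ≤ (YY n s L i).re
  | 0, _ => le_rfl
  | i + 1, hi => by
      have ih := re_YY_le hP h i (by omega)
      obtain ⟨-, -, -, -, h5, -⟩ := hP n s k L h
      have h6 := (h5 i (by omega)).2
      have h7 := h.hr i (by omega)
      have h8 := rr_ge s i
      linarith

/-- The domain of the inverse chart. -/
def RR (n : ℕ) (s : ℕ → ℤ) (k : ℕ) : Set ℂ :=
  {y : ℂ | rr s k ≤ y.re ∧ y.re ≤ Real.log (4 * n) ∧ |y.im| ≤ 10}

lemma Ch.memRR {n : ℕ} {s : ℕ → ℤ} {k : ℕ} {L : ℂ} (h : Ch n s k L) : YY n s L k ∈ RR n s k :=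
  ⟨h.hr k le_rfl, h.hle k le_rfl, h.him⟩

lemma ex (hP : T_CHP) {n : ℕ} {s : ℕ → ℤ} (hn : (10 : ℝ) ^ 20 ≤ n) (h0 : |(s 0 : ℝ)| ≤ 1) :
    ∀ (k : ℕ), ∀ y ∈ RR n s k, ∃ L : ℂ, Ch n s k L ∧ YY n s L k = y
  | 0, y, hy => by
      have e : YY n s (y + 2 * Real.pi * I * s 0) 0 = y := by rw [YY_zero]; ring
      refine ⟨y + 2 * Real.pi * I * s 0, ⟨hn, h0, ?_, ?_, ?_, ?_⟩, e⟩
      · intro i hi
        obtain rfl : i = 0 := by omega
        rw [e]; exact hy.1
      · intro i hi; omega
      · rw [e]; exact hy.2.2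
      · intro i hi
        obtain rfl : i = 0 := by omega
        rw [e]; exact hy.2.1
  | k + 1, y, hy => by
      have hn0 : (0 : ℝ) < n := lt_of_lt_of_le (by norm_num) hn
      have hnc : (n : ℂ) ≠ 0 := by
        intro h; rw [Nat.cast_eq_zero] at h; rw [h] at hn0; simp at hn0
      have ih := ex hP hn h0 k
      choose! Φ hΦ using ih
      obtain ⟨hy1, hy2, hy3⟩ := hy
      have hbig := rr_succ_big s k
      have hyb : 4000000000 ≤ y.re := by norm_num at hbig; linarith
      have hsb := rr_succ_ge' s k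
      have hre := rr_succ_ge s k
      have hlg := lg_sq hn
      set c : ℂ := 2 * Real.pi * I * s (k + 1) with hc
      have hcn : ‖c‖ ≤ 6000 * y.re := by
        rw [hc]
        simp only [norm_mul, Complex.norm_I, Complex.norm_real, Complex.norm_ofNat, mul_one,
          Complex.norm_intCast, Real.norm_eq_abs, abs_of_pos Real.pi_pos]
        linarith
      have hcre : c.re = 0 := by
        rw [hc]; simp
      -- the rectangle
      set Q : Set ℂ := {L : ℂ | 21 ≤ L.re ∧ L.re ≤ y.re / 100 ∧ |L.im| ≤ 20} with hQ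
      have hX : ∀ L ∈ Q, y - L + c ∈ CC n ∧ 99 / 100 * y.re ≤ (y - L + c).re ∧
          ‖y - L + c‖ ≤ 6002 * y.re - 1 := by
        intro L hL
        have h1 : (y - L + c).re = y.re - L.re := by
          rw [Complex.add_re, Complex.sub_re, hcre, add_zero]
        have h2 : ‖y - L‖ ≤ y.re + 30 := by
          refine (Complex.norm_le_abs_re_add_abs_im _).trans ?_
          rw [Complex.sub_re, Complex.sub_im]
          have h3 : |y.re - L.re| ≤ y.re := by
            rw [abs_le]; constructor <;> linarith [hL.1, hL.2.1]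
          have h4 : |y.im - L.im| ≤ 30 := by
            refine (abs_sub _ _).trans ?_
            linarith [hL.2.2]
          linarith
        have h5 : ‖y - L + c‖ ≤ 6002 * y.re - 1 := by
          refine (norm_add_le _ _).trans ?_
          linarith
        refine ⟨⟨?_, ?_⟩, ?_, h5⟩
        · rw [h1]; linarith [hL.2.1]
        · linarith
        · rw [h1]; linarith [hL.2.1]
      have hW : ∀ L ∈ Q, log ((n : ℂ) * (exp ((y - L + c) / n) - 1)) ∈ RR n s k ∧
          (log ((n : ℂ) * (exp ((y - L + c) / n) - 1))).re ≤ y.re / 100 ∧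
          |(log ((n : ℂ) * (exp ((y - L + c) / n) - 1))).im| ≤ 2 := by
        intro L hL
        obtain ⟨h1, h2, h3⟩ := hX L hL
        set X := y - L + c
        set z := (n : ℂ) * (exp (X / n) - 1) with hz
        have h4 := (zx hn h1.2).1
        have hzre := zpos hn h1
        have h5 : X.re - 1 ≤ z.re := by
          have h6 := Complex.abs_re_le_norm (z - X)
          rw [Complex.sub_re] at h6
          have h7 := (abs_le.1 (h6.trans h4)).1
          have h8 : (1 : ℝ) / 10 ^ 8 ≤ 1 := by norm_num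
          linarith
        have h6 : ‖z‖ ≤ 6002 * y.re := by
          have : ‖z‖ ≤ ‖z - X‖ + ‖X‖ := by
            have := norm_add_le (z - X) X
            simpa using this
          have h8 : (1 : ℝ) / 10 ^ 8 ≤ 1 := by norm_num
          linarith
        have h7 : z.re ≤ ‖z‖ := Complex.re_le_norm z
        have hzn : 0 < ‖z‖ := by linarith
        have h8 : Real.exp (rr s k) ≤ ‖z‖ := by linarith
        have h9 : (log z).re = Real.log ‖z‖ := Complex.log_re z
        have h10 : rr s k ≤ (log z).re := by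
          rw [h9, Real.le_log_iff_exp_le hzn]; exact h8
        have h11 : (log z).re ≤ y.re / 100 := by
          rw [h9, Real.log_le_iff_le_exp hzn]
          refine h6.trans ?_
          have := Real.quadratic_le_exp_of_nonneg (show (0 : ℝ) ≤ y.re / 100 by linarith)
          nlinarith
        have h12 : |(log z).im| ≤ 2 := by
          rw [Complex.log_im]
          have h13 := (Complex.abs_arg_le_pi_div_two_iff).2 (show 0 ≤ z.re by linarith)
          have := Real.pi_lt_d2
          linarith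
        exact ⟨⟨h10, by linarith, by linarith⟩, h11, h12⟩
      set G : ℂ → ℂ := fun L => Φ (log ((n : ℂ) * (exp ((y - L + c) / n) - 1))) with hG
      have hmaps : MapsTo G Q Q := by
        intro L hL
        obtain ⟨h1, h2, h3⟩ := hW L hL
        obtain ⟨h4, h5⟩ := hΦ _ h1
        have h6 := re_YY_le hP h4 k le_rfl
        rw [h5] at h6
        have h7 := h4.hr 0 (by omega)
        have h8 : (YY n s (G L) 0).re = (G L).re := by
          rw [YY_zero]; simp
        have h9 : (YY n s (G L) 0).im = (G L).im - 2 * Real.pi * s 0 := by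
          rw [YY_zero]; simp
        have h10 : |(YY n s (G L) 0).im| ≤ 10 := by
          rcases Nat.eq_zero_or_pos k with hk | hk
          · have := h4.him
            rw [hk] at this
            exact this
          · exact (h4.hi 0 hk).trans (by norm_num)
        have h11 : |(2 * Real.pi * (s 0 : ℝ))| ≤ 10 := by
          rw [abs_mul, abs_of_pos (by positivity : (0 : ℝ) < 2 * Real.pi)]
          have := Real.pi_lt_d2
          have := Real.pi_pos
          have h12 := abs_nonneg (s 0 : ℝ)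
          nlinarith
        refine ⟨?_, ?_, ?_⟩
        · rw [← h8]; exact h7
        · rw [← h8]; linarith
        · have h13 : (G L).im = (YY n s (G L) 0).im + 2 * Real.pi * s 0 := by rw [h9]; ring
          rw [h13]
          exact (abs_add_le _ _).trans (by linarith)
      have hcontr : ∀ L ∈ Q, ∀ L' ∈ Q, ‖G L - G L'‖ ≤ 1 / 2 * ‖L - L'‖ := by
        intro L hL L' hL'
        obtain ⟨h1, -⟩ := hW L hL
        obtain ⟨h1', -⟩ := hW L' hL'
        obtain ⟨h4, h5⟩ := hΦ _ h1
        obtain ⟨h4', h5'⟩ := hΦ _ h1'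
        have h6 := uniq hP k h4 h4'
        rw [h5, h5'] at h6
        have h7 := glip hn (hX L hL).1 (hX L' hL').1
        have e : (y - L + c) - (y - L' + c) = -(L - L') := by ring
        rw [e, norm_neg] at h7
        have hq1 : ((1 : ℝ) / 10 ^ 8) ^ k ≤ 1 := pow_le_one₀ (by norm_num) (by norm_num)
        have hq0 : (0 : ℝ) ≤ (1 / 10 ^ 8) ^ k := by positivity
        refine h6.trans ?_
        have h8 := norm_nonneg (L - L')
        have h9 := norm_nonneg (log ((n : ℂ) * (exp ((y - L + c) / n) - 1)) -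
          log ((n : ℂ) * (exp ((y - L' + c) / n) - 1)))
        nlinarith
      have hQc : IsComplete Q := by
        apply IsClosed.isComplete
        apply IsClosed.inter (isClosed_le continuous_const Complex.continuous_re)
        exact IsClosed.inter (isClosed_le Complex.continuous_re continuous_const)
          (isClosed_le (continuous_abs.comp Complex.continuous_im) continuous_const)
      have hx0 : (21 : ℂ) ∈ Q := by
        refine ⟨by simp, ?_, by simp⟩
        have : (21 : ℂ).re = 21 := by simp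
        rw [this]; linarith
      have hcw : ContractingWith (1 / 2) (hmaps.restrict G Q Q) := by
        refine ⟨by norm_num, LipschitzWith.of_dist_le_mul ?_⟩
        rintro ⟨a, ha⟩ ⟨b, hb⟩
        rw [Subtype.dist_eq, Subtype.dist_eq, dist_eq_norm, dist_eq_norm]
        have := hcontr a ha b hb
        simpa using this
      obtain ⟨L, hLQ, hLfix, -⟩ := ContractingWith.exists_fixedPoint' hQc hmaps hcw hx0
        (edist_ne_top _ _)
      have hfix : G L = L := hLfix
      obtain ⟨h1, h2, h3⟩ := hW L hLQ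
      obtain ⟨hXL, -, -⟩ := hX L hLQ
      obtain ⟨h4, h5⟩ := hΦ _ h1
      have hGL : Φ (log ((n : ℂ) * (exp ((y - L + c) / n) - 1))) = L := hfix
      rw [hGL] at h4 h5
      have hzre := zpos hn hXL
      have hzne : (n : ℂ) * (exp ((y - L + c) / n) - 1) ≠ 0 := by
        intro h; rw [h] at hzre; norm_num at hzre
      obtain ⟨-, h6, -⟩ := hP n s k L h4
      have h7 := h6 k le_rfl
      rw [h5, exp_log hzne] at h7
      have h8 : 1 + zz n L (k + 1) / n = exp ((y - L + c) / n) := by
        rw [← h7]; field_simp; ring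
      have h9 : XX n L (k + 1) = y - L + c := by
        rw [XX, h8, log_exp]
        · field_simp
        · have := (zx hn hXL.2).2
          have h10 := (abs_le.1 (Complex.abs_im_le_norm ((y - L + c) / n))).1
          have := Real.pi_gt_three
          have : (1 : ℝ) / 10 ^ 6 ≤ 1 := by norm_num
          linarith
        · have := (zx hn hXL.2).2
          have h10 := (abs_le.1 (Complex.abs_im_le_norm ((y - L + c) / n))).2
          have := Real.pi_gt_three
          have : (1 : ℝ) / 10 ^ 6 ≤ 1 := by norm_num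
          linarith
      have h10 : YY n s L (k + 1) = y := by
        rw [YY, h9, hc]; ring
      refine ⟨L, ⟨hn, h0, ?_, ?_, ?_, ?_⟩, h10⟩
      · intro i hi
        rcases Nat.lt_or_ge k i with h | h
        · obtain rfl : i = k + 1 := by omega
          rw [h10]; exact hy1
        · exact h4.hr i h
      · intro i hi
        rcases Nat.lt_or_ge i k with h | h
        · exact h4.hi i h
        · obtain rfl : i = k := by omega
          rw [h5]; exact h3
      · rw [h10]; exact hy3
      · intro i hi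
        rcases Nat.lt_or_ge k i with h | h
        · obtain rfl : i = k + 1 := by omega
          rw [h10]; exact hy2
        · exact h4.hle i h

lemma diff_zz (n : ℕ) : ∀ (i : ℕ), Differentiable ℂ (fun L => zz n L i)
  | 0 => by
      simp only [zz_zero]
      exact differentiable_const _
  | i + 1 => by
      have ih := diff_zz n i
      have : (fun L => zz n L (i + 1)) = fun L => exp L * (1 + zz n L i / n) ^ n := by
        funext L; rw [zz_succ]; rfl
      rw [this]
      exact Complex.differentiable_exp.mul (((differentiable_const _).add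
        (ih.div_const _)).pow n)

lemma diff_YY (hP : T_CHP) {n : ℕ} {s : ℕ → ℤ} {k : ℕ} {L : ℂ} (h : Ch n s k L) :
    DifferentiableAt ℂ (fun L => YY n s L k) L := by
  have hsl : 1 + zz n L k / n ∈ slitPlane := by
    rcases Nat.eq_zero_or_pos k with hk | hk
    · rw [hk, zz_zero]; simp
    · obtain ⟨j, rfl⟩ : ∃ j, k = j + 1 := ⟨k - 1, by omega⟩
      left
      have := one_add_re (n := n) (zre hP h).1
      linarith
  have h1 : DifferentiableAt ℂ (fun L => XX n L k) L := by
    unfold XX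
    exact ((((diff_zz n k) L).div_const _).const_add 1 |>.clog hsl).const_mul _
  unfold YY
  exact (h1.add differentiableAt_id).sub_const _

end CHART_

open CHART_ in
theorem p_CHART (h1 : T_CHP) : T_CHART := by
  intro n s k hn h0
  have hex := ex h1 hn h0 k
  choose! Φ hΦ using hex
  have hlip : ∀ y y' : ℂ, y ∈ RR n s k → y' ∈ RR n s k →
      ‖Φ y - Φ y'‖ ≤ (1 / 10 ^ 8) ^ k * ‖y - y'‖ := by
    intro y y' hy hy'
    have h := uniq h1 k (hΦ y hy).1 (hΦ y' hy').1
    rwa [(hΦ y hy).2, (hΦ y' hy').2] at h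
  refine ⟨Φ, fun y a b c => hΦ y ⟨a, b, c⟩, ?_, fun y y' a b c a' b' c' =>
    hlip y y' ⟨a, b, c⟩ ⟨a', b', c'⟩, ?_⟩
  · intro L hL
    have hm := Ch.memRR hL
    have h := uniq h1 k (hΦ _ hm).1 hL
    rw [(hΦ _ hm).2] at h
    simp only [sub_self, norm_zero, mul_zero] at h
    exact sub_eq_zero.1 (norm_eq_zero.1 (le_antisymm h (norm_nonneg _)))
  · intro y a b c
    have hy : y ∈ RR n s k := ⟨a.le, b.le, c.le⟩
    have hnhds : ∀ᶠ y' in 𝓝 y, y' ∈ RR n s k := by
      have e1 : ∀ᶠ y' : ℂ in 𝓝 y, rr s k < y'.re :=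
        Complex.continuous_re.continuousAt.eventually (lt_mem_nhds a)
      have e2 : ∀ᶠ y' : ℂ in 𝓝 y, y'.re < Real.log (4 * n) :=
        Complex.continuous_re.continuousAt.eventually (gt_mem_nhds b)
      have e3 : ∀ᶠ y' : ℂ in 𝓝 y, |y'.im| < 10 :=
        (continuous_abs.comp Complex.continuous_im).continuousAt.eventually (gt_mem_nhds c)
      filter_upwards [e1, e2, e3] with y' f1 f2 f3
      exact ⟨f1.le, f2.le, f3.le⟩
    have hO : (fun y' => Φ y' - Φ y) =O[𝓝 y] fun y' => y' - y := by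
      refine Asymptotics.IsBigO.of_bound ((1 / 10 ^ 8) ^ k) ?_
      filter_upwards [hnhds] with y' hy'
      exact hlip y' y hy' hy
    have hcont : ContinuousAt Φ y := by
      have h2 : Tendsto (fun y' => Φ y' - Φ y) (𝓝 y) (𝓝 0) := by
        refine hO.trans_tendsto ?_
        have : Tendsto (fun y' : ℂ => y' - y) (𝓝 y) (𝓝 (y - y)) :=
          (continuous_id.sub continuous_const).tendsto y
        rwa [sub_self] at this
      have h3 := h2.add_const (Φ y)
      simpa [ContinuousAt] using h3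
    have hL := (hΦ y hy).1
    have hd := diff_YY h1 hL
    have hfg : ∀ᶠ y' in 𝓝 y, YY n s (Φ y') k = y' := by
      filter_upwards [hnhds] with y' hy'
      exact (hΦ y' hy').2
    have hne : deriv (fun L => YY n s L k) (Φ y) ≠ 0 := by
      intro h0'
      have h2 := hd.hasDerivAt
      rw [h0'] at h2
      have h3 := h2.isLittleO
      have h4 := h3.comp_tendsto hcont
      have h5 : (fun y' : ℂ => y' - y) =o[𝓝 y] fun y' => Φ y' - Φ y := by
        refine h4.congr' ?_ ?_
        · filter_upwards [hfg] with y' hy'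
          simp only [Function.comp, hy', (hΦ y hy).2]
          simp
        · exact Eventually.of_forall fun y' => rfl
      have h6 := h5.trans_isBigO hO
      refine Asymptotics.isLittleO_irrefl ?_ h6
      have h7 : ∃ᶠ y' in 𝓝[≠] y, y' - y ≠ 0 := by
        refine Eventually.frequently ?_
        filter_upwards [self_mem_nhdsWithin] with y' hy'
        exact sub_ne_zero.2 hy'
      exact h7.filter_mono nhdsWithin_le_nhds
    exact (HasDerivAt.of_local_left_inverse hcont hd.hasDerivAt hne hfg).differentiableAt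

end Pool.Agent.Modu
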