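import Pool.Agent.Modu.Targets

/-!
# CHCL: chart domains are compact
-/

set_option autoImplicit false

open Complex Filter Topology Set
open Pool.Agent.Multibrot Pool.Agent.Limb

namespace Pool.Agent.Modu

namespace CHCL_

theorem cont_zz (n k : ℕ) : Continuous (fun L : ℂ => zz n L k) := by
  induction k with
  | zero => exact continuous_const
  | succ k ih =>
    have : (fun L : ℂ => zz n L (k + 1)) = fun L => exp L * (1 + zz n L k / n) ^ n := by
      funext L
      rw [zz_succ, Limb.E]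
    rw [this]
    fun_prop

theorem rr_ge (s : ℕ → ℤ) (k : ℕ) : (21 : ℝ) ≤ rr s k := by
  induction k with
  | zero => exact le_rfl
  | succ k ih =>
    have h1 : 4 * Real.exp (rr s k) ≤ rr s (k + 1) := le_max_left _ _
    have h2 := Real.add_one_le_exp (rr s k)
    linarith

/-- The argument of the logarithm is in the slit plane. -/
theorem slit (hC : T_CHP) {n : ℕ} {s : ℕ → ℤ} {k : ℕ} {L : ℂ} (h : Ch n s k L) {i : ℕ}
    (hi : i ≤ k) : 1 + zz n L i / n ∈ slitPlane := by
  have hn : (0 : ℝ) < n := lt_of_lt_of_le (by norm_num) h.hn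
  refine Or.inl ?_
  have e : (1 + zz n L i / n).re = 1 + (zz n L i).re / n := by
    rw [add_re, one_re]
    congr 1
    rw [← ofReal_natCast, div_ofReal_re]
  rw [e]
  have h1 : 0 ≤ (zz n L i).re := by
    rcases Nat.eq_zero_or_pos i with h0 | h0
    · subst h0
      rw [zz_zero]
      simp
    · obtain ⟨-, -, -, -, -, -, hx, -, -⟩ := hC n s k L h
      obtain ⟨a1, -, -, -, a5⟩ := hx i h0 hi
      have h2 := h.hr i hi
      have h3 := rr_ge s i
      have h4 : |(zz n L i - XX n L i).re| ≤ 1 / 10 ^ 6 := (abs_re_le_norm _).trans a5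
      rw [sub_re] at h4
      have h5 := (abs_le.1 h4).1
      have h6 : (1 : ℝ) / 10 ^ 6 ≤ 1 := by norm_num
      linarith
  have h2 : 0 ≤ (zz n L i).re / n := div_nonneg h1 hn.le
  linarith

theorem contX (hC : T_CHP) {n : ℕ} {s : ℕ → ℤ} {k : ℕ} {L : ℂ} (h : Ch n s k L) {i : ℕ}
    (hi : i ≤ k) : ContinuousAt (fun L => XX n L i) L := by
  have h1 := (cont_zz n i).continuousAt (x := L)
  unfold XX
  have h2 : ContinuousAt (fun L : ℂ => 1 + zz n L i / n) L := by fun_prop
  exact continuousAt_const.mul (h2.clog (slit hC h hi))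

theorem contY (hC : T_CHP) {n : ℕ} {s : ℕ → ℤ} {k : ℕ} {L : ℂ} (h : Ch n s k L) {i : ℕ}
    (hi : i ≤ k) : ContinuousAt (fun L => YY n s L i) L := by
  unfold YY
  exact ((contX hC h hi).add continuousAt_id).sub continuousAt_const

/-- The rectangle. -/
def RK (n : ℕ) (s : ℕ → ℤ) (k : ℕ) : Set ℂ :=
  {y : ℂ | rr s k ≤ y.re ∧ y.re ≤ Real.log (4 * n) ∧ |y.im| ≤ 10}

theorem RK_compact (n : ℕ) (s : ℕ → ℤ) (k : ℕ) : IsCompact (RK n s k) := by
  have e : RK n s k = Icc (rr s k) (Real.log (4 * n)) ×ℂ Icc (-10) 10 := by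
    ext y
    simp only [RK, mem_ofPred_eq, mem_reProdIm, mem_Icc, abs_le]
    tauto
  rw [e]
  exact isCompact_Icc.reProdIm isCompact_Icc

end CHCL_

open CHCL_

theorem p_CHCL (h1 : T_CHART) (h2 : T_CHP) : T_CHCL := by
  intro n s k
  refine ⟨?_, fun i hi => ⟨fun L hL => (contY h2 hL hi).continuousWithinAt,
    fun L hL => (contX h2 hL hi).continuousWithinAt⟩⟩
  by_cases hh : (10 : ℝ) ^ 20 ≤ n ∧ |(s 0 : ℝ)| ≤ 1
  · obtain ⟨Φ, a1, a2, a3, -⟩ := h1 n s k hh.1 hh.2
    have e : {L : ℂ | Ch n s k L} = Φ '' RK n s k := by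
      ext L
      constructor
      · intro hL
        exact ⟨YY n s L k, ⟨hL.hr k le_rfl, hL.hle k le_rfl, hL.him⟩, a2 L hL⟩
      · rintro ⟨y, ⟨b1, b2, b3⟩, rfl⟩
        exact (a1 y b1 b2 b3).1
    rw [e]
    refine (RK_compact n s k).image_of_continuousOn ?_
    have hl : LipschitzOnWith (Real.toNNReal ((1 / 10 ^ 8) ^ k)) Φ (RK n s k) := by
      refine LipschitzOnWith.of_dist_le_mul (fun y hy y' hy' => ?_)
      rw [dist_eq_norm, dist_eq_norm, Real.coe_toNNReal _ (by positivity)]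
      exact a3 y y' hy.1 hy.2.1 hy.2.2 hy'.1 hy'.2.1 hy'.2.2
    exact hl.continuousOn
  · have e : {L : ℂ | Ch n s k L} = ∅ := by
      ext L
      constructor
      · intro hL
        exact absurd ⟨hL.hn, hL.h0⟩ hh
      · intro hL
        exact absurd hL (notMem_empty L)
    rw [e]
    exact isCompact_empty

end Pool.Agent.Modu
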