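import Pool.Agent.Modu.CHCL

/-!
# CHNEAR: the chart conditions are open
-/

set_option autoImplicit false

open Complex Filter Topology Set
open Pool.Agent.Multibrot Pool.Agent.Limb

namespace Pool.Agent.Modu

namespace CHNEAR_

theorem top_lt (hC : T_CHP) {n : ℕ} {s : ℕ → ℤ} {k : ℕ} {L : ℂ} (h : Ch n s k L)
    (hM : cc n L ∈ MM n) : (YY n s L k).re < Real.log (4 * n) := by
  have hn : (0 : ℝ) < n := lt_of_lt_of_le (by norm_num) h.hn
  obtain ⟨h0, -, hz, -⟩ := hC n s k L h
  have h1 := hz k le_rfl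
  have h2 : (21 : ℝ) ≤ L.re := by
    rw [← h0.1]
    exact h.hr 0 (Nat.zero_le _)
  have h3 := norm_zz_le h.hn hM (by linarith) (k + 1)
  rw [h1] at h3
  have h4 : (YY n s L k).re ≤ Real.log (3 * n) := by
    rw [Real.le_log_iff_exp_le (by positivity)]
    exact h3
  exact lt_of_le_of_lt h4 (Real.log_lt_log (by positivity) (by linarith))

end CHNEAR_

open CHCL_ CHNEAR_

theorem p_CHNEAR (h1 : T_CHP) : T_CHNEAR := by
  intro n s k L0 h hM hk hi
  refine ⟨?_, fun i hik => ⟨contY h1 h hik, contX h1 h hik⟩⟩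
  obtain ⟨-, -, -, c3, c4, c5, -, -, -⟩ := h1 n s k L0 h
  have hY : ∀ i, i ≤ k → ContinuousAt (fun L => YY n s L i) L0 := fun i hik => contY h1 h hik
  have hre : ∀ i, i ≤ k → ContinuousAt (fun L => (YY n s L i).re) L0 := fun i hik =>
    continuous_re.continuousAt.comp (hY i hik)
  have him : ∀ i, i ≤ k → ContinuousAt (fun L => |(YY n s L i).im|) L0 := fun i hik =>
    (continuous_abs.comp continuous_im).continuousAt.comp (hY i hik)
  have htop := top_lt h1 h hM
  have e1 : ∀ᶠ L in 𝓝 L0, ∀ i ∈ Iic k, rr s i < (YY n s L i).re := by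
    rw [eventually_all_finite (finite_Iic k)]
    intro i hik
    have hik' : i ≤ k := hik
    refine (hre i hik').eventually (lt_mem_nhds ?_)
    rcases Nat.lt_or_eq_of_le hik' with h2 | h2
    · have := c5 i h2
      linarith
    · rw [h2]; exact hk
  have e2 : ∀ᶠ L in 𝓝 L0, ∀ i ∈ Iio k, |(YY n s L i).im| < 2 := by
    rw [eventually_all_finite (finite_Iio k)]
    intro i hik
    have hik' : i < k := hik
    refine (him i hik'.le).eventually (gt_mem_nhds ?_)
    have := (c3 i hik').2
    linarith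
  have e3 : ∀ᶠ L in 𝓝 L0, |(YY n s L k).im| < 10 :=
    (him k le_rfl).eventually (gt_mem_nhds hi)
  have e4 : ∀ᶠ L in 𝓝 L0, ∀ i ∈ Iic k, (YY n s L i).re < Real.log (4 * n) := by
    rw [eventually_all_finite (finite_Iic k)]
    intro i hik
    have hik' : i ≤ k := hik
    refine (hre i hik').eventually (gt_mem_nhds ?_)
    rcases Nat.lt_or_eq_of_le hik' with h2 | h2
    · have h3 := (c4 i h2).2
      have h4 := h.hle (i + 1) h2
      have h5 := h.hr i hik'
      have h6 := rr_ge s i
      have h7 := Real.exp_pos 1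
      linarith
    · rw [h2]; exact htop
  filter_upwards [e1, e2, e3, e4] with L a1 a2 a3 a4
  exact ⟨h.hn, h.h0, fun i hik => (a1 i hik).le, fun i hik => (a2 i hik).le, a3.le,
    fun i hik => (a4 i hik).le⟩

end Pool.Agent.Modu
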