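import Pool.Agent.Modu.Basic

/-!
# MODU: CHP
-/

set_option autoImplicit false

open Complex Filter Topology Set
open Pool.Agent.Multibrot Pool.Agent.Limb

namespace Pool.Agent.Modu

namespace CHP_

lemma exp21 : (1300000000 : ℝ) ≤ Real.exp 21 := by
  have h1 : Real.exp 21 = Real.exp 1 ^ 21 := by
    rw [← Real.exp_nat_mul]
    norm_num
  rw [h1]
  have h2 : (2.7182818283 : ℝ) ≤ Real.exp 1 := Real.exp_one_gt_d9.le
  calc (1300000000 : ℝ) ≤ (2.7182818283 : ℝ) ^ 21 := by norm_num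
    _ ≤ _ := pow_le_pow_left₀ (by norm_num) h2 21

/-- Growth of the exponential. -/
lemma exp_ge {y : ℝ} (hy : 21 ≤ y) : 1300000000 * (y - 20) ≤ Real.exp y := by
  have h1 : Real.exp y = Real.exp 21 * Real.exp (y - 21) := by
    rw [← Real.exp_add]
    congr 1
    ring
  have h2 := Real.add_one_le_exp (y - 21)
  rw [h1]
  calc 1300000000 * (y - 20) = 1300000000 * (y - 21 + 1) := by ring
    _ ≤ Real.exp 21 * Real.exp (y - 21) :=
      mul_le_mul exp21 h2 (by linarith) (by positivity)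

/-- Numbers from LN. -/
structure Nu (n : ℕ) : Prop where
  hn : (10 : ℝ) ^ 20 ≤ n
  l46 : 46 ≤ Real.log (4 * n)
  sq : (Real.log (4 * n)) ^ 2 ≤ n / 10 ^ 16
  l3 : Real.log (3 * n) < Real.log (4 * n)

lemma mkNu (h : T_LN) {n : ℕ} (hn : (10 : ℝ) ^ 20 ≤ n) : Nu n := by
  obtain ⟨h1, h2, h3, h4⟩ := h n hn
  have h5 : 0 < Real.log 4 := Real.log_pos (by norm_num)
  have h6 : Real.log 3 < Real.log 4 := Real.log_lt_log (by norm_num) (by norm_num)
  exact ⟨hn, by linarith, h4, by linarith⟩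

lemma Nu.pos {n : ℕ} (h : Nu n) : (0 : ℝ) < n := lt_of_lt_of_le (by norm_num) h.hn

lemma Nu.one {n : ℕ} (h : Nu n) : 1 ≤ n := by
  have := h.pos
  exact_mod_cast this

lemma Nu.ne {n : ℕ} (h : Nu n) : (n : ℂ) ≠ 0 := by
  exact_mod_cast (by have := h.one; omega : n ≠ 0)

/-- `log (4 n)` is small compared to `n`. -/
lemma Nu.small {n : ℕ} (h : Nu n) : 10 ^ 17 * Real.log (4 * n) ≤ n := by
  have h1 := h.sq
  have h2 := h.l46
  have h3 : 46 * Real.log (4 * n) ≤ (Real.log (4 * n)) ^ 2 := by nlinarith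
  have h4 : (46 * Real.log (4 * n)) * 10 ^ 16 ≤ n := by
    have := h3.trans h1
    rwa [le_div_iff₀ (by norm_num)] at this
  nlinarith

/-- From the coordinate `X` to `z`. -/
lemma zx {n : ℕ} (h : Nu n) {X : ℂ} (hX : ‖X‖ ≤ 7001 * Real.log (4 * n)) :
    ‖(n : ℂ) * (exp (X / n) - 1) - X‖ ≤ 1 / 10 ^ 8 := by
  have hn := h.pos
  have h46 := h.l46
  have h1 : ‖X / n‖ = ‖X‖ / n := by rw [norm_div, norm_natCast]
  have h2 : ‖X / n‖ ≤ 1 := by
    rw [h1, div_le_one hn]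
    have := h.small
    nlinarith
  have h3 := norm_exp_sub_one_sub_id_le h2
  have h4 : (n : ℂ) * (exp (X / n) - 1) - X = n * (exp (X / n) - 1 - X / n) := by
    have := h.ne
    field_simp
  rw [h4, norm_mul, norm_natCast]
  calc (n : ℝ) * ‖exp (X / n) - 1 - X / n‖ ≤ n * ‖X / n‖ ^ 2 := by gcongr
    _ = ‖X‖ ^ 2 / n := by
      rw [h1]
      field_simp
    _ ≤ (7001 * Real.log (4 * n)) ^ 2 / n := by gcongr
    _ = 7001 ^ 2 * (Real.log (4 * n)) ^ 2 / n := by ring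
    _ ≤ 7001 ^ 2 * (n / 10 ^ 16) / n := by
      have := h.sq
      gcongr
    _ = 7001 ^ 2 / 10 ^ 16 := by field_simp
    _ ≤ 1 / 10 ^ 8 := by norm_num

/-- From `z` to the coordinate `X`. -/
lemma xz {n : ℕ} (h : Nu n) {z : ℂ} (hz : ‖z‖ ≤ 7001 * Real.log (4 * n)) :
    ‖z - n * log (1 + z / n)‖ ≤ 1 / 10 ^ 8 ∧ 1 + z / n ∈ slitPlane := by
  have hn := h.pos
  have h46 := h.l46
  have h1 : ‖z / n‖ = ‖z‖ / n := by rw [norm_div, norm_natCast]
  have h2 : ‖z / n‖ ≤ 1 / 2 := by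
    rw [h1, div_le_iff₀ hn]
    have := h.small
    nlinarith
  have h3 : ‖log (1 + z / n) - z / n‖ ≤ ‖z / n‖ ^ 2 * (1 - ‖z / n‖)⁻¹ / 2 :=
    norm_log_one_add_sub_self_le (by linarith)
  have h5 : (1 - ‖z / n‖)⁻¹ ≤ 2 := by
    rw [inv_le_comm₀ (by linarith) (by norm_num)]
    norm_num
    linarith
  have h6 : ‖log (1 + z / n) - z / n‖ ≤ ‖z / n‖ ^ 2 := by
    calc _ ≤ _ := h3
      _ ≤ ‖z / n‖ ^ 2 * 2 / 2 := by gcongr
      _ = _ := by ring
  constructor
  · have h4 : z - (n : ℂ) * log (1 + z / n) = -(n * (log (1 + z / n) - z / n)) := by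
      have := h.ne
      field_simp
      ring
    rw [h4, norm_neg, norm_mul, norm_natCast]
    calc (n : ℝ) * ‖log (1 + z / n) - z / n‖ ≤ n * ‖z / n‖ ^ 2 := by gcongr
      _ = ‖z‖ ^ 2 / n := by
        rw [h1]
        field_simp
      _ ≤ (7001 * Real.log (4 * n)) ^ 2 / n := by gcongr
      _ = 7001 ^ 2 * (Real.log (4 * n)) ^ 2 / n := by ring
      _ ≤ 7001 ^ 2 * (n / 10 ^ 16) / n := by
        have := h.sq
        gcongr
      _ = 7001 ^ 2 / 10 ^ 16 := by field_simp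
      _ ≤ 1 / 10 ^ 8 := by norm_num
  · left
    have h7 : |(z / n).re| ≤ ‖z / n‖ := abs_re_le_norm _
    have h8 := (abs_le.1 h7).1
    rw [add_re, one_re]
    linarith

/-- The facts at level `i`. -/
structure A (n : ℕ) (s : ℕ → ℤ) (L : ℂ) (i : ℕ) : Prop where
  ex : exp (YY n s L i) = zz n L (i + 1)
  re : L.re ≤ (YY n s L i).re

structure B (n : ℕ) (s : ℕ → ℤ) (L : ℂ) (i : ℕ) : Prop where
  ne : zz n L (i + 1) ≠ -n
  gr : 100 * (YY n s L i).re ≤ (YY n s L (i + 1)).re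
  gr' : Real.exp (YY n s L i).re ≤ 6002 * (YY n s L (i + 1)).re
  xn : ‖XX n L (i + 1)‖ ≤ 6100 * (XX n L (i + 1)).re
  xr : 99 / 100 * (YY n s L (i + 1)).re ≤ (XX n L (i + 1)).re
  xl : ‖XX n L (i + 1)‖ ≤ 7000 * Real.log (4 * n)
  xz : ‖zz n L (i + 1) - XX n L (i + 1)‖ ≤ 1 / 10 ^ 8
  zr : 1 ≤ (zz n L (i + 1)).re
  lg : YY n s L i = log (zz n L (i + 1))
  im : |(YY n s L i).im| ≤ 8 / 5
  mar : rr s i + 1 ≤ (YY n s L i).re

lemma im_le {n : ℕ} {s : ℕ → ℤ} {k : ℕ} {L : ℂ} (h : Ch n s k L) (hk : 1 ≤ k) :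
    |L.im| ≤ 83 / 10 := by
  have h1 := h.hi 0 (by omega)
  rw [YY_zero_im] at h1
  have h2 := abs_le.1 h1
  have h3 := abs_le.1 h.h0
  have hpi := Real.pi_lt_d2
  have hpi0 := Real.pi_pos
  rw [abs_le]
  constructor <;> nlinarith

lemma norm_eq {n : ℕ} {s : ℕ → ℤ} {L : ℂ} {i : ℕ} (h : A n s L i) :
    ‖zz n L (i + 1)‖ = Real.exp (YY n s L i).re := by
  rw [← h.ex, norm_exp]

lemma step {n : ℕ} (hN : Nu n) {s : ℕ → ℤ} {k : ℕ} {L : ℂ} (h : Ch n s k L) {i : ℕ} (hi : i < k)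
    (hA : A n s L i) : B n s L i ∧ A n s L (i + 1) := by
  have hpi := Real.pi_lt_d2
  have hpi3 := Real.pi_gt_three
  have hpi0 := Real.pi_pos
  have h46 := hN.l46
  have him := h.hi i hi
  have him' := abs_le.1 him
  have hL := im_le h (by omega)
  have hL' := abs_le.1 hL
  -- `z_{i+1} ≠ -n`
  have hlog : YY n s L i = log (zz n L (i + 1)) := by
    rw [← hA.ex, log_exp (by linarith [him'.1]) (by linarith [him'.2])]
  have hne : zz n L (i + 1) ≠ -n := by
    intro h1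
    have h2 : (YY n s L i).im = Real.pi := by
      rw [hlog, h1, log_im]
      have h3 : (-(n : ℂ)) = ((-n : ℝ) : ℂ) := by push_cast; ring
      rw [h3, arg_ofReal_of_neg (by have := hN.pos; linarith)]
    rw [h2, abs_of_pos hpi0] at him
    linarith
  have hex : exp (YY n s L (i + 1)) = zz n L (i + 1 + 1) := by
    rw [exp_YY, ← zz_succ_eq hN.one hne]
  -- real parts
  have hy : 21 ≤ (YY n s L i).re := (rr_ge s i).trans (h.hr i hi.le)
  have hY : rr s (i + 1) ≤ (YY n s L (i + 1)).re := h.hr (i + 1) (by omega)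
  have hY21 := (rr_ge s (i + 1)).trans hY
  have hL0 : 21 ≤ L.re := by
    have := h.hr 0 (by omega)
    rw [YY_zero_re] at this
    exact this
  have hXre : (XX n L (i + 1)).re = (YY n s L (i + 1)).re - L.re := by
    rw [YY_re]
    ring
  have hXim : (XX n L (i + 1)).im = (YY n s L (i + 1)).im - L.im + 2 * Real.pi * s (i + 1) := by
    rw [YY_im]
    ring
  have hY10 : |(YY n s L (i + 1)).im| ≤ 10 := by
    rcases Nat.lt_or_ge (i + 1) k with h1 | h1
    · exact (h.hi (i + 1) h1).trans (by norm_num)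
    · have h2 : i + 1 = k := by omega
      rw [h2]
      exact h.him
  have hs : |2 * Real.pi * (s (i + 1) : ℝ)| ≤ 6000 * (YY n s L (i + 1)).re := by
    rw [abs_mul, abs_of_pos (by positivity)]
    exact (rr_succ_ge' s i).trans (by linarith)
  have hXim' : |(XX n L (i + 1)).im| ≤ 6000 * (YY n s L (i + 1)).re + 183 / 10 := by
    rw [hXim]
    calc _ ≤ |(YY n s L (i + 1)).im - L.im| + |2 * Real.pi * (s (i + 1) : ℝ)| := abs_add_le _ _
      _ ≤ (|(YY n s L (i + 1)).im| + |L.im|) + |2 * Real.pi * (s (i + 1) : ℝ)| := by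
        gcongr
        exact abs_sub _ _
      _ ≤ (10 + 83 / 10) + 6000 * (YY n s L (i + 1)).re := by gcongr
      _ = _ := by ring
  have hLY := hA.re
  have hle1 : (YY n s L (i + 1)).re ≤ Real.log (4 * n) := h.hle (i + 1) (by omega)
  have hle0 : (YY n s L i).re ≤ Real.log (4 * n) := h.hle i hi.le
  have hXre' : |(XX n L (i + 1)).re| ≤ (YY n s L (i + 1)).re + (YY n s L i).re := by
    rw [hXre, abs_le]
    constructor <;> linarith
  have hXn : ‖XX n L (i + 1)‖ ≤ |(XX n L (i + 1)).re| + |(XX n L (i + 1)).im| :=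
    norm_le_abs_re_add_abs_im _
  have hXl : ‖XX n L (i + 1)‖ ≤ 7000 * Real.log (4 * n) := by linarith
  -- `z` and `X`
  have hz : zz n L (i + 1) = n * (exp (XX n L (i + 1) / n) - 1) := by
    rw [exp_XX hN.one hne]
    have := hN.ne
    field_simp
    ring
  have hzX : ‖zz n L (i + 1) - XX n L (i + 1)‖ ≤ 1 / 10 ^ 8 := by
    rw [hz]
    exact zx hN (by linarith)
  have hzn : ‖zz n L (i + 1)‖ ≤ ‖XX n L (i + 1)‖ + 1 / 10 ^ 8 := by
    have h1 : zz n L (i + 1) = XX n L (i + 1) + (zz n L (i + 1) - XX n L (i + 1)) := by ring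
    rw [h1]
    exact (norm_add_le _ _).trans (by linarith)
  have hexp : Real.exp (YY n s L i).re ≤
      6001 * (YY n s L (i + 1)).re + (YY n s L i).re + 20 := by
    rw [← norm_eq hA]
    linarith
  have hge := exp_ge hy
  have hgr : 100 * (YY n s L i).re ≤ (YY n s L (i + 1)).re := by nlinarith
  have hgr' : Real.exp (YY n s L i).re ≤ 6002 * (YY n s L (i + 1)).re := by linarith
  have hxr : 99 / 100 * (YY n s L (i + 1)).re ≤ (XX n L (i + 1)).re := by
    rw [hXre]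
    linarith
  have hxp : 0 ≤ (XX n L (i + 1)).re := by linarith
  have hzr : 1 ≤ (zz n L (i + 1)).re := by
    have h1 : |(zz n L (i + 1) - XX n L (i + 1)).re| ≤ 1 / 10 ^ 8 :=
      (abs_re_le_norm _).trans hzX
    rw [sub_re] at h1
    have h2 := (abs_le.1 h1).1
    linarith
  have him85 : |(YY n s L i).im| ≤ 8 / 5 := by
    rw [hlog, log_im]
    have h1 : |arg (zz n L (i + 1))| ≤ Real.pi / 2 := abs_arg_le_pi_div_two_iff.2 (by linarith)
    linarith
  have hmar : rr s i + 1 ≤ (YY n s L i).re := by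
    have h1 : (YY n s L (i + 1)).re ≤ ‖zz n L (i + 1)‖ + 1 / 10 ^ 8 + L.re := by
      have h2 : |(zz n L (i + 1) - XX n L (i + 1)).re| ≤ 1 / 10 ^ 8 :=
        (abs_re_le_norm _).trans hzX
      rw [sub_re] at h2
      have h3 := (abs_le.1 h2).1
      have h4 : (zz n L (i + 1)).re ≤ ‖zz n L (i + 1)‖ := re_le_norm _
      linarith
    rw [norm_eq hA] at h1
    have h2 := rr_succ_ge s i
    have h3 : Real.exp 1 < 2.7182818286 := Real.exp_one_lt_d9
    have h4 : Real.exp (rr s i + 1) ≤ Real.exp (YY n s L i).re := by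
      rw [Real.exp_add]
      have h5 : 4 * Real.exp (rr s i) ≤ 101 / 100 * Real.exp (YY n s L i).re := by linarith
      have h6 : 0 < Real.exp (rr s i) := Real.exp_pos _
      nlinarith
    exact Real.exp_le_exp.1 h4
  refine ⟨⟨hne, hgr, hgr', ?_, hxr, hXl, hzX, hzr, hlog, him85, hmar⟩, ⟨hex, by linarith⟩⟩
  rw [abs_of_nonneg hxp] at hXn
  linarith

lemma base {n : ℕ} {s : ℕ → ℤ} {L : ℂ} : A n s L 0 := by
  constructor
  · rw [exp_YY, XX_zero, zero_add, zz_one]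
  · rw [YY_zero_re]

lemma all {n : ℕ} (hN : Nu n) {s : ℕ → ℤ} {k : ℕ} {L : ℂ} (h : Ch n s k L) :
    ∀ i, i ≤ k → A n s L i := by
  intro i
  induction i with
  | zero => intro _; exact base
  | succ i ih => intro hi; exact (step hN h (by omega) (ih (by omega))).2

lemma allB {n : ℕ} (hN : Nu n) {s : ℕ → ℤ} {k : ℕ} {L : ℂ} (h : Ch n s k L) :
    ∀ i, i < k → B n s L i := fun i hi => (step hN h hi (all hN h i hi.le)).1

end CHP_

open CHP_

theorem p_CHP (h1 : T_LN) : T_CHP := by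
  intro n s k L h
  have hN := mkNu h1 h.hn
  have hA := all hN h
  have hB := allB hN h
  have hn1 : ∀ i, i ≤ k → ‖zz n L (i + 1)‖ = Real.exp (YY n s L i).re :=
    fun i hi => norm_eq (hA i hi)
  have hy : ∀ i, i ≤ k → 21 ≤ (YY n s L i).re := fun i hi => (rr_ge s i).trans (h.hr i hi)
  refine ⟨⟨YY_zero_re n s L, YY_zero_im n s L⟩, fun i hi => (hA i hi).ex, hn1,
    fun i hi => ⟨(hB i hi).lg, (hB i hi).im⟩, fun i hi => ⟨(hB i hi).gr', (hB i hi).gr⟩,
    fun i hi => (hB i hi).mar, ?_, fun i _ => rr_ge s i, ?_⟩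
  · intro i h0 hi
    obtain ⟨j, rfl⟩ : ∃ j, i = j + 1 := ⟨i - 1, by omega⟩
    have hb := hB j (by omega)
    have h2 : (XX n L (j + 1)).re ≤ (YY n s L (j + 1)).re := by
      rw [YY_re]
      have := h.hr 0 (by omega)
      rw [YY_zero_re] at this
      have := rr_ge s 0
      linarith
    exact ⟨hb.xr, h2, hb.xn, hb.xl, hb.xz.trans (by norm_num)⟩
  · refine ⟨h.hn, by omega, ?_, ?_, ?_⟩
    · have h2 := hn1 0 (by omega)
      rw [zero_add] at h2
      rw [h2]
      have h3 : Real.exp 21 ≤ Real.exp (YY n s L 0).re := Real.exp_le_exp.2 (hy 0 (by omega))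
      have h4 := exp21
      linarith
    · intro i h0 hi
      obtain ⟨j, rfl⟩ : ∃ j, i = j + 1 := ⟨i - 1, by omega⟩
      rw [hn1 j (by omega), hn1 (j + 1) (by omega)]
      have h2 := (hB j (by omega)).gr
      have h3 := hy j (by omega)
      have h4 : (YY n s L j).re + 4 ≤ (YY n s L (j + 1)).re := by linarith
      calc 4 * Real.exp (YY n s L j).re ≤ Real.exp 4 * Real.exp (YY n s L j).re := by
            have h5 := Real.add_one_le_exp (4 : ℝ)
            have h6 := Real.exp_pos (YY n s L j).re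
            nlinarith
        _ = Real.exp ((YY n s L j).re + 4) := by rw [Real.exp_add]; ring
        _ ≤ _ := Real.exp_le_exp.2 h4
    · intro i h0 hi
      obtain ⟨j, rfl⟩ : ∃ j, i = j + 1 := ⟨i - 1, by omega⟩
      exact (hB j (by omega)).zr

end Pool.Agent.Modu
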