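import Pool.Agent.Modu.Targets
import Pool.Agent.Limb.LOWNR

/-!
# MODU: the non repelling cycles of period `j + 1`
-/

set_option autoImplicit false

open Complex Filter Topology Set
open Pool.Agent.Multibrot Pool.Agent.Limb Pool.Agent.Limb.LOWNR_

namespace Pool.Agent.Modu

namespace CLASS_

lemma rho_nonneg (n : ℕ) (w : ℂ) : 0 ≤ rho n w := by
  unfold rho
  positivity

/-- The top stage. -/
lemma top {n : ℕ} (hn : (10 : ℝ) ^ 20 ≤ n) {z v u : ℂ} (hz : 1 + z / n ≠ 0)
    (hv0 : 1 + v / n ≠ 0) (hv : v = z * exp u) (hu : ‖u‖ ≤ 1 / 10 ^ 6)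
    (hr : ‖u‖ * rho n v ≤ 10101 / 10000) : ‖ui n z v‖ ≤ 102 / 100 := by
  have hn0 : (0 : ℝ) < n := lt_of_lt_of_le (by norm_num) hn
  have hnC : (n : ℂ) ≠ 0 := by exact_mod_cast hn0.ne'
  have hu0 := norm_nonneg u
  set V : ℂ := v / (1 + v / n) with hV
  set κ : ℂ := V / n * (1 - exp (-u)) with hκ
  have e1 : (1 + z / n) / (1 + v / n) = 1 - κ := by
    have e2 : V / n * (1 + v / n) = v / n := by
      rw [div_mul_eq_mul_div, hV, div_mul_cancel₀ _ hv0]
    have e3 : z = v * exp (-u) := by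
      rw [hv, mul_assoc, ← exp_add, add_neg_cancel, exp_zero, mul_one]
    rw [div_eq_iff hv0, sub_mul, hκ, mul_right_comm, e2, e3]
    ring
  have hVn : ‖V‖ = rho n v := by rw [hV, norm_div]; rfl
  have he := exp_sub_one_le (u := -u) (by rw [norm_neg]; linarith)
  rw [norm_neg] at he
  have hk1 : (n : ℝ) * ‖κ‖ ≤ 10102 / 10000 := by
    have e4 : (n : ℝ) * ‖κ‖ = rho n v * ‖exp (-u) - 1‖ := by
      rw [hκ, norm_mul, norm_div, Complex.norm_natCast, hVn, norm_sub_rev]
      field_simp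
    rw [e4]
    calc rho n v * ‖exp (-u) - 1‖ ≤ rho n v * (‖u‖ * (1 + ‖u‖)) :=
          mul_le_mul_of_nonneg_left he (rho_nonneg _ _)
      _ = (‖u‖ * rho n v) * (1 + ‖u‖) := by ring
      _ ≤ 10101 / 10000 * (1 + 1 / 10 ^ 6) :=
          mul_le_mul hr (by linarith) (by linarith) (by norm_num)
      _ ≤ _ := by norm_num
  have hk2 : ‖κ‖ ≤ 1 / 10 ^ 10 := by
    by_contra hcon
    push Not at hcon
    have h1 : (10 : ℝ) ^ 20 * (1 / 10 ^ 10) ≤ n * ‖κ‖ :=
      mul_le_mul hn hcon.le (by norm_num) hn0.le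
    norm_num at h1
    linarith
  have hk0 := norm_nonneg κ
  have h1κ : 1 - κ ≠ 0 := by
    rw [← e1]
    exact div_ne_zero hz hv0
  have hnk : 1 - ‖κ‖ ≤ ‖1 - κ‖ := by
    have := norm_sub_norm_le (1 : ℂ) κ
    rwa [norm_one] at this
  set y : ℂ := κ / (1 - κ) with hy
  have e5 : (1 + v / n) / (1 + z / n) = 1 + y := by
    have e6 : (1 + v / n) / (1 + z / n) = ((1 + z / n) / (1 + v / n))⁻¹ := by
      rw [inv_div]
    rw [e6, e1, hy]
    field_simp
    ring
  have hyk : ‖y‖ ≤ ‖κ‖ * (10001 / 10000) := by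
    rw [hy, norm_div]
    rw [div_le_iff₀ (by linarith)]
    have h3 : 1 ≤ 10001 / 10000 * ‖1 - κ‖ := by linarith
    calc ‖κ‖ = ‖κ‖ * 1 := (mul_one _).symm
      _ ≤ ‖κ‖ * (10001 / 10000 * ‖1 - κ‖) := mul_le_mul_of_nonneg_left h3 hk0
      _ = _ := by ring
  have hy0 := norm_nonneg y
  have hy2 : ‖y‖ ≤ 1 / 10 ^ 9 := by linarith
  have hlog := log_one_add_le (y := y) (by linarith)
  unfold ui
  rw [e5, norm_mul, Complex.norm_natCast]
  calc (n : ℝ) * ‖log (1 + y)‖ ≤ n * (‖y‖ * (1 + ‖y‖)) :=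
        mul_le_mul_of_nonneg_left hlog hn0.le
    _ ≤ n * ((‖κ‖ * (10001 / 10000)) * (1 + 1 / 10 ^ 9)) := by
        apply mul_le_mul_of_nonneg_left _ hn0.le
        apply mul_le_mul hyk (by linarith) (by linarith) (by positivity)
    _ = (n * ‖κ‖) * ((10001 / 10000) * (1 + 1 / 10 ^ 9)) := by ring
    _ ≤ 10102 / 10000 * ((10001 / 10000) * (1 + 1 / 10 ^ 9)) :=
        mul_le_mul_of_nonneg_right hk1 (by norm_num)
    _ ≤ _ := by norm_num

/-- A block of length `j + 1`. -/
lemma block {n j : ℕ} {L : ℂ} (hL : Low n j L) (hzj : 1 + zz n L j / n ≠ 0) (v : ℕ → ℂ)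
    (hvs : ∀ l, v (l + 1) = E n L (v l)) (hv1 : ∀ l, 1 + v l / n ≠ 0) (h0 : ‖v 0‖ ≤ 2)
    (hbig : ∀ l, 1 ≤ l → l ≤ j → 2 < ‖v l‖)
    (hprod : ∏ i ∈ Finset.range (j + 1), rho n (v i) ≤ 1) :
    (∀ l, l < j → ‖ui n (zz n L l) (v l)‖ ≤ 7 / 10) ∧ ‖ui n (zz n L j) (v j)‖ ≤ 102 / 100 := by
  have hn0 : (0 : ℝ) < n := lt_of_lt_of_le (by norm_num) hL.hn
  have hn20 := hL.hn
  have hj := hL.hj
  set R : ℕ → ℝ := fun l => ∏ i ∈ Finset.range l, rho n (v i) with hR
  have hrho0 : ∀ i, 0 ≤ rho n (v i) := fun i => rho_nonneg _ _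
  have hR0 : ∀ l, 0 ≤ R l := fun l => Finset.prod_nonneg fun i _ => hrho0 i
  have hRs : ∀ l, R (l + 1) = R l * rho n (v l) := fun l => Finset.prod_range_succ _ _
  have hrho32 : ∀ l, 1 ≤ l → l ≤ j → 3 / 2 ≤ rho n (v l) := by
    intro l h1 h2
    have h3 := rho_ge hn0 (hv1 l) (by norm_num : (0 : ℝ) ≤ 2) (hbig l h1 h2).le
    refine le_trans ?_ h3
    rw [le_div_iff₀ (by positivity)]
    have : (2 : ℝ) / n ≤ 1 / 3 := by
      rw [div_le_iff₀ hn0]
      linarith
    linarith
  have hback : ∀ d l, l + d = j → R (l + 1) ≤ (2 / 3 : ℝ) ^ d := by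
    intro d
    induction d with
    | zero =>
      intro l hl
      have e : l = j := by omega
      rw [e, pow_zero]
      exact hprod
    | succ d ih =>
      intro l hl
      have h1 := ih (l + 1) (by omega)
      rw [hRs (l + 1)] at h1
      have h2 := hrho32 (l + 1) (by omega) (by omega)
      have h3 : R (l + 1) * (3 / 2) ≤ R (l + 1) * rho n (v (l + 1)) :=
        mul_le_mul_of_nonneg_left h2 (hR0 _)
      rw [pow_succ]
      linarith
  set uu : ℕ → ℂ := fun l => ui n (zz n L l) (v l) with huu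
  have hz1 : ∀ l, l < j → 1 + zz n L l / n ≠ 0 := by
    intro l hl
    rcases Nat.eq_zero_or_pos l with h | h
    · rw [h, zz_zero]
      simp
    · exact one_add_ne (hL.hre l h hl)
  have hvz : ∀ l, l < j → v (l + 1) = zz n L (l + 1) * exp (uu l) := by
    intro l hl
    rw [hvs, zz_succ]
    exact E_ui L (hz1 l hl) (hv1 l)
  have hsize : ∀ l d, l + d + 1 = j → ‖uu l‖ ≤ (101 / 100 + 1 / 10 ^ 5 * (2 / 3 : ℝ) ^ (d + 1)) *
      R (l + 1) → ‖uu l‖ ≤ 7 / 10 ∧ ‖uu l‖ ≤ 6 / 10 ^ 8 * (2 / 3 : ℝ) ^ d := by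
    intro l d hd h1
    have hs0 : (0 : ℝ) < (2 / 3 : ℝ) ^ d := by positivity
    have hs1 : (2 / 3 : ℝ) ^ d ≤ 1 := pow_le_one₀ (by norm_num) (by norm_num)
    have hsd : (2 / 3 : ℝ) ^ (d + 1) = 2 / 3 * (2 / 3 : ℝ) ^ d := by rw [pow_succ]; ring
    have hRl := hback (d + 1) l (by omega)
    have hRl2 := hback d (l + 1) (by omega)
    rw [hsd] at h1 hRl
    set s : ℝ := (2 / 3 : ℝ) ^ d with hs
    have hR1 := hR0 (l + 1)
    have hu1 : ‖uu l‖ ≤ 7 / 10 := by
      calc ‖uu l‖ ≤ (101 / 100 + 1 / 10 ^ 5 * (2 / 3 * s)) * R (l + 1) := h1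
        _ ≤ (101 / 100 + 1 / 10 ^ 5 * (2 / 3 * 1)) * (2 / 3 * 1) := by
            apply mul_le_mul _ _ hR1 (by norm_num)
            · gcongr
            · linarith
        _ ≤ 7 / 10 := by norm_num
    refine ⟨hu1, ?_⟩
    have hvl : (3 : ℝ) * 10 ^ 7 ≤ ‖v (l + 1)‖ := by
      rw [hvz l (by omega), norm_mul, norm_exp]
      have h2 := hL.ge8 (i := l + 1) (by omega) (by omega)
      have h3 : (3 / 10 : ℝ) ≤ Real.exp (uu l).re := by
        have h4 := Real.add_one_le_exp (uu l).re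
        have h5 : -(7 / 10 : ℝ) ≤ (uu l).re := by
          have := abs_le.1 ((abs_re_le_norm (uu l)).trans hu1)
          exact this.1
        linarith
      calc (3 : ℝ) * 10 ^ 7 = 10 ^ 8 * (3 / 10) := by norm_num
        _ ≤ _ := mul_le_mul h2 h3 (by norm_num) (norm_nonneg _)
    have hrl : (2 : ℝ) * 10 ^ 7 ≤ rho n (v (l + 1)) := by
      have h3 := rho_ge hn0 (hv1 (l + 1)) (by norm_num : (0 : ℝ) ≤ 3 * 10 ^ 7) hvl
      refine le_trans ?_ h3
      rw [le_div_iff₀ (by positivity)]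
      have : (3 * 10 ^ 7 : ℝ) / n ≤ 1 / 3 := by
        rw [div_le_iff₀ hn0]
        linarith
      linarith
    have hRR : R (l + 1) * (2 * 10 ^ 7) ≤ s := by
      calc R (l + 1) * (2 * 10 ^ 7) ≤ R (l + 1) * rho n (v (l + 1)) :=
            mul_le_mul_of_nonneg_left hrl hR1
        _ = R (l + 1 + 1) := (hRs _).symm
        _ ≤ s := hRl2
    calc ‖uu l‖ ≤ (101 / 100 + 1 / 10 ^ 5 * (2 / 3 * s)) * R (l + 1) := h1
      _ ≤ (101 / 100 + 1 / 10 ^ 5 * (2 / 3 * 1)) * (s / (2 * 10 ^ 7)) := by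
          apply mul_le_mul _ _ hR1 (by norm_num)
          · gcongr
          · rw [le_div_iff₀ (by norm_num)]
            exact hRR
      _ ≤ _ := by linarith
  have hmain : ∀ l d, l + d + 1 = j →
      ‖uu l‖ ≤ (101 / 100 + 1 / 10 ^ 5 * (2 / 3 : ℝ) ^ (d + 1)) * R (l + 1) := by
    intro l
    induction l with
    | zero =>
      intro d _
      have e : uu 0 = (n : ℂ) * log (1 + v 0 / n) := by
        rw [huu]
        simp only [ui, zz_zero, zero_div, add_zero, div_one]
      have e2 : R (0 + 1) = rho n (v 0) := by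
        rw [hRs, hR]
        simp
      rw [e, e2]
      refine (step0 hn20 h0 (hv1 0)).trans ?_
      apply mul_le_mul_of_nonneg_right _ (hrho0 0)
      have : (0 : ℝ) ≤ 1 / 10 ^ 5 * (2 / 3 : ℝ) ^ (d + 1) := by positivity
      linarith
    | succ l ih =>
      intro d hd
      have h1 := ih (d + 1) (by omega)
      obtain ⟨hu1, hu2⟩ := hsize l (d + 1) (by omega) h1
      have hs0 : (0 : ℝ) < (2 / 3 : ℝ) ^ (d + 1) := by positivity
      have hs1 : (2 / 3 : ℝ) ^ (d + 1) ≤ 1 := pow_le_one₀ (by norm_num) (by norm_num)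
      have hsd : (2 / 3 : ℝ) ^ (d + 1 + 1) = 2 / 3 * (2 / 3 : ℝ) ^ (d + 1) := by
        rw [pow_succ]; ring
      rw [hsd] at h1
      set s : ℝ := (2 / 3 : ℝ) ^ (d + 1) with hs
      have hR1 := hR0 (l + 1)
      have hstep := step hn0 (z := zz n L (l + 1)) (v := v (l + 1)) (u := uu l)
        (hL.hre (l + 1) (by omega) (by omega)) (hvz l (by omega)) (by linarith) (hv1 _)
      have hr0 := hrho0 (l + 1)
      calc ‖uu (l + 1)‖ ≤ ‖uu l‖ * rho n (v (l + 1)) * (1 + 10 * ‖uu l‖) := hstep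
        _ ≤ ((101 / 100 + 1 / 10 ^ 5 * (2 / 3 * s)) * R (l + 1)) * rho n (v (l + 1)) *
            (1 + 10 * (6 / 10 ^ 8 * s)) := by gcongr
        _ = ((101 / 100 + 1 / 10 ^ 5 * (2 / 3 * s)) * (1 + 10 * (6 / 10 ^ 8 * s))) *
            R (l + 1 + 1) := by rw [hRs (l + 1)]; ring
        _ ≤ (101 / 100 + 1 / 10 ^ 5 * s) * R (l + 1 + 1) := by
            apply mul_le_mul_of_nonneg_right _ (hR0 _)
            nlinarith
  refine ⟨fun l hl => (hsize l (j - 1 - l) (by omega) (hmain l (j - 1 - l) (by omega))).1, ?_⟩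
  have hfin := hmain (j - 1) 0 (by omega)
  have hsz := (hsize (j - 1) 0 (by omega) hfin).2
  have e1 : j - 1 + 1 = j := by omega
  rw [e1] at hfin
  rw [pow_zero, mul_one] at hsz
  have hvj := hvz (j - 1) (by omega)
  rw [e1] at hvj
  apply top hn20 hzj (hv1 j) hvj (by linarith)
  have hRj : R j * rho n (v j) ≤ 1 := by
    rw [← hRs]
    exact hprod
  have hr0 := hrho0 j
  calc ‖uu (j - 1)‖ * rho n (v j) ≤
      ((101 / 100 + 1 / 10 ^ 5 * (2 / 3 : ℝ) ^ (0 + 1)) * R j) * rho n (v j) :=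
        mul_le_mul_of_nonneg_right hfin hr0
    _ = (101 / 100 + 1 / 10 ^ 5 * (2 / 3 : ℝ) ^ (0 + 1)) * (R j * rho n (v j)) := by ring
    _ ≤ (101 / 100 + 1 / 10 ^ 5 * (2 / 3 : ℝ) ^ (0 + 1)) * 1 :=
        mul_le_mul_of_nonneg_left hRj (by positivity)
    _ ≤ _ := by norm_num

/-- From the positions of the cycle to the coordinate of the top stage. -/
lemma coord {n j : ℕ} {L w : ℂ} (hn : 2 ≤ n) (hz0 : ∀ i, 1 ≤ i → i ≤ j → zz n L i ≠ 0)
    (hz : ∀ i, i ≤ j → 1 + zz n L i / n ≠ 0) (hw : ∀ i, i ≤ j → 1 + (E n L)^[i] w / n ≠ 0)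
    (hu : ∀ i, i < j → ‖ui n (zz n L i) ((E n L)^[i] w)‖ ≤ 1) :
    W0 n L j (ui n (zz n L j) ((E n L)^[j] w)) = w := by
  have hn0 : (n : ℂ) ≠ 0 := natCast_ne hn
  have hexp : ∀ i, i ≤ j → exp (ui n (zz n L i) ((E n L)^[i] w) / n) =
      (1 + (E n L)^[i] w / n) / (1 + zz n L i / n) := by
    intro i hi
    rw [ui, mul_div_cancel_left₀ _ hn0, exp_log (div_ne_zero (hw i hi) (hz i hi))]
  have key : ∀ k, k ≤ j → W0 n L k (ui n (zz n L k) ((E n L)^[k] w)) = w := by
    intro k
    induction k with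
    | zero =>
      intro _
      have h1 := hexp 0 (by omega)
      have e : n * ((1 + w / n) / (1 + 0 / n) - 1) = w := by
        rw [zero_div, add_zero, div_one, add_sub_cancel_left, mul_div_cancel₀ _ hn0]
      rw [W0, VV, h1, zz_zero, Function.iterate_zero, id]
      exact e
    | succ k ih =>
      intro hk
      have h1 := hexp (k + 1) hk
      have h2 : hh n (zz n L (k + 1)) (ui n (zz n L (k + 1)) ((E n L)^[k + 1] w)) =
          ui n (zz n L k) ((E n L)^[k] w) := by
        set z := zz n L (k + 1) with hzd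
        have hz0 : z ≠ 0 := hz0 (k + 1) (by omega) hk
        have hz1 : 1 + z / n ≠ 0 := hz (k + 1) hk
        have hz2 : (n : ℂ) + z ≠ 0 := by
          intro h0
          apply hz1
          have e : 1 + z / n = (n + z) / n := by field_simp
          rw [e, h0, zero_div]
        have e1 : 1 + (1 + n / z) * (exp (ui n z ((E n L)^[k + 1] w) / n) - 1) =
            (E n L)^[k + 1] w / z := by
          rw [h1]
          field_simp
          ring
        have e2 : (E n L)^[k + 1] w / z = exp (ui n (zz n L k) ((E n L)^[k] w)) := by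
          have e3 : ui n (zz n L k) ((E n L)^[k] w) =
              n * (ui n (zz n L k) ((E n L)^[k] w) / n) := by
            field_simp
          rw [e3, exp_nat_mul, hexp k (by omega), hzd, zz_succ, Function.iterate_succ_apply', Limb.E, Limb.E,
            div_pow, mul_div_mul_left _ _ (exp_ne_zero L)]
        rw [hh, e1, e2]
        have h5 := (abs_im_le_norm _).trans (hu k (by omega))
        have h6 := abs_le.1 h5
        have h7 := Real.pi_gt_three
        exact log_exp (by linarith [h6.1]) (by linarith [h6.2])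
      have h3 : W0 n L (k + 1) (ui n (zz n L (k + 1)) ((E n L)^[k + 1] w)) =
          W0 n L k (hh n (zz n L (k + 1)) (ui n (zz n L (k + 1)) ((E n L)^[k + 1] w))) := rfl
      rw [h3, h2]
      exact ih (by omega)
  exact key j le_rfl

end CLASS_

open CLASS_

theorem p_CLASS : T_CLASS := by
  intro n j L Z hL hzj hZ hmul
  have h2n := hL.two_le
  have hn0 : (0 : ℝ) < n := lt_of_lt_of_le (by norm_num) hL.hn
  have hnC := natCast_ne h2n
  have hc := cc_ne n L
  have hj := hL.hj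
  have hone : ∀ z : ℂ, z ≠ -n → 1 + z / n ≠ 0 := by
    intro z hz h0
    apply hz
    have h4 : z = n * (1 + z / n) - n := by field_simp; ring
    rw [h4, h0]
    ring
  have hzj1 : 1 + zz n L j / n ≠ 0 := hone _ hzj
  have hz1 : zz n L (j + 1) ≠ 0 := by
    rw [zz_succ, Limb.E]
    exact mul_ne_zero (exp_ne_zero _) (pow_ne_zero _ hzj1)
  have hzz1 : ∀ i, i ≤ j → 1 + zz n L i / n ≠ 0 := by
    intro i hi
    rcases Nat.eq_zero_or_pos i with h | h
    · rw [h, zz_zero]
      simp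
    · rcases Nat.lt_or_ge i j with h' | h'
      · exact one_add_ne (hL.hre i h h')
      · have : i = j := by omega
        rw [this]
        exact hzj1
  have hzz : ∀ i, 1 ≤ i → i ≤ j → (10 : ℝ) ^ 8 ≤ ‖zz n L i‖ ∧ zz n L i ≠ -n := by
    intro i hi hij
    refine ⟨hL.ge8 hi hij, ?_⟩
    intro h0
    apply hzz1 i hij
    rw [h0]
    field_simp
    ring
  obtain ⟨w0, rfl⟩ : ∃ w : ℂ, Z = cc n L * (1 + w / n) :=
    ⟨n * (Z / cc n L - 1), by field_simp; ring⟩
  have hper : (E n L)^[j + 1] w0 = w0 := by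
    rw [F_iter_conj h2n] at hZ
    have h1 := mul_left_cancel₀ hc hZ
    have h2 := add_left_cancel h1
    field_simp at h2
    exact h2
  rw [deriv_F_iter h2n, (deriv_E_iter (by omega) L w0 (j + 1)).deriv, norm_prod] at hmul
  set w : ℕ → ℂ := fun i => (E n L)^[i] w0 with hw
  have hws : ∀ i, w (i + 1) = E n L (w i) := fun i => Function.iterate_succ_apply' _ _ _
  have hwp : ∀ i, w (i + (j + 1)) = w i := by
    intro i
    rw [hw]
    simp only
    rw [Function.iterate_add_apply, hper]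
  -- no critical point
  have hwz : ∀ i l, w i = 0 → w (i + l) = zz n L l := by
    intro i l h
    induction l with
    | zero => rw [add_zero, h, zz_zero]
    | succ l ih => rw [← add_assoc, hws, ih, zz_succ]
  have hw0 : ∀ i, w i ≠ 0 := by
    intro i h
    have h1 := hwz i (j + 1) h
    rw [hwp, h] at h1
    exact hz1 h1.symm
  have hw1 : ∀ i, 1 + w i / n ≠ 0 := by
    intro i h
    apply hw0 (i + 1)
    rw [hws, Limb.E, h, zero_pow (by omega), mul_zero]
  have hf0 : ∀ i, ‖w i‖ ≠ 0 := fun i => norm_ne_zero_iff.2 (hw0 i)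
  have hrho : ∀ i, ‖exp L * (1 + w i / n) ^ (n - 1)‖ = ‖w (i + 1)‖ / ‖1 + w i / n‖ := by
    intro i
    have h1 : w (i + 1) = exp L * (1 + w i / n) ^ (n - 1) * (1 + w i / n) := by
      rw [hws, Limb.E, mul_assoc, ← pow_succ]
      congr 2
      omega
    rw [h1, norm_mul _ (1 + w i / n), mul_div_assoc, div_self (norm_ne_zero_iff.2 (hw1 i)),
      mul_one]
  have hprodG : ∀ a, ∏ i ∈ Finset.range (j + 1), ‖exp L * (1 + w (a + i) / n) ^ (n - 1)‖ =
      ∏ i ∈ Finset.range (j + 1), rho n (w (a + i)) := by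
    intro a
    have h2 : ∏ i ∈ Finset.range (j + 1), ‖w (a + 1 + i)‖ =
        ∏ i ∈ Finset.range (j + 1), ‖w i‖ :=
      prod_shift (fun i => ‖w i‖) (fun i => by simp only [hwp]) hf0 (a + 1)
    have h3 : ∏ i ∈ Finset.range (j + 1), ‖w (a + i)‖ =
        ∏ i ∈ Finset.range (j + 1), ‖w i‖ :=
      prod_shift (fun i => ‖w i‖) (fun i => by simp only [hwp]) hf0 a
    simp only [hrho, rho]
    rw [Finset.prod_div_distrib, Finset.prod_div_distrib, h3, ← h2]
    congr 1
    refine Finset.prod_congr rfl fun i _ => ?_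
    congr 2
    ring
  have hr0 : ∀ i, rho n (w i) ≠ 0 := fun i => by
    unfold rho
    exact div_ne_zero (hf0 i) (norm_ne_zero_iff.2 (hw1 i))
  have hprod : ∏ i ∈ Finset.range (j + 1), rho n (w i) ≤ 1 := by
    have h1 := hprodG 0
    simp only [zero_add] at h1
    rw [← h1]
    exact hmul
  have hprodA : ∀ a, ∏ i ∈ Finset.range (j + 1), rho n (w (a + i)) ≤ 1 := by
    intro a
    rw [prod_shift (fun i => rho n (w i)) (fun i => by simp only [hwp]) hr0 a]
    exact hprod
  -- the segments between small indices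
  have hseg : ∀ m, ∀ a, 1 ≤ m → m ≤ j → ‖w a‖ ≤ 2 → ‖w (a + m)‖ ≤ 2 →
      1 < ∏ i ∈ Finset.range m, rho n (w (a + i)) := by
    intro m
    induction m using Nat.strong_induction_on with
    | _ m ih =>
      intro a hm hmp ha ham
      have hex : ∃ q, 1 ≤ q ∧ ‖w (a + q)‖ ≤ 2 := ⟨m, hm, ham⟩
      classical
      set q := Nat.find hex with hq
      obtain ⟨hq1, hq2⟩ := Nat.find_spec hex
      rw [← hq] at hq1 hq2
      have hqm : q ≤ m := Nat.find_min' hex ⟨hm, ham⟩
      have hbig : ∀ l, 1 ≤ l → l < q → 2 < ‖w (a + l)‖ := by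
        intro l h1 h2
        by_contra h3
        exact Nat.find_min hex h2 ⟨h1, not_lt.1 h3⟩
      have h1 : 1 < ∏ i ∈ Finset.range q, rho n (w (a + i)) := by
        by_contra h
        have := LOWNR_.block hL (fun l => w (a + l)) (fun l => hws (a + l)) (fun l => hw1 _)
          (by simpa using ha) q hq1 (by omega) hbig (not_lt.1 h)
        exact absurd hq2 (not_le.2 this)
      rcases hqm.lt_or_eq with h | h
      · have h2 := ih (m - q) (by omega) (a + q) (by omega) (by omega) hq2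
          (by rw [add_assoc, Nat.add_sub_cancel' hqm]; exact ham)
        have h3 := Finset.prod_range_add (fun i => rho n (w (a + i))) q (m - q)
        rw [Nat.add_sub_cancel' hqm] at h3
        rw [h3]
        simp only [← add_assoc]
        nlinarith
      · rw [← h]
        exact h1
  -- there is a small index
  have hsmall : ∃ a, ‖w a‖ ≤ 2 := by
    by_contra h
    push Not at h
    have h1 : ∀ i, 3 / 2 ≤ rho n (w i) := by
      intro i
      have h3 := rho_ge hn0 (hw1 i) (by norm_num : (0 : ℝ) ≤ 2) (h i).le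
      refine le_trans ?_ h3
      rw [le_div_iff₀ (by positivity)]
      have : (2 : ℝ) / n ≤ 1 / 3 := by
        rw [div_le_iff₀ hn0]
        have := hL.hn
        linarith
      linarith
    have h2 : (3 / 2 : ℝ) ^ (j + 1) ≤ ∏ i ∈ Finset.range (j + 1), rho n (w i) := by
      have := Finset.prod_le_prod (s := Finset.range (j + 1)) (f := fun _ => (3 / 2 : ℝ))
        (g := fun i => rho n (w i)) (fun i _ => by norm_num) (fun i _ => h1 i)
      rw [Finset.prod_const, Finset.card_range] at this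
      exact this
    have h3 : (1 : ℝ) < (3 / 2) ^ (j + 1) := one_lt_pow₀ (by norm_num) (by omega)
    linarith
  obtain ⟨a, ha⟩ := hsmall
  have hbig : ∀ l, 1 ≤ l → l ≤ j → 2 < ‖w (a + l)‖ := by
    intro l hl1 hl2
    by_contra hcon
    push Not at hcon
    have h1 := hseg l a hl1 hl2 ha hcon
    have h2 := hseg (j + 1 - l) (a + l) (by omega) (by omega) hcon
      (by
        have e : a + l + (j + 1 - l) = a + (j + 1) := by omega
        rw [e, hwp]
        exact ha)
    have h3 := Finset.prod_range_add (fun i => rho n (w (a + i))) l (j + 1 - l)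
    rw [show l + (j + 1 - l) = j + 1 by omega] at h3
    have h4 := hprodA a
    rw [h3] at h4
    simp only [← add_assoc] at h4
    nlinarith
  obtain ⟨hu, hut⟩ := CLASS_.block hL hzj1 (fun l => w (a + l)) (fun l => hws (a + l))
    (fun l => hw1 _) (by simpa using ha) hbig (hprodA a)
  have hit : ∀ i, (E n L)^[i] (w a) = w (a + i) := by
    intro i
    rw [hw]
    simp only
    rw [← Function.iterate_add_apply, add_comm]
  have hW : W0 n L j (ui n (zz n L j) ((E n L)^[j] (w a))) = w a := by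
    apply coord h2n
    · intro i h1 h2
      exact ne_zero_of_big (hL.ge8 h1 h2)
    · exact hzz1
    · intro i hi
      rw [hit]
      exact hw1 _
    · intro i hi
      rw [hit]
      exact (hu i hi).trans (by norm_num)
  rw [hit] at hW
  set u : ℂ := ui n (zz n L j) (w (a + j)) with hudef
  have hu3 : ‖u‖ < 3 := lt_of_le_of_lt hut (by norm_num)
  have hG := lim_GDISC n j L u hL.hn hzz hu3
  have hueq : u * exp (GG n L j u - u) = zz n L (j + 1) * DD n L j := by
    have h1 : w a = zz n L (j + 1) * exp u := by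
      rw [← hwp a, ← add_assoc, hws, zz_succ]
      exact E_ui L hzj1 (hw1 _)
    have h2 := hG.2.2.1
    rw [hW, h1] at h2
    rw [exp_sub, ← mul_div_assoc, h2]
    field_simp
  refine ⟨u, hut, hueq, ?_⟩
  rcases eq_or_ne u 0 with h0 | h0
  · exact Or.inl h0
  right
  have hDD : DD n L j ≠ 0 := by
    refine Finset.prod_ne_zero_iff.mpr ?_
    intro i hi
    have hi' := Finset.mem_range.mp hi
    obtain ⟨h4, h5⟩ := hzz (i + 1) (by omega) (by omega)
    exact div_ne_zero (ne_zero_of_big h4) (hone _ h5)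
  have hev : ∀ᶠ v in 𝓝 u, v * exp (GG n L j v) = DD n L j * W0 n L j v ∧
      (E n L)^[j] (W0 n L j v) = n * ((1 + zz n L j / n) * exp (v / n) - 1) := by
    have hopen : IsOpen {v : ℂ | ‖v‖ < 3} := isOpen_lt continuous_norm continuous_const
    filter_upwards [hopen.mem_nhds hu3] with v hv
    have := lim_GDISC n j L v hL.hn hzz hv
    exact ⟨this.2.2.1, this.2.2.2.1⟩
  obtain ⟨_, _, m3⟩ := p_MU n j L u (GG n L j) h2n h0 hz1 hDD hG.2.2.2.2.1 hG.2.2.2.2.2.1 hev
    hueq
  rw [hW, deriv_F_iter h2n, (deriv_E_iter (by omega) L (w a) (j + 1)).deriv] at m3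
  have h6 := congrArg norm m3
  rw [norm_mul, norm_one, norm_prod] at h6
  have h7 : ∏ i ∈ Finset.range (j + 1), ‖exp L * (1 + (E n L)^[i] (w a) / n) ^ (n - 1)‖ ≤ 1 := by
    have h8 := hprodG a
    simp only [hit]
    rw [h8]
    exact hprodA a
  have h9 := norm_nonneg (1 / u + deriv (GG n L j) u)
  calc (1 : ℝ) = _ := h6.symm
    _ ≤ 1 * ‖1 / u + deriv (GG n L j) u‖ := mul_le_mul_of_nonneg_right h7 h9
    _ = _ := one_mul _

end Pool.Agent.Modu
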