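import Pool.Agent.Modu.Targets

/-!
# MODU: target CLOSE (two close points are in the same chart)
-/

set_option autoImplicit false

open Complex Filter Topology Set
open Pool.Agent.Multibrot Pool.Agent.Limb

namespace Pool.Agent.Modu

namespace CLOSE_

lemma XX_zero (n : ℕ) (L : ℂ) : XX n L 0 = 0 := by
  simp [XX, zz_zero]

lemma YY_zero_sub (n : ℕ) (s : ℕ → ℤ) (L1 L2 : ℂ) : YY n s L2 0 - YY n s L1 0 = L2 - L1 := by
  simp [YY, XX_zero]

lemma YY_sub (n : ℕ) (s : ℕ → ℤ) (L1 L2 : ℂ) (i : ℕ) :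
    YY n s L2 i - YY n s L1 i = (XX n L2 i - XX n L1 i) + (L2 - L1) := by
  unfold YY; ring

/-- The mean value inequality for `u ↦ n log (1 + u / n)`. -/
lemma mvt (n : ℕ) (a : ℝ) (ha : 0 ≤ a) (hn : 0 < n) (han : 4 * a ≤ n) (z w : ℂ)
    (hz : ‖z‖ ≤ 2 * a) (hw : ‖w‖ ≤ 2 * a) :
    ‖(n : ℂ) * log (1 + w / n) - n * log (1 + z / n)‖ ≤ (1 + 4 * a / n) * ‖w - z‖ := by
  have hn' : (0 : ℝ) < n := by exact_mod_cast hn
  have hnc : (n : ℂ) ≠ 0 := by
    have : n ≠ 0 := hn.ne'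
    exact_mod_cast this
  have hbd : ∀ u ∈ Metric.closedBall (0 : ℂ) (2 * a), ‖u / (n : ℂ)‖ ≤ 2 * a / n := by
    intro u hu
    rw [Metric.mem_closedBall, dist_zero_right] at hu
    rw [norm_div, Complex.norm_natCast]
    gcongr
  have hhalf : 2 * a / (n : ℝ) ≤ 1 / 2 := by
    rw [div_le_iff₀ hn']
    linarith
  refine Convex.norm_image_sub_le_of_norm_hasDerivWithin_le
    (f := fun u : ℂ => (n : ℂ) * log (1 + u / n)) (f' := fun u : ℂ => 1 / (1 + u / n))
    (s := Metric.closedBall (0 : ℂ) (2 * a)) (C := 1 + 4 * a / n) ?_ ?_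
    (convex_closedBall _ _) ?_ ?_
  · intro u hu
    have h1 := hbd u hu
    have h2 : (1 + u / (n : ℂ)) ∈ slitPlane := mem_slitPlane_of_norm_lt_one (by linarith)
    have h3 : HasDerivAt (fun u : ℂ => 1 + u / (n : ℂ)) (1 / (n : ℂ)) u :=
      ((hasDerivAt_id u).div_const (n : ℂ)).const_add 1
    have h4 := (h3.clog h2).const_mul (n : ℂ)
    have h5 : (n : ℂ) * (1 / (n : ℂ) / (1 + u / n)) = 1 / (1 + u / n) := by
      field_simp
    rw [h5] at h4
    exact h4.hasDerivWithinAt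
  · intro u hu
    have h1 := hbd u hu
    have h2 : 1 - 2 * a / n ≤ ‖1 + u / (n : ℂ)‖ := by
      have h3 : ‖(1 : ℂ)‖ ≤ ‖1 + u / (n : ℂ)‖ + ‖u / (n : ℂ)‖ := by
        have h4 := norm_sub_le (1 + u / (n : ℂ)) (u / (n : ℂ))
        rw [add_sub_cancel_right] at h4
        exact h4
      rw [norm_one] at h3
      linarith
    have h3 : 0 < ‖1 + u / (n : ℂ)‖ := by linarith
    rw [norm_div, norm_one, div_le_iff₀ h3]
    have h4 : 4 * a / (n : ℝ) = 2 * (2 * a / n) := by ring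
    rw [h4]
    have h5 : 0 ≤ 2 * a / (n : ℝ) := by positivity
    generalize 2 * a / (n : ℝ) = x at *
    nlinarith
  · rw [Metric.mem_closedBall, dist_zero_right]; exact hz
  · rw [Metric.mem_closedBall, dist_zero_right]; exact hw

lemma expstep (z d : ℂ) (hd : ‖d‖ ≤ 1 / 2) : ‖z * exp d - z‖ ≤ ‖z‖ * (‖d‖ * (1 + ‖d‖)) := by
  have h1 : z * exp d - z = z * ((exp d - 1 - d) + d) := by ring
  rw [h1, norm_mul]
  have h2 : ‖exp d - 1 - d‖ ≤ ‖d‖ ^ 2 := Complex.norm_exp_sub_one_sub_id_le (by linarith)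
  have h3 := norm_add_le (exp d - 1 - d) d
  have h4 : ‖exp d - 1 - d + d‖ ≤ ‖d‖ * (1 + ‖d‖) := by nlinarith
  exact mul_le_mul_of_nonneg_left h4 (norm_nonneg _)

/-- The charts of `L2` from the margins of `L1`. -/
lemma mkCh (n : ℕ) (s : ℕ → ℤ) (i : ℕ) (L1 L2 : ℂ) (hn : (10 : ℝ) ^ 20 ≤ n)
    (h0 : |(s 0 : ℝ)| ≤ 1)
    (hr : ∀ j, j ≤ i → rr s j + 1 ≤ (YY n s L1 j).re)
    (hi : ∀ j, j < i → |(YY n s L1 j).im| ≤ 8 / 5)
    (him : |(YY n s L1 i).im| ≤ 9)
    (hle : ∀ j, j ≤ i → (YY n s L1 j).re + 1 / 50 ≤ Real.log (4 * n))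
    (hd : ∀ j, j ≤ i → ‖YY n s L2 j - YY n s L1 j‖ ≤ 1 / 50) : Ch n s i L2 := by
  have hre : ∀ j, j ≤ i → |(YY n s L2 j).re - (YY n s L1 j).re| ≤ 1 / 50 := by
    intro j hj
    have h1 := Complex.abs_re_le_norm (YY n s L2 j - YY n s L1 j)
    rw [Complex.sub_re] at h1
    exact h1.trans (hd j hj)
  have hiim : ∀ j, j ≤ i → |(YY n s L2 j).im - (YY n s L1 j).im| ≤ 1 / 50 := by
    intro j hj
    have h1 := Complex.abs_im_le_norm (YY n s L2 j - YY n s L1 j)
    rw [Complex.sub_im] at h1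
    exact h1.trans (hd j hj)
  refine ⟨hn, h0, ?_, ?_, ?_, ?_⟩
  · intro j hj
    have h1 := abs_le.mp (hre j hj)
    have h2 := hr j hj
    linarith [h1.1]
  · intro j hj
    have h1 := abs_le.mp (hiim j hj.le)
    have h2 := abs_le.mp (hi j hj)
    rw [abs_le]
    constructor
    · linarith [h1.1, h2.1]
    · linarith [h1.2, h2.2]
  · have h1 := abs_le.mp (hiim i le_rfl)
    have h2 := abs_le.mp him
    rw [abs_le]
    constructor
    · linarith [h1.1, h2.1]
    · linarith [h1.2, h2.2]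
  · intro j hj
    have h1 := abs_le.mp (hre j hj)
    have h2 := hle j hj
    linarith [h1.2]

/-- The arithmetic of one step. -/
lemma arith (c d a N e P D : ℝ) (_hc1 : 1 ≤ c) (hc2 : c ≤ 101 / 100) (hd0 : 0 ≤ d)
    (ha : 0 < a) (hN : 0 < N) (he : 0 < e) (he1 : e ≤ 1) (hP : 1 ≤ P) (hD : 0 ≤ D)
    (hd : d ≤ c * P * D) (hPD : P * a * D ≤ 1 / 100) (hae : 1000 ≤ a * e)
    (haN : a * 10 ^ 5 ≤ e * N) :
    (1 + 4 * a / N) * (a * (d * (1 + d))) + D ≤ (c + e / 200) * (P * a) * D := by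
  -- `d ≤ e / 10 ^ 4`
  have hPD' : P * D ≤ e / 10 ^ 5 := by
    have h1 : (P * D) * a * e ≤ 1 / 100 * e := by
      have : (P * D) * a = P * a * D := by ring
      rw [this]
      exact mul_le_mul_of_nonneg_right hPD he.le
    have h2 : (P * D) * 1000 ≤ (P * D) * (a * e) :=
      mul_le_mul_of_nonneg_left hae (by positivity)
    nlinarith
  have hd1 : d ≤ e / 10 ^ 4 := by
    have h1 : c * P * D ≤ 101 / 100 * (P * D) := by
      have : c * P * D = c * (P * D) := by ring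
      rw [this]
      exact mul_le_mul_of_nonneg_right hc2 (by positivity)
    linarith
  have hq : 4 * a / N ≤ e / 10 ^ 4 := by
    rw [div_le_iff₀ hN]
    nlinarith
  have hq0 : 0 ≤ 4 * a / N := by positivity
  have hprod : (1 + 4 * a / N) * (1 + d) ≤ 1 + 3 * (e / 10 ^ 4) := by
    have h1 : (1 + 4 * a / N) * (1 + d) ≤ (1 + e / 10 ^ 4) * (1 + e / 10 ^ 4) := by
      apply mul_le_mul <;> linarith
    nlinarith
  have h1 : (1 + 4 * a / N) * (a * (d * (1 + d))) ≤ (1 + 3 * (e / 10 ^ 4)) * (a * (c * P * D)) := by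
    have h2 : (1 + 4 * a / N) * (a * (d * (1 + d))) = ((1 + 4 * a / N) * (1 + d)) * (a * d) := by
      ring
    rw [h2]
    apply mul_le_mul hprod _ (by positivity) (by positivity)
    exact mul_le_mul_of_nonneg_left hd ha.le
  have h3 : D ≤ (e / 1000) * (P * a) * D := by
    have h4 : 1 ≤ (e / 1000) * (P * a) := by
      have h5 : 1 * (a * e) ≤ P * (a * e) := mul_le_mul_of_nonneg_right hP (by positivity)
      nlinarith
    have h5 := mul_le_mul_of_nonneg_right h4 hD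
    linarith
  have h6 : (1 + 3 * (e / 10 ^ 4)) * (a * (c * P * D)) ≤ (c + e / 1000) * (P * a) * D := by
    have h7 : (1 + 3 * (e / 10 ^ 4)) * (a * (c * P * D)) = ((1 + 3 * (e / 10 ^ 4)) * c) * (P * a * D) := by
      ring
    have h8 : (c + e / 1000) * (P * a) * D = (c + e / 1000) * (P * a * D) := by ring
    rw [h7, h8]
    apply mul_le_mul_of_nonneg_right _ (by positivity)
    nlinarith
  have h9 : (c + e / 1000) * (P * a) * D + (e / 1000) * (P * a) * D ≤ (c + e / 200) * (P * a) * D := by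
    have h10 : (c + e / 1000) * (P * a) * D + (e / 1000) * (P * a) * D = (c + e / 500) * (P * a * D) := by
      ring
    have h11 : (c + e / 200) * (P * a) * D = (c + e / 200) * (P * a * D) := by ring
    rw [h10, h11]
    apply mul_le_mul_of_nonneg_right _ (by positivity)
    linarith
  linarith

end CLOSE_

open CLOSE_ in
theorem p_CLOSE (h1 : T_CHP) (h2 : T_LN) : T_CLOSE := by
  intro n s κ L1 L2 hC hmar him hre hprod
  obtain ⟨-, -, hz, hA, hB, hE, -, hrr, -⟩ := h1 n s κ L1 hC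
  obtain ⟨-, hl4, hl3, hsq⟩ := h2 n hC.hn
  obtain ⟨P, hPdef⟩ : ∃ P : ℕ → ℝ, P = fun i => ∏ l ∈ Finset.range i, ‖zz n L1 (l + 1)‖ := ⟨_, rfl⟩
  obtain ⟨D, hDdef⟩ : ∃ D : ℝ, D = ‖L2 - L1‖ := ⟨_, rfl⟩
  have hPκ : (∏ i ∈ Finset.range κ, ‖zz n L1 (i + 1)‖) = P κ := by rw [hPdef]
  rw [hPκ, ← hDdef] at hprod
  rw [hPκ, ← hDdef]
  have hD0 : 0 ≤ D := by rw [hDdef]; exact norm_nonneg _
  have hnpos : (0 : ℝ) < n := lt_of_lt_of_le (by positivity) hC.hn
  have hnN : 0 < n := by exact_mod_cast hnpos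
  have hP0 : P 0 = 1 := by rw [hPdef]; simp
  have hPs : ∀ i, P (i + 1) = P i * ‖zz n L1 (i + 1)‖ := by
    intro i
    rw [hPdef]
    exact Finset.prod_range_succ _ _
  -- growth
  have hy : ∀ i, i ≤ κ → 21 * (100 : ℝ) ^ i ≤ (YY n s L1 i).re := by
    intro i
    induction i with
    | zero =>
      intro _
      have := hC.hr 0 (Nat.zero_le _)
      simp only [rr] at this
      simpa using this
    | succ i ih =>
      intro hi
      have e1 := ih (by omega)
      have e2 := (hB i (by omega)).2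
      rw [pow_succ]
      linarith
  have hmar' : ∀ j, j ≤ κ → rr s j + 1 ≤ (YY n s L1 j).re := by
    intro j hj
    rcases Nat.lt_or_ge j κ with h | h
    · exact hE j h
    · have : j = κ := le_antisymm hj h
      rw [this]; exact hmar
  have hlog : ∀ j, j ≤ κ → (YY n s L1 j).re + 1 / 50 ≤ Real.log (4 * n) := by
    intro j hj
    rcases Nat.lt_or_ge j κ with h | h
    · have e1 := (hB j h).2
      have e2 := hC.hle (j + 1) h
      have e3 := hy j hj
      have e4 : (1 : ℝ) ≤ 100 ^ j := one_le_pow₀ (by norm_num)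
      linarith
    · have : j = κ := le_antisymm hj h
      rw [this]
      have e1 : Real.log 3 + 1 / 50 ≤ Real.log 4 := by
        have e2 : Real.log 4 - Real.log 3 = Real.log (4 / 3) := by
          rw [Real.log_div] <;> norm_num
        have e3 := Real.one_sub_inv_le_log_of_pos (show (0 : ℝ) < 4 / 3 by norm_num)
        norm_num at e3
        linarith
      linarith
  have ha1 : ∀ i, i < κ → 1000 * 2 ^ i ≤ ‖zz n L1 (i + 1)‖ := by
    intro i hi
    rw [hz i hi.le]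
    have e1 := hy i hi.le
    have e0 : (1 : ℝ) ≤ 100 ^ i := one_le_pow₀ (by norm_num)
    have e2 : (0 : ℝ) ≤ (YY n s L1 i).re := by linarith
    have e3 := Real.pow_div_factorial_le_exp _ e2 3
    have e4 : (21 * (100 : ℝ) ^ i) ^ 3 ≤ (YY n s L1 i).re ^ 3 :=
      pow_le_pow_left₀ (by positivity) e1 3
    have e5 : (2 : ℝ) ^ i ≤ (100 : ℝ) ^ i := pow_le_pow_left₀ (by norm_num) (by norm_num) i
    have e6 : (2 : ℝ) ^ i ≤ ((100 : ℝ) ^ i) ^ 3 := by
      have : (100 : ℝ) ^ i ≤ ((100 : ℝ) ^ i) ^ 3 := le_self_pow₀ e0 (by norm_num)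
      linarith
    have e7 : ((3 : ℕ).factorial : ℝ) = 6 := by norm_num [Nat.factorial]
    rw [e7] at e3
    have e8 : (21 * (100 : ℝ) ^ i) ^ 3 = 9261 * ((100 : ℝ) ^ i) ^ 3 := by ring
    rw [e8] at e4
    have e9 : (0 : ℝ) < 2 ^ i := by positivity
    linarith
  have ha2 : ∀ i, i < κ → ‖zz n L1 (i + 1)‖ * 10 ^ 5 ≤ (1 / 2) ^ i * n := by
    intro i hi
    rw [hz i hi.le]
    have e1 := (hB i hi).1
    have e2 := hC.hle (i + 1) hi
    have e3 := hy i hi.le
    have e4 := hC.hle i hi.le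
    have e5 : (2 : ℝ) ^ i ≤ (100 : ℝ) ^ i := pow_le_pow_left₀ (by norm_num) (by norm_num) i
    have e6 : (0 : ℝ) < 2 ^ i := by positivity
    have e7 : (2 : ℝ) ^ i ≤ Real.log (4 * n) := by linarith
    have e8 : Real.exp (YY n s L1 i).re ≤ 6002 * Real.log (4 * n) := by linarith
    have e9 : Real.exp (YY n s L1 i).re * 2 ^ i ≤ 6002 * Real.log (4 * n) * Real.log (4 * n) :=
      mul_le_mul e8 e7 e6.le (by linarith)
    have e10 : Real.exp (YY n s L1 i).re * 2 ^ i * 10 ^ 5 ≤ n := by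
      have e11 : 6002 * Real.log (4 * n) * Real.log (4 * n) = 6002 * (Real.log (4 * n)) ^ 2 := by
        ring
      rw [e11] at e9
      have e12 : (n : ℝ) / 10 ^ 16 * 6002 * 10 ^ 5 ≤ n := by
        have : (n : ℝ) / 10 ^ 16 * 6002 * 10 ^ 5 = n * (6002 * 10 ^ 5 / 10 ^ 16) := by ring
        rw [this]
        have e13 : (6002 * 10 ^ 5 / 10 ^ 16 : ℝ) ≤ 1 := by norm_num
        nlinarith
      linarith
    have e14 : ((1 : ℝ) / 2) ^ i * 2 ^ i = 1 := by
      rw [← mul_pow]; norm_num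
    have e15 : (0 : ℝ) < (1 / 2) ^ i := by positivity
    calc Real.exp (YY n s L1 i).re * 10 ^ 5
        = (1 / 2) ^ i * 2 ^ i * (Real.exp (YY n s L1 i).re * 10 ^ 5) := by rw [e14, one_mul]
      _ = (1 / 2) ^ i * (Real.exp (YY n s L1 i).re * 2 ^ i * 10 ^ 5) := by ring
      _ ≤ (1 / 2) ^ i * n := mul_le_mul_of_nonneg_left e10 e15.le
  have hone : ∀ i, i < κ → 1 ≤ ‖zz n L1 (i + 1)‖ := by
    intro i hi
    have e1 := ha1 i hi
    have e2 : (1 : ℝ) ≤ 2 ^ i := one_le_pow₀ (by norm_num)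
    linarith
  have hP1 : ∀ i, i ≤ κ → 1 ≤ P i := by
    intro i
    induction i with
    | zero => intro _; rw [hP0]
    | succ i ih =>
      intro hi
      rw [hPs]
      have e1 := ih (by omega)
      have e2 := hone i hi
      nlinarith
  have hPm : ∀ m j, j + m ≤ κ → P j ≤ P (j + m) := by
    intro m
    induction m with
    | zero => intro j _; simp
    | succ m ih =>
      intro j hj
      have e1 := ih j (by omega)
      have e2 : P (j + (m + 1)) = P (j + m) * ‖zz n L1 (j + m + 1)‖ := hPs (j + m)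
      rw [e2]
      have e3 := hone (j + m) (by omega)
      have e4 := hP1 (j + m) (by omega)
      nlinarith
  have hPD : ∀ j, j ≤ κ → P j * D ≤ 1 / 100 := by
    intro j hj
    have e1 := hPm (κ - j) j (by omega)
    have e2 : j + (κ - j) = κ := by omega
    rw [e2] at e1
    exact (mul_le_mul_of_nonneg_right e1 hD0).trans hprod
  have hcb : ∀ i : ℕ, 1 ≤ 1 + (1 - (1 / 2 : ℝ) ^ i) / 100 ∧
      1 + (1 - (1 / 2 : ℝ) ^ i) / 100 ≤ 101 / 100 := by
    intro i
    have e1 : (1 / 2 : ℝ) ^ i ≤ 1 := pow_le_one₀ (by norm_num) (by norm_num)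
    have e2 : (0 : ℝ) < (1 / 2 : ℝ) ^ i := by positivity
    constructor <;> linarith
  have hsmall : ∀ j, j ≤ κ →
      ‖YY n s L2 j - YY n s L1 j‖ ≤ (1 + (1 - (1 / 2 : ℝ) ^ j) / 100) * P j * D →
      ‖YY n s L2 j - YY n s L1 j‖ ≤ 1 / 50 := by
    intro j hj h
    have e1 := hPD j hj
    have e2 : (1 + (1 - (1 / 2 : ℝ) ^ j) / 100) * P j * D ≤ 101 / 100 * (P j * D) := by
      rw [mul_assoc]
      exact mul_le_mul_of_nonneg_right (hcb j).2 (mul_nonneg (by linarith [hP1 j hj]) hD0)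
    linarith
  have key : ∀ i, i ≤ κ → (∀ j, j ≤ i → ‖YY n s L2 j - YY n s L1 j‖ ≤
      (1 + (1 - (1 / 2 : ℝ) ^ j) / 100) * P j * D) := by
    intro i
    induction i with
    | zero =>
      intro _ j hj
      have : j = 0 := by omega
      subst this
      rw [YY_zero_sub, hP0, ← hDdef]
      norm_num
    | succ i ih =>
      intro hi j hj
      have ih' := ih (by omega)
      rcases Nat.lt_or_ge j (i + 1) with h | h
      · exact ih' j (by omega)
      have hji : j = i + 1 := le_antisymm hj h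
      rw [hji]
      have hiκ : i < κ := hi
      have hCi : Ch n s i L2 := by
        refine mkCh n s i L1 L2 hC.hn hC.h0 (fun j hj => hmar' j (by omega))
          (fun j hj => (hA j (by omega)).2) ?_ (fun j hj => hlog j (by omega))
          (fun j hj => hsmall j (by omega) (ih' j hj))
        have := (hA i hiκ).2
        linarith
      have hz2 := (h1 n s i L2 hCi).2.1 i le_rfl
      have hz1 := (h1 n s κ L1 hC).2.1 i hiκ.le
      have hdi := hsmall i hiκ.le (ih' i le_rfl)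
      obtain ⟨δ, hδ⟩ : ∃ δ : ℂ, δ = YY n s L2 i - YY n s L1 i := ⟨_, rfl⟩
      have hz21 : zz n L2 (i + 1) = zz n L1 (i + 1) * exp δ := by
        rw [← hz2, ← hz1, ← Complex.exp_add, hδ]
        congr 1
        ring
      have hdδ : ‖δ‖ ≤ 1 / 50 := by rw [hδ]; exact hdi
      have hst := expstep (zz n L1 (i + 1)) δ (by linarith)
      rw [← hz21] at hst
      have ha0 : 0 < ‖zz n L1 (i + 1)‖ := by linarith [hone i hiκ]
      have e1 : ‖δ‖ * (1 + ‖δ‖) ≤ 1 := by nlinarith [norm_nonneg δ]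
      have hw : ‖zz n L2 (i + 1)‖ ≤ 2 * ‖zz n L1 (i + 1)‖ := by
        have e2 : ‖zz n L2 (i + 1)‖ ≤ ‖zz n L2 (i + 1) - zz n L1 (i + 1)‖ + ‖zz n L1 (i + 1)‖ := by
          have := norm_add_le (zz n L2 (i + 1) - zz n L1 (i + 1)) (zz n L1 (i + 1))
          rwa [sub_add_cancel] at this
        have e3 : ‖zz n L1 (i + 1)‖ * (‖δ‖ * (1 + ‖δ‖)) ≤ ‖zz n L1 (i + 1)‖ * 1 :=
          mul_le_mul_of_nonneg_left e1 ha0.le
        linarith
      have h4a : 4 * ‖zz n L1 (i + 1)‖ ≤ n := by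
        have e2 := ha2 i hiκ
        have e3 : (1 / 2 : ℝ) ^ i ≤ 1 := pow_le_one₀ (by norm_num) (by norm_num)
        nlinarith
      have hm := mvt n ‖zz n L1 (i + 1)‖ ha0.le hnN h4a (zz n L1 (i + 1)) (zz n L2 (i + 1))
        (by linarith) hw
      have hX : ‖XX n L2 (i + 1) - XX n L1 (i + 1)‖ ≤
          (1 + 4 * ‖zz n L1 (i + 1)‖ / n) * (‖zz n L1 (i + 1)‖ * (‖δ‖ * (1 + ‖δ‖))) := by
        unfold XX
        exact hm.trans (mul_le_mul_of_nonneg_left hst (by positivity))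
      have hY : ‖YY n s L2 (i + 1) - YY n s L1 (i + 1)‖ ≤
          (1 + 4 * ‖zz n L1 (i + 1)‖ / n) * (‖zz n L1 (i + 1)‖ * (‖δ‖ * (1 + ‖δ‖))) + D := by
        rw [YY_sub, hDdef]
        exact (norm_add_le _ _).trans (by linarith)
      refine hY.trans ?_
      have hδ' : ‖δ‖ ≤ (1 + (1 - (1 / 2 : ℝ) ^ i) / 100) * P i * D := by
        rw [hδ]; exact ih' i le_rfl
      have hPa : P i * ‖zz n L1 (i + 1)‖ * D ≤ 1 / 100 := by
        rw [← hPs]; exact hPD (i + 1) hi
      have hae : 1000 ≤ ‖zz n L1 (i + 1)‖ * (1 / 2 : ℝ) ^ i := by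
        have e2 := ha1 i hiκ
        have e3 : (1000 * 2 ^ i : ℝ) * (1 / 2 : ℝ) ^ i = 1000 := by
          rw [mul_assoc, ← mul_pow]; norm_num
        have e4 := mul_le_mul_of_nonneg_right e2 (show (0 : ℝ) ≤ (1 / 2) ^ i by positivity)
        linarith
      have har := arith (1 + (1 - (1 / 2 : ℝ) ^ i) / 100) ‖δ‖ ‖zz n L1 (i + 1)‖ n
        ((1 / 2 : ℝ) ^ i) (P i) D (hcb i).1 (hcb i).2 (norm_nonneg _) ha0 hnpos (by positivity)
        (pow_le_one₀ (by norm_num) (by norm_num)) (hP1 i hiκ.le) hD0 hδ' hPa hae (ha2 i hiκ)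
      refine har.trans (le_of_eq ?_)
      rw [hPs, pow_succ]
      ring
  have hfin := key κ le_rfl
  refine ⟨mkCh n s κ L1 L2 hC.hn hC.h0 hmar' (fun j hj => (hA j hj).2) him hlog
    (fun j hj => hsmall j hj (hfin j hj)), ?_⟩
  have e1 := hfin κ le_rfl
  have e2 : (1 + (1 - (1 / 2 : ℝ) ^ κ) / 100) * P κ * D ≤ 11 / 10 * (P κ * D) := by
    rw [mul_assoc]
    exact mul_le_mul_of_nonneg_right (by linarith [(hcb κ).2])
      (mul_nonneg (by linarith [hP1 κ le_rfl]) hD0)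
  linarith

end Pool.Agent.Modu
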