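import Pool.Agent.Modu.Basic

/-!
# MODU: comparison of two points of a chart when one moves to the left
-/

set_option autoImplicit false

open Complex Filter Topology Set
open Pool.Agent.Multibrot Pool.Agent.Limb

namespace Pool.Agent.Modu

namespace COMP_

lemma norm_le_add {X X' : ℂ} (h0 : 0 ≤ X.re) (h1 : 0 ≤ X'.re) (h2 : X'.re ≤ X.re + 20 + 1 / 1000)
    (h3 : |X'.im - X.im| ≤ 24) : ‖X'‖ ≤ ‖X‖ + 45 := by
  have e1 : ‖X‖ ^ 2 = X.re * X.re + X.im * X.im := by
    rw [Complex.sq_norm, Complex.normSq_apply]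
  have e2 : ‖X'‖ ^ 2 = X'.re * X'.re + X'.im * X'.im := by
    rw [Complex.sq_norm, Complex.normSq_apply]
  have f1 : X.re ≤ ‖X‖ := Complex.re_le_norm X
  have f2 : |X.im| ≤ ‖X‖ := Complex.abs_im_le_norm X
  have f3 : |X'.im| ≤ |X.im| + 24 := by
    have := abs_sub_abs_le_abs_sub X'.im X.im
    linarith
  have g1 : X'.re * X'.re ≤ (X.re + 20 + 1 / 1000) * (X.re + 20 + 1 / 1000) :=
    mul_le_mul h2 h2 h1 (by linarith)
  have g2 : X'.im * X'.im ≤ (|X.im| + 24) * (|X.im| + 24) := by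
    rw [← abs_mul_abs_self X'.im]
    exact mul_le_mul f3 f3 (abs_nonneg _) (by positivity)
  have g3 : X.im * X.im = |X.im| * |X.im| := (abs_mul_abs_self X.im).symm
  have h4 : ‖X'‖ ^ 2 ≤ (‖X‖ + 45) ^ 2 := by
    nlinarith
  exact (pow_le_pow_iff_left₀ (norm_nonneg _) (by positivity) two_ne_zero).1 h4

/-- the comparison at the last level -/
lemma top (_ : T_CHP) (h2 : T_LIP) {n : ℕ} {s : ℕ → ℤ} {k : ℕ} {L L' : ℂ}
    (hL : Ch n s k L) (hL' : Ch n s k L')
    (hY : (YY n s L' k).re ≤ (YY n s L k).re + 20) (hk : 1 ≤ k) :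
    (XX n L' k).re ≤ (XX n L k).re + max 0 ((YY n s L' k).re - (YY n s L k).re) + 1 / 1000 := by
  have hlip := h2 n s k L L' hL hL' 0 (Nat.zero_le k)
  have e0 : YY n s L' 0 - YY n s L 0 = L' - L := by
    rw [YY_zero, YY_zero]; ring
  rw [e0] at hlip
  have hp : ((1 : ℝ) / 10 ^ 7) ^ (k - 0) ≤ 1 / 10 ^ 7 := by
    rw [Nat.sub_zero]
    calc ((1 : ℝ) / 10 ^ 7) ^ k ≤ (1 / 10 ^ 7) ^ 1 :=
          pow_le_pow_of_le_one (by norm_num) (by norm_num) hk
      _ = 1 / 10 ^ 7 := pow_one _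
  have hY2 : ‖YY n s L' k - YY n s L k‖ ≤
      |(YY n s L' k).re - (YY n s L k).re| + 20 := by
    have := Complex.norm_le_abs_re_add_abs_im (YY n s L' k - YY n s L k)
    rw [sub_re, sub_im] at this
    have h3 := abs_sub (YY n s L' k).im (YY n s L k).im
    have h4 := hL.him
    have h5 := hL'.him
    linarith
  have hd : |L'.re - L.re| ≤ 1 / 10 ^ 7 * (|(YY n s L' k).re - (YY n s L k).re| + 20) := by
    have h3 := Complex.abs_re_le_norm (L' - L)
    rw [sub_re] at h3
    refine h3.trans (hlip.trans ?_)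
    exact mul_le_mul hp hY2 (norm_nonneg _) (by positivity)
  have r1 := YY_re n s L k
  have r2 := YY_re n s L' k
  have hd2 := (abs_le.1 hd).1
  rcases le_total 0 ((YY n s L' k).re - (YY n s L k).re) with h | h
  · rw [max_eq_right h]
    rw [abs_of_nonneg h] at hd2
    linarith
  · rw [max_eq_left h]
    rw [abs_of_nonpos h] at hd2
    linarith

lemma imx (h1 : T_CHP) {n : ℕ} {s : ℕ → ℤ} {k : ℕ} {L L' : ℂ}
    (hL : Ch n s k L) (hL' : Ch n s k L') {i : ℕ} (hi1 : 1 ≤ i) (hik : i ≤ k) :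
    |(XX n L' i).im - (XX n L i).im| ≤ 24 := by
  obtain ⟨-, -, -, c4, -⟩ := h1 n s k L hL
  obtain ⟨-, -, -, c4', -⟩ := h1 n s k L' hL'
  have a0 := (c4 0 (by omega)).2
  have a0' := (c4' 0 (by omega)).2
  rw [YY_zero_im] at a0 a0'
  have b : |(YY n s L i).im| ≤ 10 := by
    rcases Nat.lt_or_ge i k with h | h
    · exact (hL.hi i h).trans (by norm_num)
    · have : i = k := by omega
      rw [this]; exact hL.him
  have b' : |(YY n s L' i).im| ≤ 10 := by
    rcases Nat.lt_or_ge i k with h | h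
    · exact (hL'.hi i h).trans (by norm_num)
    · have : i = k := by omega
      rw [this]; exact hL'.him
  have r1 := YY_im n s L i
  have r2 := YY_im n s L' i
  rw [abs_le] at a0 a0' b b' ⊢
  constructor <;> linarith [a0.1, a0.2, a0'.1, a0'.2, b.1, b.2, b'.1, b'.2]

lemma step (h1 : T_CHP) (h2 : T_LIP) {n : ℕ} {s : ℕ → ℤ} {i : ℕ} {L L' : ℂ}
    (hL : Ch n s (i + 1) L) (hL' : Ch n s (i + 1) L')
    (hY : (YY n s L' (i + 1)).re ≤ (YY n s L (i + 1)).re + 20) :
    (YY n s L' i).re ≤ (YY n s L i).re + 1 / 1000 := by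
  have hx := top h1 h2 hL hL' hY (by omega)
  have hx2 : (XX n L' (i + 1)).re ≤ (XX n L (i + 1)).re + 20 + 1 / 1000 := by
    have : max 0 ((YY n s L' (i + 1)).re - (YY n s L (i + 1)).re) ≤ 20 :=
      max_le (by norm_num) (by linarith)
    linarith
  have him := imx h1 hL hL' (i := i + 1) (by omega) le_rfl
  obtain ⟨-, -, c3, -, -, c6, c7, c8, -⟩ := h1 n s (i + 1) L hL
  obtain ⟨-, -, c3', -, -, -, c7', -, -⟩ := h1 n s (i + 1) L' hL'
  obtain ⟨p1, p2, p3, p4, p5⟩ := c7 (i + 1) (by omega) le_rfl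
  obtain ⟨q1, q2, q3, q4, q5⟩ := c7' (i + 1) (by omega) le_rfl
  have hr := hL.hr (i + 1) le_rfl
  have hr' := hL'.hr (i + 1) le_rfl
  have hrr := rr_ge s (i + 1)
  have hn := norm_le_add (X := XX n L (i + 1)) (X' := XX n L' (i + 1)) (by linarith)
    (by linarith) hx2 him
  have hz' : ‖zz n L' (i + 1)‖ ≤ ‖XX n L' (i + 1)‖ + 1 / 10 ^ 6 := by
    have := norm_sub_norm_le (zz n L' (i + 1)) (XX n L' (i + 1))
    linarith
  have hz : ‖XX n L (i + 1)‖ ≤ ‖zz n L (i + 1)‖ + 1 / 10 ^ 6 := by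
    have := norm_sub_norm_le (XX n L (i + 1)) (zz n L (i + 1))
    rw [norm_sub_rev] at this
    linarith
  have e1 := c3 i (by omega)
  have e1' := c3' i (by omega)
  have hle : Real.exp (YY n s L' i).re ≤ Real.exp (YY n s L i).re + 46 := by
    rw [← e1, ← e1']
    linarith
  have hbig : (10 : ℝ) ^ 6 ≤ Real.exp (YY n s L i).re := by
    have g1 : (21 : ℝ) ≤ (YY n s L i).re := by
      have := hL.hr i (by omega)
      have := rr_ge s i
      linarith
    have g2 : Real.exp 21 ≤ Real.exp (YY n s L i).re := Real.exp_le_exp.2 g1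
    have g3 : (2 : ℝ) ^ 21 ≤ Real.exp 21 := by
      have : Real.exp 21 = (Real.exp 1) ^ 21 := by
        rw [← Real.exp_nat_mul]; norm_num
      rw [this]
      exact pow_le_pow_left₀ (by norm_num) (by linarith [Real.add_one_le_exp (1 : ℝ)]) 21
    have g4 : (10 : ℝ) ^ 6 ≤ (2 : ℝ) ^ 21 := by norm_num
    linarith
  have hlast : Real.exp (YY n s L' i).re ≤ Real.exp ((YY n s L i).re + 1 / 1000) := by
    rw [Real.exp_add]
    have g5 := Real.add_one_le_exp (1 / 1000 : ℝ)
    have g6 : Real.exp (YY n s L i).re * (1 / 1000 + 1) ≤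
        Real.exp (YY n s L i).re * Real.exp (1 / 1000) :=
      mul_le_mul_of_nonneg_left g5 (Real.exp_pos _).le
    have g7 : (46 : ℝ) ≤ Real.exp (YY n s L i).re * (1 / 1000) := by
      norm_num at hbig
      linarith
    linarith
  exact Real.exp_le_exp.1 hlast

end COMP_

theorem p_COMP (h1 : T_CHP) (h2 : T_LIP) : T_COMP := by
  intro n s k L L' hL hL' hY
  have key : ∀ j i : ℕ, i + j = k → (YY n s L' i).re ≤ (YY n s L i).re + 20 := by
    intro j
    induction j with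
    | zero =>
      intro i hi
      have : i = k := by omega
      rw [this]
      exact hY
    | succ j ih =>
      intro i hi
      have := COMP_.step h1 h2 (hL.trunc (by omega)) (hL'.trunc (by omega))
        (ih (i + 1) (by omega))
      linarith
  refine ⟨fun i hi => ?_, fun i hi1 hik => COMP_.imx h1 hL hL' hi1 hik,
    fun hk => COMP_.top h1 h2 hL hL' hY hk⟩
  exact COMP_.step h1 h2 (hL.trunc (by omega)) (hL'.trunc (by omega))
    (key (k - (i + 1)) (i + 1) (by omega))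

end Pool.Agent.Modu
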