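import Pool.Agent.Modu.Basic

/-!
# CORE: from a point with small real part to the central disc
-/

set_option autoImplicit false

open Complex Filter Topology Set
open Pool.Agent.Multibrot Pool.Agent.Limb

namespace Pool.Agent.Modu

namespace CORE_

lemma cc_cont (n : ℕ) : Continuous (cc n) := by
  unfold cc ell
  fun_prop

lemma Mq_closed (n : ℕ) : IsClosed (Mq n) := (MM_closed n).preimage (cc_cont n)

lemma Mq_mem {n : ℕ} {L : ℂ} : L ∈ Mq n ↔ cc n L ∈ MM n := Iff.rfl

/-- A closed box inside `Mq n` is compact. -/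
lemma box_compact (n : ℕ) (a b : ℝ) :
    IsCompact {L : ℂ | L ∈ Mq n ∧ a ≤ L.re ∧ L.re ≤ b ∧ 0 ≤ L.im ∧ L.im ≤ 2 * Real.pi} := by
  apply Metric.isCompact_of_isClosed_isBounded
  · refine (Mq_closed n).inter ?_
    refine (isClosed_le continuous_const continuous_re).inter ?_
    refine (isClosed_le continuous_re continuous_const).inter ?_
    exact (isClosed_le continuous_const continuous_im).inter
      (isClosed_le continuous_im continuous_const)
  · rw [isBounded_iff_forall_norm_le]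
    refine ⟨|a| + |b| + 2 * Real.pi, ?_⟩
    rintro L ⟨_, h1, h2, h3, h4⟩
    refine (norm_le_abs_re_add_abs_im L).trans ?_
    have h5 : |L.re| ≤ |a| + |b| := by
      rw [abs_le]
      constructor
      · have := neg_abs_le a
        have := abs_nonneg b
        linarith
      · have := le_abs_self b
        have := abs_nonneg a
        linarith
    have h6 : |L.im| ≤ 2 * Real.pi := by
      rw [abs_of_nonneg h3]
      exact h4
    linarith

lemma re_le_log {n : ℕ} (hn : (10 : ℝ) ^ 20 ≤ n) {L : ℂ} (h : L ∈ Mq n) (h0 : 0 ≤ L.re) :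
    L.re ≤ Real.log (4 * n) := by
  have hn0 : (0 : ℝ) < n := lt_of_lt_of_le (by norm_num) hn
  have h1 := norm_zz_le hn h h0 1
  rw [zz_one, norm_exp] at h1
  have h2 := (Real.le_log_iff_exp_le (by positivity)).2 h1
  exact h2.trans (Real.log_le_log (by positivity) (by linarith))

lemma cc_norm_mono {n : ℕ} (hn : (10 : ℝ) ^ 20 ≤ n) {L L' : ℂ} (h : L.re ≤ L'.re) :
    ‖cc n L‖ ≤ ‖cc n L'‖ := by
  have h2 : (2 : ℝ) ≤ n := le_trans (by norm_num) hn
  have h2' : 2 ≤ n := by exact_mod_cast h2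
  rw [norm_cc h2', norm_cc h2']
  apply Real.exp_le_exp.2
  apply div_le_div_of_nonneg_right _ (by linarith)
  linarith

/-- Points of `Mq` in the closed strip, not in the disc, are in the open strip. -/
lemma mem_Mp (h : T_SLIT) {n : ℕ} (hn : (10 : ℝ) ^ 20 ≤ n) {L : ℂ} (hL : L ∈ Mq n)
    (h0 : 0 ≤ L.im) (h1 : L.im ≤ 2 * Real.pi) (h2 : ¬ (‖cc n L‖ ≤ r0 n ∧ L.re < -(1 / 2))) :
    L ∈ Mp n := by
  obtain ⟨_, _, h3, _⟩ := h n L hn
  refine ⟨hL, lt_of_le_of_ne h0 ?_, lt_of_le_of_ne h1 ?_⟩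
  · intro h4
    exact h2 (h3 hL ⟨0, by rw [← h4]; simp⟩)
  · intro h4
    exact h2 (h3 hL ⟨1, by rw [h4]; simp⟩)

lemma pi_le : 2 * Real.pi ≤ 10 := by
  have := Real.pi_lt_d2
  linarith

/-- The chart of level `0`. -/
lemma ch0 {n : ℕ} (hn : (10 : ℝ) ^ 20 ≤ n) {L : ℂ} (hL : L ∈ Mp n) (h0 : 21 ≤ L.re) :
    Ch n (fun _ => 0) 0 L := by
  obtain ⟨h1, h2, h3⟩ := hL
  have h4 := pi_le
  refine ⟨hn, by simp, ?_, ?_, ?_, ?_⟩
  · intro i hi
    have : i = 0 := by omega
    subst this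
    rw [YY_zero_re]
    exact h0
  · intro i hi
    omega
  · rw [YY_zero_im]
    simp only [Int.cast_zero, mul_zero, sub_zero]
    rw [abs_of_pos h2]
    linarith
  · intro i hi
    have : i = 0 := by omega
    subst this
    rw [YY_zero_re]
    exact re_le_log hn h1 (by linarith)

end CORE_

open CORE_ in
theorem p_CORE (h1 : T_RC) (h2 : T_TL) (h3 : T_SEPC) (h4 : T_NC) (h5 : T_SLIT) : T_CORE := by
  intro n α hα H p hp hp64
  have hn := hα.hn
  have hn2 : 2 ≤ n := by
    have : (2 : ℝ) ≤ n := le_trans (by norm_num) hn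
    exact_mod_cast this
  rcases le_or_gt p.re (-1) with hp1 | hp1
  · refine ⟨{p}, isPreconnected_singleton, ?_, mem_singleton p, ⟨p, mem_singleton p, hp1⟩, ?_⟩
    · intro x hx
      rw [mem_singleton_iff] at hx
      rw [hx]
      exact hp.1
    · intro L hL
      rw [mem_singleton_iff] at hL
      subst hL
      exact ⟨by linarith, min_le_right _ _, hp.2.1.le, hp.2.2.le⟩
  set X : Set ℂ := {L : ℂ | L ∈ Mq n ∧ (-1 : ℝ) ≤ L.re ∧ L.re ≤ 85 ∧ 0 ≤ L.im ∧
    L.im ≤ 2 * Real.pi} with hX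
  have hXc : IsCompact X := box_compact n (-1) 85
  have hpX : p ∈ X := ⟨hp.1, hp1.le, by linarith, hp.2.1.le, hp.2.2.le⟩
  by_cases hc : ∃ q ∈ connectedComponentIn X p, q.re = -1
  · obtain ⟨q, hq, hq1⟩ := hc
    have hs := connectedComponentIn_subset X p
    refine ⟨connectedComponentIn X p, isPreconnected_connectedComponentIn,
      fun L hL => (hs hL).1, mem_connectedComponentIn hpX, ⟨q, hq, hq1.le⟩, ?_⟩
    intro L hL
    obtain ⟨_, h6, h7, h8, h9⟩ := hs hL
    exact ⟨h7, (min_le_left _ _).trans h6, h8, h9⟩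
  · exfalso
    push Not at hc
    have hU : IsOpen {L : ℂ | -1 < L.re} := isOpen_lt continuous_const continuous_re
    have hsub : connectedComponentIn X p ⊆ {L : ℂ | -1 < L.re} := by
      intro L hL
      have h6 := (connectedComponentIn_subset X p hL).2.1
      exact lt_of_le_of_ne h6 (fun h => hc L hL h.symm)
    obtain ⟨K, hKX, hKc, hKc', hpK, hKU, hKY⟩ := h3.1 X _ p hXc hpX hU hsub
    -- no point of `K` is in the disc
    have hK1 : ∀ x ∈ K, ¬ ‖cc n x‖ ≤ r0 n := by
      intro x hx hx0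
      obtain ⟨h6, h7, h8, h9, h10⟩ := hKX hx
      set x' : ℂ := ⟨-1, x.im⟩ with hx'
      have hseg : segment ℝ x' x ⊆ X := by
        intro y hy
        obtain ⟨a, b, ha, hb, hab, rfl⟩ := hy
        have hre : (a • x' + b • x).re = a * (-1) + b * x.re := by
          simp [hx']
        have him : (a • x' + b • x).im = x.im := by
          simp only [add_im, real_smul, mul_im, ofReal_re, ofReal_im, zero_mul, add_zero, hx']
          rw [← add_mul, hab, one_mul]
        have hle : (a • x' + b • x).re ≤ x.re := by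
          rw [hre]
          nlinarith
        have hge : -1 ≤ (a • x' + b • x).re := by
          rw [hre]
          nlinarith
        refine ⟨(h5 n _ hn).2.1 ((cc_norm_mono hn hle).trans hx0), hge, by linarith, ?_, ?_⟩
        · rw [him]; exact h9
        · rw [him]; exact h10
      have h11 := hKY _ (convex_segment x' x).isPreconnected hseg
        ⟨x, right_mem_segment ℝ x' x, hx⟩ (left_mem_segment ℝ x' x)
      have h12 : -1 < x'.re := hKU h11
      simp [hx'] at h12
    have hKM : ∀ x ∈ K, x ∈ Mp n := by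
      intro x hx
      obtain ⟨h6, h7, h8, h9, h10⟩ := hKX hx
      exact mem_Mp h5 hn h6 h9 h10 (fun h => hK1 x hx h.1)
    have hlog : ∀ L ∈ Mq n, 60 ≤ L.re → L.re ≤ Real.log (4 * n) :=
      fun L hL h => re_le_log hn hL (by linarith)
    refine h2 (Mq n) K {L : ℂ | L ∈ Mq n ∧ (60 : ℝ) ≤ L.re ∧ L.re ≤ Real.log (4 * n) ∧ 0 ≤ L.im ∧
      L.im ≤ 2 * Real.pi} (fun L => L.re) 60 70 85 (by norm_num) (by norm_num) continuous_re
      (h4 n hn2) (fun x hx => (hKX hx).1) hKc ?_ (fun x hx => hx.1) (box_compact n _ _) ?_ ?_ ?_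
      ⟨p, hpK, by show p.re < 70; linarith⟩
    · intro x hx hx1
      have hxU : -1 < x.re := hKU hx
      obtain ⟨_, h6, h7⟩ := hKM x hx
      have e1 : ∀ᶠ y : ℂ in 𝓝 x, -1 < y.re := hU.mem_nhds hxU
      have e2 : ∀ᶠ y : ℂ in 𝓝 x, y.re < 85 :=
        (isOpen_lt continuous_re continuous_const).mem_nhds hx1
      have e3 : ∀ᶠ y : ℂ in 𝓝 x, 0 < y.im := (isOpen_lt continuous_const continuous_im).mem_nhds h6
      have e4 : ∀ᶠ y : ℂ in 𝓝 x, y.im < 2 * Real.pi :=
        (isOpen_lt continuous_im continuous_const).mem_nhds h7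
      have e5 : ∀ᶠ y : ℂ in 𝓝 x, y ∉ X \ K :=
        hKc'.isClosed.isOpen_compl.mem_nhds (fun h => h.2 hx)
      rw [eventually_nhdsWithin_iff]
      filter_upwards [e1, e2, e3, e4, e5] with y g1 g2 g3 g4 g5 hy
      by_contra hyK
      exact g5 ⟨⟨hy, g1.le, g2.le, g3.le, g4.le⟩, hyK⟩
    · rintro x ⟨g1, g2, g3, g4, g5⟩ hx1
      have g6 : x ∈ Mp n := mem_Mp h5 hn g1 g4 g5 (fun h => by linarith [h.2])
      have e1 : ∀ᶠ y : ℂ in 𝓝 x, 60 < y.re :=
        (isOpen_lt continuous_const continuous_re).mem_nhds hx1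
      have e3 : ∀ᶠ y : ℂ in 𝓝 x, 0 < y.im :=
        (isOpen_lt continuous_const continuous_im).mem_nhds g6.2.1
      have e4 : ∀ᶠ y : ℂ in 𝓝 x, y.im < 2 * Real.pi :=
        (isOpen_lt continuous_im continuous_const).mem_nhds g6.2.2
      rw [eventually_nhdsWithin_iff]
      filter_upwards [e1, e3, e4] with y g1 g3 g4 hy
      exact ⟨hy, g1.le, hlog y hy g1.le, g3.le, g4.le⟩
    · intro x hx hx1
      obtain ⟨h6, h7, h8, h9, h10⟩ := hKX hx
      exact ⟨h6, hx1, hlog x h6 hx1, h9, h10⟩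
    · intro Y hYV hYc hYp hY70 c1 hc1 c2 hc2 e1 e2 hc1K
      have hY : ∀ L ∈ Y, L ∈ Mp n ∧ Ch n (fun _ => 0) 0 L ∧
          rr (fun _ => 0) 0 + 30 ≤ (YY n (fun _ => 0) L 0).re ∧
          (YY n (fun _ => 0) L 0).im = α (0 + 1) L ∧ (0 : ℝ) ≤ ‖zz n L (0 + 1)‖ := by
        intro L hL
        obtain ⟨g1, g2, g3, g4, g5⟩ := hYV hL
        have g6 : L ∈ Mp n := mem_Mp h5 hn g1 g4 g5 (fun h => by linarith [h.2])
        have g7 : (70 : ℝ) ≤ L.re := hY70 L hL
        refine ⟨g6, ch0 hn g6 (by linarith), ?_, ?_, norm_nonneg _⟩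
        · rw [YY_zero_re]
          show (21 : ℝ) + 30 ≤ L.re
          linarith
        · rw [YY_zero_im]
          simp only [Int.cast_zero, mul_zero, sub_zero]
          exact (hα.one L).symm
      obtain ⟨J, hJ1, hJ2, hJc1, hJc2, hJ3⟩ := h1 n α 0 hα (fun s k p hp _ => H s k p hp)
        (fun _ => 0) 0 Y hYc hYp hY c1 hc1 c2 hc2
      have hJX : J ⊆ X := by
        intro L hL
        obtain ⟨g1, g2⟩ := hJ3 L hL
        have g3 := g1.hr 0 le_rfl
        rw [YY_zero_re] at g3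
        rw [YY_zero_re, YY_zero_re, YY_zero_re] at g2
        have g4 : (21 : ℝ) ≤ L.re := g3
        have g5 : c1.re = 70 := e1
        have g6 : c2.re = 70 := e2
        rw [g5, g6, max_self] at g2
        obtain ⟨g7, g8, g9⟩ := hJ2 hL
        exact ⟨g7, by linarith, by linarith, g8.le, g9.le⟩
      exact hKY J hJ1 hJX ⟨c1, hJc1, hc1K⟩ hJc2

end Pool.Agent.Modu
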