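import Pool.Agent.Modu.CHP

/-!
# MODU: COV
-/

set_option autoImplicit false

open Complex Filter Topology Set
open Pool.Agent.Multibrot Pool.Agent.Limb

namespace Pool.Agent.Modu

lemma continuous_zz (n i : ℕ) : Continuous fun L : ℂ => zz n L i := by
  induction i with
  | zero => exact continuous_const
  | succ i ih =>
    have h1 : (fun L : ℂ => zz n L (i + 1)) = fun L => exp L * (1 + zz n L i / n) ^ n := by
      funext L
      rw [zz_succ, Limb.E]
    rw [h1]
    fun_prop

lemma differentiable_zz (n i : ℕ) : Differentiable ℂ fun L : ℂ => zz n L i := by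
  induction i with
  | zero => exact differentiable_const _
  | succ i ih =>
    have h1 : (fun L : ℂ => zz n L (i + 1)) = fun L => exp L * (1 + zz n L i / n) ^ n := by
      funext L
      rw [zz_succ, Limb.E]
    rw [h1]
    fun_prop

lemma continuousAt_XX {n i : ℕ} {L : ℂ} (h : 1 + zz n L i / n ∈ slitPlane) :
    ContinuousAt (fun L => XX n L i) L := by
  unfold XX
  have h1 : ContinuousAt (fun L => 1 + zz n L i / n) L := by
    have := (continuous_zz n i).continuousAt (x := L)
    fun_prop
  exact continuousAt_const.mul (h1.clog h)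

/-- In a chart the points `1 + z_i / n`, `i ≤ k`, are in the slit plane. -/
lemma slit_of_Ch (h0 : T_LN) (h1 : T_CHP) {n : ℕ} {s : ℕ → ℤ} {k : ℕ} {L : ℂ} (h : Ch n s k L)
    {i : ℕ} (hi : i ≤ k) : 1 + zz n L i / n ∈ slitPlane := by
  rcases Nat.eq_zero_or_pos i with h2 | h2
  · subst h2
    rw [zz_zero, zero_div, add_zero]
    exact one_mem_slitPlane
  · have hN := CHP_.mkNu h0 h.hn
    obtain ⟨-, -, -, -, -, -, h3, -, -⟩ := h1 n s k L h
    obtain ⟨-, -, -, h4, h5⟩ := h3 i h2 hi
    refine (CHP_.xz hN ?_).2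
    have h6 : zz n L i = XX n L i + (zz n L i - XX n L i) := by ring
    rw [h6]
    refine (norm_add_le _ _).trans ?_
    have := hN.l46
    norm_num at h5
    linarith

namespace COV_

/-- An integer valued continuous function on a preconnected set is constant. -/
lemma int_const {S : Set ℂ} (hS : IsPreconnected S) {f : ℂ → ℝ}
    (hf : ContinuousOn f S) (hi : ∀ t ∈ S, ∃ m : ℤ, f t = m) {a b : ℂ} (ha : a ∈ S) (hb : b ∈ S) :
    f a = f b := by
  have key : ∀ a ∈ S, ∀ b ∈ S, ¬ f a < f b := by
    intro a ha b hb hlt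
    obtain ⟨m, hm⟩ := hi a ha
    obtain ⟨m', hm'⟩ := hi b hb
    have h1 : m < m' := by
      have : (m : ℝ) < m' := by rw [← hm, ← hm']; exact hlt
      exact_mod_cast this
    have h2 : (m : ℝ) + 1 ≤ m' := by exact_mod_cast h1
    obtain ⟨x, hx, hfx⟩ := hS.intermediate_value ha hb hf
      (show f a + 1 / 2 ∈ Icc (f a) (f b) from ⟨by linarith, by rw [hm, hm']; linarith⟩)
    obtain ⟨p, hp⟩ := hi x hx
    have h3 : (p : ℝ) = m + 1 / 2 := by rw [← hp, hfx, hm]
    have h4 : ((2 * p : ℤ) : ℝ) = ((2 * m + 1 : ℤ) : ℝ) := by push_cast; linarith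
    have h5 : 2 * p = 2 * m + 1 := by exact_mod_cast h4
    omega
  rcases lt_trichotomy (f a) (f b) with h | h | h
  · exact absurd h (key a ha b hb)
  · exact h
  · exact absurd h (key b hb a ha)

/-- The index as a function. -/
noncomputable def g (n m : ℕ) (α : ℕ → ℂ → ℝ) (i : ℕ) (L : ℂ) : ℝ :=
  if i = m then ((XX n L m).im + L.im - α (m + 1) L) / (2 * Real.pi)
  else ((XX n L i).im + L.im - (log (zz n L (i + 1))).im) / (2 * Real.pi)

lemma g_eq (h1 : T_CHP) {n m : ℕ} {α : ℕ → ℂ → ℝ} {s : ℕ → ℤ} {L : ℂ} (h : Ch n s m L)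
    (hs : (YY n s L m).im = α (m + 1) L) {i : ℕ} (hi : i ≤ m) : g n m α i L = s i := by
  have hpi := Real.pi_pos
  obtain ⟨-, -, -, hlog, -, -, -, -, -⟩ := h1 n s m L h
  unfold g
  split_ifs with h2
  · subst h2
    rw [← hs, YY_im]
    field_simp
    ring
  · have h3 := (hlog i (by omega)).1
    rw [← h3, YY_im]
    field_simp
    ring

end COV_

open COV_

theorem p_COV (h0 : T_LN) (h1 : T_CHP) : T_COV := by
  intro n α m J hα hJ hJM hs
  rcases J.eq_empty_or_nonempty with hJ0 | ⟨L0, hL0⟩
  · subst hJ0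
    exact ⟨fun _ => 0, fun L hL => absurd hL (notMem_empty L)⟩
  have hcont : ∀ i, i ≤ m → ContinuousOn (g n m α i) J := by
    intro i hi L hL
    obtain ⟨s, hc, hsα⟩ := hs L hL
    have hX : ContinuousAt (fun L => XX n L i) L := continuousAt_XX (slit_of_Ch h0 h1 hc hi)
    obtain ⟨-, -, hnorm, -, -, -, -, -, hLow⟩ := h1 n s m L hc
    by_cases h2 : i = m
    · subst h2
      have h3 : g n i α i = fun L => ((XX n L i).im + L.im - α (i + 1) L) / (2 * Real.pi) := by
        funext L
        simp [g]
      rw [h3]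
      have h4 : ContinuousWithinAt (α (i + 1)) J L := by
        have h5 := hα.cont (i + 1) (by omega)
        have h6 : J ⊆ {L : ℂ | L ∈ Mp n ∧ 21 ≤ L.re ∧ (10 : ℝ) ^ 8 ≤ ‖zz n L (i + 1)‖} := by
          intro L' hL'
          obtain ⟨s', hc', -⟩ := hs L' hL'
          have h7 := hc'.hr 0 (by omega)
          rw [YY_zero_re] at h7
          refine ⟨hJM hL', h7, ?_⟩
          obtain ⟨-, -, hnorm', -, -, -, -, -, -⟩ := h1 n s' i L' hc'
          rw [hnorm' i le_rfl]
          have h8 := CHP_.exp_ge ((rr_ge s' i).trans (hc'.hr i le_rfl))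
          have h9 := (rr_ge s' i).trans (hc'.hr i le_rfl)
          linarith
        exact (h5.mono h6) L hL
      have h5 : ContinuousWithinAt (fun L => (XX n L i).im) J L :=
        (continuous_im.continuousAt.comp hX).continuousWithinAt
      have h6 : ContinuousWithinAt (fun L : ℂ => L.im) J L := continuous_im.continuousWithinAt
      exact ((h5.add h6).sub h4).div_const _
    · have h3 : g n m α i =
          fun L => ((XX n L i).im + L.im - (log (zz n L (i + 1))).im) / (2 * Real.pi) := by
        funext L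
        simp [g, h2]
      rw [h3]
      have h4 : zz n L (i + 1) ∈ slitPlane := by
        left
        have := hLow.hre (i + 1) (by omega) (by omega)
        linarith
      have h5 : ContinuousAt (fun L => log (zz n L (i + 1))) L :=
        ((continuous_zz n (i + 1)).continuousAt).clog h4
      have h6 : ContinuousAt (fun L => (XX n L i).im) L := continuous_im.continuousAt.comp hX
      have h7 : ContinuousAt (fun L => (log (zz n L (i + 1))).im) L :=
        continuous_im.continuousAt.comp h5
      have h8 : ContinuousAt (fun L : ℂ => L.im) L := continuous_im.continuousAt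
      exact (((h6.add h8).sub h7).div_const _).continuousWithinAt
  have hint : ∀ i, i ≤ m → ∀ L ∈ J, ∃ p : ℤ, g n m α i L = p := by
    intro i hi L hL
    obtain ⟨s, hc, hsα⟩ := hs L hL
    exact ⟨s i, g_eq h1 hc hsα hi⟩
  obtain ⟨s, hc, hsα⟩ := hs L0 hL0
  have key : ∀ L ∈ J, ∀ s' : ℕ → ℤ, Ch n s' m L → (YY n s' L m).im = α (m + 1) L →
      ∀ i, i ≤ m → s' i = s i := by
    intro L hL s' hc' hs' i hi
    have h2 := g_eq h1 hc' hs' hi
    have h3 := g_eq h1 hc hsα hi
    have h4 := int_const hJ (hcont i hi) (hint i hi) hL hL0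
    rw [h2, h3] at h4
    exact_mod_cast h4
  refine ⟨s, fun L hL => ?_⟩
  obtain ⟨s', hc', hs'⟩ := hs L hL
  have h2 := key L hL s' hc' hs'
  refine ⟨hc'.congr (fun i hi => (h2 i hi).symm), ?_, key L hL⟩
  rw [YY_congr (h2 m le_rfl).symm]
  exact hs'

end Pool.Agent.Modu
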