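import Pool.Agent.Modu.Targets

/-!
# DESC: the descent
-/

set_option autoImplicit false

open Complex Filter Topology Set
open Pool.Agent.Multibrot Pool.Agent.Limb

namespace Pool.Agent.Modu

namespace DESC_

/-- the conclusion of DESC -/
def Concl (n : ℕ) (α : ℕ → ℂ → ℝ) (κ : ℕ) (P : ℂ) : Prop :=
  ∃ J : Set ℂ, IsPreconnected J ∧ J ⊆ Mp n ∧ P ∈ J ∧
    (∃ q ∈ J, (∃ i, 1 ≤ i ∧ i ≤ κ ∧ NF n q i) ∨ q.re ≤ 51 ∨
      (κ = 0 ∧ q.im = Real.pi ∧ q.re ≤ Real.log n - 1)) ∧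
    ∀ L ∈ J, (∃ s : ℕ → ℤ, Ch n s κ L ∧ (YY n s L κ).im = α (κ + 1) L) ∧
      Real.log ‖zz n L (κ + 1)‖ ≤ Real.log ‖zz n P (κ + 1)‖ + 11

theorem not_NF {n : ℕ} {L : ℂ} {i : ℕ} (h : ¬ NF n L i) : FR n L i := by
  unfold NF at h
  unfold FR
  exact (not_le.mp h).le

theorem log_eq (h6 : T_CHP) {n : ℕ} {s : ℕ → ℤ} {k : ℕ} {L : ℂ} (h : Ch n s k L) (i : ℕ)
    (hi : i ≤ k) : Real.log ‖zz n L (i + 1)‖ = (YY n s L i).re := by
  rw [(h6 n s k L h).2.2.1 i hi, Real.log_exp]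

/-- the comparison with the starting point -/
theorem comp (h5 : T_COMP) (h6 : T_CHP) {n : ℕ} {s : ℕ → ℤ} {m : ℕ} {P L : ℂ}
    (hP : Ch n s m P) (hL : Ch n s m L)
    (h : Real.log ‖zz n L (m + 1)‖ ≤ Real.log ‖zz n P (m + 1)‖ + 11) (i : ℕ) (hi : i < m) :
    Real.log ‖zz n L (i + 1)‖ ≤ Real.log ‖zz n P (i + 1)‖ + 1 / 1000 := by
  rw [log_eq h6 hL m le_rfl, log_eq h6 hP m le_rfl] at h
  rw [log_eq h6 hL i hi.le, log_eq h6 hP i hi.le]
  exact (h5 n s m P L hP hL (by linarith)).1 i hi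

theorem step (h1 : T_PH) (h3 : T_ADOWN) (h4 : T_COV) (h5 : T_COMP) (h6 : T_CHP) (n : ℕ)
    (α : ℕ → ℂ → ℝ) (hα : IsArg n α) (hHC : ∀ s k p, HP n s k p → HC n s k p) (κ : ℕ) (P : ℂ) :
    ∀ m : ℕ, κ ≤ m → ∀ (q : ℂ) (J0 : Set ℂ), IsPreconnected J0 → J0 ⊆ Mp n → P ∈ J0 → q ∈ J0 →
      (∀ L ∈ J0, ∃ s : ℕ → ℤ, Ch n s m L ∧ (YY n s L m).im = α (m + 1) L) →
      51 ≤ q.re → (∀ i, 1 ≤ i → i ≤ m → FR n q i) → NF n q (m + 1) →
      (∀ L ∈ J0, Real.log ‖zz n L (m + 1)‖ ≤ Real.log ‖zz n P (m + 1)‖ + 11) →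
      Real.log ‖zz n q (m + 1)‖ ≤ Real.log ‖zz n P (m + 1)‖ + 1 / 1000 →
      Concl n α κ P := by
  intro m
  induction m using Nat.strong_induction_on with
  | _ m ih =>
    intro hκ q J0 hpre hsub hP hq hch h51 hFR hNF hlog hlogq
    obtain ⟨J1, hJ01, hpre1, hsub1, hch1, hlog1, q1, hq1, hA, hB⟩ :=
      h1 n α m P q J0 hα hHC hpre hsub hP hq hch h51 hFR hNF hlog hlogq
    rcases Nat.eq_or_lt_of_le hκ with hκm | hκm
    · subst hκm
      refine ⟨J1, hpre1, hsub1, hJ01 hP, ⟨q1, hq1, ?_⟩, fun L hL => ⟨hch1 L hL, hlog1 L hL⟩⟩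
      rcases Nat.eq_zero_or_pos κ with h0 | h0
      · exact Or.inr (Or.inr ⟨h0, hB h0⟩)
      · rcases hA h0 with h | h
        · exact Or.inl h
        · exact Or.inr (Or.inl h)
    · have hm1 : 1 ≤ m := by omega
      obtain ⟨s, hs⟩ := h4 n α m J1 hα hpre1 hsub1 hch1
      have hPJ : P ∈ J1 := hJ01 hP
      have hcomp : ∀ L ∈ J1, ∀ i, i < m →
          Real.log ‖zz n L (i + 1)‖ ≤ Real.log ‖zz n P (i + 1)‖ + 1 / 1000 := fun L hL i hi =>
        comp h5 h6 (hs P hPJ).1 (hs L hL).1 (hlog1 L hL) i hi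
      have hdown : ∀ m' : ℕ, m' ≤ m → ∀ L ∈ J1, ∃ s' : ℕ → ℤ, Ch n s' m' L ∧
          (YY n s' L m').im = α (m' + 1) L := by
        intro m' hm' L hL
        obtain ⟨s', _, h8, h9⟩ :=
          h3 n α s m m' L hα (hsub1 hL) hm' (hs L hL).1 (hs L hL).2.1
        exact ⟨s', h8, h9⟩
      have hfin : ((∃ i, 1 ≤ i ∧ i ≤ κ ∧ NF n q1 i) ∨ q1.re ≤ 51) → Concl n α κ P := by
        intro hor
        refine ⟨J1, hpre1, hsub1, hPJ, ⟨q1, hq1, ?_⟩, fun L hL => ⟨hdown κ hκm.le L hL, ?_⟩⟩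
        · rcases hor with h | h
          · exact Or.inl h
          · exact Or.inr (Or.inl h)
        · have := hcomp L hL κ hκm
          linarith
      by_cases hre : q1.re ≤ 51
      · exact hfin (Or.inr hre)
      by_cases hk : ∃ i, 1 ≤ i ∧ i ≤ κ ∧ NF n q1 i
      · exact hfin (Or.inl hk)
      have hex : ∃ i, 1 ≤ i ∧ i ≤ m ∧ NF n q1 i := by
        rcases hA hm1 with h | h
        · exact h
        · exact absurd h hre
      classical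
      have hspec := Nat.find_spec hex
      have hmin : ∀ j, j < Nat.find hex → ¬ (1 ≤ j ∧ j ≤ m ∧ NF n q1 j) :=
        fun j hj => Nat.find_min hex hj
      generalize Nat.find hex = i0 at hspec hmin
      obtain ⟨hi1, him, hiN⟩ := hspec
      have hiκ : κ < i0 := by
        by_contra hcon
        exact hk ⟨i0, hi1, by omega, hiN⟩
      obtain ⟨m', rfl⟩ : ∃ m', i0 = m' + 1 := ⟨i0 - 1, by omega⟩
      refine ih m' (by omega) (by omega) q1 J1 hpre1 hsub1 hPJ hq1 (hdown m' (by omega))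
        (not_le.mp hre).le ?_ hiN ?_ ?_
      · intro i h8 h9
        apply not_NF
        intro hN
        exact hmin i (by omega) ⟨h8, by omega, hN⟩
      · intro L hL
        have := hcomp L hL m' (by omega)
        linarith
      · exact hcomp q1 hq1 m' (by omega)

end DESC_

open DESC_ in
/-- DESC (from PH, HPI, ADOWN, COV, COMP, CHP). -/
theorem p_DESC (h1 : T_PH) (h2 : T_HPI) (h3 : T_ADOWN) (h4 : T_COV) (h5 : T_COMP)
    (h6 : T_CHP) : T_DESC := by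
  intro n α hα hHC κ P hP h51 hFR
  obtain ⟨hA, hB⟩ := h2 n α P hα hP h51
  obtain ⟨m, hκm, hFRm, hNF⟩ := hB κ hFR
  obtain ⟨s, hs1, _, hs3⟩ := hA m hFRm
  refine step h1 h3 h4 h5 h6 n α hα hHC κ P m hκm P {P} isPreconnected_singleton ?_ rfl rfl ?_
    h51 hFRm hNF ?_ ?_
  · intro L hL
    rw [Set.mem_singleton_iff] at hL
    rw [hL]; exact hP
  · intro L hL
    rw [Set.mem_singleton_iff] at hL
    rw [hL]; exact ⟨s, hs1, hs3⟩
  · intro L hL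
    rw [Set.mem_singleton_iff] at hL
    rw [hL]; linarith
  · linarith

end Pool.Agent.Modu
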