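import Pool.Agent.Modu.Targets

/-!
# MODU: from level `k + 1` to level `k`
-/

set_option autoImplicit false

open Complex Filter Topology Set
open Pool.Agent.Multibrot Pool.Agent.Limb

namespace Pool.Agent.Modu

namespace DOWN_

theorem rr_congr {s s' : ℕ → ℤ} : ∀ i : ℕ, (∀ j, j ≤ i → s' j = s j) → rr s' i = rr s i
  | 0, _ => rfl
  | i + 1, h => by
    have h1 := rr_congr i (fun j hj => h j (Nat.le_succ_of_le hj))
    simp only [rr]
    rw [h1, h (i + 1) le_rfl]

theorem rr_le {s s' : ℕ → ℤ} (k : ℕ) (h : ∀ i, i < k → s' i = s i)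
    (hk : |((s' k : ℤ) : ℝ) - s k| ≤ 1) : rr s k ≤ rr s' k + 2 * Real.pi / 6000 := by
  have hpi := Real.pi_pos
  cases k with
  | zero => simp only [rr]; linarith [show (0 : ℝ) ≤ 2 * Real.pi / 6000 by positivity]
  | succ m =>
    have h1 : rr s' m = rr s m := rr_congr m (fun j hj => h j (Nat.lt_succ_of_le hj))
    simp only [rr]
    rw [h1]
    apply max_le
    · have := le_max_left (4 * Real.exp (rr s m)) (2 * Real.pi * |((s' (m + 1) : ℤ) : ℝ)| / 6000)
      linarith [show (0 : ℝ) ≤ 2 * Real.pi / 6000 by positivity]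
    · have h2 := le_max_right (4 * Real.exp (rr s m))
        (2 * Real.pi * |((s' (m + 1) : ℤ) : ℝ)| / 6000)
      have h3 : |((s (m + 1) : ℤ) : ℝ)| ≤ |((s' (m + 1) : ℤ) : ℝ)| + 1 := by
        have h4 := abs_sub_abs_le_abs_sub ((s (m + 1) : ℤ) : ℝ) ((s' (m + 1) : ℤ) : ℝ)
        rw [abs_sub_comm] at h4
        linarith
      have h5 : 2 * Real.pi * |((s (m + 1) : ℤ) : ℝ)| / 6000 ≤
          2 * Real.pi * (|((s' (m + 1) : ℤ) : ℝ)| + 1) / 6000 := by gcongr
      have h6 : 2 * Real.pi * (|((s' (m + 1) : ℤ) : ℝ)| + 1) / 6000 =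
          2 * Real.pi * |((s' (m + 1) : ℤ) : ℝ)| / 6000 + 2 * Real.pi / 6000 := by ring
      linarith

end DOWN_

open DOWN_ in
theorem p_DOWN (h1 : T_CHP) : T_DOWN := by
  intro n s s' k L hC hs0 hs hk
  obtain ⟨-, -, -, c4, -, c6, -, -, -⟩ := h1 n s' (k + 1) L hC
  have hYk : YY n s L k = YY n s' L k + 2 * Real.pi * I * ((s' k : ℤ) - (s k : ℤ)) := by
    unfold YY; ring
  have hYi : ∀ i, i < k → YY n s L i = YY n s' L i := by
    intro i hi
    unfold YY; rw [hs i hi]
  have hre : (YY n s L k).re = (YY n s' L k).re := by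
    rw [hYk]; simp
  have him : (YY n s L k).im = (YY n s' L k).im + 2 * Real.pi * ((s' k : ℝ) - (s k : ℝ)) := by
    rw [hYk]; simp
  have hpi := Real.pi_pos
  have hpi4 := Real.pi_lt_d2
  refine ⟨⟨hC.hn, hs0, ?_, ?_, ?_, ?_⟩, hYk⟩
  · intro i hi
    rcases Nat.lt_or_ge i k with hik | hik
    · rw [hYi i hik, ← rr_congr i (fun j hj => hs j (lt_of_le_of_lt hj hik))]
      exact hC.hr i (by omega)
    · have hik' : i = k := le_antisymm hi hik
      subst hik'
      rw [hre]
      have h2 := c6 i (Nat.lt_succ_self i)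
      have h3 := rr_le i hs hk
      have h4 : 2 * Real.pi / 6000 ≤ 1 := by
        rw [div_le_one (by norm_num)]; linarith
      linarith
  · intro i hi
    rw [hYi i hi]
    exact hC.hi i (by omega)
  · rw [him]
    have h2 := (c4 k (Nat.lt_succ_self k)).2
    have h3 : |2 * Real.pi * ((s' k : ℝ) - (s k : ℝ))| ≤ 2 * Real.pi := by
      rw [abs_mul, abs_of_pos (by positivity : (0 : ℝ) < 2 * Real.pi)]
      have := mul_le_mul_of_nonneg_left hk (by positivity : (0 : ℝ) ≤ 2 * Real.pi)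
      linarith
    calc |(YY n s' L k).im + 2 * Real.pi * ((s' k : ℝ) - (s k : ℝ))|
        ≤ |(YY n s' L k).im| + |2 * Real.pi * ((s' k : ℝ) - (s k : ℝ))| := abs_add_le _ _
      _ ≤ 8 / 5 + 2 * Real.pi := by linarith
      _ ≤ 10 := by linarith
  · intro i hi
    rcases Nat.lt_or_ge i k with hik | hik
    · rw [hYi i hik]
      exact hC.hle i (by omega)
    · have hik' : i = k := le_antisymm hi hik
      subst hik'
      rw [hre]
      exact hC.hle i (by omega)

end Pool.Agent.Modu
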