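import Pool.Agent.Limb.Main

/-!
# MODU: definitions

The sharp uniform modulus of local connectivity of the Multibrot sets. Notation of LIMB:
parameter `cc n L`, orbit `zz n L i` of the critical value in the `w`-plane.
-/

set_option autoImplicit false

open Complex Filter Topology Set
open Pool.Agent.Multibrot Pool.Agent.Limb

namespace Pool.Agent.Modu

/-- The Multibrot set in the `L`-plane. -/
def Mq (n : ℕ) : Set ℂ := {L : ℂ | cc n L ∈ MM n}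

/-- The part in the strip. -/
def Mp (n : ℕ) : Set ℂ := {L : ℂ | cc n L ∈ MM n ∧ 0 < L.im ∧ L.im < 2 * Real.pi}

/-- `X_i = n log (1 + z_i / n)`, so that `z_{i+1} = exp (X_i + L)`. -/
noncomputable def XX (n : ℕ) (L : ℂ) (i : ℕ) : ℂ := n * log (1 + zz n L i / n)

/-- `z_i` is far to the right. -/
def FR (n : ℕ) (L : ℂ) (i : ℕ) : Prop := ‖zz n L i‖ ≤ 5000 * (XX n L i).re

/-- `z_i` is not far to the right. -/
def NF (n : ℕ) (L : ℂ) (i : ℕ) : Prop := 5000 * (XX n L i).re ≤ ‖zz n L i‖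

/-- The chart coordinate of level `i`: `z_{i+1} = exp (YY n s L i)`. -/
noncomputable def YY (n : ℕ) (s : ℕ → ℤ) (L : ℂ) (i : ℕ) : ℂ :=
  XX n L i + L - 2 * Real.pi * I * s i

/-- The left end of the chart of level `k`. -/
noncomputable def rr (s : ℕ → ℤ) : ℕ → ℝ
  | 0 => 21
  | k + 1 => max (4 * Real.exp (rr s k)) (2 * Real.pi * |(s (k + 1) : ℝ)| / 6000)

/-- `L` is in the chart of level `k` with the indices `s 0, ..., s k`. -/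
structure Ch (n : ℕ) (s : ℕ → ℤ) (k : ℕ) (L : ℂ) : Prop where
  hn : (10 : ℝ) ^ 20 ≤ n
  h0 : |(s 0 : ℝ)| ≤ 1
  hr : ∀ i, i ≤ k → rr s i ≤ (YY n s L i).re
  hi : ∀ i, i < k → |(YY n s L i).im| ≤ 2
  him : |(YY n s L k).im| ≤ 10
  hle : ∀ i, i ≤ k → (YY n s L i).re ≤ Real.log (4 * n)

/-- The hypothesis of the main statement. -/
structure HP (n : ℕ) (s : ℕ → ℤ) (k : ℕ) (p : ℂ) : Prop where
  mem : p ∈ Mp n
  ch : Ch n s k p
  mar : rr s k + 30 ≤ (YY n s p k).re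
  im0 : 0 < (YY n s p k).im
  im1 : (YY n s p k).im < 2 * Real.pi
  nf : NF n p (k + 1)

/-- `S` is on the spine of level `k`. -/
def Sp (n : ℕ) (s : ℕ → ℤ) (k : ℕ) (S : ℂ) : Prop :=
  (YY n s S k).im = Real.pi ∧ (YY n s S k).re ≤ Real.log n - 1

/-- The conclusion: `p` is joined to the spine of level `k`. -/
def HC (n : ℕ) (s : ℕ → ℤ) (k : ℕ) (p : ℂ) : Prop :=
  ∃ J : Set ℂ, IsPreconnected J ∧ J ⊆ Mp n ∧ p ∈ J ∧ (∃ S ∈ J, Sp n s k S) ∧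
    ∀ L ∈ J, Ch n s k L ∧ |(YY n s L k).re - (YY n s p k).re| ≤ 10

/-- The true arguments of the points `z_i`. -/
structure IsArg (n : ℕ) (α : ℕ → ℂ → ℝ) : Prop where
  hn : (10 : ℝ) ^ 20 ≤ n
  one : ∀ L, α 1 L = L.im
  cont : ∀ i, 1 ≤ i →
    ContinuousOn (α i) {L : ℂ | L ∈ Mp n ∧ 21 ≤ L.re ∧ (10 : ℝ) ^ 8 ≤ ‖zz n L i‖}
  arg : ∀ i L, 1 ≤ i → L ∈ Mp n → 21 ≤ L.re → (10 : ℝ) ^ 8 ≤ ‖zz n L i‖ →
    exp (α i L * I) * ‖zz n L i‖ = zz n L i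
  lo : ∀ i L, 1 ≤ i → L ∈ Mp n → 21 ≤ L.re → (10 : ℝ) ^ 8 ≤ ‖zz n L i‖ → -2 < α i L
  hi : ∀ i L, 1 ≤ i → L ∈ Mp n → 21 ≤ L.re → (10 : ℝ) ^ 8 ≤ ‖zz n L i‖ → α i L < 9
  nf : ∀ i L, 1 ≤ i → L ∈ Mp n → 21 ≤ L.re → (10 : ℝ) ^ 8 ≤ ‖zz n L i‖ →
    (NF n L i ∨ 20 ≤ |(XX n L i).im|) → 0 < α i L ∧ α i L < 2 * Real.pi

/-- `z_i` is nearly positive. -/
def NP (n : ℕ) (L : ℂ) (i : ℕ) : Prop := |(XX n L i).im| ≤ (1 / 2) ^ (i + 10) * (XX n L i).re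

/-! ### facts from LIMB -/

theorem lim_GDISC : T_GDISC := p_GDISC p_PSI (p_DISCST p_PSI p_PHI)

theorem lim_DISCST : T_DISCST := p_DISCST p_PSI p_PHI

theorem lim_ATT : T_ATT := p_ATT lim_GDISC p_MU p_ATTA

theorem lim_TRAPM : T_TRAPM := p_TRAPM lim_GDISC

theorem lim_LOWNR : T_LOWNR := p_LOWNR

theorem lim_BOOT : T_BOOT := p_BOOT

theorem lim_CROSS : T_CROSS := by
  have ePSI := p_PSI
  have ePHI := p_PHI
  have eEXT := p_EXG p_EX0 p_EX1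
  have eLAND := p_LAND p_AREA
  have eSTAB := p_STAB eLAND
  have eLOWST := p_LOWST ePSI ePHI
  have eTOPST := p_TOPST ePSI ePHI
  have eDISCST := p_DISCST ePSI ePHI
  have eGLOW := p_GLOW ePSI eLOWST
  have eGDISC := p_GDISC ePSI eDISCST
  have eGTOP := p_GTOP eGLOW eGDISC eTOPST
  have eUI1 := p_UI1 eGTOP eTOPST eDISCST eGDISC
  have eUI2 := p_UI2
  have eMU := p_MU
  have eMUL := p_MUL
  have eATT := p_ATT eGDISC eMU p_ATTA
  have eWEST := p_WEST eATT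
  have eREAL := p_REAL eWEST eGTOP eGDISC eUI1 eMU eMUL p_CUSPA
  have eCLOP := p_CLOP eREAL eUI1 eUI2 eWEST eGTOP
  have eINFL := p_INFL ePSI ePHI
  have eINFT := p_INFT
  have eRAY := p_RAY
  have eCHL := p_CHL eRAY eLOWST eINFL
  have eTYPE := p_TYPE eWEST
  have eLOCI := p_LOCI eRAY eCHL eTYPE eWEST eGTOP eTOPST eINFT
  have eLOC := p_LOC eLOCI eLAND eGTOP eUI1 eWEST eRAY eTYPE
  have eWLC := p_WLC eSTAB eTYPE eWEST
  have eUP := p_UP eWLC eCLOP eLOC eLAND eTYPE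
  have eBOOT := p_BOOT
  have eNEAR := p_NEAR eBOOT eATT
  exact p_CROSS eEXT eBOOT eNEAR eUP eWEST

end Pool.Agent.Modu
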