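import Pool.Agent.Modu.Targets
import Pool.Agent.PLim.ATTR

set_option autoImplicit false

open Complex Filter Topology Set
open Pool.Agent.Multibrot Pool.Agent.Limb

namespace Pool.Agent.Modu

/-- Parameters with an attracting cycle are in the Multibrot set. -/
theorem p_FATOU : T_FATOU := by
  intro n c p Z hn hp hZ hρ
  obtain ⟨j, hj⟩ := Pool.Agent.PLim.p_ATTR n p c Z hn hp hZ hρ
  by_contra hc
  have h1 : ∃ k, 2 < ‖Q n k c‖ := by
    by_contra h
    push Not at h
    exact hc h
  obtain ⟨k, hk⟩ := h1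
  have h2 := tendsto_of_two_lt hn hk
  have h3 : Tendsto (fun m : ℕ => p * m + j) atTop atTop := by
    apply tendsto_atTop_mono (f := fun m : ℕ => m) _ tendsto_id
    intro m
    have : 1 * m ≤ p * m := Nat.mul_le_mul_right m hp
    show m ≤ p * m + j
    omega
  have h4 : Tendsto (fun m : ℕ => ‖Q n (p * m + j) c‖) atTop atTop := h2.comp h3
  have h5 : Tendsto (fun m : ℕ => ‖(F n c)^[p * m + j] 0‖) atTop (𝓝 ‖Z‖) := hj.norm
  have h6 : (fun m : ℕ => ‖(F n c)^[p * m + j] 0‖) = fun m : ℕ => ‖Q n (p * m + j) c‖ := by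
    funext m
    rw [Q_eq_iterate]
    rfl
  rw [h6] at h5
  exact not_tendsto_nhds_of_tendsto_atTop h4 _ h5

end Pool.Agent.Modu
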