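import Pool.Agent.Modu.Targets

/-!
# FING: a point which is not in the non repelling zone is joined to the spine
-/

set_option autoImplicit false

open Complex Filter Topology Set
open Pool.Agent.Multibrot Pool.Agent.Limb

namespace Pool.Agent.Modu

/-- The real part of a point of a chart. -/
lemma FING_re (h1 : T_CHP) {n : ℕ} {s : ℕ → ℤ} {k : ℕ} {L : ℂ} (hch : Ch n s k L) :
    21 ≤ L.re := by
  have h2 := (h1 n s k L hch).1.1
  have h3 := hch.hr 0 (Nat.zero_le _)
  rw [h2] at h3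
  exact h3

/-- A deep point: from Q small to the spine. -/
lemma FING_leg (h1 : T_CHP) (h5 : T_LEG) {n : ℕ} {s : ℕ → ℤ} {k : ℕ} {L : ℂ}
    (hch : Ch n s k L) (hmp : L ∈ Mp n) (hr : rr s k + 20 ≤ (YY n s L k).re)
    (hi0 : -1 ≤ (YY n s L k).im) (hi1 : (YY n s L k).im ≤ 2 * Real.pi + 1)
    (hq : ‖zz n L (k + 2) * DD n L (k + 1)‖ ≤ 1 / 200) :
    ∃ J : Set ℂ, IsPreconnected J ∧ J ⊆ Mp n ∧ L ∈ J ∧ (∃ S ∈ J, Sp n s k S) ∧
      ∀ L' ∈ J, Ch n s k L' ∧ |(YY n s L' k).re - (YY n s L k).re| ≤ 5 := by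
  have hn := hch.hn
  have hn0 : (0 : ℝ) < n := lt_of_lt_of_le (by norm_num) hn
  have hn2 : 2 ≤ n := by
    have : (2 : ℝ) ≤ n := le_trans (by norm_num) hn
    exact_mod_cast this
  obtain ⟨-, c2, c3, -, -, -, -, c8, c9⟩ := h1 n s k L hch
  have hlow := BOOT_.low0 c9
  have hre := FING_re h1 hch
  have hc : cc n L ∈ MM n := hmp.1
  have hzbig : ∀ i, i ≤ k → 2 ≤ ‖zz n L (i + 1)‖ := by
    intro i hi
    have := hlow.ge8 (i := i + 1) (by omega) (by omega)
    linarith
  -- the product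
  have hP : 1 ≤ ‖DD n L k‖ := by
    unfold DD
    rw [norm_prod]
    have e1 : ∀ i ∈ Finset.range k, (1 : ℝ) ≤ ‖zz n L (i + 1) / (1 + zz n L (i + 1) / n)‖ := by
      intro i hi
      have hik : i < k := Finset.mem_range.1 hi
      have e2 := hzbig i hik.le
      have e3 : 1 ≤ ‖1 + zz n L (i + 1) / n‖ := one_le_norm (hlow.hre (i + 1) (by omega) (by omega))
      have e4 := one_add_norm_le hn hc (by linarith) (i + 1)
      rw [norm_div, le_div_iff₀ (by linarith)]
      have e5 : (1 : ℝ) + 1 / 10 ^ 16 ≤ 2 := by norm_num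
      linarith
    calc (1 : ℝ) = ∏ i ∈ Finset.range k, (1 : ℝ) := by simp
      _ ≤ _ := Finset.prod_le_prod (fun _ _ => zero_le_one) e1
  have hDD : DD n L (k + 1) = DD n L k * (zz n L (k + 1) / (1 + zz n L (k + 1) / n)) := by
    unfold DD
    rw [Finset.prod_range_succ]
  have hW : ‖1 + zz n L (k + 1) / n‖ < 1 := by
    by_contra hcon
    push Not at hcon
    have h2 : zz n L (k + 2) = exp L * (1 + zz n L (k + 1) / n) ^ n := by
      rw [zz_succ, Limb.E]
    set W := 1 + zz n L (k + 1) / n with hWdef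
    have hW0 : W ≠ 0 := by
      intro h0
      rw [h0, norm_zero] at hcon
      linarith
    have h3 : zz n L (k + 2) * DD n L (k + 1) =
        exp L * W ^ (n - 1) * DD n L k * zz n L (k + 1) := by
      rw [h2, hDD]
      obtain ⟨m, rfl⟩ : ∃ m, n = m + 1 := ⟨n - 1, by omega⟩
      rw [Nat.add_sub_cancel, pow_succ]
      field_simp
    rw [h3, norm_mul, norm_mul, norm_mul, norm_pow, norm_exp] at hq
    have h4 : 1 ≤ Real.exp L.re := Real.one_le_exp (by linarith)
    have h5 : 1 ≤ ‖W‖ ^ (n - 1) := one_le_pow₀ hcon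
    have h6 := hzbig k (le_refl _)
    have h7 : 1 ≤ Real.exp L.re * ‖W‖ ^ (n - 1) := one_le_mul_of_one_le_of_one_le h4 h5
    have h8 := one_le_mul_of_one_le_of_one_le h7 hP
    have h9 := one_le_mul_of_one_le_of_one_le h8 (le_trans (by norm_num) h6)
    linarith
  have hzre : (zz n L (k + 1)).re < 0 := by
    by_contra hcon
    push Not at hcon
    linarith [one_le_norm (n := n) hcon]
  have hcos : Real.cos (YY n s L k).im < 0 := by
    rw [← c2 k (le_refl _), exp_re] at hzre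
    by_contra hcon
    push Not at hcon
    have := mul_nonneg (Real.exp_pos (YY n s L k).re).le hcon
    linarith
  have hpi := Real.pi_gt_three
  refine h5 n s k L hch hmp hr ?_ ?_ hq
  · by_contra hcon
    push Not at hcon
    have := Real.cos_nonneg_of_neg_pi_div_two_le_of_le (x := (YY n s L k).im) (by linarith)
      (by linarith)
    linarith
  · by_contra hcon
    push Not at hcon
    have := Real.cos_nonneg_of_neg_pi_div_two_le_of_le (x := (YY n s L k).im - 2 * Real.pi)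
      (by linarith) (by linarith)
    rw [Real.cos_sub_two_pi] at this
    linarith

/-- Points with an attracting cycle given by `u` are in the Multibrot set. -/
lemma FING_fat (h1 : T_CHP) (h4 : T_FATOU) {n : ℕ} {s : ℕ → ℤ} {k : ℕ} {L : ℂ}
    (hch : Ch n s k L) (hz : zz n L (k + 1) ≠ -n) {u : ℂ} (hu0 : u ≠ 0) (hu3 : ‖u‖ < 3)
    (heq : u * exp (GG n L (k + 1) u - u) = zz n L (k + 2) * DD n L (k + 1))
    (hm : 1 < ‖1 / u + deriv (GG n L (k + 1)) u‖) : cc n L ∈ MM n := by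
  obtain ⟨-, -, -, -, -, -, -, -, c9⟩ := h1 n s k L hch
  have hL := BOOT_.low0 c9
  have h2 := lim_GDISC
  have hn2 := hL.two_le
  have hn0 : (n : ℂ) ≠ 0 := natCast_ne hn2
  have hzz := TRAPM_.ne_neg hL hz
  have hDD : DD n L (k + 1) ≠ 0 := TRAPM_.DD_ne hL hz
  have hone : 1 + zz n L (k + 1) / n ≠ 0 := by
    intro h0
    apply hz
    have h4 : zz n L (k + 1) = n * (1 + zz n L (k + 1) / n) - n := by field_simp; ring
    rw [h4, h0]
    ring
  have hz1 : zz n L (k + 1 + 1) ≠ 0 := by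
    rw [zz_succ, Limb.E]
    exact mul_ne_zero (exp_ne_zero _) (pow_ne_zero _ hone)
  have hev : ∀ᶠ v in 𝓝 u, v * exp (GG n L (k + 1) v) = DD n L (k + 1) * W0 n L (k + 1) v ∧
      (E n L)^[k + 1] (W0 n L (k + 1) v) =
        n * ((1 + zz n L (k + 1) / n) * exp (v / n) - 1) := by
    have hopen : IsOpen {v : ℂ | ‖v‖ < 3} := isOpen_lt continuous_norm continuous_const
    filter_upwards [hopen.mem_nhds hu3] with v hv
    exact ⟨(h2 n (k + 1) L v hL.hn hzz hv).2.2.1, (h2 n (k + 1) L v hL.hn hzz hv).2.2.2.1⟩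
  obtain ⟨_, m2, m3⟩ := p_MU n (k + 1) L u (GG n L (k + 1)) hn2 hu0 hz1 hDD
    (h2 n (k + 1) L u hL.hn hzz hu3).2.2.2.2.1 (h2 n (k + 1) L u hL.hn hzz hu3).2.2.2.2.2.1
    hev heq
  refine h4 n (cc n L) (k + 1 + 1) _ hn2 (by omega) m2 ?_
  have h6 := congrArg norm m3
  rw [norm_mul, norm_one] at h6
  by_contra h7
  push Not at h7
  nlinarith

/-- FING -/
theorem p_FING (h1 : T_CHP) (h2 : T_CLASS) (h3 : T_MUP) (h4 : T_FATOU) (h5 : T_LEG)
    (h6 : T_STAY) : T_FING := by
  intro n s k q hq hch hr hi0 hi1 hNR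
  have hn := hch.hn
  have hn0 : (0 : ℝ) < n := lt_of_lt_of_le (by norm_num) hn
  have hn2 : 2 ≤ n := by
    have : (2 : ℝ) ≤ n := le_trans (by norm_num) hn
    exact_mod_cast this
  have hnC := natCast_ne hn2
  have hpi := Real.pi_gt_three
  have hpi' := Real.pi_lt_d2
  rcases le_or_gt ‖zz n q (k + 2) * DD n q (k + 1)‖ (1 / 200) with hQ | hQ
  · obtain ⟨J, j1, j2, j3, j4, j5⟩ := FING_leg h1 h5 hch hq (by linarith) (by linarith)
      (by linarith) hQ
    exact ⟨J, j1, j2, j3, j4, fun L hL => ⟨(j5 L hL).1, (j5 L hL).2.trans (by norm_num)⟩⟩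
  · have hz : zz n q (k + 1) ≠ -n := by
      intro h0
      have e1 : zz n q (k + 2) = 0 := by
        rw [zz_succ, Limb.E, h0, neg_div, div_self hnC, add_neg_cancel, zero_pow (by omega), mul_zero]
      rw [e1, zero_mul, norm_zero] at hQ
      norm_num at hQ
    obtain ⟨-, -, -, -, -, -, -, -, c9⟩ := h1 n s k q hch
    have hlow := BOOT_.low0 c9
    have hNR1 := lim_LOWNR n (k + 1) q hlow
    obtain ⟨Z, hZ1, hZ2⟩ : ∃ Z : ℂ, (F n (cc n q))^[k + 1 + 1] Z = Z ∧
        ‖deriv ((F n (cc n q))^[k + 1 + 1]) Z‖ ≤ 1 := by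
      by_contra hcon
      push Not at hcon
      apply hNR
      intro p hp1 hp2 z hz
      rcases Nat.lt_or_ge p (k + 2) with hp | hp
      · exact hNR1 p hp1 (by omega) z hz
      · have hpe : p = k + 1 + 1 := by omega
        subst hpe
        exact hcon z hz
    obtain ⟨u, u1, u2, u3⟩ := h2 n (k + 1) q Z hlow hz hZ1 hZ2
    have hzz := TRAPM_.ne_neg hlow hz
    have hG := (lim_GDISC n (k + 1) q u hn hzz (by linarith)).1
    have hul : 1 / 1000 ≤ ‖u‖ := by
      have e1 : ‖zz n q (k + 2) * DD n q (k + 1)‖ ≤ ‖u‖ * 3 := by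
        rw [← u2, norm_mul, norm_exp]
        apply mul_le_mul_of_nonneg_left _ (norm_nonneg _)
        have e2 : (GG n q (k + 1) u - u).re ≤ 21 / 20 := by
          refine (re_le_norm _).trans ((norm_sub_le _ _).trans ?_)
          have : 1 / 10 ^ 7 * ‖u‖ ≤ 1 / 10 ^ 7 * 2 :=
            mul_le_mul_of_nonneg_left (by linarith) (by norm_num)
          linarith
        refine (Real.exp_le_exp.2 e2).trans ?_
        have e3 : Real.exp (21 / 20) = Real.exp 1 * Real.exp (1 / 20) := by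
          rw [← Real.exp_add]
          norm_num
        have e4 := Real.exp_one_lt_d9
        have e5 : Real.exp (1 / 20) ≤ 20 / 19 := by
          have h7 := Real.one_sub_le_exp_neg (1 / 20)
          rw [Real.exp_neg] at h7
          have h8 : 0 < Real.exp (1 / 20) := Real.exp_pos _
          have h9 : Real.exp (1 / 20) * (1 - 1 / 20) ≤ 1 := by
            calc Real.exp (1 / 20) * (1 - 1 / 20) ≤ Real.exp (1 / 20) *
                (Real.exp (1 / 20))⁻¹ := mul_le_mul_of_nonneg_left h7 h8.le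
              _ = 1 := mul_inv_cancel₀ h8.ne'
          linarith
        rw [e3]
        calc Real.exp 1 * Real.exp (1 / 20) ≤ 2.7182818286 * (20 / 19) :=
              mul_le_mul e4.le e5 (Real.exp_pos _).le (by norm_num)
          _ ≤ 3 := by norm_num
      linarith
    have hu0 : u ≠ 0 := by
      intro h0
      rw [h0, norm_zero] at hul
      norm_num at hul
    have hm : 1 ≤ ‖1 / u + deriv (GG n q (k + 1)) u‖ := u3.resolve_left hu0
    obtain ⟨γ, g1, g2, g3, g4, g5⟩ := h3 n s k q u hch hq.1 hr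
      (abs_le.2 ⟨by linarith, by linarith⟩) hz hul u1 u2 hm
    have hJpre : IsPreconnected (γ '' Icc 0 6) := isPreconnected_Icc.image γ g1
    have hqJ : q ∈ γ '' Icc 0 6 := ⟨0, ⟨le_refl _, by norm_num⟩, g2⟩
    have h6J : γ 6 ∈ γ '' Icc 0 6 := ⟨6, ⟨by norm_num, le_refl _⟩, rfl⟩
    have hJq : γ '' Icc 0 6 ⊆ Mq n := by
      rintro L ⟨t, ht, rfl⟩
      rcases ht.1.eq_or_lt with h0 | h0
      · rw [← h0, g2]
        exact hq.1
      · obtain ⟨v, v1, v2, v3, v4⟩ := g4 t ⟨h0, ht.2⟩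
        exact FING_fat h1 h4 (g3 t ht).1 (g3 t ht).2.2 v1 v2 v3 v4
    have hJp : γ '' Icc 0 6 ⊆ Mp n := by
      refine h6 n _ q hn hJpre hJq ?_ hqJ hq
      rintro L ⟨t, ht, rfl⟩
      have := FING_re h1 (g3 t ht).1
      linarith
    have h6I : (6 : ℝ) ∈ Icc (0 : ℝ) 6 := ⟨by norm_num, le_refl _⟩
    obtain ⟨k1, k2, -⟩ := g3 6 h6I
    have kre : |(YY n s (γ 6) k).re - (YY n s q k).re| ≤ 1 / 100 := by
      rw [← sub_re]
      exact (abs_re_le_norm _).trans k2
    have kim : |(YY n s (γ 6) k).im - (YY n s q k).im| ≤ 1 / 100 := by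
      rw [← sub_im]
      exact (abs_im_le_norm _).trans k2
    obtain ⟨ka, kb⟩ := abs_le.1 kre
    obtain ⟨kc, kd⟩ := abs_le.1 kim
    obtain ⟨J, j1, j2, j3, ⟨S, jS, jS'⟩, j5⟩ := FING_leg h1 h5 k1 (hJp h6J) (by linarith)
      (by linarith) (by linarith) g5
    refine ⟨γ '' Icc 0 6 ∪ J, hJpre.union (γ 6) h6J j3 j1, union_subset hJp j2, Or.inl hqJ,
      ⟨S, Or.inr jS, jS'⟩, ?_⟩
    rintro L (⟨t, ht, rfl⟩ | hL)
    · refine ⟨(g3 t ht).1, ?_⟩
      rw [← sub_re]
      exact ((abs_re_le_norm _).trans (g3 t ht).2.1).trans (by norm_num)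
    · refine ⟨(j5 L hL).1, ?_⟩
      obtain ⟨l1, l2⟩ := abs_le.1 (j5 L hL).2
      exact abs_le.2 ⟨by linarith, by linarith⟩

end Pool.Agent.Modu
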