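import Pool.Agent.Modu.Targets

/-!
# MODU-FOL: follow the spine to the left
-/

set_option autoImplicit false

open Complex Filter Topology Set
open Pool.Agent.Multibrot Pool.Agent.Limb

namespace Pool.Agent.Modu

namespace FOL_

lemma yy0_re (n : ℕ) (s : ℕ → ℤ) (L : ℂ) : (YY n s L 0).re = L.re := by
  have h : XX n L 0 = 0 := by simp [XX, zz_zero]
  unfold YY
  rw [h]
  simp

end FOL_

open FOL_ in
theorem p_FOL (h1 : T_CHART) (h2 : T_SPINE) (h3 : T_STAY) (h4 : T_MARG) (h5 : T_CHP) :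
    T_FOL := by
  intro n s m q hq hch _ hsp _ _
  have _ := h5
  obtain ⟨Φ, hΦ, hinv, hlip, -⟩ := h1 n s m hch.hn hch.h0
  have hrm : rr s m ≤ (YY n s q m).re := hch.hr m le_rfl
  have hn1 : (1 : ℝ) ≤ n := le_trans (by norm_num) hch.hn
  have hlog : Real.log n - 1 ≤ Real.log (4 * n) := by
    have : Real.log n ≤ Real.log (4 * n) := Real.log_le_log (by linarith) (by linarith)
    linarith
  -- the segment
  set S : Set ℂ := {y : ℂ | y.im = Real.pi ∧ rr s m ≤ y.re ∧ y.re ≤ (YY n s q m).re} with hS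
  have hpi : |Real.pi| ≤ 10 := by
    rw [abs_of_pos Real.pi_pos]
    linarith [Real.pi_lt_four]
  have hreg : ∀ y ∈ S, rr s m ≤ y.re ∧ y.re ≤ Real.log (4 * n) ∧ |y.im| ≤ 10 := by
    intro y hy
    obtain ⟨ha, hb, hc⟩ := hy
    exact ⟨hb, (hc.trans hsp.2).trans hlog, by rw [ha]; exact hpi⟩
  have hSconv : Convex ℝ S := by
    intro y hy y' hy' a b ha hb hab
    obtain ⟨i1, r1, t1⟩ := hy
    obtain ⟨i2, r2, t2⟩ := hy'
    refine ⟨?_, ?_, ?_⟩
    · simp only [add_im, real_smul, mul_im, ofReal_re, ofReal_im, zero_mul, add_zero, i1, i2]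
      rw [← add_mul, hab, one_mul]
    · simp only [add_re, real_smul, mul_re, ofReal_re, ofReal_im, zero_mul, sub_zero]
      have e1 := mul_le_mul_of_nonneg_left r1 ha
      have e2 := mul_le_mul_of_nonneg_left r2 hb
      have e3 : rr s m = a * rr s m + b * rr s m := by rw [← add_mul, hab, one_mul]
      linarith
    · simp only [add_re, real_smul, mul_re, ofReal_re, ofReal_im, zero_mul, sub_zero]
      have e1 := mul_le_mul_of_nonneg_left t1 ha
      have e2 := mul_le_mul_of_nonneg_left t2 hb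
      have e3 : (YY n s q m).re = a * (YY n s q m).re + b * (YY n s q m).re := by
        rw [← add_mul, hab, one_mul]
      linarith
  have hcont : ContinuousOn Φ S := by
    have hL : LipschitzOnWith (Real.toNNReal ((1 / 10 ^ 8) ^ m)) Φ S := by
      apply LipschitzOnWith.of_dist_le_mul
      intro y hy y' hy'
      obtain ⟨a1, a2, a3⟩ := hreg y hy
      obtain ⟨b1, b2, b3⟩ := hreg y' hy'
      rw [dist_eq_norm, dist_eq_norm, Real.coe_toNNReal _ (by positivity)]
      exact hlip y y' a1 a2 a3 b1 b2 b3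
    exact hL.continuousOn
  have hqS : YY n s q m ∈ S := ⟨hsp.1, hrm, le_rfl⟩
  have hJpre : IsPreconnected (Φ '' S) := hSconv.isPreconnected.image Φ hcont
  have hch' : ∀ y ∈ S, Ch n s m (Φ y) ∧ YY n s (Φ y) m = y := by
    intro y hy
    obtain ⟨a1, a2, a3⟩ := hreg y hy
    exact hΦ y a1 a2 a3
  have hqJ : q ∈ Φ '' S := ⟨YY n s q m, hqS, hinv q hch⟩
  have hMp : Φ '' S ⊆ Mp n := by
    refine h3 n (Φ '' S) q hch.hn hJpre ?_ ?_ hqJ hq
    · rintro L ⟨y, hy, rfl⟩
      obtain ⟨hc, hy'⟩ := hch' y hy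
      refine h2 n s m (Φ y) hc ⟨?_, ?_⟩
      · rw [hy']; exact hy.1
      · rw [hy']; exact hy.2.2.trans hsp.2
    · rintro L ⟨y, hy, rfl⟩
      obtain ⟨hc, -⟩ := hch' y hy
      have := hc.hr 0 (Nat.zero_le _)
      rw [yy0_re] at this
      have h21 : rr s 0 = 21 := rfl
      rw [h21] at this
      linarith
  refine ⟨Φ '' S, hJpre, hMp, hqJ, ?_, ?_⟩
  · -- the left end
    set y0 : ℂ := ⟨rr s m, Real.pi⟩ with hy0
    have hy0S : y0 ∈ S := ⟨rfl, le_rfl, hrm⟩
    refine ⟨Φ y0, ⟨y0, hy0S, rfl⟩, ?_⟩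
    by_contra hcon
    rw [not_or] at hcon
    obtain ⟨hc1, hc2⟩ := hcon
    obtain ⟨hc, hyy⟩ := hch' y0 hy0S
    have hmarg := h4 n s m (Φ y0) (hMp ⟨y0, hy0S, rfl⟩) hc (not_le.1 hc2).le (by
      intro i hi1 hi2
      by_contra hfr
      apply hc1
      refine ⟨i, hi1, hi2, ?_⟩
      unfold FR at hfr
      unfold NF
      exact (not_le.1 hfr).le)
    rw [hyy] at hmarg
    have : y0.re = rr s m := rfl
    rw [this] at hmarg
    linarith
  · rintro L ⟨y, hy, rfl⟩
    obtain ⟨hc, hyy⟩ := hch' y hy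
    exact ⟨hc, by rw [hyy]; exact hy.2.2⟩

end Pool.Agent.Modu
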