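import Pool.Agent.Modu.Targets

/-!
# FRC: the condition `FR` is closed
-/

set_option autoImplicit false

open Complex Filter Topology Set
open Pool.Agent.Multibrot Pool.Agent.Limb

namespace Pool.Agent.Modu

namespace FRC_

theorem cont_zz (n k : ℕ) : Continuous (fun L : ℂ => zz n L k) := by
  induction k with
  | zero => exact continuous_const
  | succ k ih =>
    have : (fun L : ℂ => zz n L (k + 1)) = fun L => exp L * (1 + zz n L k / n) ^ n := by
      funext L
      rw [zz_succ, Limb.E]
    rw [this]
    fun_prop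

theorem XX_re (n k : ℕ) (L : ℂ) :
    (XX n L k).re = n * Real.log ‖1 + zz n L k / n‖ := by
  unfold XX
  rw [← ofReal_natCast, re_ofReal_mul, log_re]

theorem ne_zero {n k : ℕ} (hn : 1 ≤ n) {L : ℂ} (h : zz n L k ≠ -n) : 1 + zz n L k / n ≠ 0 := by
  have hn' : (n : ℂ) ≠ 0 := by exact_mod_cast (by omega : n ≠ 0)
  intro h0
  apply h
  field_simp at h0
  linear_combination h0

theorem fr_iff {n k : ℕ} (hn : 1 ≤ n) (L : ℂ) :
    FR n L k ↔ Real.exp (‖zz n L k‖ / (5000 * n)) ≤ ‖1 + zz n L k / n‖ := by
  have hn' : (0 : ℝ) < n := by exact_mod_cast (by omega : 0 < n)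
  unfold FR
  rw [XX_re]
  by_cases h : zz n L k = -n
  · have h1 : 1 + zz n L k / n = 0 := by
      rw [h, neg_div, div_self (by exact_mod_cast (by omega : n ≠ 0))]
      ring
    rw [h1, norm_zero, Real.log_zero, mul_zero, mul_zero]
    constructor
    · intro h2
      rw [h, norm_neg, norm_natCast] at h2
      exact absurd h2 (not_le.2 hn')
    · intro h2
      exact absurd h2 (not_le.2 (Real.exp_pos _))
  · have h1 := norm_pos_iff.2 (ne_zero hn h)
    rw [← Real.le_log_iff_exp_le h1, div_le_iff₀ (by positivity)]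
    constructor
    · intro h2; linarith
    · intro h2; linarith

end FRC_

open FRC_

theorem p_FRC : T_FRC := by
  intro n k hn
  refine ⟨?_, ?_⟩
  · have : {L : ℂ | FR n L k} =
        {L : ℂ | Real.exp (‖zz n L k‖ / (5000 * n)) ≤ ‖1 + zz n L k / n‖} := by
      ext L
      exact fr_iff hn L
    rw [this]
    have h1 := cont_zz n k
    refine isClosed_le ?_ ?_
    · fun_prop
    · fun_prop
  · intro L0 h
    have h1 := (cont_zz n k).continuousAt (x := L0)
    have h2 : (fun L : ℂ => (XX n L k).re) = fun L => n * Real.log ‖1 + zz n L k / n‖ := by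
      funext L
      exact XX_re n k L
    rw [h2]
    have h3 : ContinuousAt (fun L : ℂ => ‖1 + zz n L k / n‖) L0 := by fun_prop
    exact continuousAt_const.mul (h3.log (norm_ne_zero_iff.2 (ne_zero hn h)))

end Pool.Agent.Modu
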