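import Pool.Agent.Modu.Targets

/-!
# MODU: FRX, the far right points are small
-/

set_option autoImplicit false

open Complex Filter Topology Set
open Pool.Agent.Multibrot Pool.Agent.Limb

namespace Pool.Agent.Modu

namespace FRX_

lemma two_le {n : ℕ} (hn : (10 : ℝ) ^ 20 ≤ n) : 2 ≤ n := by
  have : (2 : ℝ) ≤ n := le_trans (by norm_num) hn
  exact_mod_cast this

lemma one_add_ne' {n : ℕ} (hn : (10 : ℝ) ^ 20 ≤ n) {z : ℂ} (hz : z ≠ -n) : 1 + z / n ≠ 0 := by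
  have hn0 := natCast_ne (two_le hn)
  intro h
  apply hz
  field_simp at h
  linear_combination h

lemma succ_eq {n : ℕ} (hn : (10 : ℝ) ^ 20 ≤ n) (L : ℂ) (i : ℕ) (hz : zz n L i ≠ -n) :
    zz n L (i + 1) = exp (XX n L i + L) := by
  have h1 := one_add_ne' hn hz
  rw [zz_succ, Limb.E, XX, exp_add, Complex.exp_nat_mul, exp_log h1]
  ring

/-- `z` and `n log (1 + z / n)` are close. -/
lemma sub_le {n : ℕ} (hn : (10 : ℝ) ^ 20 ≤ n) {z : ℂ} {B : ℝ} (hB : ‖z‖ ≤ B)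
    (hB2 : B ^ 2 ≤ n * (1 / 10 ^ 6)) (hB1 : B ≤ n / 2) :
    ‖z - n * log (1 + z / n)‖ ≤ 1 / 10 ^ 6 := by
  have hn0 : (0 : ℝ) < n := lt_of_lt_of_le (by norm_num) hn
  have hnc := natCast_ne (two_le hn)
  have hw : ‖z / n‖ = ‖z‖ / n := by rw [norm_div, norm_natCast]
  have hw2 : ‖z / n‖ ≤ 1 / 2 := by
    rw [hw, div_le_iff₀ hn0]
    linarith
  have h1 := Complex.norm_log_one_add_sub_self_le (z := z / n) (lt_of_le_of_lt hw2 (by norm_num))
  have h2 : ‖log (1 + z / n) - z / n‖ ≤ ‖z / n‖ ^ 2 := by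
    refine h1.trans ?_
    have h3 : (1 - ‖z / n‖)⁻¹ ≤ 2 := by
      rw [inv_le_comm₀ (by linarith) (by norm_num)]
      linarith
    have h4 : 0 ≤ ‖z / n‖ ^ 2 := by positivity
    nlinarith
  have h5 : z - n * log (1 + z / n) = -(n * (log (1 + z / n) - z / n)) := by
    field_simp
    ring
  rw [h5, norm_neg, norm_mul, norm_natCast]
  have h6 : (n : ℝ) * ‖log (1 + z / n) - z / n‖ ≤ n * ‖z / n‖ ^ 2 :=
    mul_le_mul_of_nonneg_left h2 hn0.le
  have h7 : (n : ℝ) * ‖z / n‖ ^ 2 = ‖z‖ ^ 2 / n := by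
    rw [hw]
    field_simp
  rw [h7] at h6
  refine h6.trans ?_
  rw [div_le_iff₀ hn0]
  have h8 : ‖z‖ ^ 2 ≤ B ^ 2 := pow_le_pow_left₀ (norm_nonneg _) hB 2
  linarith

end FRX_

open FRX_ in
theorem p_FRX (h1 : T_LN) : T_FRX := by
  intro n L i hn hc hL hz
  have hn0 : (0 : ℝ) < n := lt_of_lt_of_le (by norm_num) hn
  have e := succ_eq hn L i hz
  have hre : (XX n L i).re + L.re ≤ Real.log (3 * n) := by
    have h2 := norm_zz_le hn hc hL (i + 1)
    rw [e, norm_exp, add_re] at h2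
    rw [Real.le_log_iff_exp_le (by positivity)]
    exact h2
  refine ⟨e, hre, fun hFR => ?_⟩
  have hB : ‖zz n L i‖ ≤ 5000 * Real.log (3 * n) := by
    refine (show ‖zz n L i‖ ≤ 5000 * (XX n L i).re from hFR).trans ?_
    linarith
  refine ⟨hB, ?_⟩
  obtain ⟨l1, l2, l3, l4⟩ := h1 n hn
  have h34 : Real.log (3 * n) ≤ Real.log (4 * n) :=
    Real.log_le_log (by positivity) (by linarith)
  have h3p : 0 ≤ Real.log (3 * n) := by
    rw [l3]
    have : 0 ≤ Real.log 3 := Real.log_nonneg (by norm_num)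
    linarith
  have h5 : (5000 * Real.log (3 * n)) ^ 2 ≤ n * (1 / 10 ^ 6) := by
    have h6 : (Real.log (3 * n)) ^ 2 ≤ (Real.log (4 * n)) ^ 2 := pow_le_pow_left₀ h3p h34 2
    have h7 : (5000 * Real.log (3 * n)) ^ 2 = 25000000 * (Real.log (3 * n)) ^ 2 := by ring
    rw [h7]
    have h8 : (n : ℝ) / 10 ^ 16 = n * (1 / 10 ^ 16) := by ring
    rw [h8] at l4
    nlinarith
  have h6 : 5000 * Real.log (3 * n) ≤ n / 2 := by
    have h7 : (5000 * Real.log (3 * n)) ^ 2 ≤ (n / 2) ^ 2 := by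
      refine h5.trans ?_
      nlinarith
    exact (pow_le_pow_iff_left₀ (by positivity) (by positivity) (by norm_num)).1 h7
  exact sub_le hn hB h5 h6

end Pool.Agent.Modu
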