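import Pool.Agent.Modu.COV

/-!
# MODU: GJD
-/

set_option autoImplicit false

open Complex Filter Topology Set
open Pool.Agent.Multibrot Pool.Agent.Limb

namespace Pool.Agent.Modu

namespace GJD_

lemma psi_part {n : ℕ} (hn : (10 : ℝ) ^ 20 ≤ n) {L U : ℂ} (hU : ‖U‖ < 3) :
    DifferentiableAt ℂ (fun p : ℂ × ℂ => log (psi (p.2 / n))) (L, U) := by
  obtain ⟨h1, h2, -, -⟩ := p_PSI
  have hn0 : (0 : ℝ) < n := lt_of_lt_of_le (by norm_num) hn
  have h3 : ‖U / n‖ < 3 := by
    rw [norm_div, norm_natCast, div_lt_iff₀ hn0]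
    have : (1 : ℝ) ≤ n := le_trans (by norm_num) hn
    nlinarith
  have h4 : |(U / n).im| < Real.pi := by
    have h5 := abs_im_le_norm (U / n)
    have := Real.pi_gt_three
    linarith
  have h5 := (h2 _ h4).1
  have h6 : DifferentiableAt ℂ (fun p : ℂ × ℂ => psi (p.2 / n)) (L, U) := by
    have h7 : DifferentiableAt ℂ (fun p : ℂ × ℂ => p.2 / (n : ℂ)) (L, U) := by fun_prop
    exact (h1 (U / n)).comp (L, U) h7
  exact h6.clog h5

end GJD_

open GJD_

theorem p_GJD : T_GJD := by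
  intro n k L U hn h hU
  obtain ⟨hφ1, hφ2, -⟩ := p_PHI
  induction k generalizing U with
  | zero => exact psi_part hn hU
  | succ k ih =>
    have hz := h (k + 1) (by omega) le_rfl
    obtain ⟨h1, h2, h3, -, -, -⟩ := lim_DISCST n (zz n L (k + 1)) U hn hz.1 hz.2 hU
    have hz0 : zz n L (k + 1) ≠ 0 := ne_zero_of_big hz.1
    have e1 : (fun p : ℂ × ℂ => GG n p.1 (k + 1) p.2) = fun p : ℂ × ℂ =>
        (fun q : ℂ × ℂ => GG n q.1 k q.2) (p.1, hh n (zz n p.1 (k + 1)) p.2) +
          tau n (zz n p.1 (k + 1)) p.2 := rfl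
    have hzd : DifferentiableAt ℂ (fun p : ℂ × ℂ => zz n p.1 (k + 1)) (L, U) :=
      DifferentiableAt.comp (L, U) (g := fun L : ℂ => zz n L (k + 1)) (f := Prod.fst)
        (differentiable_zz n (k + 1) L) differentiableAt_fst
    have hb : DifferentiableAt ℂ (fun p : ℂ × ℂ =>
        (1 + (n : ℂ) / zz n p.1 (k + 1)) * (exp (p.2 / n) - 1)) (L, U) := by
      have h4 : DifferentiableAt ℂ (fun p : ℂ × ℂ => (n : ℂ) / zz n p.1 (k + 1)) (L, U) := by
        have h7 : DifferentiableAt ℂ (fun p : ℂ × ℂ => (zz n p.1 (k + 1))⁻¹) (L, U) :=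
          DifferentiableAt.comp (L, U) (g := fun z : ℂ => z⁻¹)
            (f := fun p : ℂ × ℂ => zz n p.1 (k + 1)) (differentiableAt_inv hz0) hzd
        simp only [div_eq_mul_inv]
        exact h7.const_mul _
      have h5 : DifferentiableAt ℂ (fun p : ℂ × ℂ => exp (p.2 / n) - 1) (L, U) := by fun_prop
      exact ((differentiableAt_const (1 : ℂ)).add h4).mul h5
    have hH : DifferentiableAt ℂ (fun p : ℂ × ℂ => hh n (zz n p.1 (k + 1)) p.2) (L, U) := by
      unfold hh
      exact ((differentiableAt_const (1 : ℂ)).add hb).clog h1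
    have hHH : DifferentiableAt ℂ
        (fun p : ℂ × ℂ => (p.1, hh n (zz n p.1 (k + 1)) p.2)) (L, U) :=
      differentiableAt_fst.prodMk hH
    have hU' : ‖hh n (zz n L (k + 1)) U‖ < 3 := by
      refine lt_of_le_of_lt h2 ?_
      have := norm_nonneg U
      linarith
    have hih := ih (hh n (zz n L (k + 1)) U) (fun i hi hi' => h i hi (by omega)) hU'
    have ht : DifferentiableAt ℂ (fun p : ℂ × ℂ => tau n (zz n p.1 (k + 1)) p.2) (L, U) := by
      unfold tau
      have h6 : DifferentiableAt ℂ (fun p : ℂ × ℂ =>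
          phi ((1 + (n : ℂ) / zz n p.1 (k + 1)) * (exp (p.2 / n) - 1))) (L, U) :=
        DifferentiableAt.comp (L, U) (g := phi) (f := fun p : ℂ × ℂ =>
          (1 + (n : ℂ) / zz n p.1 (k + 1)) * (exp (p.2 / n) - 1)) (hφ1 _ h1) hb
      exact (h6.clog (hφ2 _ h1).1).add (psi_part hn hU)
    rw [e1]
    exact (hih.comp (L, U) hHH).add ht

end Pool.Agent.Modu
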