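import Pool.Agent.Modu.Defs

/-!
# MODU: targets (see Blueprint.lean.txt for the proofs)
-/

set_option autoImplicit false

open Complex Filter Topology Set
open Pool.Agent.Multibrot Pool.Agent.Limb

namespace Pool.Agent.Modu

/-! ### A. topology -/

/-- SEPC: separation in compact sets. -/
def T_SEPC : Prop :=
  (∀ (X U : Set ℂ) (p : ℂ), IsCompact X → p ∈ X → IsOpen U → connectedComponentIn X p ⊆ U →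
    ∃ K : Set ℂ, K ⊆ X ∧ IsCompact K ∧ IsCompact (X \ K) ∧ p ∈ K ∧ K ⊆ U ∧
      ∀ Y : Set ℂ, IsPreconnected Y → Y ⊆ X → (Y ∩ K).Nonempty → Y ⊆ K) ∧
  (∀ X P Q : Set ℂ, IsCompact X → IsCompact P → IsCompact Q → P ⊆ X → Q ⊆ X →
    (∀ Y : Set ℂ, Y ⊆ X → IsCompact Y → IsPreconnected Y → (Y ∩ P).Nonempty →
      (Y ∩ Q).Nonempty → False) →
    ∃ A B : Set ℂ, IsCompact A ∧ IsCompact B ∧ Disjoint A B ∧ A ∪ B = X ∧ P ⊆ A ∧ Q ⊆ B)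

/-- TL (from SEPC): the topological lemma. -/
def T_TL : Prop := ∀ (M K V : Set ℂ) (f : ℂ → ℝ) (a m b : ℝ), a < m → m < b → Continuous f →
  (∀ A : Set ℂ, A ⊆ M → IsCompact A → (∀ x ∈ A, ∀ᶠ y in 𝓝[M] x, y ∈ A) → A = ∅) →
  K ⊆ M → IsCompact K → (∀ x ∈ K, f x < b → ∀ᶠ y in 𝓝[M] x, y ∈ K) →
  V ⊆ M → IsCompact V → (∀ x ∈ V, a < f x → ∀ᶠ y in 𝓝[M] x, y ∈ V) →
  (∀ x ∈ K, a ≤ f x → x ∈ V) →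
  (∀ Y : Set ℂ, Y ⊆ V → IsCompact Y → IsPreconnected Y → (∀ y ∈ Y, m ≤ f y) →
    ∀ c1 ∈ Y, ∀ c2 ∈ Y, f c1 = m → f c2 = m → c1 ∈ K → c2 ∈ K) →
  (∃ x ∈ K, f x < m) → False

/-- BBL (from SEPC): boundary bumping. -/
def T_BBL : Prop := ∀ (Y F : Set ℂ) (c : ℂ), IsCompact Y → IsPreconnected Y → IsClosed F →
  c ∈ Y → c ∈ F → ¬ Y ⊆ F → ∃ D : Set ℂ, IsCompact D ∧ IsPreconnected D ∧ D ⊆ Y ∧ D ⊆ F ∧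
    c ∈ D ∧ ∃ q ∈ D, q ∈ closure (Y \ F)

/-- NC: the Multibrot set has no compact open parts. -/
def T_NC : Prop := ∀ n : ℕ, 2 ≤ n → ∀ A : Set ℂ, A ⊆ Mq n → IsCompact A →
  (∀ x ∈ A, ∀ᶠ y in 𝓝[Mq n] x, y ∈ A) → A = ∅

/-- SLIT: the central disc and the symmetry rays. -/
def T_SLIT : Prop := ∀ (n : ℕ) (L : ℂ), (10 : ℝ) ^ 20 ≤ n →
  (L.re ≤ -1 → ‖cc n L‖ ≤ r0 n) ∧ (‖cc n L‖ ≤ r0 n → L ∈ Mq n) ∧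
  (L ∈ Mq n → (∃ m : ℤ, L.im = 2 * Real.pi * m) → ‖cc n L‖ ≤ r0 n ∧ L.re < -(1 / 2)) ∧
  ∀ m : ℤ, (L + 2 * Real.pi * m * I ∈ Mq n ↔ L ∈ Mq n)

/-- STAY (from SLIT). -/
def T_STAY : Prop := ∀ (n : ℕ) (J : Set ℂ) (L0 : ℂ), (10 : ℝ) ^ 20 ≤ n → IsPreconnected J →
  J ⊆ Mq n → (∀ L ∈ J, -(1 / 2) ≤ L.re) → L0 ∈ J → L0 ∈ Mp n → J ⊆ Mp n

/-! ### B. charts -/

/-- LN: numbers. -/
def T_LN : Prop := ∀ n : ℕ, (10 : ℝ) ^ 20 ≤ n →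
  46 ≤ Real.log n ∧ Real.log (4 * n) = Real.log 4 + Real.log n ∧
  Real.log (3 * n) = Real.log 3 + Real.log n ∧ (Real.log (4 * n)) ^ 2 ≤ n / 10 ^ 16

/-- CHP (from LN): properties of charts. -/
def T_CHP : Prop := ∀ (n : ℕ) (s : ℕ → ℤ) (k : ℕ) (L : ℂ), Ch n s k L →
  ((YY n s L 0).re = L.re ∧ (YY n s L 0).im = L.im - 2 * Real.pi * s 0) ∧
  (∀ i, i ≤ k → exp (YY n s L i) = zz n L (i + 1)) ∧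
  (∀ i, i ≤ k → ‖zz n L (i + 1)‖ = Real.exp (YY n s L i).re) ∧
  (∀ i, i < k → YY n s L i = log (zz n L (i + 1)) ∧ |(YY n s L i).im| ≤ 8 / 5) ∧
  (∀ i, i < k → Real.exp (YY n s L i).re ≤ 6002 * (YY n s L (i + 1)).re ∧
    100 * (YY n s L i).re ≤ (YY n s L (i + 1)).re) ∧
  (∀ i, i < k → rr s i + 1 ≤ (YY n s L i).re) ∧
  (∀ i, 1 ≤ i → i ≤ k → 99 / 100 * (YY n s L i).re ≤ (XX n L i).re ∧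
    (XX n L i).re ≤ (YY n s L i).re ∧ ‖XX n L i‖ ≤ 6100 * (XX n L i).re ∧
    ‖XX n L i‖ ≤ 7000 * Real.log (4 * n) ∧ ‖zz n L i - XX n L i‖ ≤ 1 / 10 ^ 6) ∧
  (∀ i, i ≤ k → (21 : ℝ) ≤ rr s i) ∧
  LowS n (k + 1) L

/-- FRX (from LN): the far right points are small. -/
def T_FRX : Prop := ∀ (n : ℕ) (L : ℂ) (i : ℕ), (10 : ℝ) ^ 20 ≤ n → cc n L ∈ MM n → 0 ≤ L.re →
  zz n L i ≠ -n →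
  zz n L (i + 1) = exp (XX n L i + L) ∧ (XX n L i).re + L.re ≤ Real.log (3 * n) ∧
  (FR n L i → ‖zz n L i‖ ≤ 5000 * Real.log (3 * n) ∧ ‖zz n L i - XX n L i‖ ≤ 1 / 10 ^ 6)

/-- CHART (from CHP): the inverse chart. -/
def T_CHART : Prop := ∀ (n : ℕ) (s : ℕ → ℤ) (k : ℕ), (10 : ℝ) ^ 20 ≤ n → |(s 0 : ℝ)| ≤ 1 →
  ∃ Φ : ℂ → ℂ,
  (∀ y : ℂ, rr s k ≤ y.re → y.re ≤ Real.log (4 * n) → |y.im| ≤ 10 →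
    Ch n s k (Φ y) ∧ YY n s (Φ y) k = y) ∧
  (∀ L : ℂ, Ch n s k L → Φ (YY n s L k) = L) ∧
  (∀ y y' : ℂ, rr s k ≤ y.re → y.re ≤ Real.log (4 * n) → |y.im| ≤ 10 →
    rr s k ≤ y'.re → y'.re ≤ Real.log (4 * n) → |y'.im| ≤ 10 →
    ‖Φ y - Φ y'‖ ≤ (1 / 10 ^ 8) ^ k * ‖y - y'‖) ∧
  ∀ y : ℂ, rr s k < y.re → y.re < Real.log (4 * n) → |y.im| < 10 → DifferentiableAt ℂ Φ y

/-- LIP (from CHP). -/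
def T_LIP : Prop := ∀ (n : ℕ) (s : ℕ → ℤ) (k : ℕ) (L L' : ℂ), Ch n s k L → Ch n s k L' →
  ∀ i, i ≤ k → ‖YY n s L' i - YY n s L i‖ ≤
    (1 / 10 ^ 7) ^ (k - i) * ‖YY n s L' k - YY n s L k‖

/-- COMP (from CHP, LIP): comparison when one moves to the left. -/
def T_COMP : Prop := ∀ (n : ℕ) (s : ℕ → ℤ) (k : ℕ) (L L' : ℂ), Ch n s k L → Ch n s k L' →
  (YY n s L' k).re ≤ (YY n s L k).re + 20 →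
  (∀ i, i < k → (YY n s L' i).re ≤ (YY n s L i).re + 1 / 1000) ∧
  (∀ i, 1 ≤ i → i ≤ k → |(XX n L' i).im - (XX n L i).im| ≤ 24) ∧
  (1 ≤ k → (XX n L' k).re ≤
    (XX n L k).re + max 0 ((YY n s L' k).re - (YY n s L k).re) + 1 / 1000)

/-- CHCL (from CHART). -/
def T_CHCL : Prop := ∀ (n : ℕ) (s : ℕ → ℤ) (k : ℕ), IsCompact {L : ℂ | Ch n s k L} ∧
  ∀ i, i ≤ k → ContinuousOn (fun L => YY n s L i) {L : ℂ | Ch n s k L} ∧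
    ContinuousOn (fun L => XX n L i) {L : ℂ | Ch n s k L}

/-- CHNEAR (from CHP). -/
def T_CHNEAR : Prop := ∀ (n : ℕ) (s : ℕ → ℤ) (k : ℕ) (L0 : ℂ), Ch n s k L0 →
  cc n L0 ∈ MM n → rr s k < (YY n s L0 k).re → |(YY n s L0 k).im| < 10 →
  (∀ᶠ L in 𝓝 L0, Ch n s k L) ∧ ∀ i, i ≤ k →
    ContinuousAt (fun L => YY n s L i) L0 ∧ ContinuousAt (fun L => XX n L i) L0

/-- FRC. -/
def T_FRC : Prop := ∀ n k : ℕ, 1 ≤ n → IsClosed {L : ℂ | FR n L k} ∧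
  ∀ L0 : ℂ, zz n L0 k ≠ -n → ContinuousAt (fun L => (XX n L k).re) L0

/-- STRIP (from FRX, FRC, SLIT): the true arguments. -/
def T_STRIP : Prop := ∀ n : ℕ, (10 : ℝ) ^ 20 ≤ n → ∃ α, IsArg n α

/-- STEP (from CHP, FRX): the next chart. -/
def T_STEP : Prop := ∀ (n : ℕ) (α : ℕ → ℂ → ℝ) (s : ℕ → ℤ) (k : ℕ) (L : ℂ), IsArg n α →
  Ch n s k L → L ∈ Mp n → rr s k + 29 ≤ (YY n s L k).re → FR n L (k + 1) →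
  ∃ s' : ℕ → ℤ, (∀ i, i < k → s' i = s i) ∧ |((s' k : ℤ) : ℝ) - s k| ≤ 1 ∧
    Ch n s' (k + 1) L ∧ rr s' (k + 1) + 40 ≤ (YY n s' L (k + 1)).re ∧
    (YY n s' L (k + 1)).im = α (k + 2) L ∧ 2 * ‖zz n L (k + 1)‖ ≤ ‖zz n L (k + 2)‖

/-- ADJ (from CHP, SLIT): adjusting the last index. -/
def T_ADJ : Prop := ∀ (n : ℕ) (α : ℕ → ℂ → ℝ) (s : ℕ → ℤ) (m : ℕ) (L : ℂ), IsArg n α →
  L ∈ Mp n → Ch n s m L → rr s m + 1 ≤ (YY n s L m).re →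
  ∃ s' : ℕ → ℤ, (∀ i, i < m → s' i = s i) ∧ Ch n s' m L ∧ (YY n s' L m).im = α (m + 1) L ∧
    |rr s' m - rr s m| ≤ 1 / 100

/-- ADOWN (from ADJ, CHP). -/
def T_ADOWN : Prop := ∀ (n : ℕ) (α : ℕ → ℂ → ℝ) (s : ℕ → ℤ) (m m' : ℕ) (L : ℂ), IsArg n α →
  L ∈ Mp n → m' ≤ m → Ch n s m L → (YY n s L m).im = α (m + 1) L →
  ∃ s' : ℕ → ℤ, (∀ i, i < m' → s' i = s i) ∧ Ch n s' m' L ∧ (YY n s' L m').im = α (m' + 1) L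

/-- DOWN (from CHP): from level `k + 1` to level `k` with another last index. -/
def T_DOWN : Prop := ∀ (n : ℕ) (s s' : ℕ → ℤ) (k : ℕ) (L : ℂ), Ch n s' (k + 1) L →
  |(s 0 : ℝ)| ≤ 1 → (∀ i, i < k → s' i = s i) → |((s' k : ℤ) : ℝ) - s k| ≤ 1 →
  Ch n s k L ∧ YY n s L k = YY n s' L k + 2 * Real.pi * I * ((s' k : ℤ) - (s k : ℤ))

/-- ALPHA (from CHP, CHCL). -/
def T_ALPHA : Prop := ∀ (n : ℕ) (α : ℕ → ℂ → ℝ) (s : ℕ → ℤ) (m : ℕ) (J : Set ℂ), IsArg n α →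
  IsPreconnected J → J ⊆ Mp n → (∀ L ∈ J, Ch n s m L) → ∀ L0 ∈ J,
  (YY n s L0 m).im = α (m + 1) L0 → ∀ L ∈ J, (YY n s L m).im = α (m + 1) L

/-- COV (from CHP): a common chart on a connected set. -/
def T_COV : Prop := ∀ (n : ℕ) (α : ℕ → ℂ → ℝ) (m : ℕ) (J : Set ℂ), IsArg n α →
  IsPreconnected J → J ⊆ Mp n →
  (∀ L ∈ J, ∃ s : ℕ → ℤ, Ch n s m L ∧ (YY n s L m).im = α (m + 1) L) →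
  ∃ s : ℕ → ℤ, ∀ L ∈ J, Ch n s m L ∧ (YY n s L m).im = α (m + 1) L ∧
    ∀ s' : ℕ → ℤ, Ch n s' m L → (YY n s' L m).im = α (m + 1) L → ∀ i, i ≤ m → s' i = s i

/-! ### C. fingers -/

/-- SPINE (from CHP, LN). -/
def T_SPINE : Prop := ∀ (n : ℕ) (s : ℕ → ℤ) (k : ℕ) (L : ℂ), Ch n s k L → Sp n s k L →
  cc n L ∈ MM n

/-- SSEG (from CHART, SPINE, STAY): segments of the spine. -/
def T_SSEG : Prop := ∀ (n : ℕ) (s : ℕ → ℤ) (k : ℕ) (S1 S2 : ℂ), Ch n s k S1 → Ch n s k S2 →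
  Sp n s k S1 → Sp n s k S2 → S1 ∈ Mp n →
  ∃ J : Set ℂ, IsPreconnected J ∧ J ⊆ Mp n ∧ S1 ∈ J ∧ S2 ∈ J ∧ ∀ L ∈ J, Ch n s k L ∧
    Sp n s k L ∧ min (YY n s S1 k).re (YY n s S2 k).re ≤ (YY n s L k).re ∧
    (YY n s L k).re ≤ max (YY n s S1 k).re (YY n s S2 k).re

/-- GJD: joint differentiability of `GG`. -/
def T_GJD : Prop := ∀ (n k : ℕ) (L U : ℂ), (10 : ℝ) ^ 20 ≤ n →
  (∀ i, 1 ≤ i → i ≤ k → (10 : ℝ) ^ 8 ≤ ‖zz n L i‖ ∧ zz n L i ≠ -n) → ‖U‖ < 3 →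
  DifferentiableAt ℂ (fun p : ℂ × ℂ => GG n p.1 k p.2) (L, U)

/-- CLASS: the non repelling cycles of period `j + 1`. -/
def T_CLASS : Prop := ∀ (n j : ℕ) (L Z : ℂ), Low n j L → zz n L j ≠ -n →
  (F n (cc n L))^[j + 1] Z = Z → ‖deriv ((F n (cc n L))^[j + 1]) Z‖ ≤ 1 →
  ∃ u : ℂ, ‖u‖ ≤ 102 / 100 ∧ u * exp (GG n L j u - u) = zz n L (j + 1) * DD n L j ∧
    (u = 0 ∨ 1 ≤ ‖1 / u + deriv (GG n L j) u‖)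

/-- FATOU. -/
def T_FATOU : Prop := ∀ (n : ℕ) (c : ℂ) (p : ℕ) (Z : ℂ), 2 ≤ n → 1 ≤ p →
  (F n c)^[p] Z = Z → ‖deriv ((F n c)^[p]) Z‖ < 1 → c ∈ MM n

/-- MUP (from CHP, CHART, GJD, LN): towards the centre of a component. -/
def T_MUP : Prop := ∀ (n : ℕ) (s : ℕ → ℤ) (k : ℕ) (q u0 : ℂ), Ch n s k q → cc n q ∈ MM n →
  rr s k + 29 ≤ (YY n s q k).re → |(YY n s q k).im| ≤ 9 → zz n q (k + 1) ≠ -n →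
  1 / 1000 ≤ ‖u0‖ → ‖u0‖ ≤ 102 / 100 →
  u0 * exp (GG n q (k + 1) u0 - u0) = zz n q (k + 2) * DD n q (k + 1) →
  1 ≤ ‖1 / u0 + deriv (GG n q (k + 1)) u0‖ →
  ∃ γ : ℝ → ℂ, ContinuousOn γ (Icc 0 6) ∧ γ 0 = q ∧
    (∀ t ∈ Icc (0 : ℝ) 6, Ch n s k (γ t) ∧ ‖YY n s (γ t) k - YY n s q k‖ ≤ 1 / 100 ∧
      zz n (γ t) (k + 1) ≠ -n) ∧
    (∀ t ∈ Ioc (0 : ℝ) 6, ∃ u : ℂ, u ≠ 0 ∧ ‖u‖ < 3 ∧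
      u * exp (GG n (γ t) (k + 1) u - u) = zz n (γ t) (k + 2) * DD n (γ t) (k + 1) ∧
      1 < ‖1 / u + deriv (GG n (γ t) (k + 1)) u‖) ∧
    ‖zz n (γ 6) (k + 2) * DD n (γ 6) (k + 1)‖ ≤ 1 / 200

/-- LEG (from CHP, CHART, STAY, LN): from a deep point to the spine. -/
def T_LEG : Prop := ∀ (n : ℕ) (s : ℕ → ℤ) (k : ℕ) (p : ℂ), Ch n s k p → p ∈ Mp n →
  rr s k + 20 ≤ (YY n s p k).re → 0 < (YY n s p k).im → (YY n s p k).im < 2 * Real.pi →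
  ‖zz n p (k + 2) * DD n p (k + 1)‖ ≤ 1 / 200 →
  ∃ J : Set ℂ, IsPreconnected J ∧ J ⊆ Mp n ∧ p ∈ J ∧ (∃ S ∈ J, Sp n s k S) ∧
    ∀ L ∈ J, Ch n s k L ∧ |(YY n s L k).re - (YY n s p k).re| ≤ 5

/-- FING (from CHP, CLASS, MUP, FATOU, LEG, STAY). -/
def T_FING : Prop := ∀ (n : ℕ) (s : ℕ → ℤ) (k : ℕ) (q : ℂ), q ∈ Mp n → Ch n s k q →
  rr s k + 29 ≤ (YY n s q k).re → -(1 / 2) ≤ (YY n s q k).im →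
  (YY n s q k).im ≤ 2 * Real.pi + 1 / 2 → ¬ NR n (k + 2) (cc n q) →
  ∃ J : Set ℂ, IsPreconnected J ∧ J ⊆ Mp n ∧ q ∈ J ∧ (∃ S ∈ J, Sp n s k S) ∧
    ∀ L ∈ J, Ch n s k L ∧ |(YY n s L k).re - (YY n s q k).re| ≤ 6

/-! ### D. the main statement -/

/-- RC (from CHP, STEP, COV, DOWN, COMP, BBL, FRC, FRX, SSEG). -/
def T_RC : Prop := ∀ (n : ℕ) (α : ℕ → ℂ → ℝ) (B : ℝ), IsArg n α →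
  (∀ s k p, HP n s k p → B ≤ ‖zz n p (k + 1)‖ → HC n s k p) →
  ∀ (s : ℕ → ℤ) (k : ℕ) (Y : Set ℂ), IsCompact Y → IsPreconnected Y →
  (∀ L ∈ Y, L ∈ Mp n ∧ Ch n s k L ∧ rr s k + 30 ≤ (YY n s L k).re ∧
    (YY n s L k).im = α (k + 1) L ∧ B ≤ ‖zz n L (k + 1)‖) →
  ∀ c1 ∈ Y, ∀ c2 ∈ Y, ∃ J : Set ℂ, IsPreconnected J ∧ J ⊆ Mp n ∧ c1 ∈ J ∧ c2 ∈ J ∧
    ∀ L ∈ J, Ch n s k L ∧ (YY n s L k).re ≤ max (YY n s c1 k).re (YY n s c2 k).re + 12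

/-- HSTEP (from RC, TL, SEPC, NC, FING, FRX, FRC, CHP, CHNEAR, CHCL, STEP, COV, DOWN, COMP,
SLIT). -/
def T_HSTEP : Prop := ∀ (n : ℕ) (α : ℕ → ℂ → ℝ) (B : ℝ), IsArg n α →
  (∀ s k p, HP n s k p → B ≤ ‖zz n p (k + 1)‖ → HC n s k p) →
  ∀ s k p, HP n s k p → B ≤ 2 * ‖zz n p (k + 1)‖ → HC n s k p

/-- HALL (from HSTEP, STRIP). -/
def T_HALL : Prop := ∀ n : ℕ, (10 : ℝ) ^ 20 ≤ n → ∀ s k p, HP n s k p → HC n s k p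

/-! ### E. global paths -/

/-- MARG (from CHP, FRX). -/
def T_MARG : Prop := ∀ (n : ℕ) (s : ℕ → ℤ) (m : ℕ) (L : ℂ), L ∈ Mp n → Ch n s m L →
  51 ≤ L.re → (∀ i, 1 ≤ i → i ≤ m → FR n L i) → rr s m + 30 ≤ (YY n s L m).re

/-- HPI (from STEP, SLIT, FRX). -/
def T_HPI : Prop := ∀ (n : ℕ) (α : ℕ → ℂ → ℝ) (L : ℂ), IsArg n α → L ∈ Mp n → 51 ≤ L.re →
  (∀ m : ℕ, (∀ i, 1 ≤ i → i ≤ m → FR n L i) → ∃ s : ℕ → ℤ, Ch n s m L ∧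
    rr s m + 30 ≤ (YY n s L m).re ∧ (YY n s L m).im = α (m + 1) L) ∧
  ∀ κ : ℕ, (∀ i, 1 ≤ i → i ≤ κ → FR n L i) → ∃ m, κ ≤ m ∧ (∀ i, 1 ≤ i → i ≤ m → FR n L i) ∧
    NF n L (m + 1)

/-- FOL (from CHART, SPINE, STAY, MARG, FRC, CHP): follow the spine to the left. -/
def T_FOL : Prop := ∀ (n : ℕ) (s : ℕ → ℤ) (m : ℕ) (q : ℂ), q ∈ Mp n → Ch n s m q → 1 ≤ m →
  Sp n s m q → (∀ i, 1 ≤ i → i ≤ m → FR n q i) → 51 ≤ q.re →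
  ∃ J : Set ℂ, IsPreconnected J ∧ J ⊆ Mp n ∧ q ∈ J ∧
    (∃ q' ∈ J, (∃ i, 1 ≤ i ∧ i ≤ m ∧ NF n q' i) ∨ q'.re ≤ 51) ∧
    ∀ L ∈ J, Ch n s m L ∧ (YY n s L m).re ≤ (YY n s q m).re

/-- PH (from MARG, FOL, ALPHA, CHP): one phase. -/
def T_PH : Prop := ∀ (n : ℕ) (α : ℕ → ℂ → ℝ) (m : ℕ) (P q : ℂ) (J0 : Set ℂ), IsArg n α →
  (∀ s k p, HP n s k p → HC n s k p) → IsPreconnected J0 → J0 ⊆ Mp n → P ∈ J0 → q ∈ J0 →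
  (∀ L ∈ J0, ∃ s : ℕ → ℤ, Ch n s m L ∧ (YY n s L m).im = α (m + 1) L) →
  51 ≤ q.re → (∀ i, 1 ≤ i → i ≤ m → FR n q i) → NF n q (m + 1) →
  (∀ L ∈ J0, Real.log ‖zz n L (m + 1)‖ ≤ Real.log ‖zz n P (m + 1)‖ + 11) →
  Real.log ‖zz n q (m + 1)‖ ≤ Real.log ‖zz n P (m + 1)‖ + 1 / 1000 →
  ∃ J1 : Set ℂ, J0 ⊆ J1 ∧ IsPreconnected J1 ∧ J1 ⊆ Mp n ∧
    (∀ L ∈ J1, ∃ s : ℕ → ℤ, Ch n s m L ∧ (YY n s L m).im = α (m + 1) L) ∧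
    (∀ L ∈ J1, Real.log ‖zz n L (m + 1)‖ ≤ Real.log ‖zz n P (m + 1)‖ + 11) ∧
    ∃ q1 ∈ J1, (1 ≤ m → (∃ i, 1 ≤ i ∧ i ≤ m ∧ NF n q1 i) ∨ q1.re ≤ 51) ∧
      (m = 0 → q1.im = Real.pi ∧ q1.re ≤ Real.log n - 1)

/-- DESC (from PH, HPI, ADOWN, COV, COMP, CHP). -/
def T_DESC : Prop := ∀ (n : ℕ) (α : ℕ → ℂ → ℝ), IsArg n α →
  (∀ s k p, HP n s k p → HC n s k p) → ∀ (κ : ℕ) (P : ℂ), P ∈ Mp n → 51 ≤ P.re →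
  (∀ i, 1 ≤ i → i ≤ κ → FR n P i) →
  ∃ J : Set ℂ, IsPreconnected J ∧ J ⊆ Mp n ∧ P ∈ J ∧
    (∃ q ∈ J, (∃ i, 1 ≤ i ∧ i ≤ κ ∧ NF n q i) ∨ q.re ≤ 51 ∨
      (κ = 0 ∧ q.im = Real.pi ∧ q.re ≤ Real.log n - 1)) ∧
    ∀ L ∈ J, (∃ s : ℕ → ℤ, Ch n s κ L ∧ (YY n s L κ).im = α (κ + 1) L) ∧
      Real.log ‖zz n L (κ + 1)‖ ≤ Real.log ‖zz n P (κ + 1)‖ + 11

/-- The condition under which a point is joined to the spine of level `k` nearby. -/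
def AT (n k : ℕ) (P : ℂ) : Prop :=
  NF n P (k + 1) ∨ (1 / 2) ^ (k + 12) * ‖zz n P (k + 1)‖ ≤ |(XX n P (k + 1)).im|

/-- ATTK (from DESC, COV, DOWN, STEP, MARG, CHP, COMP, LIP, FRX, ALPHA). -/
def T_ATTK : Prop := ∀ (n : ℕ) (α : ℕ → ℂ → ℝ) (s : ℕ → ℤ) (k : ℕ) (P : ℂ), IsArg n α →
  (∀ s k p, HP n s k p → HC n s k p) → P ∈ Mp n → Ch n s k P →
  (YY n s P k).im = α (k + 1) P → 61 ≤ P.re →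
  (∀ i, 1 ≤ i → i ≤ k → ‖zz n P i‖ ≤ 2 * (XX n P i).re) → AT n k P →
  ∃ J : Set ℂ, IsPreconnected J ∧ J ⊆ Mp n ∧ P ∈ J ∧ (∃ S ∈ J, Sp n s k S) ∧
    ∀ L ∈ J, Ch n s k L ∧ |(YY n s L k).re - (YY n s P k).re| ≤ k + 30

/-- CORE (from RC, TL, SEPC, NC, SLIT, STAY). -/
def T_CORE : Prop := ∀ (n : ℕ) (α : ℕ → ℂ → ℝ), IsArg n α →
  (∀ s k p, HP n s k p → HC n s k p) → ∀ p ∈ Mp n, p.re ≤ 64 →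
  ∃ J : Set ℂ, IsPreconnected J ∧ J ⊆ Mq n ∧ p ∈ J ∧ (∃ q ∈ J, q.re ≤ -1) ∧
    ∀ L ∈ J, L.re ≤ 85 ∧ min (-1) p.re ≤ L.re ∧ 0 ≤ L.im ∧ L.im ≤ 2 * Real.pi

/-- TOL (from DESC, CORE, SSEG, SLIT, CHP). -/
def T_TOL : Prop := ∀ (n : ℕ) (α : ℕ → ℂ → ℝ), IsArg n α →
  (∀ s k p, HP n s k p → HC n s k p) → ∀ p ∈ Mq n,
  ∃ J : Set ℂ, IsPreconnected J ∧ J ⊆ Mq n ∧ p ∈ J ∧ (∃ q ∈ J, q.re ≤ -1) ∧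
    ∀ L ∈ J, L.re ≤ max (p.re + 11) 85 ∧ min (-1) p.re ≤ L.re ∧ |L.im - p.im| ≤ 7

/-! ### F. two points -/

/-- TW: towers of real numbers. -/
def T_TW : Prop := ∀ (κ : ℕ) (a : ℕ → ℝ) (A : ℝ), (∀ i, i ≤ κ → Real.exp 58 ≤ a i) →
  (∀ i, i < κ → a i ≤ (1 + (1 / 4) ^ (i + 9)) * Real.log (a (i + 1))) → a κ ≤ 3 * A →
  (∀ i, i < κ → a i ≤ 11 / 10 * Real.log^[κ - i] A) ∧
  ∏ i ∈ Finset.range κ, a i ≤ 11 / 10 * ∏ i ∈ Finset.range κ, Real.log^[i + 1] A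

/-- CLOSE (from CHP, LN): two close points are in the same chart. -/
def T_CLOSE : Prop := ∀ (n : ℕ) (s : ℕ → ℤ) (κ : ℕ) (L1 L2 : ℂ), Ch n s κ L1 →
  rr s κ + 1 ≤ (YY n s L1 κ).re → |(YY n s L1 κ).im| ≤ 9 →
  (YY n s L1 κ).re ≤ Real.log (3 * n) →
  (∏ i ∈ Finset.range κ, ‖zz n L1 (i + 1)‖) * ‖L2 - L1‖ ≤ 1 / 100 →
  Ch n s κ L2 ∧ ‖YY n s L2 κ - YY n s L1 κ‖ ≤
    11 / 10 * ((∏ i ∈ Finset.range κ, ‖zz n L1 (i + 1)‖) * ‖L2 - L1‖)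

/-- SIDE (from CLOSE, CHP, FRX, SLIT): the two points are on the same side. -/
def T_SIDE : Prop := ∀ (n : ℕ) (α : ℕ → ℂ → ℝ) (s : ℕ → ℤ) (κ : ℕ) (L1 L2 : ℂ) (θ : ℝ),
  IsArg n α → L1 ∈ Mp n → 62 ≤ L1.re → L2 ∈ Mq n → Ch n s κ L1 →
  rr s κ + 1 ≤ (YY n s L1 κ).re → (YY n s L1 κ).im = α (κ + 1) L1 →
  3 / 4 * (1 / 2) ^ (κ + 11) ≤ θ → θ ≤ 1 / 100 → 100 ≤ θ * ‖zz n L1 (κ + 1)‖ →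
  (∀ m : ℤ, θ ≤ |(YY n s L1 κ).im - 2 * Real.pi * m|) →
  (∏ i ∈ Finset.range κ, ‖zz n L1 (i + 1)‖) * ‖L2 - L1‖ ≤ θ / 5 →
  L2 ∈ Mp n ∧ Ch n s κ L2 ∧ (YY n s L2 κ).im = α (κ + 1) L2 ∧
    ‖YY n s L2 κ - YY n s L1 κ‖ ≤ θ / 4 ∧ AT n κ L1 ∧ AT n κ L2

/-- PAIR (from ATTK, SSEG, LIP, CHP). -/
def T_PAIR : Prop := ∀ (n : ℕ) (α : ℕ → ℂ → ℝ) (s : ℕ → ℤ) (κ : ℕ) (L1 L2 : ℂ), IsArg n α →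
  (∀ s k p, HP n s k p → HC n s k p) → L1 ∈ Mp n → L2 ∈ Mp n → Ch n s κ L1 → Ch n s κ L2 →
  (YY n s L1 κ).im = α (κ + 1) L1 → (YY n s L2 κ).im = α (κ + 1) L2 → 61 ≤ L1.re →
  61 ≤ L2.re → (∀ i, 1 ≤ i → i ≤ κ → ‖zz n L1 i‖ ≤ 2 * (XX n L1 i).re) →
  (∀ i, 1 ≤ i → i ≤ κ → ‖zz n L2 i‖ ≤ 2 * (XX n L2 i).re) → AT n κ L1 → AT n κ L2 →
  ‖YY n s L2 κ - YY n s L1 κ‖ ≤ 1 →
  ∃ J : Set ℂ, IsPreconnected J ∧ J ⊆ Mq n ∧ L1 ∈ J ∧ L2 ∈ J ∧ ∀ L ∈ J, ‖L - L1‖ ≤ 60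

/-- MAINL (from TOL, TW, SIDE, PAIR, HPI, MARG, CHP, FRX, SLIT, STRIP, HALL). -/
def T_MAINL : Prop := ∀ (n k : ℕ) (x : ℝ), (10 : ℝ) ^ 20 ≤ n → 0 ≤ x →
  Real.exp^[k] 1 ≤ n → (n : ℝ) ≤ Real.exp^[k + 2] x → ∀ L1 ∈ Mq n, ∀ L2 ∈ Mq n,
  ‖L2 - L1‖ * ∏ j ∈ Finset.range k, Real.log^[j + 1] n ≤ 1 / 1000 →
  ∃ J : Set ℂ, IsPreconnected J ∧ J ⊆ Mq n ∧ L1 ∈ J ∧ L2 ∈ J ∧ ∀ L ∈ J, ‖L - L1‖ ≤ 2 * x + 200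

/-- UPPER (from MAINL): the upper bound. -/
def T_UPPER : Prop := ∃ c C : ℝ, 0 < c ∧ 0 < C ∧ ∀ (k n : ℕ) (x : ℝ), 2 ≤ n → 0 ≤ x →
  Real.exp^[k] 1 ≤ n → (n : ℝ) ≤ Real.exp^[k + 2] x → ∀ a ∈ MM n, ∀ b ∈ MM n,
  dist a b ≤ c / (n * ∏ j ∈ Finset.range k, Real.log^[j + 1] n) →
  ∃ S : Set ℂ, IsPreconnected S ∧ S ⊆ MM n ∧ a ∈ S ∧ b ∈ S ∧
    ∀ z ∈ S, dist a z ≤ C * (1 + x) / n

end Pool.Agent.Modu
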