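import Mathlib
import Pool.Agent.Modu.Targets

set_option autoImplicit false

namespace Pool.Agent.Modu

theorem p_LN : T_LN := by
  intro n hn
  have hn0 : (0 : ℝ) < n := lt_of_lt_of_le (by norm_num) hn
  have h4 : Real.log (4 * n) = Real.log 4 + Real.log n :=
    Real.log_mul (by norm_num) hn0.ne'
  have h3 : Real.log (3 * n) = Real.log 3 + Real.log n :=
    Real.log_mul (by norm_num) hn0.ne'
  refine ⟨?_, h4, h3, ?_⟩
  · rw [Real.le_log_iff_exp_le hn0]
    refine le_trans ?_ hn
    have h1 : Real.exp 46 = Real.exp 1 ^ 46 := by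
      rw [← Real.exp_nat_mul]; norm_num
    rw [h1]
    refine (pow_le_pow_left₀ (Real.exp_pos 1).le Real.exp_one_lt_d9.le 46).trans ?_
    norm_num
  · obtain ⟨y, hy⟩ : ∃ y : ℝ, y = n / 10 ^ 20 := ⟨_, rfl⟩
    have hny : (n : ℝ) = 10 ^ 20 * y := by rw [hy]; field_simp
    have hy1 : 1 ≤ y := by
      rw [hy, le_div_iff₀ (by norm_num)]; linarith
    have hy0 : 0 < y := by linarith
    obtain ⟨u, hu⟩ : ∃ u : ℝ, u = Real.sqrt y := ⟨_, rfl⟩
    have huu : u ^ 2 = y := by rw [hu]; exact Real.sq_sqrt hy0.le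
    have hu1 : 1 ≤ u := by rw [hu]; exact Real.one_le_sqrt.2 hy1
    have hlog : Real.log (4 * n) = Real.log (4 * 10 ^ 20) + 2 * Real.log u := by
      rw [hny, ← mul_assoc, Real.log_mul (by norm_num) hy0.ne', ← huu, Real.log_pow]
      norm_num
    have hlu : Real.log u ≤ u - 1 := Real.log_le_sub_one_of_pos (by linarith)
    have hc : Real.log (4 * 10 ^ 20) ≤ 50 := by
      have h5 : Real.log (4 * 10 ^ 20) ≤ Real.log ((2 : ℝ) ^ 70) :=
        Real.log_le_log (by norm_num) (by norm_num)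
      rw [Real.log_pow] at h5
      have := Real.log_two_lt_d9
      push_cast at h5
      linarith
    have hc0 : 0 ≤ Real.log (4 * 10 ^ 20) := Real.log_nonneg (by norm_num)
    have hlu0 : 0 ≤ Real.log u := Real.log_nonneg hu1
    have hle : Real.log (4 * n) ≤ 100 * u := by rw [hlog]; linarith
    have hge : 0 ≤ Real.log (4 * n) := by rw [hlog]; linarith
    have h6 : Real.log (4 * n) ^ 2 ≤ (100 * u) ^ 2 := pow_le_pow_left₀ hge hle 2
    refine h6.trans (le_of_eq ?_)
    rw [hny, mul_pow, huu]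
    ring

end Pool.Agent.Modu
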