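import Pool.Agent.Modu.Targets
import Pool.Agent.Modu.LN
import Pool.Agent.Modu.CHP

set_option autoImplicit false

open Complex Filter Topology Set
open Pool.Agent.Multibrot Pool.Agent.Limb

namespace Pool.Agent.Modu

namespace HALL_

theorem re_ge (n : ℕ) (s : ℕ → ℤ) (k : ℕ) (L : ℂ) (h : Ch n s k L) : 0 ≤ L.re := by
  have h0 := h.hr 0 (Nat.zero_le k)
  have hX : XX n L 0 = 0 := by
    simp [XX, zz]
  have h1 : (YY n s L 0).re = L.re := by
    simp [YY, hX]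
  have h2 : rr s 0 = 21 := rfl
  rw [h1, h2] at h0
  linarith

theorem all (h1 : T_HSTEP) (n : ℕ) (α : ℕ → ℂ → ℝ) (hα : IsArg n α) (m : ℕ) :
    ∀ s k p, HP n s k p → 4 * (n : ℝ) / 2 ^ m ≤ ‖zz n p (k + 1)‖ → HC n s k p := by
  induction m with
  | zero =>
    intro s k p hp hB
    exfalso
    have hn : (10 : ℝ) ^ 20 ≤ n := hα.hn
    have h3 : ‖zz n p (k + 1)‖ ≤ 3 * n :=
      norm_zz_le hn hp.mem.1 (re_ge n s k p hp.ch) (k + 1)
    rw [pow_zero, div_one] at hB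
    have : (0 : ℝ) < n := lt_of_lt_of_le (by norm_num) hn
    linarith
  | succ m ih =>
    intro s k p hp hB
    refine h1 n α (4 * (n : ℝ) / 2 ^ m) hα ih s k p hp ?_
    have h2 : 4 * (n : ℝ) / 2 ^ m = 2 * (4 * (n : ℝ) / 2 ^ (m + 1)) := by
      rw [pow_succ]; field_simp
    rw [h2]
    linarith

end HALL_

theorem p_HALL (h1 : T_HSTEP) (h2 : T_STRIP) : T_HALL := by
  intro n hn s k p hp
  obtain ⟨α, hα⟩ := h2 n hn
  have hz : 0 < ‖zz n p (k + 1)‖ := by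
    rw [(p_CHP p_LN n s k p hp.ch).2.2.1 k le_rfl]
    exact Real.exp_pos _
  obtain ⟨m, hm⟩ := pow_unbounded_of_one_lt (4 * (n : ℝ) / ‖zz n p (k + 1)‖) (one_lt_two)
  refine HALL_.all h1 n α hα m s k p hp ?_
  rw [div_le_iff₀ (by positivity)]
  rw [div_lt_iff₀ hz] at hm
  linarith

end Pool.Agent.Modu
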