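import Pool.Agent.Modu.Targets

/-!
# MODU: HPI (charts at a point of the Multibrot set)
-/

set_option autoImplicit false

open Complex Filter Topology Set
open Pool.Agent.Multibrot Pool.Agent.Limb

namespace Pool.Agent.Modu

namespace HPI_

lemma part_one (h1 : T_STEP) (h2 : T_FRX) {n : ℕ} {α : ℕ → ℂ → ℝ} {L : ℂ} (hα : IsArg n α)
    (hL : L ∈ Mp n) (h51 : 51 ≤ L.re) (m : ℕ) (hF : ∀ i, 1 ≤ i → i ≤ m → FR n L i) :
    ∃ s : ℕ → ℤ, Ch n s m L ∧ rr s m + 30 ≤ (YY n s L m).re ∧
      (YY n s L m).im = α (m + 1) L := by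
  have hn := hα.hn
  have hn0 : (0 : ℝ) < n := lt_of_lt_of_le (by norm_num) hn
  induction m with
  | zero =>
    have hXX : XX n L 0 = 0 := by
      rw [XX, zz_zero, zero_div, add_zero, log_one, mul_zero]
    have hYY : YY n (fun _ => 0) L 0 = L := by
      rw [YY, hXX]
      simp
    have hz : zz n L 0 ≠ -n := by
      rw [zz_zero]
      intro h
      have h3 : (n : ℂ) = 0 := by
        have := congrArg (fun z => -z) h
        simpa using this.symm
      have h4 : (n : ℝ) = 0 := by exact_mod_cast h3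
      exact hn0.ne' h4
    have hlog : L.re ≤ Real.log (3 * n) := by
      have h3 := (h2 n L 0 hn hL.1 (by linarith) hz).2.1
      rw [hXX] at h3
      simpa using h3
    have hlog2 : Real.log (3 * n) ≤ Real.log (4 * n) :=
      Real.log_le_log (by positivity) (by linarith)
    refine ⟨fun _ => 0, ⟨hn, by simp, ?_, ?_, ?_, ?_⟩, ?_, ?_⟩
    · intro i hi
      obtain rfl : i = 0 := by omega
      rw [hYY]
      simp only [rr]
      linarith
    · intro i hi
      omega
    · rw [hYY, abs_le]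
      have hpi := Real.pi_lt_d2
      have h3 := hL.2.1
      have h4 := hL.2.2
      constructor <;> linarith
    · intro i hi
      obtain rfl : i = 0 := by omega
      rw [hYY]
      linarith
    · rw [hYY]
      simp only [rr]
      linarith
    · rw [hYY]
      exact (hα.one L).symm
  | succ m ih =>
    obtain ⟨s, hs1, hs2, hs3⟩ := ih (fun i hi1 hi2 => hF i hi1 (by omega))
    obtain ⟨s', -, -, h5, h6, h7, -⟩ := h1 n α s m L hα hs1 hL (by linarith)
      (hF (m + 1) (by omega) le_rfl)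
    exact ⟨s', h5, by linarith, h7⟩

lemma doubling (h1 : T_STEP) (h2 : T_FRX) {n : ℕ} {α : ℕ → ℂ → ℝ} {L : ℂ} (hα : IsArg n α)
    (hL : L ∈ Mp n) (h51 : 51 ≤ L.re) (hF : ∀ i, 1 ≤ i → FR n L i) (m : ℕ) :
    2 * ‖zz n L (m + 1)‖ ≤ ‖zz n L (m + 2)‖ := by
  obtain ⟨s, hs1, hs2, hs3⟩ := part_one h1 h2 hα hL h51 m (fun i hi1 _ => hF i hi1)
  obtain ⟨s', -, -, -, -, -, h8⟩ := h1 n α s m L hα hs1 hL (by linarith)
    (hF (m + 1) (by omega))
  exact h8

end HPI_

open HPI_ in
theorem p_HPI (h1 : T_STEP) (h2 : T_FRX) : T_HPI := by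
  intro n α L hα hL h51
  refine ⟨fun m hF => part_one h1 h2 hα hL h51 m hF, ?_⟩
  intro κ hκ
  by_contra hcon
  push Not at hcon
  -- all the points are far to the right
  have hall : ∀ m : ℕ, ∀ i, 1 ≤ i → i ≤ κ + m → FR n L i := by
    intro m
    induction m with
    | zero => exact hκ
    | succ m ih =>
      intro i hi1 hi2
      rcases Nat.lt_or_ge i (κ + m + 1) with h | h
      · exact ih i hi1 (by omega)
      · have h3 := hcon (κ + m) (by omega) ih
        have h4 : i = κ + m + 1 := by omega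
        rw [h4]
        unfold NF at h3
        unfold FR
        push Not at h3
        exact h3.le
  have hF : ∀ i, 1 ≤ i → FR n L i := fun i hi => hall i i hi (by omega)
  have hn := hα.hn
  have hone : 1 ≤ ‖zz n L 1‖ := by
    rw [zz_one, norm_exp]
    exact Real.one_le_exp (by linarith)
  have hgrow : ∀ m : ℕ, (2 : ℝ) ^ m ≤ ‖zz n L (m + 1)‖ := by
    intro m
    induction m with
    | zero => simpa using hone
    | succ m ih =>
      have h3 := doubling h1 h2 hα hL h51 hF m
      calc (2 : ℝ) ^ (m + 1) = 2 * 2 ^ m := by ring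
        _ ≤ 2 * ‖zz n L (m + 1)‖ := by linarith
        _ ≤ ‖zz n L (m + 2)‖ := h3
  have hbound : ∀ i : ℕ, ‖zz n L i‖ ≤ 3 * n := fun i => norm_zz_le hn hL.1 (by linarith) i
  obtain ⟨m, hm⟩ := pow_unbounded_of_one_lt (3 * (n : ℝ)) (by norm_num : (1 : ℝ) < 2)
  have h3 := hgrow m
  have h4 := hbound (m + 1)
  linarith

end Pool.Agent.Modu
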