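import Pool.Agent.Modu.Targets

/-!
# MODU: HSTEP, the separation argument
-/

set_option autoImplicit false

open Complex Filter Topology Set
open Pool.Agent.Multibrot Pool.Agent.Limb

namespace Pool.Agent.Modu

namespace HSTEP_

/-! ### basic facts -/

lemma continuous_cc (n : ℕ) : Continuous (cc n) := by
  unfold cc ell
  fun_prop

lemma closed_Mq (n : ℕ) : IsClosed (Mq n) := (MM_closed n).preimage (continuous_cc n)

lemma XX_re (n : ℕ) (L : ℂ) (i : ℕ) : (XX n L i).re = n * Real.log ‖1 + zz n L i / n‖ := by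
  unfold XX
  rw [mul_re, natCast_re, natCast_im, zero_mul, sub_zero, log_re]

lemma ne_of {n : ℕ} (hn : n ≠ 0) {z : ℂ} (h : z ≠ -n) : 1 + z / n ≠ 0 := by
  intro h0
  apply h
  have hn0 : (n : ℂ) ≠ 0 := by exact_mod_cast hn
  have h2 : z / n = -1 := by linear_combination h0
  rw [div_eq_iff hn0] at h2
  rw [h2]
  ring

lemma ne_of' {n : ℕ} (hn : n ≠ 0) {z : ℂ} (h : 1 + z / n ≠ 0) : z ≠ -n := by
  rintro rfl
  have hn0 : (n : ℂ) ≠ 0 := by exact_mod_cast hn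
  apply h
  rw [neg_div, div_self hn0]
  ring

lemma exp_XX {n : ℕ} (hn : n ≠ 0) {L : ℂ} {i : ℕ} (h : 1 + zz n L i / n ≠ 0) :
    exp (XX n L i / n) = 1 + zz n L i / n := by
  have hn0 : (n : ℂ) ≠ 0 := by exact_mod_cast hn
  unfold XX
  rw [mul_div_cancel_left₀ _ hn0, exp_log h]

lemma zz_eq {n : ℕ} (hn : n ≠ 0) {L : ℂ} {i : ℕ} (h : 1 + zz n L i / n ≠ 0) :
    zz n L i = n * (exp (XX n L i / n) - 1) := by
  have hn0 : (n : ℂ) ≠ 0 := by exact_mod_cast hn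
  rw [exp_XX hn h]
  field_simp
  ring

lemma le_re {n : ℕ} (hn : 0 < n) {L : ℂ} {i : ℕ} {r : ℝ}
    (h : Real.exp (r / n) ≤ ‖1 + zz n L i / n‖) : r ≤ (XX n L i).re := by
  have hn0 : (0 : ℝ) < n := by exact_mod_cast hn
  rw [XX_re]
  have h1 : r / n ≤ Real.log ‖1 + zz n L i / n‖ :=
    (Real.le_log_iff_exp_le ((Real.exp_pos _).trans_le h)).2 h
  rw [div_le_iff₀ hn0] at h1
  linarith

lemma re_le {n : ℕ} (hn : 0 < n) {L : ℂ} {i : ℕ} {r : ℝ} (hr : 0 ≤ r)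
    (h : ‖1 + zz n L i / n‖ ≤ Real.exp (r / n)) : (XX n L i).re ≤ r := by
  have hn0 : (0 : ℝ) < n := by exact_mod_cast hn
  rw [XX_re]
  rcases eq_or_ne (1 + zz n L i / n) 0 with h0 | h0
  · rw [h0, norm_zero, Real.log_zero, mul_zero]
    exact hr
  · have h1 : Real.log ‖1 + zz n L i / n‖ ≤ r / n :=
      (Real.log_le_iff_le_exp (norm_pos_iff.2 h0)).2 h
    rw [le_div_iff₀ hn0] at h1
    linarith

lemma f_le {n : ℕ} (hn : 0 < n) {L : ℂ} {i : ℕ} {r : ℝ}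
    (h : (XX n L i).re ≤ r) : ‖1 + zz n L i / n‖ ≤ Real.exp (r / n) := by
  have hn0 : (0 : ℝ) < n := by exact_mod_cast hn
  rcases eq_or_ne (1 + zz n L i / n) 0 with h0 | h0
  · rw [h0, norm_zero]
    positivity
  · rw [XX_re] at h
    rw [← Real.log_le_iff_le_exp (norm_pos_iff.2 h0), le_div_iff₀ hn0]
    linarith

lemma rr_congr {s s' : ℕ → ℤ} : ∀ k : ℕ, (∀ i, i ≤ k → s' i = s i) → rr s' k = rr s k := by
  intro k
  induction k with
  | zero => intro _; rfl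
  | succ k ih =>
    intro h
    rw [rr, rr, ih (fun i hi => h i (by omega)), h (k + 1) (le_refl _)]

lemma YY_congr {n : ℕ} {s s' : ℕ → ℤ} {L : ℂ} {i : ℕ} (h : s' i = s i) :
    YY n s' L i = YY n s L i := by
  unfold YY
  rw [h]

lemma norm_le {n : ℕ} (hn : n ≠ 0) {L : ℂ} {i : ℕ} (h : 1 + zz n L i / n ≠ 0) :
    ‖zz n L i‖ ≤ ‖XX n L i‖ * Real.exp (max 0 ((XX n L i).re / n)) := by
  have hn0 : (0 : ℝ) < n := by exact_mod_cast Nat.pos_of_ne_zero hn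
  have h1 := norm_exp_sub_one_le' (XX n L i / n)
  have h2 : (XX n L i / n).re = (XX n L i).re / n := by
    rw [← ofReal_natCast, div_ofReal_re]
  rw [h2, norm_div, norm_natCast] at h1
  have h3 : ‖zz n L i‖ = n * ‖exp (XX n L i / n) - 1‖ := by
    conv_lhs => rw [zz_eq hn h]
    rw [norm_mul, norm_natCast]
  rw [h3]
  calc n * ‖exp (XX n L i / n) - 1‖ ≤
      n * (‖XX n L i‖ / n * Real.exp (max 0 ((XX n L i).re / n))) :=
        mul_le_mul_of_nonneg_left h1 hn0.le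
    _ = _ := by field_simp

lemma XX_sub_le {n : ℕ} (hn : n ≠ 0) {L : ℂ} {i : ℕ} (h : ‖zz n L i‖ ≤ n / 2) :
    ‖XX n L i - zz n L i‖ ≤ ‖zz n L i‖ * (‖zz n L i‖ / n) := by
  have hn0 : (0 : ℝ) < n := by exact_mod_cast Nat.pos_of_ne_zero hn
  have hnC : (n : ℂ) ≠ 0 := by exact_mod_cast hn
  have h1 : ‖zz n L i / n‖ ≤ 1 / 2 := by
    rw [norm_div, norm_natCast, div_le_iff₀ hn0]
    linarith
  have h2 := Complex.norm_log_one_add_sub_self_le (z := zz n L i / n) (by linarith)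
  have h3 : ‖zz n L i / n‖ ^ 2 * (1 - ‖zz n L i / n‖)⁻¹ / 2 ≤ ‖zz n L i / n‖ ^ 2 := by
    have h4 : (1 - ‖zz n L i / n‖)⁻¹ ≤ 2 := by
      rw [inv_le_comm₀ (by linarith) (by norm_num)]
      linarith
    have h5 : 0 ≤ ‖zz n L i / n‖ ^ 2 := by positivity
    nlinarith
  have h4 : XX n L i - zz n L i = n * (log (1 + zz n L i / n) - zz n L i / n) := by
    unfold XX
    field_simp
  rw [h4, norm_mul, norm_natCast]
  calc n * ‖log (1 + zz n L i / n) - zz n L i / n‖ ≤ n * ‖zz n L i / n‖ ^ 2 :=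
        mul_le_mul_of_nonneg_left (h2.trans h3) hn0.le
    _ = _ := by
        rw [norm_div, norm_natCast]
        field_simp

lemma t_int {n : ℕ} {α : ℕ → ℂ → ℝ} (hα : IsArg n α) (h2 : T_FRX) {i : ℕ} {L : ℂ}
    (hL : L ∈ Mp n) (h21 : 21 ≤ L.re) (hz : (10 : ℝ) ^ 8 ≤ ‖zz n L (i + 1)‖)
    (hne : zz n L i ≠ -n) :
    ∃ m : ℤ, (XX n L i).im + L.im - α (i + 1) L = 2 * Real.pi * m := by
  obtain ⟨e1, -, -⟩ := h2 n L i hα.hn hL.1 (by linarith) hne
  have e2 := hα.arg (i + 1) L (by omega) hL h21 hz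
  have hpos : 0 < ‖zz n L (i + 1)‖ := lt_of_lt_of_le (by norm_num) hz
  have e3 : exp (XX n L i + L) =
      exp (α (i + 1) L * I + ((Real.log ‖zz n L (i + 1)‖ : ℝ) : ℂ)) := by
    rw [exp_add (α (i + 1) L * I), ← ofReal_exp, Real.exp_log hpos, e2, e1]
  obtain ⟨m, hm⟩ := exp_eq_exp_iff_exists_int.1 e3
  refine ⟨m, ?_⟩
  have h3 := congrArg im hm
  have h4 : ((α (i + 1) L : ℂ) * I).im = α (i + 1) L := by simp
  have h5 : ((m : ℂ) * (2 * Real.pi * I)).im = 2 * Real.pi * m := by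
    simp
    ring
  rw [add_im, add_im, add_im, h4, h5, ofReal_im] at h3
  linarith

lemma log3_le {n : ℕ} (hn : (10 : ℝ) ^ 20 ≤ n) : Real.log (3 * n) ≤ 2 / 10 ^ 17 * n := by
  have hn0 : (0 : ℝ) < n := lt_of_lt_of_le (by norm_num) hn
  have h1 := log_nat_le hn
  have h2 : Real.log (3 * n) = Real.log 3 + Real.log n :=
    Real.log_mul (by norm_num) hn0.ne'
  have h3 : Real.log 3 ≤ 2 * Real.log 2 := by
    have h4 : Real.log ((2 : ℝ) ^ 2) = 2 * Real.log 2 := by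
      rw [Real.log_pow]
      norm_num
    rw [← h4]
    exact Real.log_le_log (by norm_num) (by norm_num)
  have h4 : 0 ≤ Real.log n := Real.log_nonneg (le_trans (by norm_num) hn)
  rw [h2]
  linarith

/-- `exp 51` is large. -/
lemma exp51 : (10 : ℝ) ^ 20 ≤ Real.exp 51 := by
  have h1 : Real.exp 51 = Real.exp 1 ^ 51 := by
    rw [← Real.exp_nat_mul]
    norm_num
  rw [h1]
  have h2 := Real.exp_one_gt_d9
  calc (10 : ℝ) ^ 20 ≤ 2.7 ^ 51 := by norm_num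
    _ ≤ Real.exp 1 ^ 51 := pow_le_pow_left₀ (by norm_num) (by linarith) 51

lemma exp_ge {y : ℝ} (hy : 51 ≤ y) : (10 : ℝ) ^ 20 / 51 * y ≤ Real.exp y := by
  have h1 : Real.exp y = Real.exp 51 * Real.exp (y - 51) := by
    rw [← Real.exp_add]
    congr 1
    ring
  have h2 := Real.add_one_le_exp (y - 51)
  have h3 := exp51
  rw [h1]
  have h4 : (0 : ℝ) < 10 ^ 20 := by norm_num
  have h5 : (10 : ℝ) ^ 20 * (y - 50) ≤ Real.exp 51 * Real.exp (y - 51) :=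
    mul_le_mul h3 (by linarith) (by linarith) (Real.exp_pos _).le
  refine le_trans ?_ h5
  linarith

/-! ### the reference point -/

lemma R_facts (h1 : T_CHP) {n : ℕ} {s : ℕ → ℤ} {k : ℕ} {p : ℂ} (hp : HP n s k p) :
    ‖zz n p (k + 1)‖ = Real.exp (YY n s p k).re ∧ 51 ≤ (YY n s p k).re ∧
    (10 : ℝ) ^ 20 ≤ ‖zz n p (k + 1)‖ ∧
    (YY n s p k).re ≤ 51 / 10 ^ 20 * ‖zz n p (k + 1)‖ := by
  obtain ⟨-, -, cnorm, -, -, -, -, crr, -⟩ := h1 n s k p hp.ch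
  have e1 := cnorm k (le_refl _)
  have e2 : 51 ≤ (YY n s p k).re := by
    have := crr k (le_refl _)
    have := hp.mar
    linarith
  have e3 := exp_ge e2
  refine ⟨e1, e2, ?_, ?_⟩
  · rw [e1]
    exact exp51.trans (Real.exp_le_exp.2 e2)
  · rw [e1]
    have h4 : (YY n s p k).re = 51 / 10 ^ 20 * ((10 : ℝ) ^ 20 / 51 * (YY n s p k).re) := by
      field_simp
    rw [h4]
    exact mul_le_mul_of_nonneg_left (by rw [← h4]; exact e3) (by norm_num)

lemma re_ge (h1 : T_CHP) {n : ℕ} {s : ℕ → ℤ} {k : ℕ} {L : ℂ} (hc : Ch n s k L) : 21 ≤ L.re := by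
  obtain ⟨c0, -⟩ := h1 n s k L hc
  have h := hc.hr 0 (by omega)
  rw [c0.1] at h
  exact h

lemma prod_le (h1 : T_CHP) {n : ℕ} {s : ℕ → ℤ} {k : ℕ} {L : ℂ} (hc : Ch n s k L) :
    ∀ m, m ≤ k → ∏ i ∈ Finset.range m, ‖zz n L (i + 1)‖ ≤ ‖zz n L (m + 1)‖ := by
  obtain ⟨-, -, cnorm, -, cgr, -, -, crr, -⟩ := h1 n s k L hc
  intro m
  induction m with
  | zero =>
    intro _
    rw [Finset.prod_range_zero, cnorm 0 (by omega)]
    apply Real.one_le_exp
    have h2 := hc.hr 0 (by omega)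
    have h3 := crr 0 (by omega)
    linarith
  | succ m ih =>
    intro hm
    have h2 := ih (by omega)
    have h3 := (cgr m (by omega)).2
    have h4 := hc.hr m (by omega)
    have h5 := crr m (by omega)
    rw [Finset.prod_range_succ]
    have h6 : ‖zz n L (m + 1)‖ * ‖zz n L (m + 1)‖ ≤ ‖zz n L (m + 1 + 1)‖ := by
      rw [cnorm m (by omega), cnorm (m + 1) hm, ← Real.exp_add]
      apply Real.exp_le_exp.2
      linarith
    exact (mul_le_mul_of_nonneg_right h2 (norm_nonneg _)).trans h6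

lemma DD_le (h1 : T_CHP) {n : ℕ} {s : ℕ → ℤ} {k : ℕ} {L : ℂ} (hc : Ch n s k L)
    (hR : ‖zz n L (k + 1)‖ ≤ n / 2) :
    ‖DD n L (k + 1)‖ ≤ ‖zz n L (k + 1)‖ * (2 * ‖zz n L (k + 1)‖) := by
  have hn0 : (0 : ℝ) < n := lt_of_lt_of_le (by norm_num) hc.hn
  obtain ⟨-, -, -, -, -, -, -, -, clow⟩ := h1 n s k L hc
  unfold DD
  rw [Finset.prod_range_succ, norm_mul, norm_prod]
  refine mul_le_mul ?_ ?_ (norm_nonneg _) (norm_nonneg _)
  · refine le_trans (Finset.prod_le_prod (fun i _ => norm_nonneg _) ?_)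
      (prod_le h1 hc k (le_refl _))
    intro i hi
    have hi' := Finset.mem_range.1 hi
    have h2 := clow.hre (i + 1) (by omega) (by omega)
    have h3 : 1 ≤ ‖1 + zz n L (i + 1) / n‖ := one_le_norm (by linarith)
    rw [norm_div]
    exact div_le_self (norm_nonneg _) h3
  · rw [norm_div]
    have h3 : ‖zz n L (k + 1) / n‖ ≤ 1 / 2 := by
      rw [norm_div, norm_natCast, div_le_iff₀ hn0]
      linarith
    have h4 : 1 / 2 ≤ ‖1 + zz n L (k + 1) / n‖ := by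
      have h5 := norm_sub_norm_le (1 : ℂ) (-(zz n L (k + 1) / n))
      rw [norm_one, norm_neg, sub_neg_eq_add] at h5
      linarith
    rw [div_le_iff₀ (by linarith)]
    nlinarith [norm_nonneg (zz n L (k + 1))]

lemma box (h2 : T_FRX) {n : ℕ} (hn : (10 : ℝ) ^ 20 ≤ n) {i : ℕ} {x : ℂ} {R : ℝ} (hx : x ∈ Mq n)
    (h0 : 0 ≤ x.re) (ha : Real.exp (R / 3000 / n) ≤ ‖1 + zz n x i / n‖) :
    R ≤ 6 / 10 ^ 14 * n ∧ R / 3000 ≤ (XX n x i).re ∧ zz n x i ≠ -n := by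
  have hn0 : (0 : ℝ) < n := lt_of_lt_of_le (by norm_num) hn
  have hn1 : 0 < n := by exact_mod_cast hn0
  have h3 := le_re hn1 ha
  have h4 : 1 + zz n x i / n ≠ 0 := by
    rw [← norm_pos_iff]
    exact (Real.exp_pos _).trans_le ha
  have h5 := ne_of' hn1.ne' h4
  obtain ⟨-, e2, -⟩ := h2 n x i hn hx h0 h5
  have e3 := log3_le hn
  refine ⟨by linarith, h3, h5⟩

lemma p_facts (h1 : T_CHP) (h2 : T_FRX) {n : ℕ} {s : ℕ → ℤ} {k : ℕ} {p : ℂ} (hp : HP n s k p)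
    (hNR : NR n (k + 2) (cc n p)) (hR : ‖zz n p (k + 1)‖ ≤ 6 / 10 ^ 14 * n) :
    ‖XX n p (k + 1) - zz n p (k + 1)‖ ≤ 6 / 10 ^ 14 * ‖zz n p (k + 1)‖ ∧
    |(XX n p (k + 1)).re| ≤ ‖zz n p (k + 1)‖ / 5000 ∧
    9999 / 10000 * ‖zz n p (k + 1)‖ ≤ |(XX n p (k + 1)).im| ∧
    |(XX n p (k + 1)).im| ≤ 10001 / 10000 * ‖zz n p (k + 1)‖ := by
  have hn := hp.ch.hn
  have hn0 : (0 : ℝ) < n := lt_of_lt_of_le (by norm_num) hn
  have hn1 : 0 < n := by exact_mod_cast hn0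
  obtain ⟨r1, r2, r3, r4⟩ := R_facts h1 hp
  obtain ⟨-, -, -, -, -, -, -, -, clow⟩ := h1 n s k p hp.ch
  set R := ‖zz n p (k + 1)‖ with hRdef
  set X := XX n p (k + 1) with hX
  have hRn : R ≤ n / 2 := by
    refine hR.trans ?_
    linarith
  have hR0 : 0 < R := by linarith
  have g1 : ‖X - zz n p (k + 1)‖ ≤ 6 / 10 ^ 14 * R := by
    refine (XX_sub_le hn1.ne' hRn).trans ?_
    rw [← hRdef, mul_comm]
    apply mul_le_mul_of_nonneg_right _ hR0.le
    rw [div_le_iff₀ hn0]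
    exact hR
  have hne : zz n p (k + 1) ≠ -n := by
    intro h
    have h3 : R = n := by
      rw [hRdef, h, norm_neg, norm_natCast]
    linarith
  obtain ⟨e1, -, -⟩ := h2 n p (k + 1) hn hp.mem.1 (by linarith [re_ge h1 hp.ch]) hne
  have hlow := BOOT_.low0 clow
  have e2 := lim_ATT n (k + 1) p hlow hne hNR
  have e3 : ‖zz n p (k + 1 + 1)‖ = Real.exp X.re * Real.exp p.re := by
    rw [e1, norm_exp, add_re, Real.exp_add]
  have e4 : Real.exp p.re ≤ R := by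
    have h3 := hlow.mono (i := 1) (by omega)
    rw [zz_one, norm_exp] at h3
    exact h3
  have e5 := DD_le h1 hp.ch hRn
  rw [← hRdef] at e5
  have e6 : Real.exp (-10001 / 10000) ≤ Real.exp X.re * R * (R * (2 * R)) := by
    refine e2.trans ?_
    rw [norm_mul, e3]
    refine mul_le_mul ?_ e5 (norm_nonneg _) (by positivity)
    exact mul_le_mul_of_nonneg_left e4 (Real.exp_pos _).le
  have e7 : -10001 / 10000 ≤ X.re + 3 * (YY n s p k).re + Real.log 2 := by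
    have h3 : Real.exp X.re * R * (R * (2 * R)) =
        Real.exp (X.re + 3 * (YY n s p k).re + Real.log 2) := by
      rw [Real.exp_add, Real.exp_add, Real.exp_log (by norm_num), r1]
      have h4 : Real.exp (3 * (YY n s p k).re) = Real.exp (YY n s p k).re ^ 3 := by
        rw [← Real.exp_nat_mul]
        norm_num
      rw [h4]
      ring
    rw [h3] at e6
    exact Real.exp_le_exp.1 e6
  have e8 := Real.log_two_lt_d9
  have g2 : |X.re| ≤ R / 5000 := by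
    rw [abs_le]
    have h3 : 5000 * X.re ≤ R := hp.nf
    constructor
    · have h4 : -2 - 3 * (51 / 10 ^ 20 * R) ≤ X.re := by linarith
      have h5 : 2 + 3 * (51 / 10 ^ 20 * R) ≤ R / 5000 := by
        have : (2 : ℝ) ≤ 2 / 10 ^ 20 * R := by
          have : (2 : ℝ) = 2 / 10 ^ 20 * 10 ^ 20 := by norm_num
          calc (2 : ℝ) = 2 / 10 ^ 20 * 10 ^ 20 := this
            _ ≤ _ := mul_le_mul_of_nonneg_left r3 (by norm_num)
        linarith
      linarith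
    · linarith
  have g3 : |‖X‖ - R| ≤ 6 / 10 ^ 14 * R := by
    rw [hRdef]
    exact (abs_norm_sub_norm_le _ _).trans g1
  rw [abs_le] at g3
  refine ⟨g1, g2, ?_, ?_⟩
  · by_contra hcon
    push Not at hcon
    have h3 : ‖X‖ ^ 2 = X.re ^ 2 + X.im ^ 2 := by
      rw [← Complex.normSq_eq_norm_sq, Complex.normSq_apply]
      ring
    have h4 : X.re ^ 2 ≤ (R / 5000) ^ 2 := by
      rw [← sq_abs X.re]
      exact pow_le_pow_left₀ (abs_nonneg _) g2 2
    have h5 : X.im ^ 2 ≤ (9999 / 10000 * R) ^ 2 := by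
      rw [← sq_abs X.im]
      exact pow_le_pow_left₀ (abs_nonneg _) hcon.le 2
    have h6 : (999999 / 1000000 * R) ^ 2 ≤ ‖X‖ ^ 2 := by
      apply pow_le_pow_left₀ (by positivity)
      linarith [g3.1]
    have h7 : 0 < R ^ 2 := by positivity
    nlinarith
  · have h3 := Complex.abs_im_le_norm X
    linarith [g3.2]

/-! ### the sets -/

/-- The local piece. -/
def Mloc (n : ℕ) (s : ℕ → ℤ) (k : ℕ) (p : ℂ) : Set ℂ :=
  {L | Ch n s k L ∧ ‖YY n s L k - YY n s p k‖ ≤ 1 / 2 ∧ L ∈ Mq n ∧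
    ‖1 + zz n L (k + 1) / n‖ ≤ Real.exp (‖zz n p (k + 1)‖ / 2000 / n) ∧
    0 ≤ L.im ∧ L.im ≤ 2 * Real.pi}

/-- The region to the right, with the right index. -/
def VV' (n : ℕ) (α : ℕ → ℂ → ℝ) (s : ℕ → ℤ) (k : ℕ) (p : ℂ) : Set ℂ :=
  {L | (Ch n s k L ∧ rr s k + 29 ≤ (YY n s L k).re ∧
    |(YY n s L k).im - (YY n s p k).im| ≤ 2 ∧ L ∈ Mq n ∧
    Real.exp (‖zz n p (k + 1)‖ / 3000 / n) ≤ ‖1 + zz n L (k + 1) / n‖ ∧ FR n L (k + 1) ∧
    0 ≤ L.im ∧ L.im ≤ 2 * Real.pi) ∧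
    |(XX n L (k + 1)).im + L.im - α (k + 2) L - (XX n p (k + 1)).im| ≤ ‖zz n p (k + 1)‖ / 3}

lemma mem_Mp (h7 : T_SLIT) {n : ℕ} (hn : (10 : ℝ) ^ 20 ≤ n) {L : ℂ} (hL : L ∈ Mq n)
    (h0 : 0 ≤ L.re) (hi0 : 0 ≤ L.im) (hi1 : L.im ≤ 2 * Real.pi) : L ∈ Mp n := by
  obtain ⟨-, -, e3, -⟩ := h7 n L hn
  refine ⟨hL, ?_, ?_⟩
  · refine lt_of_le_of_ne hi0 ?_
    intro h
    have := (e3 hL ⟨0, by rw [← h]; simp⟩).2
    linarith
  · refine lt_of_le_of_ne hi1 ?_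
    intro h
    have := (e3 hL ⟨1, by rw [h]; simp⟩).2
    linarith

lemma continuous_f (n k : ℕ) : Continuous (fun L => ‖1 + zz n L k / n‖) := by
  have h := CROSS_.continuous_zz n k
  fun_prop

lemma closed_im : IsClosed {L : ℂ | 0 ≤ L.im ∧ L.im ≤ 2 * Real.pi} :=
  (isClosed_le continuous_const continuous_im).inter (isClosed_le continuous_im continuous_const)

lemma Mloc_compact (h9 : T_CHCL) (n : ℕ) (s : ℕ → ℤ) (k : ℕ) (p : ℂ) :
    IsCompact (Mloc n s k p) := by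
  obtain ⟨c1, c2⟩ := h9 n s k
  have c3 := (c2 k (le_refl _)).1
  have c4 : ContinuousOn (fun L => ‖YY n s L k - YY n s p k‖) {L : ℂ | Ch n s k L} :=
    (c3.sub continuousOn_const).norm
  have h1 := c4.preimage_isClosed_of_isClosed c1.isClosed (isClosed_Iic (a := (1 / 2 : ℝ)))
  have h2 : IsClosed {L : ℂ | ‖1 + zz n L (k + 1) / n‖ ≤
      Real.exp (‖zz n p (k + 1)‖ / 2000 / n)} :=
    isClosed_le (continuous_f n (k + 1)) continuous_const
  have h3 := ((h1.inter (closed_Mq n)).inter h2).inter closed_im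
  have h4 : Mloc n s k p = ((({L : ℂ | Ch n s k L} ∩
      (fun L => ‖YY n s L k - YY n s p k‖) ⁻¹' Iic (1 / 2 : ℝ)) ∩ Mq n) ∩
      {L : ℂ | ‖1 + zz n L (k + 1) / n‖ ≤ Real.exp (‖zz n p (k + 1)‖ / 2000 / n)}) ∩
      {L : ℂ | 0 ≤ L.im ∧ L.im ≤ 2 * Real.pi} := by
    ext L
    simp only [Mloc, mem_ofPred_eq, mem_inter_iff, mem_preimage, mem_Iic]
    tauto
  rw [h4]
  exact c1.of_isClosed_subset h3 (fun L hL => hL.1.1.1.1)

/-- facts about the points of the right region -/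
lemma V_facts (h1 : T_CHP) (h2 : T_FRX) (h7 : T_SLIT) {n : ℕ} {α : ℕ → ℂ → ℝ} {s : ℕ → ℤ}
    {k : ℕ} {p x : ℂ} (hα : IsArg n α) (hp : HP n s k p) (hx : x ∈ VV' n α s k p) :
    (‖zz n p (k + 1)‖ ≤ 6 / 10 ^ 14 * n ∧ ‖zz n p (k + 1)‖ / 3000 ≤ (XX n x (k + 1)).re ∧
      zz n x (k + 1) ≠ -n) ∧
    (x ∈ Mp n ∧ 21 ≤ x.re) ∧ ‖zz n x (k + 1) - XX n x (k + 1)‖ ≤ 1 / 10 ^ 6 ∧
    ‖zz n x (k + 2)‖ = Real.exp ((XX n x (k + 1)).re + x.re) ∧
    (10 : ℝ) ^ 8 < ‖zz n x (k + 2)‖ ∧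
    |(XX n x (k + 1)).im - (XX n p (k + 1)).im| ≤ ‖zz n p (k + 1)‖ / 3 + 9 := by
  obtain ⟨⟨hCh, -, -, hxM, ha, hFR, hi0, hi1⟩, ht⟩ := hx
  have hn := hα.hn
  have h21 := re_ge h1 hCh
  have hb := box h2 hn hxM (by linarith) ha
  have hMp := mem_Mp h7 hn hxM (by linarith) hi0 hi1
  obtain ⟨e1, -, e3⟩ := h2 n x (k + 1) hn hxM (by linarith) hb.2.2
  obtain ⟨-, -, r3, -⟩ := R_facts h1 hp
  have e4 : ‖zz n x (k + 2)‖ = Real.exp ((XX n x (k + 1)).re + x.re) := by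
    show ‖zz n x (k + 1 + 1)‖ = _
    rw [e1, norm_exp, add_re]
  have e5 : (10 : ℝ) ^ 8 < ‖zz n x (k + 2)‖ := by
    rw [e4]
    have h3 : (10 : ℝ) ^ 8 ≤ (XX n x (k + 1)).re + x.re := by
      have := hb.2.1
      have h4 : (10 : ℝ) ^ 8 ≤ 10 ^ 20 / 3000 := by norm_num
      linarith
    have h4 := Real.add_one_le_exp ((XX n x (k + 1)).re + x.re)
    linarith
  refine ⟨hb, ⟨hMp, h21⟩, (e3 hFR).2, e4, e5, ?_⟩
  have e6 := hα.lo (k + 2) x (by omega) hMp h21 e5.le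
  have e7 := hα.hi (k + 2) x (by omega) hMp h21 e5.le
  have e8 := hMp.2.1
  have e9 := hMp.2.2
  have hpi := Real.pi_lt_d2
  rw [abs_le] at ht ⊢
  constructor <;> linarith [ht.1, ht.2]

lemma V_compact (h1 : T_CHP) (h2 : T_FRX) (h3 : T_FRC) (h7 : T_SLIT) (h9 : T_CHCL) {n : ℕ}
    {α : ℕ → ℂ → ℝ} {s : ℕ → ℤ} {k : ℕ} {p : ℂ} (hα : IsArg n α) (hp : HP n s k p) :
    IsCompact (VV' n α s k p) := by
  have hn := hα.hn
  have hn0 : (0 : ℝ) < n := lt_of_lt_of_le (by norm_num) hn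
  have hn1 : 0 < n := by exact_mod_cast hn0
  obtain ⟨c1, c2⟩ := h9 n s k
  have c3 := (c2 k (le_refl _)).1
  obtain ⟨-, -, r3, -⟩ := R_facts h1 hp
  set V0 : Set ℂ := {L | Ch n s k L ∧ rr s k + 29 ≤ (YY n s L k).re ∧
    |(YY n s L k).im - (YY n s p k).im| ≤ 2 ∧ L ∈ Mq n ∧
    Real.exp (‖zz n p (k + 1)‖ / 3000 / n) ≤ ‖1 + zz n L (k + 1) / n‖ ∧ FR n L (k + 1) ∧
    0 ≤ L.im ∧ L.im ≤ 2 * Real.pi} with hV0
  have c4 : ContinuousOn (fun L => (YY n s L k).re) {L : ℂ | Ch n s k L} :=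
    continuous_re.comp_continuousOn c3
  have c5 : ContinuousOn (fun L => |(YY n s L k).im - (YY n s p k).im|) {L : ℂ | Ch n s k L} :=
    ((continuous_im.comp_continuousOn c3).sub continuousOn_const).abs
  have d1 := c4.preimage_isClosed_of_isClosed c1.isClosed (isClosed_Ici (a := rr s k + 29))
  have d2 := c5.preimage_isClosed_of_isClosed c1.isClosed (isClosed_Iic (a := (2 : ℝ)))
  have d3 : IsClosed {L : ℂ | Real.exp (‖zz n p (k + 1)‖ / 3000 / n) ≤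
      ‖1 + zz n L (k + 1) / n‖} :=
    isClosed_le continuous_const (continuous_f n (k + 1))
  have d4 := (h3 n (k + 1) (by omega)).1
  have d5 := ((((d1.inter d2).inter (closed_Mq n)).inter d3).inter d4).inter closed_im
  have e0 : V0 = ((((({L : ℂ | Ch n s k L} ∩
      (fun L => (YY n s L k).re) ⁻¹' Ici (rr s k + 29)) ∩ ({L : ℂ | Ch n s k L} ∩
      (fun L => |(YY n s L k).im - (YY n s p k).im|) ⁻¹' Iic (2 : ℝ))) ∩ Mq n) ∩
      {L : ℂ | Real.exp (‖zz n p (k + 1)‖ / 3000 / n) ≤ ‖1 + zz n L (k + 1) / n‖}) ∩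
      {L : ℂ | FR n L (k + 1)}) ∩
      {L : ℂ | 0 ≤ L.im ∧ L.im ≤ 2 * Real.pi} := by
    ext L
    simp only [hV0, mem_ofPred_eq, mem_inter_iff, mem_preimage, mem_Iic, mem_Ici]
    tauto
  have e1 : IsClosed V0 := by rw [e0]; exact d5
  have e2 : IsCompact V0 := c1.of_isClosed_subset e1 (fun L hL => hL.1)
  have e3 : V0 ⊆ {L : ℂ | L ∈ Mp n ∧ 21 ≤ L.re ∧ (10 : ℝ) ^ 8 ≤ ‖zz n L (k + 2)‖} := by
    rintro x ⟨hCh, -, -, hxM, ha, hFR, hi0, hi1⟩
    have h21 := re_ge h1 hCh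
    have hb := box h2 hn hxM (by linarith) ha
    have hMp := mem_Mp h7 hn hxM (by linarith) hi0 hi1
    obtain ⟨e1, -, e3⟩ := h2 n x (k + 1) hn hxM (by linarith) hb.2.2
    refine ⟨hMp, h21, ?_⟩
    show (10 : ℝ) ^ 8 ≤ ‖zz n x (k + 1 + 1)‖
    rw [e1, norm_exp, add_re]
    have h3 : (10 : ℝ) ^ 8 ≤ (XX n x (k + 1)).re + x.re := by
      have := hb.2.1
      have h4 : (10 : ℝ) ^ 8 ≤ 10 ^ 20 / 3000 := by norm_num
      linarith
    have h4 := Real.add_one_le_exp ((XX n x (k + 1)).re + x.re)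
    linarith
  have e4 : ContinuousOn (fun L => XX n L (k + 1)) V0 := by
    rintro x ⟨hCh, -, -, hxM, ha, hFR, hi0, hi1⟩
    have h21 := re_ge h1 hCh
    have hb := box h2 hn hxM (by linarith) ha
    obtain ⟨-, -, e3⟩ := h2 n x (k + 1) hn hxM (by linarith) hb.2.2
    have h4 := (e3 hFR).2
    have h5 : 0 ≤ (zz n x (k + 1)).re := by
      have h6 := (Complex.abs_re_le_norm _).trans h4
      rw [sub_re, abs_le] at h6
      have h7 : (1 : ℝ) ≤ 10 ^ 20 / 3000 := by norm_num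
      have := hb.2.1
      have h8 : (1 : ℝ) / 10 ^ 6 ≤ 1 := by norm_num
      linarith [h6.1]
    have h6 : 1 + zz n x (k + 1) / n ∈ slitPlane := by
      left
      have := one_add_re (n := n) h5
      linarith
    unfold XX
    have h8 := CROSS_.continuous_zz n (k + 1)
    have h9 : ContinuousAt (fun L => 1 + zz n L (k + 1) / n) x := by fun_prop
    exact (continuousAt_const.mul (h9.clog h6)).continuousWithinAt
  have e5 : ContinuousOn (fun L => |(XX n L (k + 1)).im + L.im - α (k + 2) L -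
      (XX n p (k + 1)).im|) V0 :=
    (((continuous_im.comp_continuousOn e4).add continuous_im.continuousOn).sub
      ((hα.cont (k + 2) (by omega)).mono e3) |>.sub continuousOn_const).abs
  have e6 := e5.preimage_isClosed_of_isClosed e1
    (isClosed_Iic (a := ‖zz n p (k + 1)‖ / 3))
  exact e2.of_isClosed_subset e6 (fun L hL => hL.1)

/-- numbers: the sizes and the signs of the imaginary parts -/
lemma num_V {R xi pi' : ℝ} (hR : (10 : ℝ) ^ 20 ≤ R) (h1 : 9999 / 10000 * R ≤ |pi'|)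
    (h2 : |pi'| ≤ 10001 / 10000 * R) (h3 : |xi - pi'| ≤ R / 3 + 9) :
    66 / 100 * R ≤ |xi| ∧ |xi| ≤ 134 / 100 * R ∧
      ((66 / 100 * R ≤ xi ∧ 66 / 100 * R ≤ pi') ∨ (xi ≤ -(66 / 100 * R) ∧ pi' ≤ -(66 / 100 * R))) := by
  have h4 := abs_le.1 h3
  have hR9 : (9 : ℝ) ≤ R / 10 ^ 18 := by
    rw [le_div_iff₀ (by norm_num)]
    linarith
  rcases le_total 0 pi' with h5 | h5
  · rw [abs_of_nonneg h5] at h1 h2
    have h6 : 0 ≤ xi := by linarith [h4.1]
    rw [abs_of_nonneg h6]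
    refine ⟨by linarith [h4.1], by linarith [h4.2], Or.inl ⟨by linarith [h4.1], by linarith⟩⟩
  · rw [abs_of_nonpos h5] at h1 h2
    have h6 : xi ≤ 0 := by linarith [h4.2]
    rw [abs_of_nonpos h6]
    refine ⟨by linarith [h4.2], by linarith [h4.1], Or.inr ⟨by linarith [h4.2], by linarith⟩⟩

lemma cos_two_le : Real.cos 2 ≤ -(1 / 4) := by
  have h1 : Real.cos 2 = 2 * Real.cos 1 ^ 2 - 1 := by
    rw [← Real.cos_two_mul]
    norm_num
  have h2 := Real.cos_one_le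
  have h3 := Real.cos_one_pos
  rw [h1]
  nlinarith

/-- the imaginary parts of the logarithms differ by less than 2 -/
lemma im_lt {R : ℝ} {z zp Y Yp X Xp : ℂ} (hR : (10 : ℝ) ^ 20 ≤ R) (hzp : ‖zp‖ = R)
    (e1 : exp Y = z) (e2 : exp Yp = zp) (hX : ‖z - X‖ ≤ 1 / 10 ^ 6)
    (hXp : ‖Xp - zp‖ ≤ 6 / 10 ^ 14 * R) (hre : |Xp.re| ≤ R / 5000)
    (hs : (66 / 100 * R ≤ X.im ∧ 66 / 100 * R ≤ Xp.im) ∨
      (X.im ≤ -(66 / 100 * R) ∧ Xp.im ≤ -(66 / 100 * R)))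
    (h2 : |Y.im - Yp.im| ≤ 2) : |Y.im - Yp.im| < 2 := by
  refine lt_of_le_of_ne h2 ?_
  intro h
  have hR0 : 0 < R := lt_of_lt_of_le (by norm_num) hR
  have c1 : Real.cos (Y.im - Yp.im) ≤ -(1 / 4) := by
    rw [← Real.cos_abs, h]
    exact cos_two_le
  have c2 : z.re = ‖z‖ * Real.cos Y.im := by
    rw [← e1, exp_re, norm_exp]
  have c3 : z.im = ‖z‖ * Real.sin Y.im := by
    rw [← e1, exp_im, norm_exp]
  have c4 : zp.re = ‖zp‖ * Real.cos Yp.im := by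
    rw [← e2, exp_re, norm_exp]
  have c5 : zp.im = ‖zp‖ * Real.sin Yp.im := by
    rw [← e2, exp_im, norm_exp]
  have c6 : z.re * zp.re + z.im * zp.im = ‖z‖ * R * Real.cos (Y.im - Yp.im) := by
    rw [c2, c3, c4, c5, hzp, Real.cos_sub]
    ring
  have c7 := abs_le.1 ((Complex.abs_im_le_norm _).trans hX)
  have c8 := abs_le.1 ((Complex.abs_im_le_norm _).trans hXp)
  have c9 := abs_le.1 ((Complex.abs_re_le_norm _).trans hXp)
  rw [sub_im] at c7 c8
  rw [sub_re] at c9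
  have hsmall : (1 : ℝ) / 10 ^ 6 ≤ R / 10 ^ 20 := by
    rw [le_div_iff₀ (by norm_num)]
    refine le_trans ?_ hR
    norm_num
  have d1 : 0 < z.im * zp.im := by
    rcases hs with ⟨h3, h4⟩ | ⟨h3, h4⟩
    · apply mul_pos
      · linarith [c7.1]
      · linarith [c8.2]
    · apply mul_pos_of_neg_of_neg
      · linarith [c7.2]
      · linarith [c8.1]
  have d2 : |zp.re| ≤ R / 4000 := by
    have h3 := abs_le.1 hre
    rw [abs_le]
    constructor
    · linarith [h3.1, c9.2]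
    · linarith [h3.2, c9.1]
  have d3 : |z.re * zp.re| ≤ ‖z‖ * (R / 4000) := by
    rw [abs_mul]
    exact mul_le_mul (Complex.abs_re_le_norm _) d2 (abs_nonneg _) (norm_nonneg _)
  have d4 := (abs_le.1 d3).1
  have d5 : ‖z‖ * R * Real.cos (Y.im - Yp.im) ≤ ‖z‖ * R * (-(1 / 4)) :=
    mul_le_mul_of_nonneg_left c1 (by positivity)
  have d6 : 0 ≤ ‖z‖ * R := by positivity
  linarith

lemma V_open (h1 : T_CHP) (h2 : T_FRX) (h3 : T_FRC) (h7 : T_SLIT) (h8 : T_CHNEAR) {n : ℕ}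
    {α : ℕ → ℂ → ℝ} {s : ℕ → ℤ} {k : ℕ} {p : ℂ} (hα : IsArg n α) (hp : HP n s k p)
    (hNR : NR n (k + 2) (cc n p)) {x : ℂ} (hx : x ∈ VV' n α s k p)
    (ha : Real.exp (‖zz n p (k + 1)‖ / 3000 / n) < ‖1 + zz n x (k + 1) / n‖) :
    ∀ᶠ y in 𝓝[Mq n] x, y ∈ VV' n α s k p := by
  have hn := hα.hn
  have hn0 : (0 : ℝ) < n := lt_of_lt_of_le (by norm_num) hn
  have hn1 : 0 < n := by exact_mod_cast hn0
  obtain ⟨⟨hRn, hXre, hne⟩, ⟨hxMp, h21⟩, hzX, hz2, hz2', him⟩ := V_facts h1 h2 h7 hα hp hx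
  obtain ⟨g1, g2, g3, g4⟩ := p_facts h1 h2 hp hNR hRn
  obtain ⟨r1, r2, r3, r4⟩ := R_facts h1 hp
  obtain ⟨m1, m2, m3⟩ := num_V r3 g3 g4 him
  obtain ⟨⟨hCh, hrr, hIm, hxM, -, hFR, hi0, hi1⟩, ht⟩ := hx
  obtain ⟨-, cxp, cnorm, -, -, -, -, -, -⟩ := h1 n s k x hCh
  obtain ⟨-, pexp, -, -, -, -, -, -, -⟩ := h1 n s k p hp.ch
  set R := ‖zz n p (k + 1)‖ with hRdef
  have hR0 : 0 < R := lt_of_lt_of_le (by norm_num) r3
  have hsmall : (1 : ℝ) ≤ R / 10 ^ 20 := by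
    rw [le_div_iff₀ (by norm_num)]
    linarith
  have a1 : |(YY n s x k).im - (YY n s p k).im| < 2 :=
    im_lt r3 hRdef.symm (cxp k (le_refl _)) (pexp k (le_refl _)) hzX g1 g2 m3 hIm
  have a2 : rr s k + 29 < (YY n s x k).re := by
    have h4 : 65 / 100 * R ≤ ‖zz n x (k + 1)‖ := by
      have h5 := Complex.abs_im_le_norm (zz n x (k + 1))
      have h6 := abs_le.1 ((Complex.abs_im_le_norm _).trans hzX)
      rw [sub_im] at h6
      have h7 : |(XX n x (k + 1)).im| ≤ |(zz n x (k + 1)).im| + 1 / 10 ^ 6 := by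
        have h8 := abs_sub_abs_le_abs_sub (XX n x (k + 1)).im (zz n x (k + 1)).im
        have h9 : |(XX n x (k + 1)).im - (zz n x (k + 1)).im| ≤ 1 / 10 ^ 6 := by
          rw [abs_le]
          constructor <;> linarith [h6.1, h6.2]
        linarith
      have h10 : (1 : ℝ) / 10 ^ 6 ≤ 1 := by norm_num
      linarith
    rw [cnorm k (le_refl _), r1] at h4
    have h5 : Real.exp ((YY n s p k).re - 1) < Real.exp (YY n s x k).re := by
      refine lt_of_lt_of_le ?_ h4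
      rw [Real.exp_sub, div_lt_iff₀ (Real.exp_pos 1)]
      have h6 := Real.exp_one_gt_d9
      have h7 : 0 < Real.exp (YY n s p k).re := Real.exp_pos _
      nlinarith
    have h6 := Real.exp_lt_exp.1 h5
    have h7 := hp.mar
    linarith
  have a3 : ‖zz n x (k + 1)‖ < 5000 * (XX n x (k + 1)).re := by
    have h4 : ‖zz n x (k + 1)‖ ≤ ‖XX n x (k + 1)‖ + 1 / 10 ^ 6 := by
      have := norm_sub_norm_le (zz n x (k + 1)) (XX n x (k + 1))
      linarith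
    have h5 := Complex.norm_le_abs_re_add_abs_im (XX n x (k + 1))
    rw [abs_of_nonneg (by linarith : 0 ≤ (XX n x (k + 1)).re)] at h5
    have h10 : (1 : ℝ) / 10 ^ 6 ≤ 1 := by norm_num
    linarith
  have hcn := h8 n s k x hCh hxM (by linarith) (by
    rw [abs_lt] at a1 ⊢
    have := hp.im0
    have := hp.im1
    have := Real.pi_lt_d2
    constructor <;> linarith [a1.1, a1.2])
  obtain ⟨q1, q2⟩ := hcn
  have q3 := (q2 k (le_refl _)).1
  have hzc1 := (CROSS_.continuous_zz n (k + 1)).continuousAt (x := x)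
  have hzc2 := (CROSS_.continuous_zz n (k + 2)).continuousAt (x := x)
  have t1 : ∀ᶠ y in 𝓝 x, rr s k + 29 < (YY n s y k).re :=
    (continuous_re.continuousAt.comp q3).eventually_const_lt a2
  have t2 : ∀ᶠ y in 𝓝 x, |(YY n s y k).im - (YY n s p k).im| < 2 := by
    have h4 : ContinuousAt (fun y => |(YY n s y k).im - (YY n s p k).im|) x :=
      ((continuous_im.continuousAt.comp q3).sub continuousAt_const).abs
    exact h4.eventually_lt_const a1
  have t3 : ∀ᶠ y in 𝓝 x, Real.exp (R / 3000 / n) < ‖1 + zz n y (k + 1) / n‖ :=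
    (continuous_f n (k + 1)).continuousAt.eventually_const_lt ha
  have t4 : ∀ᶠ y in 𝓝 x, ‖zz n y (k + 1)‖ - 5000 * (XX n y (k + 1)).re < 0 := by
    have h4 := (h3 n (k + 1) (by omega)).2 x hne
    have h5 : ContinuousAt (fun y => ‖zz n y (k + 1)‖ - 5000 * (XX n y (k + 1)).re) x :=
      hzc1.norm.sub (continuousAt_const.mul h4)
    exact h5.eventually_lt_const (by linarith)
  have t5 : ∀ᶠ y in 𝓝 x, 0 < y.im := continuous_im.continuousAt.eventually_const_lt hxMp.2.1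
  have t6 : ∀ᶠ y in 𝓝 x, y.im < 2 * Real.pi :=
    continuous_im.continuousAt.eventually_lt_const hxMp.2.2
  have t7 : ∀ᶠ y in 𝓝 x, (10 : ℝ) ^ 8 < ‖zz n y (k + 2)‖ :=
    hzc2.norm.eventually_const_lt hz2'
  -- the continuity of the last function
  have u1 : ∀ᶠ y in 𝓝[Mq n] x,
      y ∈ {L : ℂ | L ∈ Mp n ∧ 21 ≤ L.re ∧ (10 : ℝ) ^ 8 ≤ ‖zz n L (k + 2)‖} := by
    filter_upwards [nhdsWithin_le_nhds q1, nhdsWithin_le_nhds t5, nhdsWithin_le_nhds t6,
      nhdsWithin_le_nhds t7, self_mem_nhdsWithin] with y y1 y2 y3 y4 y5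
    exact ⟨⟨y5, y2, y3⟩, re_ge h1 y1, y4.le⟩
  have u2 : Tendsto (α (k + 2)) (𝓝[Mq n] x) (𝓝 (α (k + 2) x)) := by
    have h4 := hα.cont (k + 2) (by omega) x ⟨hxMp, h21, hz2'.le⟩
    exact h4.mono_left (nhdsWithin_le_iff.2 u1)
  have u3 : ContinuousAt (fun L => XX n L (k + 1)) x := by
    have h5 : 0 ≤ (zz n x (k + 1)).re := by
      have h6 := (Complex.abs_re_le_norm _).trans hzX
      rw [sub_re, abs_le] at h6
      have h8 : (1 : ℝ) / 10 ^ 6 ≤ 1 := by norm_num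
      linarith [h6.1]
    have h6 : 1 + zz n x (k + 1) / n ∈ slitPlane := by
      left
      have := one_add_re (n := n) h5
      linarith
    unfold XX
    have h9 : ContinuousAt (fun L => 1 + zz n L (k + 1) / n) x := by fun_prop
    exact continuousAt_const.mul (h9.clog h6)
  have u4 : Tendsto (fun y => (XX n y (k + 1)).im + y.im - α (k + 2) y) (𝓝[Mq n] x)
      (𝓝 ((XX n x (k + 1)).im + x.im - α (k + 2) x)) := by
    refine Tendsto.sub (Tendsto.add ?_ ?_) u2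
    · exact ((continuous_im.continuousAt.comp u3).tendsto).mono_left nhdsWithin_le_nhds
    · exact (continuous_im.tendsto x).mono_left nhdsWithin_le_nhds
  have u5 : ∀ᶠ y in 𝓝[Mq n] x, |(XX n y (k + 1)).im + y.im - α (k + 2) y -
      ((XX n x (k + 1)).im + x.im - α (k + 2) x)| < 1 := by
    have h4 := u4.sub_const ((XX n x (k + 1)).im + x.im - α (k + 2) x)
    rw [sub_self] at h4
    have h5 := h4.abs
    rw [abs_zero] at h5
    exact h5.eventually_lt_const (by norm_num)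
  filter_upwards [nhdsWithin_le_nhds q1, nhdsWithin_le_nhds t1, nhdsWithin_le_nhds t2,
    nhdsWithin_le_nhds t3, nhdsWithin_le_nhds t4, nhdsWithin_le_nhds t5, nhdsWithin_le_nhds t6,
    u1, u5, self_mem_nhdsWithin] with y y1 y2 y3 y4 y5 y6 y7 y8 y9 y10
  refine ⟨⟨y1, y2.le, y3.le, y10, y4.le, ?_, y6.le, y7.le⟩, ?_⟩
  · show ‖zz n y (k + 1)‖ ≤ 5000 * (XX n y (k + 1)).re
    linarith
  · have hyb := box h2 hn y10 (by linarith [y8.2.1]) y4.le
    obtain ⟨ma, hma⟩ := t_int hα h2 y8.1 y8.2.1 y8.2.2 hyb.2.2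
    obtain ⟨mb, hmb⟩ := t_int hα h2 hxMp h21 hz2'.le hne
    have h4 : (XX n y (k + 1)).im + y.im - α (k + 2) y =
        (XX n x (k + 1)).im + x.im - α (k + 2) x := by
      have h5 : (XX n y (k + 1)).im + y.im - α (k + 2) y = 2 * Real.pi * ma := hma
      have h6 : (XX n x (k + 1)).im + x.im - α (k + 2) x = 2 * Real.pi * mb := hmb
      rw [h5, h6] at y9
      have h7 : ma = mb := by
        by_contra hne'
        have h8 : (1 : ℝ) ≤ |((ma - mb : ℤ) : ℝ)| := by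
          exact_mod_cast Int.one_le_abs (sub_ne_zero.2 hne')
        have h9 : 2 * Real.pi * ma - 2 * Real.pi * mb = 2 * Real.pi * ((ma - mb : ℤ) : ℝ) := by
          push_cast
          ring
        rw [h9, abs_mul, abs_of_pos Real.two_pi_pos] at y9
        have := Real.pi_gt_d2
        nlinarith
      rw [h5, h6, h7]
    rw [h4]
    exact ht

lemma big2 (h2 : T_FRX) {n : ℕ} (hn : (10 : ℝ) ^ 20 ≤ n) {i : ℕ} {x : ℂ} {R : ℝ}
    (hxM : x ∈ Mq n) (h21 : 21 ≤ x.re) (r3 : (10 : ℝ) ^ 20 ≤ R) (hX : R / 3000 ≤ (XX n x i).re)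
    (hne : zz n x i ≠ -n) : ‖zz n x (i + 1)‖ = Real.exp ((XX n x i).re + x.re) ∧
      (10 : ℝ) ^ 8 < ‖zz n x (i + 1)‖ := by
  obtain ⟨e1, -, -⟩ := h2 n x i hn hxM (by linarith) hne
  have e4 : ‖zz n x (i + 1)‖ = Real.exp ((XX n x i).re + x.re) := by
    rw [e1, norm_exp, add_re]
  refine ⟨e4, ?_⟩
  rw [e4]
  have h3 : (10 : ℝ) ^ 8 ≤ (XX n x i).re + x.re := by
    have h4 : (10 : ℝ) ^ 8 ≤ 10 ^ 20 / 3000 := by norm_num
    linarith
  have h4 := Real.add_one_le_exp ((XX n x i).re + x.re)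
  linarith

lemma K_V (h1 : T_CHP) (h2 : T_FRX) (h7 : T_SLIT) {n : ℕ} {α : ℕ → ℂ → ℝ} {s : ℕ → ℤ} {k : ℕ}
    {p : ℂ} (hα : IsArg n α) (hp : HP n s k p) (hNR : NR n (k + 2) (cc n p)) {x : ℂ}
    (hx : x ∈ Mloc n s k p) (hd : ‖YY n s x k - YY n s p k‖ < 26 / 100)
    (ha : Real.exp (‖zz n p (k + 1)‖ / 3000 / n) ≤ ‖1 + zz n x (k + 1) / n‖) :
    x ∈ VV' n α s k p := by
  have hn := hα.hn
  obtain ⟨hCh, -, hxM, -, hi0, hi1⟩ := hx
  have h21 := re_ge h1 hCh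
  obtain ⟨hRn, hXre, hne⟩ := box h2 hn hxM (by linarith) ha
  obtain ⟨g1, g2, g3, g4⟩ := p_facts h1 h2 hp hNR hRn
  obtain ⟨r1, r2, r3, r4⟩ := R_facts h1 hp
  have hMp := mem_Mp h7 hn hxM (by linarith) hi0 hi1
  obtain ⟨-, -, e3⟩ := h2 n x (k + 1) hn hxM (by linarith) hne
  obtain ⟨-, e5⟩ := big2 h2 hn hxM h21 r3 hXre hne
  obtain ⟨-, cxp, cnorm, -, -, -, -, -, -⟩ := h1 n s k x hCh
  obtain ⟨-, pexp, -, -, -, -, -, -, -⟩ := h1 n s k p hp.ch
  set R := ‖zz n p (k + 1)‖ with hRdef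
  have hR0 : 0 < R := lt_of_lt_of_le (by norm_num) r3
  set Δ := YY n s x k - YY n s p k with hΔ
  have z1 : zz n x (k + 1) - zz n p (k + 1) = zz n p (k + 1) * (exp Δ - 1) := by
    rw [← cxp k (le_refl _), ← pexp k (le_refl _), mul_sub, ← exp_add, mul_one, hΔ]
    congr 2
    ring
  have z2 : ‖exp Δ - 1‖ ≤ 3276 / 10000 := by
    have h4 := Complex.norm_exp_sub_one_sub_id_le (x := Δ) (by linarith)
    have h5 : ‖exp Δ - 1‖ ≤ ‖exp Δ - 1 - Δ‖ + ‖Δ‖ := by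
      have := norm_add_le (exp Δ - 1 - Δ) Δ
      rwa [sub_add_cancel] at this
    have h6 : ‖Δ‖ ^ 2 ≤ (26 / 100) ^ 2 := pow_le_pow_left₀ (norm_nonneg _) hd.le 2
    norm_num at h6
    linarith
  have z3 : ‖zz n x (k + 1) - zz n p (k + 1)‖ ≤ R * (3276 / 10000) := by
    rw [z1, norm_mul]
    exact mul_le_mul_of_nonneg_left z2 (norm_nonneg _)
  have z4 : ‖zz n x (k + 1)‖ ≤ R * (13276 / 10000) := by
    have := norm_sub_norm_le (zz n x (k + 1)) (zz n p (k + 1))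
    rw [← hRdef] at this
    linarith
  have hFR : FR n x (k + 1) := by
    show ‖zz n x (k + 1)‖ ≤ 5000 * (XX n x (k + 1)).re
    linarith
  have hzX := (e3 hFR).2
  have i1 : |(XX n x (k + 1)).im - (XX n p (k + 1)).im| ≤
      1 / 10 ^ 6 + R * (3276 / 10000) + 6 / 10 ^ 14 * R := by
    rw [← sub_im]
    refine (Complex.abs_im_le_norm _).trans ?_
    have h4 : XX n x (k + 1) - XX n p (k + 1) = -(zz n x (k + 1) - XX n x (k + 1)) +
        (zz n x (k + 1) - zz n p (k + 1)) - (XX n p (k + 1) - zz n p (k + 1)) := by ring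
    rw [h4]
    refine (norm_sub_le _ _).trans (add_le_add ?_ g1)
    refine (norm_add_le _ _).trans (add_le_add ?_ z3)
    rw [norm_neg]
    exact hzX
  have hsmall : (1 : ℝ) ≤ R / 10 ^ 20 := by
    rw [le_div_iff₀ (by norm_num)]
    linarith
  have e6 := hα.lo (k + 2) x (by omega) hMp h21 e5.le
  have e7 := hα.hi (k + 2) x (by omega) hMp h21 e5.le
  have e8 := hMp.2.1
  have e9 := hMp.2.2
  have hpi := Real.pi_lt_d2
  have hre : |(YY n s x k).re - (YY n s p k).re| ≤ 26 / 100 := by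
    rw [← sub_re]
    exact (Complex.abs_re_le_norm _).trans hd.le
  have him : |(YY n s x k).im - (YY n s p k).im| ≤ 26 / 100 := by
    rw [← sub_im]
    exact (Complex.abs_im_le_norm _).trans hd.le
  refine ⟨⟨hCh, ?_, him.trans (by norm_num), hxM, ha, hFR, hi0, hi1⟩, ?_⟩
  · have := hp.mar
    rw [abs_le] at hre
    linarith [hre.1]
  · have h10 : (1 : ℝ) / 10 ^ 6 ≤ 1 := by norm_num
    rw [abs_le] at i1 ⊢
    constructor <;> linarith [i1.1, i1.2]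

lemma two_R_le {R u : ℝ} (hR : (10 : ℝ) ^ 20 ≤ R) (hu : R / 2500 ≤ u) : 2 * R ≤ Real.exp u := by
  have h1 := Real.add_one_le_exp (u / 2)
  have h2 : Real.exp u = Real.exp (u / 2) ^ 2 := by
    rw [← Real.exp_nat_mul]
    congr 1
    push_cast
    ring
  have h3 : R / 5000 ≤ Real.exp (u / 2) := by linarith
  rw [h2]
  have h4 : (R / 5000) ^ 2 ≤ Real.exp (u / 2) ^ 2 :=
    pow_le_pow_left₀ (by linarith) h3 2
  refine le_trans ?_ h4
  nlinarith

/-- two logarithms of numbers in the right half plane -/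
lemma log_near {z z1 Y Y1 : ℂ} {R : ℝ} (hR : (10 : ℝ) ^ 20 ≤ R) (e1 : exp Y = z)
    (e2 : exp Y1 = z1) (h1 : 74 / 100 * R ≤ ‖z1‖) (h2 : ‖z - z1‖ ≤ R / 2500 + 62)
    (h3 : |Y.im| ≤ 8 / 5) (h4 : |Y1.im| ≤ 8 / 5) : ‖Y - Y1‖ ≤ 15 / 10000 := by
  have hz1 : 0 < ‖z1‖ := by linarith
  have hz1' : z1 ≠ 0 := norm_pos_iff.1 hz1
  set e := (z - z1) / z1 with he
  have h5 : ‖e‖ ≤ 1 / 1000 := by
    rw [he, norm_div, div_le_iff₀ hz1]
    linarith
  have h6 : 1 + e = z / z1 := by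
    rw [he]
    field_simp
    ring
  have h7 := norm_log_one_add_half_le_self (z := e) (by linarith)
  have h8 : ‖log (1 + e)‖ ≤ 15 / 10000 := by linarith
  have hz : z ≠ 0 := by
    rw [← e1]
    exact exp_ne_zero _
  have h9 : 1 + e ≠ 0 := by
    rw [h6]
    exact div_ne_zero hz hz1'
  have h10 : exp (Y - Y1 - log (1 + e)) = 1 := by
    rw [exp_sub, exp_sub, exp_log h9, e1, e2, h6, div_self]
    exact div_ne_zero hz hz1'
  obtain ⟨m, hm⟩ := exp_eq_one_iff.1 h10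
  have h11 : (Y - Y1 - log (1 + e)).im = 2 * Real.pi * m := by
    rw [hm]
    simp
    ring
  have h12 : |(Y - Y1 - log (1 + e)).im| ≤ 33 / 10 := by
    rw [sub_im, sub_im]
    have h13 := abs_le.1 ((Complex.abs_im_le_norm (log (1 + e))).trans h8)
    have h14 := abs_le.1 h3
    have h15 := abs_le.1 h4
    rw [abs_le]
    constructor <;> linarith [h13.1, h13.2, h14.1, h14.2, h15.1, h15.2]
  have h13 : m = 0 := by
    by_contra hne
    have h14 : (1 : ℝ) ≤ |(m : ℝ)| := by exact_mod_cast Int.one_le_abs hne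
    rw [h11, abs_mul, abs_of_pos Real.two_pi_pos] at h12
    have := Real.pi_gt_d2
    nlinarith
  have h14 : Y - Y1 = log (1 + e) := by
    rw [h13] at hm
    simp at hm
    linear_combination hm
  rw [h14]
  exact h8

lemma Y_step (h1 : T_CHP) (h2 : T_FRX) (h7 : T_SLIT) (h10 : T_STEP) (h11 : T_COV)
    (h12 : T_DOWN) (h13 : T_COMP) (h14 : T_RC) {n : ℕ} {α : ℕ → ℂ → ℝ} {s : ℕ → ℤ} {k : ℕ}
    {p : ℂ} {B : ℝ} (hα : IsArg n α)
    (IH : ∀ s k p, HP n s k p → B ≤ ‖zz n p (k + 1)‖ → HC n s k p) (hp : HP n s k p)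
    (hB : B ≤ 2 * ‖zz n p (k + 1)‖) {Y : Set ℂ} (hYV : Y ⊆ VV' n α s k p) (hYc : IsCompact Y)
    (hYp : IsPreconnected Y)
    (hm : ∀ y ∈ Y, Real.exp (‖zz n p (k + 1)‖ / 2500 / n) ≤ ‖1 + zz n y (k + 1) / n‖)
    {c1 c2 : ℂ} (hc1 : c1 ∈ Y) (hc2 : c2 ∈ Y)
    (hf1 : ‖1 + zz n c1 (k + 1) / n‖ = Real.exp (‖zz n p (k + 1)‖ / 2500 / n))
    (hf2 : ‖1 + zz n c2 (k + 1) / n‖ = Real.exp (‖zz n p (k + 1)‖ / 2500 / n))
    (hd : ‖YY n s c1 k - YY n s p k‖ < 26 / 100) :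
    ∃ J : Set ℂ, IsPreconnected J ∧ c1 ∈ J ∧ c2 ∈ J ∧ J ⊆ Mloc n s k p := by
  have hn := hα.hn
  have hn0 : (0 : ℝ) < n := lt_of_lt_of_le (by norm_num) hn
  have hn1 : 0 < n := by exact_mod_cast hn0
  obtain ⟨r1, r2, r3, r4⟩ := R_facts h1 hp
  set R := ‖zz n p (k + 1)‖ with hRdef
  have hR0 : 0 < R := lt_of_lt_of_le (by norm_num) r3
  have hsmall : (1 : ℝ) ≤ R / 10 ^ 20 := by
    rw [le_div_iff₀ (by norm_num)]
    linarith
  have hstep : ∀ L ∈ Y, ∃ s' : ℕ → ℤ, (∀ i, i < k → s' i = s i) ∧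
      |((s' k : ℤ) : ℝ) - s k| ≤ 1 ∧
      Ch n s' (k + 1) L ∧ rr s' (k + 1) + 40 ≤ (YY n s' L (k + 1)).re ∧
      (YY n s' L (k + 1)).im = α (k + 2) L ∧ 2 * ‖zz n L (k + 1)‖ ≤ ‖zz n L (k + 2)‖ := by
    intro L hL
    obtain ⟨-, ⟨hMp, -⟩, -⟩ := V_facts h1 h2 h7 hα hp (hYV hL)
    obtain ⟨⟨hCh, hrr, -, -, -, hFR, -, -⟩, -⟩ := hYV hL
    exact h10 n α s k L hα hCh hMp hrr hFR
  have hYM : Y ⊆ Mp n := fun L hL => (V_facts h1 h2 h7 hα hp (hYV hL)).2.1.1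
  obtain ⟨t, ht⟩ := h11 n α (k + 1) Y hα hYp hYM (fun L hL => by
    obtain ⟨s', -, -, a, -, b, -⟩ := hstep L hL
    exact ⟨s', a, b⟩)
  obtain ⟨s1, a1, a2, a3, a4, a5, a6⟩ := hstep c1 hc1
  have b1 := (ht c1 hc1).2.2 s1 a3 a5
  have t1 : ∀ i, i < k → t i = s i := fun i hi => by
    rw [← b1 i (by omega)]
    exact a1 i hi
  have t2 : |((t k : ℤ) : ℝ) - s k| ≤ 1 := by
    rw [← b1 k (by omega)]
    exact a2
  obtain ⟨J, j1, j2, j3, j4, j5⟩ := h14 n α B hα IH t (k + 1) Y hYc hYp (fun L hL => by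
    obtain ⟨⟨q1, q2, q3⟩, ⟨q4, q5⟩, q6, q7, q8, q9⟩ := V_facts h1 h2 h7 hα hp (hYV hL)
    obtain ⟨s', -, -, a3, a4, a5, -⟩ := hstep L hL
    obtain ⟨u1, u2, u3⟩ := ht L hL
    have b1 := u3 s' a3 a5
    refine ⟨q4, u1, ?_, u2, ?_⟩
    · rw [← rr_congr (s := t) (s' := s') (k + 1) b1, ← YY_congr (b1 (k + 1) (le_refl _))]
      linarith
    · show B ≤ ‖zz n L (k + 2)‖
      rw [q7]
      refine hB.trans (two_R_le r3 ?_)
      have := le_re hn1 (hm L hL)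
      linarith) c1 hc1 c2 hc2
  obtain ⟨c, hcJ, hmax, hc1le, hfc⟩ : ∃ c ∈ J,
      max (YY n t c1 (k + 1)).re (YY n t c2 (k + 1)).re ≤ (YY n t c (k + 1)).re ∧
      (YY n t c1 (k + 1)).re ≤ (YY n t c (k + 1)).re ∧
      ‖1 + zz n c (k + 1) / n‖ = Real.exp (R / 2500 / n) := by
    rcases le_total (YY n t c1 (k + 1)).re (YY n t c2 (k + 1)).re with h | h
    · exact ⟨c2, j4, by rw [max_eq_right h], h, hf2⟩
    · exact ⟨c1, j3, by rw [max_eq_left h], le_refl _, hf1⟩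
  refine ⟨J, j1, j3, j4, ?_⟩
  intro L hL
  have hcCh := (j5 c hcJ).1
  have hc1Ch := (j5 c1 j3).1
  obtain ⟨hLCh, hLle⟩ := j5 L hL
  obtain ⟨-, k2, k3⟩ := h13 n t (k + 1) c L hcCh hLCh (by linarith)
  obtain ⟨-, l2, -⟩ := h13 n t (k + 1) c c1 hcCh hc1Ch (by linarith)
  have k2' := k2 (k + 1) (by omega) (le_refl _)
  have l2' := l2 (k + 1) (by omega) (le_refl _)
  have k3' := k3 (by omega)
  have hXc : (XX n c (k + 1)).re ≤ R / 2500 := re_le hn1 (by positivity) hfc.le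
  have hXc1 : (XX n c1 (k + 1)).re ≤ R / 2500 := re_le hn1 (by positivity) hf1.le
  have hXL : (XX n L (k + 1)).re ≤ R / 2500 + 13 := by
    have h5 : max 0 ((YY n t L (k + 1)).re - (YY n t c (k + 1)).re) ≤ 12 := by
      apply max_le (by norm_num)
      linarith
    linarith
  obtain ⟨-, Lexp, -, Llog, -, -, LX, Lrr, -⟩ := h1 n t (k + 1) L hLCh
  obtain ⟨-, cxp, -, clog, -, -, cX, crr, -⟩ := h1 n t (k + 1) c1 hc1Ch
  obtain ⟨LX1, -, -, -, LX5⟩ := LX (k + 1) (by omega) (le_refl _)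
  obtain ⟨cX1, -, -, -, cX5⟩ := cX (k + 1) (by omega) (le_refl _)
  have hXL0 : 0 ≤ (XX n L (k + 1)).re := by
    have h5 := hLCh.hr (k + 1) (le_refl _)
    have h6 := Lrr (k + 1) (le_refl _)
    linarith
  have hXc0 : 0 ≤ (XX n c1 (k + 1)).re := by
    have h5 := hc1Ch.hr (k + 1) (le_refl _)
    have h6 := crr (k + 1) (le_refl _)
    linarith
  obtain ⟨dL1, dL2⟩ := h12 n s t k L hLCh hp.ch.h0 t1 t2
  obtain ⟨dc1, dc2⟩ := h12 n s t k c1 hc1Ch hp.ch.h0 t1 t2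
  obtain ⟨-, -, sc, -⟩ := h1 n s k c1 dc1
  have hzc1 : 74 / 100 * R ≤ ‖zz n c1 (k + 1)‖ := by
    rw [sc k (le_refl _), r1]
    have h5 : |(YY n s c1 k).re - (YY n s p k).re| ≤ 26 / 100 := by
      rw [← sub_re]
      exact (Complex.abs_re_le_norm _).trans hd.le
    have h6 : (YY n s p k).re + (-(26 / 100)) ≤ (YY n s c1 k).re := by
      linarith [(abs_le.1 h5).1]
    refine le_trans ?_ (Real.exp_le_exp.2 h6)
    rw [Real.exp_add, mul_comm]
    apply mul_le_mul_of_nonneg_left _ (Real.exp_pos _).le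
    have := Real.one_sub_le_exp_neg (26 / 100)
    linarith
  have hdz : ‖zz n L (k + 1) - zz n c1 (k + 1)‖ ≤ R / 2500 + 62 := by
    have h5 : ‖XX n L (k + 1) - XX n c1 (k + 1)‖ ≤ (R / 2500 + 13) + 48 := by
      refine (Complex.norm_le_abs_re_add_abs_im _).trans (add_le_add ?_ ?_)
      · rw [sub_re, abs_le]
        constructor <;> linarith
      · rw [sub_im]
        rw [abs_le] at k2' l2' ⊢
        constructor <;> linarith [k2'.1, k2'.2, l2'.1, l2'.2]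
    have h6 : zz n L (k + 1) - zz n c1 (k + 1) = (zz n L (k + 1) - XX n L (k + 1)) +
        (XX n L (k + 1) - XX n c1 (k + 1)) - (zz n c1 (k + 1) - XX n c1 (k + 1)) := by ring
    have h7 : (1 : ℝ) / 10 ^ 6 ≤ 1 / 2 := by norm_num
    rw [h6]
    refine (norm_sub_le _ _).trans ?_
    have h8 := norm_add_le (zz n L (k + 1) - XX n L (k + 1)) (XX n L (k + 1) - XX n c1 (k + 1))
    linarith
  have hYY : ‖YY n t L k - YY n t c1 k‖ ≤ 15 / 10000 :=
    log_near r3 (Lexp k (by omega)) (cxp k (by omega)) hzc1 hdz (Llog k (by omega)).2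
      (clog k (by omega)).2
  have hYYs : YY n s L k - YY n s c1 k = YY n t L k - YY n t c1 k := by
    rw [dL2, dc2]
    ring
  refine ⟨dL1, ?_, (j2 hL).1, ?_, (j2 hL).2.1.le, (j2 hL).2.2.le⟩
  · have h5 : YY n s L k - YY n s p k = (YY n t L k - YY n t c1 k) +
        (YY n s c1 k - YY n s p k) := by
      rw [← hYYs]
      ring
    rw [h5]
    refine (norm_add_le _ _).trans ?_
    linarith
  · apply f_le hn1
    linarith

lemma no_cross (h1 : T_CHP) {n : ℕ} {s : ℕ → ℤ} {k : ℕ} {p L : ℂ} (hp : HP n s k p)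
    (hL : L ∈ Mloc n s k p) (hne : zz n L (k + 1) ≠ -n) (hNN : NN n (k + 1) p L)
    (h : ¬ NFR n (k + 1) L) : False := by
  have hn := hp.ch.hn
  have hn0 : (0 : ℝ) < n := lt_of_lt_of_le (by norm_num) hn
  have hn1 : 0 < n := by exact_mod_cast hn0
  obtain ⟨r1, r2, r3, r4⟩ := R_facts h1 hp
  obtain ⟨hCh, -, hLM, hf, -, -⟩ := hL
  obtain ⟨-, cxp, -, -, -, -, -, -, -⟩ := h1 n s k L hCh
  obtain ⟨-, pexp, -, -, -, -, -, -, -⟩ := h1 n s k p hp.ch
  have hR3 := norm_zz_le hn hp.mem.1 (by linarith [re_ge h1 hp.ch]) (k + 1)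
  set R := ‖zz n p (k + 1)‖ with hRdef
  have hR0 : 0 < R := lt_of_lt_of_le (by norm_num) r3
  have h2 : ‖XX n L (k + 1)‖ / 1000 ≤ (XX n L (k + 1)).re := not_lt.1 h
  have h3 : (XX n L (k + 1)).re ≤ R / 2000 := re_le hn1 (by positivity) hf
  have h4 := norm_le hn1.ne' (ne_of hn1.ne' hne)
  have h5 : Real.exp (max 0 ((XX n L (k + 1)).re / n)) ≤ 101 / 100 := by
    have h6 : max 0 ((XX n L (k + 1)).re / n) ≤ 3 / 2000 := by
      apply max_le (by norm_num)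
      rw [div_le_iff₀ hn0]
      linarith
    refine (Real.exp_le_exp.2 h6).trans ?_
    have h7 := Real.one_sub_le_exp_neg (3 / 2000)
    rw [Real.exp_neg] at h7
    have h8 : 0 < Real.exp (3 / 2000) := Real.exp_pos _
    have h9 : Real.exp (3 / 2000) * (1 - 3 / 2000) ≤ 1 := by
      calc Real.exp (3 / 2000) * (1 - 3 / 2000) ≤ Real.exp (3 / 2000) *
          (Real.exp (3 / 2000))⁻¹ := mul_le_mul_of_nonneg_left h7 h8.le
        _ = 1 := mul_inv_cancel₀ h8.ne'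
    linarith
  have h6 : ‖zz n L (k + 1)‖ ≤ R / 2 * (101 / 100) := by
    refine h4.trans (mul_le_mul ?_ h5 (Real.exp_pos _).le (by positivity))
    linarith
  have hz : zz n L (k + 1) ≠ 0 := by
    rw [← cxp k (le_refl _)]
    exact exp_ne_zero _
  have hzp : zz n p (k + 1) ≠ 0 := by
    rw [← pexp k (le_refl _)]
    exact exp_ne_zero _
  have h7 := hNN.2.2
  have h8 : ‖zz n L (k + 1) / zz n p (k + 1)‖ =
      Real.exp (log (zz n L (k + 1) / zz n p (k + 1))).re := by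
    rw [← norm_exp, exp_log (div_ne_zero hz hzp)]
  have h9 := (abs_le.1 ((Complex.abs_re_le_norm _).trans h7)).1
  have h10 : 3 / 4 ≤ ‖zz n L (k + 1) / zz n p (k + 1)‖ := by
    rw [h8]
    refine le_trans ?_ (Real.exp_le_exp.2 h9)
    have := Real.one_sub_le_exp_neg (1 / 4)
    linarith
  rw [norm_div, ← hRdef, le_div_iff₀ hR0] at h10
  linarith

lemma near_of_NN (h1 : T_CHP) {n : ℕ} {s : ℕ → ℤ} {k : ℕ} {p L : ℂ} (hp : HP n s k p)
    (hL : L ∈ Mloc n s k p) (hNN : NN n (k + 1) p L) : ‖YY n s L k - YY n s p k‖ ≤ 1 / 4 := by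
  obtain ⟨hCh, hd, -, -, -, -⟩ := hL
  obtain ⟨-, cxp, -, -, -, -, -, -, -⟩ := h1 n s k L hCh
  obtain ⟨-, pexp, -, -, -, -, -, -, -⟩ := h1 n s k p hp.ch
  have h2 : exp (YY n s L k - YY n s p k) = zz n L (k + 1) / zz n p (k + 1) := by
    rw [exp_sub, cxp k (le_refl _), pexp k (le_refl _)]
  have h3 := abs_le.1 ((Complex.abs_im_le_norm _).trans hd)
  have h4 := Real.pi_gt_d2
  have h5 : log (zz n L (k + 1) / zz n p (k + 1)) = YY n s L k - YY n s p k := by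
    rw [← h2, log_exp (by linarith [h3.1]) (by linarith [h3.2])]
  rw [← h5]
  exact hNN.2.2

end HSTEP_

open HSTEP_ in
theorem p_HSTEP (h1 : T_CHP) (h2 : T_FRX) (h3 : T_FRC) (h4 : T_SEPC) (h5 : T_TL) (h6 : T_NC)
    (h7 : T_SLIT) (h8 : T_CHNEAR) (h9 : T_CHCL) (h10 : T_STEP) (h11 : T_COV) (h12 : T_DOWN)
    (h13 : T_COMP) (h14 : T_RC) (h15 : T_FING) : T_HSTEP := by
  intro n α B hα IH s k p hp hB
  have hn := hα.hn
  have hn0 : (0 : ℝ) < n := lt_of_lt_of_le (by norm_num) hn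
  have hn1 : 0 < n := by exact_mod_cast hn0
  have hn2 : 2 ≤ n := by
    have h : (2 : ℝ) ≤ n := le_trans (by norm_num) hn
    exact_mod_cast h
  obtain ⟨r1, r2, r3, r4⟩ := R_facts h1 hp
  have hR0 : 0 < ‖zz n p (k + 1)‖ := lt_of_lt_of_le (by norm_num) r3
  have hnf : 5000 * (XX n p (k + 1)).re ≤ ‖zz n p (k + 1)‖ := hp.nf
  have hpM : p ∈ Mloc n s k p := by
    refine ⟨hp.ch, ?_, hp.mem.1, f_le hn1 (by linarith), hp.mem.2.1.le, hp.mem.2.2.le⟩
    rw [sub_self, norm_zero]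
    norm_num
  have hMp : ∀ L ∈ Mloc n s k p, L ∈ Mp n := fun L hL =>
    mem_Mp h7 hn hL.2.2.1 (by linarith [re_ge h1 hL.1]) hL.2.2.2.2.1 hL.2.2.2.2.2
  have hK0p : IsPreconnected (connectedComponentIn (Mloc n s k p) p) :=
    isPreconnected_connectedComponentIn
  have hK0s : connectedComponentIn (Mloc n s k p) p ⊆ Mloc n s k p :=
    connectedComponentIn_subset _ _
  have hpK0 : p ∈ connectedComponentIn (Mloc n s k p) p := mem_connectedComponentIn hpM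
  by_cases hA : ∃ L1 ∈ connectedComponentIn (Mloc n s k p) p, ¬ NR n (k + 2) (cc n L1)
  · obtain ⟨L1, hL1, hNR⟩ := hA
    have m1 := hK0s hL1
    have m2 := abs_le.1 ((Complex.abs_re_le_norm _).trans m1.2.1)
    have m3 := abs_le.1 ((Complex.abs_im_le_norm _).trans m1.2.1)
    rw [sub_re] at m2
    rw [sub_im] at m3
    have m4 := hp.mar
    have m5 := hp.im0
    have m6 := hp.im1
    obtain ⟨J, j1, j2, j3, ⟨S, hS, hSp⟩, j5⟩ := h15 n s k L1 (hMp L1 m1) m1.1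
      (by linarith [m2.1]) (by linarith [m3.1]) (by linarith [m3.2]) hNR
    refine ⟨connectedComponentIn (Mloc n s k p) p ∪ J,
      IsPreconnected.union L1 hL1 j3 hK0p j1, union_subset (fun L hL => hMp L (hK0s hL)) j2,
      Or.inl hpK0, ⟨S, Or.inr hS, hSp⟩, ?_⟩
    rintro L (hL | hL)
    · have q1 := hK0s hL
      refine ⟨q1.1, ?_⟩
      rw [← sub_re]
      exact ((Complex.abs_re_le_norm _).trans q1.2.1).trans (by norm_num)
    · obtain ⟨q1, q2⟩ := j5 L hL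
      refine ⟨q1, ?_⟩
      rw [abs_le] at q2 ⊢
      constructor <;> linarith [q2.1, q2.2, m2.1, m2.2]
  · exfalso
    push Not at hA
    have hNRp := hA p hpK0
    have hclow := (h1 n s k p hp.ch).2.2.2.2.2.2.2.2
    have hne : ∀ L ∈ connectedComponentIn (Mloc n s k p) p, zz n L (k + 1) ≠ -n := fun L hL =>
      NR.zz_ne (j := k + 1) hn2 (hA L hL) (k + 1) (le_refl _)
    have hNN : ∀ L ∈ connectedComponentIn (Mloc n s k p) p, NN n (k + 1) p L := by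
      by_contra hcon
      push Not at hcon
      obtain ⟨L, hL, hLN⟩ := lim_CROSS n (k + 1) _ p hK0p
        (fun L hL => ⟨(hMp L (hK0s hL)).2.1, (hMp L (hK0s hL)).2.2, (hMp L (hK0s hL)).1,
          hA L hL⟩) hpK0 hclow hcon
      exact no_cross h1 hp (hK0s hL) (hne L hL) hLN.1 hLN.2
    have hg : ContinuousOn (fun L => ‖YY n s L k - YY n s p k‖) (Mloc n s k p) := by
      have c3 := ((h9 n s k).2 k (le_refl _)).1
      exact ((c3.sub continuousOn_const).norm).mono (fun L hL => hL.1)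
    obtain ⟨U, hUo, hU⟩ := continuousOn_iff'.1 hg (Iio (26 / 100)) isOpen_Iio
    obtain ⟨K, hK1, hK2, hK3, hK4, hK5, hK6⟩ := h4.1 (Mloc n s k p) U p
      (Mloc_compact h9 n s k p) hpM hUo (fun L hL => by
        have q1 := near_of_NN h1 hp (hK0s hL) (hNN L hL)
        have q2 : L ∈ (fun L => ‖YY n s L k - YY n s p k‖) ⁻¹' Iio (26 / 100) ∩
            Mloc n s k p := ⟨lt_of_le_of_lt q1 (by norm_num), hK0s hL⟩
        rw [hU] at q2
        exact q2.1)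
    have hKd : ∀ L ∈ K, ‖YY n s L k - YY n s p k‖ < 26 / 100 := by
      intro L hL
      have q2 : L ∈ U ∩ Mloc n s k p := ⟨hK5 hL, hK1 hL⟩
      rw [← hU] at q2
      exact q2.1
    have hlt : ∀ a b : ℝ, a < b → Real.exp (a / n) < Real.exp (b / n) := fun a b hab =>
      Real.exp_lt_exp.2 (div_lt_div_of_pos_right hab hn0)
    refine h5 (Mq n) K (VV' n α s k p) (fun L => ‖1 + zz n L (k + 1) / n‖)
      (Real.exp (‖zz n p (k + 1)‖ / 3000 / n)) (Real.exp (‖zz n p (k + 1)‖ / 2500 / n))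
      (Real.exp (‖zz n p (k + 1)‖ / 2000 / n)) (hlt _ _ (by linarith)) (hlt _ _ (by linarith))
      (continuous_f n (k + 1)) (h6 n hn2) (fun L hL => (hK1 hL).2.2.1) hK2 ?_
      (fun L hL => hL.1.2.2.2.1) (V_compact h1 h2 h3 h7 h9 hα hp)
      (fun x hx hax => V_open h1 h2 h3 h7 h8 hα hp hNRp hx hax)
      (fun x hx hax => K_V h1 h2 h7 hα hp hNRp (hK1 hx) (hKd x hx) hax) ?_ ⟨p, hK4, ?_⟩
    · intro x hx hfx
      have m1 := hK1 hx
      have m2 := abs_le.1 ((Complex.abs_re_le_norm _).trans (hKd x hx).le)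
      have m3 := abs_le.1 ((Complex.abs_im_le_norm _).trans (hKd x hx).le)
      rw [sub_re] at m2
      rw [sub_im] at m3
      have m4 := hp.mar
      have m5 := hp.im0
      have m6 := hp.im1
      have m7 := Real.pi_lt_d2
      have hxMp := hMp x m1
      obtain ⟨q1, q2⟩ := h8 n s k x m1.1 m1.2.2.1 (by linarith [m2.1]) (by
        rw [abs_lt]
        constructor <;> linarith [m3.1, m3.2])
      have q3 := (q2 k (le_refl _)).1
      have t1 : ∀ᶠ y in 𝓝 x, ‖YY n s y k - YY n s p k‖ < 1 / 2 := by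
        have h4 : ContinuousAt (fun y => ‖YY n s y k - YY n s p k‖) x :=
          (q3.sub continuousAt_const).norm
        exact h4.eventually_lt_const ((hKd x hx).trans (by norm_num))
      have t3 : ∀ᶠ y in 𝓝 x, ‖1 + zz n y (k + 1) / n‖ <
          Real.exp (‖zz n p (k + 1)‖ / 2000 / n) :=
        (continuous_f n (k + 1)).continuousAt.eventually_lt_const hfx
      have t5 : ∀ᶠ y in 𝓝 x, 0 < y.im := continuous_im.continuousAt.eventually_const_lt hxMp.2.1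
      have t6 : ∀ᶠ y in 𝓝 x, y.im < 2 * Real.pi :=
        continuous_im.continuousAt.eventually_lt_const hxMp.2.2
      have t7 : ∀ᶠ y in 𝓝 x, y ∈ (Mloc n s k p \ K)ᶜ :=
        hK3.isClosed.isOpen_compl.mem_nhds (fun hcon => hcon.2 hx)
      filter_upwards [nhdsWithin_le_nhds q1, nhdsWithin_le_nhds t1, nhdsWithin_le_nhds t3,
        nhdsWithin_le_nhds t5, nhdsWithin_le_nhds t6, nhdsWithin_le_nhds t7,
        self_mem_nhdsWithin] with y y1 y2 y3 y4 y5 y6 y7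
      by_contra hcon
      exact y6 ⟨⟨y1, y2.le, y7, y3.le, y4.le, y5.le⟩, hcon⟩
    · intro Y hYV hYc hYp hm c1 hc1 c2 hc2 hf1 hf2 hc1K
      obtain ⟨J, j1, j2, j3, j4⟩ := Y_step h1 h2 h7 h10 h11 h12 h13 h14 hα IH hp hB hYV hYc hYp
        hm hc1 hc2 hf1 hf2 (hKd c1 hc1K)
      exact hK6 J j1 j4 ⟨c1, j2, hc1K⟩ j3
    · refine lt_of_le_of_lt (f_le hn1 (r := ‖zz n p (k + 1)‖ / 5000) (by linarith)) ?_
      exact hlt _ _ (by linarith)

end Pool.Agent.Modu
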