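import Pool.Agent.Modu.Targets

/-!
# MODU: LEG, from a deep point to the spine
-/

set_option autoImplicit false

open Complex Filter Topology Set
open Pool.Agent.Multibrot Pool.Agent.Limb

namespace Pool.Agent.Modu

namespace LEG_

/-- The critical quantity as a product. -/
lemma Qeq {n : ℕ} (hn : 2 ≤ n) (L : ℂ) (k : ℕ) :
    ‖zz n L (k + 2) * DD n L (k + 1)‖ =
      ‖exp L * DD n L k‖ * ‖zz n L (k + 1)‖ * ‖1 + zz n L (k + 1) / n‖ ^ (n - 1) := by
  have h1 : zz n L (k + 2) = exp L * (1 + zz n L (k + 1) / n) ^ n := by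
    rw [zz_succ]
    rfl
  have h2 : DD n L (k + 1) = DD n L k * (zz n L (k + 1) / (1 + zz n L (k + 1) / n)) := by
    unfold DD
    rw [Finset.prod_range_succ]
  rw [h1, h2, ← norm_mul, ← norm_pow, ← norm_mul]
  congr 1
  set z := zz n L (k + 1) with hz
  rcases eq_or_ne (1 + z / n) 0 with h0 | h0
  · rw [h0, zero_pow (by omega), zero_pow (by omega)]
    ring
  · obtain ⟨m, rfl⟩ : ∃ m, n = m + 1 := ⟨n - 1, by omega⟩
    rw [Nat.add_sub_cancel]
    generalize 1 + z / ((m + 1 : ℕ) : ℂ) = a at h0 ⊢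
    rw [pow_succ]
    field_simp

lemma two_le_of {n : ℕ} (hn : (10 : ℝ) ^ 20 ≤ n) : 2 ≤ n := by
  have h1 : (2 : ℝ) ≤ n := le_trans (by norm_num) hn
  exact_mod_cast h1

/-- `1 + z_i / n` in terms of `X_i`. -/
lemma norm_one_add {n : ℕ} (hn : (10 : ℝ) ^ 20 ≤ n) {L : ℂ} {i : ℕ} (h : 0 < (XX n L i).re) :
    ‖1 + zz n L i / n‖ = Real.exp ((XX n L i).re / n) := by
  have hn0 : (0 : ℝ) < n := lt_of_lt_of_le (by norm_num) hn
  have h1 : (XX n L i).re = n * Real.log ‖1 + zz n L i / n‖ := by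
    unfold XX
    rw [← ofReal_natCast, re_ofReal_mul, log_re]
  have h2 : 0 < ‖1 + zz n L i / n‖ := by
    rcases (norm_nonneg (1 + zz n L i / n)).lt_or_eq with h3 | h3
    · exact h3
    · rw [h1, ← h3, Real.log_zero, mul_zero] at h
      exact absurd h (lt_irrefl _)
  rw [h1, mul_div_cancel_left₀ _ hn0.ne', Real.exp_log h2]

/-- The exponent of `‖exp L * DD n L k‖`. -/
noncomputable def LA (n : ℕ) (s : ℕ → ℤ) (k : ℕ) (L : ℂ) : ℝ :=
  L.re + ∑ i ∈ Finset.range k, ((YY n s L i).re - (XX n L (i + 1)).re / n)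

lemma Aexp (hCHP : T_CHP) {n : ℕ} {s : ℕ → ℤ} {k : ℕ} {L : ℂ} (h : Ch n s k L) :
    ‖exp L * DD n L k‖ = Real.exp (LA n s k L) := by
  obtain ⟨-, -, c3, -, -, -, c7, c8, -⟩ := hCHP n s k L h
  unfold LA DD
  rw [norm_mul, norm_exp, norm_prod, Real.exp_add, Real.exp_sum]
  congr 1
  apply Finset.prod_congr rfl
  intro i hi
  have hi' : i < k := Finset.mem_range.1 hi
  have h1 := c7 (i + 1) (by omega) (by omega)
  have h2 : rr s (i + 1) ≤ (YY n s L (i + 1)).re := h.hr (i + 1) (by omega)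
  have h3 := c8 (i + 1) (by omega)
  have h4 : 0 < (XX n L (i + 1)).re := by linarith [h1.1]
  rw [norm_div, c3 i hi'.le, norm_one_add h.hn h4, Real.exp_sub]

/-- `100 ^ i`-growth gives the bound of the sum. -/
lemma sum_le (hCHP : T_CHP) {n : ℕ} {s : ℕ → ℤ} {k : ℕ} {L : ℂ} (h : Ch n s k L) :
    ∀ m, m ≤ k → (YY n s L 0).re + ∑ i ∈ Finset.range m, (YY n s L i).re ≤ (YY n s L m).re := by
  obtain ⟨-, -, -, -, c5, -, -, c8, -⟩ := hCHP n s k L h
  intro m
  induction m with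
  | zero => intro _; simp
  | succ m ih =>
    intro hm
    have h1 := ih (by omega)
    have h2 := (c5 m (by omega)).2
    have h3 := h.hr m (by omega)
    have h4 := c8 m (by omega)
    rw [Finset.sum_range_succ]
    linarith

lemma Ale (hCHP : T_CHP) {n : ℕ} {s : ℕ → ℤ} {k : ℕ} {L : ℂ} (h : Ch n s k L) :
    ‖exp L * DD n L k‖ ≤ ‖zz n L (k + 1)‖ := by
  rw [Aexp hCHP h]
  obtain ⟨c1, -, c3, -, -, -, c7, c8, -⟩ := hCHP n s k L h
  rw [c3 k le_rfl]
  apply Real.exp_le_exp.2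
  refine le_trans ?_ (sum_le hCHP h k le_rfl)
  unfold LA
  rw [c1.1]
  gcongr with i hi
  have hi' : i < k := Finset.mem_range.1 hi
  have h1 := c7 (i + 1) (by omega) (by omega)
  have h2 : rr s (i + 1) ≤ (YY n s L (i + 1)).re := h.hr (i + 1) (by omega)
  have h3 := c8 (i + 1) (by omega)
  have h4 : 0 < (XX n L (i + 1)).re := by linarith [h1.1]
  have h5 : 0 ≤ (XX n L (i + 1)).re / n := div_nonneg h4.le (Nat.cast_nonneg _)
  linarith

/-- The number of levels is small. -/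
lemma k_le (hCHP : T_CHP) (hLN : T_LN) {n : ℕ} {s : ℕ → ℤ} {k : ℕ} {L : ℂ} (h : Ch n s k L) :
    (k : ℝ) ≤ n / 10 ^ 16 := by
  obtain ⟨-, -, -, -, c5, -, -, c8, -⟩ := hCHP n s k L h
  have h1 : ∀ m, m ≤ k → (m : ℝ) ≤ (YY n s L m).re := by
    intro m
    induction m with
    | zero =>
      intro hm
      have h2 := h.hr 0 hm
      have h3 := c8 0 hm
      norm_num
      linarith
    | succ m ih =>
      intro hm
      have h1 := ih (by omega)
      have h2 := (c5 m (by omega)).2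
      have h3 := h.hr m (by omega)
      have h4 := c8 m (by omega)
      push_cast
      linarith
  have h2 := h1 k le_rfl
  have h3 := h.hle k le_rfl
  obtain ⟨l1, l2, -, l4⟩ := hLN n h.hn
  have h5 : 1 ≤ Real.log (4 * n) := by
    have : 0 ≤ Real.log 4 := Real.log_nonneg (by norm_num)
    linarith
  nlinarith

lemma exp_half : Real.exp (1 / 2) ≤ 2 := by
  have h1 := Real.exp_one_lt_d9
  have h2 : Real.exp (1 / 2) * Real.exp (1 / 2) = Real.exp 1 := by
    rw [← Real.exp_add]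
    norm_num
  have h3 := Real.exp_pos (1 / 2)
  nlinarith

lemma geo (k : ℕ) : ∑ i ∈ Finset.range k, (1 / 10 ^ 7 : ℝ) ^ (k - i) ≤ 2 / 10 ^ 7 := by
  induction k with
  | zero => norm_num
  | succ k ih =>
    rw [Finset.sum_range_succ]
    have h1 : ∑ i ∈ Finset.range k, (1 / 10 ^ 7 : ℝ) ^ (k + 1 - i) =
        (1 / 10 ^ 7) * ∑ i ∈ Finset.range k, (1 / 10 ^ 7 : ℝ) ^ (k - i) := by
      rw [Finset.mul_sum]
      apply Finset.sum_congr rfl
      intro i hi
      have hi' : i < k := Finset.mem_range.1 hi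
      rw [← pow_succ']
      congr 1
      omega
    rw [h1]
    have h2 : k + 1 - k = 1 := by omega
    rw [h2, pow_one]
    nlinarith

/-- The variation of `A`. -/
lemma Arel (hCHP : T_CHP) (hLN : T_LN) (hLIP : T_LIP) {n : ℕ} {s : ℕ → ℤ} {k : ℕ} {L p : ℂ}
    (h : Ch n s k L) (hp : Ch n s k p) (hD : ‖YY n s L k - YY n s p k‖ ≤ 12) :
    ‖exp L * DD n L k‖ ≤ 2 * ‖exp p * DD n p k‖ *
      max 1 (‖zz n L (k + 1)‖ / ‖zz n p (k + 1)‖) := by
  have hn0 : (0 : ℝ) < n := lt_of_lt_of_le (by norm_num) h.hn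
  have hL := hCHP n s k L h
  have hP := hCHP n s k p hp
  rcases Nat.eq_zero_or_pos k with hk | hk
  · subst hk
    have e1 : ‖exp L * DD n L 0‖ = ‖zz n L (0 + 1)‖ := by
      rw [zero_add, zz_one]
      simp [DD]
    have e2 : ‖exp p * DD n p 0‖ = ‖zz n p (0 + 1)‖ := by
      rw [zero_add, zz_one]
      simp [DD]
    rw [e1, e2]
    have h0 : 0 < ‖zz n p (0 + 1)‖ := by
      rw [hP.2.2.1 0 le_rfl]
      exact Real.exp_pos _
    have h1 : ‖zz n L (0 + 1)‖ = ‖zz n p (0 + 1)‖ * (‖zz n L (0 + 1)‖ / ‖zz n p (0 + 1)‖) := by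
      field_simp
    calc ‖zz n L (0 + 1)‖ = ‖zz n p (0 + 1)‖ * (‖zz n L (0 + 1)‖ / ‖zz n p (0 + 1)‖) := h1
      _ ≤ ‖zz n p (0 + 1)‖ * max 1 (‖zz n L (0 + 1)‖ / ‖zz n p (0 + 1)‖) :=
          mul_le_mul_of_nonneg_left (le_max_right _ _) h0.le
      _ ≤ 2 * ‖zz n p (0 + 1)‖ * max 1 (‖zz n L (0 + 1)‖ / ‖zz n p (0 + 1)‖) := by
          have h2 : 0 ≤ ‖zz n p (0 + 1)‖ * max 1 (‖zz n L (0 + 1)‖ / ‖zz n p (0 + 1)‖) :=
            mul_nonneg h0.le (le_trans zero_le_one (le_max_left _ _))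
          nlinarith
  · rw [Aexp hCHP h, Aexp hCHP hp]
    have hlip : ∀ i, i ≤ k → |(YY n s L i).re - (YY n s p i).re| ≤
        (1 / 10 ^ 7) ^ (k - i) * 12 := by
      intro i hi
      have h1 := hLIP n s k p L hp h i hi
      have h2 : |(YY n s L i - YY n s p i).re| ≤ ‖YY n s L i - YY n s p i‖ := abs_re_le_norm _
      rw [sub_re] at h2
      refine h2.trans (h1.trans ?_)
      exact mul_le_mul_of_nonneg_left hD (by positivity)
    have hk1 : (1 / 10 ^ 7 : ℝ) ^ k ≤ 1 / 10 ^ 7 :=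
      pow_le_of_le_one (by norm_num) (by norm_num) (by omega)
    have hL0 : |L.re - p.re| ≤ 12 / 10 ^ 7 := by
      have h1 := hlip 0 (by omega)
      rw [hL.1.1, hP.1.1, Nat.sub_zero] at h1
      linarith
    have hle1 : ∀ m : ℕ, (1 / 10 ^ 7 : ℝ) ^ m ≤ 1 := fun m =>
      pow_le_one₀ (by norm_num) (by norm_num)
    have hXX : ∀ i, i < k → |(XX n L (i + 1)).re - (XX n p (i + 1)).re| ≤ 24 := by
      intro i hi
      have e1 : (XX n L (i + 1)).re - (XX n p (i + 1)).re =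
          ((YY n s L (i + 1)).re - (YY n s p (i + 1)).re) - (L.re - p.re) := by
        unfold YY
        simp only [sub_re, add_re]
        have : (2 * (Real.pi : ℂ) * I * (s (i + 1) : ℂ)).re = 0 := by
          simp
        rw [this]
        ring
      rw [e1]
      have h1 := hlip (i + 1) (by omega)
      have h2 := hle1 (k - (i + 1))
      have h3 := abs_sub ((YY n s L (i + 1)).re - (YY n s p (i + 1)).re) (L.re - p.re)
      linarith
    have key : LA n s k L - LA n s k p ≤ 1 / 2 := by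
      have e1 : LA n s k L - LA n s k p = (L.re - p.re) +
          ∑ i ∈ Finset.range k, (((YY n s L i).re - (YY n s p i).re) -
            ((XX n L (i + 1)).re - (XX n p (i + 1)).re) / n) := by
        unfold LA
        rw [add_sub_add_comm, ← Finset.sum_sub_distrib]
        congr 1
        apply Finset.sum_congr rfl
        intro i _
        ring
      have h1 : ∀ i ∈ Finset.range k, (((YY n s L i).re - (YY n s p i).re) -
            ((XX n L (i + 1)).re - (XX n p (i + 1)).re) / n) ≤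
            (1 / 10 ^ 7) ^ (k - i) * 12 + 24 / n := by
        intro i hi
        have hi' : i < k := Finset.mem_range.1 hi
        have h2 := (abs_le.1 (hlip i hi'.le)).2
        have h3 := (abs_le.1 (hXX i hi')).1
        have h4 : -(24 / (n : ℝ)) ≤ ((XX n L (i + 1)).re - (XX n p (i + 1)).re) / n := by
          rw [← neg_div]
          exact div_le_div_of_nonneg_right h3 hn0.le
        linarith
      have h2 := Finset.sum_le_sum h1
      rw [Finset.sum_add_distrib, ← Finset.sum_mul, Finset.sum_const, Finset.card_range,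
        nsmul_eq_mul] at h2
      have h3 := geo k
      have h4 := k_le hCHP hLN h
      have h5 : (k : ℝ) * (24 / n) ≤ 24 / 10 ^ 16 := by
        rw [mul_div_assoc', div_le_iff₀ hn0]
        linarith
      have h6 := (abs_le.1 hL0).2
      rw [e1]
      linarith
    have h1 : Real.exp (LA n s k L) ≤ 2 * Real.exp (LA n s k p) := by
      have e : LA n s k L = (LA n s k L - LA n s k p) + LA n s k p := by ring
      rw [e, Real.exp_add]
      apply mul_le_mul_of_nonneg_right _ (Real.exp_pos _).le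
      exact (Real.exp_le_exp.2 key).trans exp_half
    have h2 : 0 ≤ 2 * Real.exp (LA n s k p) := by positivity
    calc Real.exp (LA n s k L) ≤ 2 * Real.exp (LA n s k p) := h1
      _ = 2 * Real.exp (LA n s k p) * 1 := by ring
      _ ≤ _ := mul_le_mul_of_nonneg_left (le_max_left _ _) h2


lemma exp_inj {a b : ℂ} (h : exp a = exp b) (hab : |a.im - b.im| < 2 * Real.pi) : a = b := by
  obtain ⟨m, hm⟩ := exp_eq_exp_iff_exists_int.1 h
  have h1 : a.im - b.im = m * (2 * Real.pi) := by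
    rw [hm]
    simp
  rw [h1, abs_mul, abs_of_pos Real.two_pi_pos] at hab
  have h2 : |(m : ℝ)| < 1 := by
    by_contra h3
    push Not at h3
    have := Real.two_pi_pos
    nlinarith
  have h3 : m = 0 := by
    have h4 : |m| < 1 := by exact_mod_cast h2
    exact Int.abs_lt_one_iff.1 h4
  rw [hm, h3]
  simp

lemma nsq (ρ t : ℝ) : ‖1 + (ρ : ℂ) * exp (t * I)‖ ^ 2 = 1 + 2 * ρ * Real.cos t + ρ ^ 2 := by
  rw [Complex.sq_norm, normSq_apply]
  have h1 : (1 + (ρ : ℂ) * exp (t * I)).re = 1 + ρ * Real.cos t := by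
    rw [add_re, one_re, re_ofReal_mul, exp_ofReal_mul_I_re]
  have h2 : (1 + (ρ : ℂ) * exp (t * I)).im = ρ * Real.sin t := by
    rw [add_im, one_im, im_ofReal_mul, exp_ofReal_mul_I_im, zero_add]
  rw [h1, h2]
  have h3 := Real.sin_sq_add_cos_sq t
  linear_combination ρ ^ 2 * h3

lemma exp_div (n : ℕ) (y : ℂ) :
    exp y / n = ((Real.exp y.re / n : ℝ) : ℂ) * exp (y.im * I) := by
  conv_lhs => rw [← re_add_im y, exp_add]
  push_cast
  ring

lemma Age (hCHP : T_CHP) (hLN : T_LN) {n : ℕ} {s : ℕ → ℤ} {k : ℕ} {L : ℂ} (h : Ch n s k L) :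
    1 ≤ ‖exp L * DD n L k‖ := by
  have hn0 : (0 : ℝ) < n := lt_of_lt_of_le (by norm_num) h.hn
  rw [Aexp hCHP h]
  obtain ⟨c1, -, c3, -, -, -, c7, c8, -⟩ := hCHP n s k L h
  rw [← Real.exp_zero]
  apply Real.exp_le_exp.2
  unfold LA
  have h0 : 0 ≤ L.re := by
    rw [← c1.1]
    linarith [h.hr 0 (Nat.zero_le _), c8 0 (Nat.zero_le _)]
  apply add_nonneg h0
  apply Finset.sum_nonneg
  intro i hi
  have hi' : i < k := Finset.mem_range.1 hi
  have h1 := c7 (i + 1) (by omega) (by omega)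
  have h2 := h.hle (i + 1) (by omega)
  have h3 := h.hr i hi'.le
  have h4 := c8 i hi'.le
  obtain ⟨l1, l2, -, l4⟩ := hLN n h.hn
  have h5 : 1 ≤ Real.log (4 * n) := by
    have : 0 ≤ Real.log 4 := Real.log_nonneg (by norm_num)
    linarith
  have h6 : Real.log (4 * n) ≤ n := by
    have : Real.log (4 * n) ≤ n / 10 ^ 16 := by nlinarith
    linarith
  have h7 : (XX n L (i + 1)).re / n ≤ 1 := by
    rw [div_le_one hn0]
    linarith [h1.2.1]
  linarith

lemma cont_of_lip {S : Set ℂ} {Φ : ℂ → ℂ} {c : ℝ} (hc : c ≤ 1)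
    (h : ∀ y ∈ S, ∀ y' ∈ S, ‖Φ y - Φ y'‖ ≤ c * ‖y - y'‖) : ContinuousOn Φ S := by
  intro y hy
  rw [Metric.continuousWithinAt_iff]
  intro ε hε
  refine ⟨ε, hε, ?_⟩
  intro y' hy' hd
  rw [dist_eq_norm] at hd ⊢
  have h1 := h y' hy' y hy
  have h2 : c * ‖y' - y‖ ≤ 1 * ‖y' - y‖ := mul_le_mul_of_nonneg_right hc (norm_nonneg _)
  linarith

/-- From a connected set in the chart domain to the conclusion. -/
lemma concl (hCHP : T_CHP) (hSTAY : T_STAY) {n : ℕ} {s : ℕ → ℤ} {k : ℕ} {p : ℂ}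
    (hp : Ch n s k p) (hpM : p ∈ Mp n) {Φ : ℂ → ℂ}
    (f1 : ∀ y : ℂ, rr s k ≤ y.re → y.re ≤ Real.log (4 * n) → |y.im| ≤ 10 →
      Ch n s k (Φ y) ∧ YY n s (Φ y) k = y)
    (f2 : ∀ L : ℂ, Ch n s k L → Φ (YY n s L k) = L)
    (f3 : ∀ y y' : ℂ, rr s k ≤ y.re → y.re ≤ Real.log (4 * n) → |y.im| ≤ 10 →
      rr s k ≤ y'.re → y'.re ≤ Real.log (4 * n) → |y'.im| ≤ 10 →
      ‖Φ y - Φ y'‖ ≤ (1 / 10 ^ 8) ^ k * ‖y - y'‖)
    {S : Set ℂ} (hS : IsPreconnected S)
    (hR : ∀ y ∈ S, rr s k ≤ y.re ∧ y.re ≤ Real.log (4 * n) ∧ |y.im| ≤ 10)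
    (hY : YY n s p k ∈ S) (hE : ∃ y ∈ S, y.im = Real.pi ∧ y.re ≤ Real.log n - 1)
    (hM : ∀ y ∈ S, Φ y ∈ Mq n) (h5 : ∀ y ∈ S, |y.re - (YY n s p k).re| ≤ 5) :
    ∃ J : Set ℂ, IsPreconnected J ∧ J ⊆ Mp n ∧ p ∈ J ∧ (∃ S ∈ J, Sp n s k S) ∧
      ∀ L ∈ J, Ch n s k L ∧ |(YY n s L k).re - (YY n s p k).re| ≤ 5 := by
  have hcont : ContinuousOn Φ S := by
    apply cont_of_lip (c := (1 / 10 ^ 8) ^ k) (pow_le_one₀ (by norm_num) (by norm_num))
    intro y hy y' hy'
    obtain ⟨a1, a2, a3⟩ := hR y hy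
    obtain ⟨b1, b2, b3⟩ := hR y' hy'
    exact f3 y y' a1 a2 a3 b1 b2 b3
  have hJ : IsPreconnected (Φ '' S) := hS.image Φ hcont
  have hpJ : p ∈ Φ '' S := ⟨_, hY, f2 p hp⟩
  have hCh : ∀ L ∈ Φ '' S, Ch n s k L ∧ |(YY n s L k).re - (YY n s p k).re| ≤ 5 := by
    rintro L ⟨y, hy, rfl⟩
    obtain ⟨a1, a2, a3⟩ := hR y hy
    obtain ⟨b1, b2⟩ := f1 y a1 a2 a3
    refine ⟨b1, ?_⟩
    rw [b2]
    exact h5 y hy
  refine ⟨Φ '' S, hJ, ?_, hpJ, ?_, hCh⟩
  · apply hSTAY n (Φ '' S) p hp.hn hJ _ _ hpJ hpM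
    · rintro L ⟨y, hy, rfl⟩
      exact hM y hy
    · intro L hL
      obtain ⟨c1, -⟩ := hCh L hL
      have h1 := hCHP n s k L c1
      have h2 := c1.hr 0 (Nat.zero_le _)
      have h3 := h1.2.2.2.2.2.2.2.1 0 (Nat.zero_le _)
      rw [h1.1.1] at h2
      linarith
  · obtain ⟨y, hy, y1, y2⟩ := hE
    obtain ⟨a1, a2, a3⟩ := hR y hy
    obtain ⟨b1, b2⟩ := f1 y a1 a2 a3
    refine ⟨Φ y, ⟨y, hy, rfl⟩, ?_⟩
    unfold Sp
    rw [b2]
    exact ⟨y1, y2⟩

/-- The trap criterion in the chart. -/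
lemma trap (hCHP : T_CHP) {n : ℕ} {s : ℕ → ℤ} {k : ℕ} {L y : ℂ} (h : Ch n s k L)
    (hy : YY n s L k = y) (hne : exp y ≠ -n)
    (hQ : ‖exp L * DD n L k‖ * Real.exp y.re * ‖1 + exp y / n‖ ^ (n - 1) ≤ 1 / 100) :
    L ∈ Mq n := by
  have hn2 := two_le_of h.hn
  obtain ⟨-, c2, c3, -, -, -, -, -, c9⟩ := hCHP n s k L h
  have h1 : exp y = zz n L (k + 1) := by
    rw [← hy]
    exact c2 k le_rfl
  have h2 : ‖zz n L (k + 1)‖ = Real.exp y.re := by
    rw [← hy]
    exact c3 k le_rfl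
  have hlow : Low n (k + 1) L :=
    { hn := c9.hn
      hj := c9.hj
      h1 := le_trans (by norm_num) c9.h1
      hgr := fun i h1 h2 => by
        have h3 := c9.hgr i h1 h2
        have h4 := norm_nonneg (zz n L i)
        linarith
      hre := fun i h1 h2 => by
        have h3 := c9.hre i h1 h2
        linarith }
  apply lim_TRAPM n (k + 1) L hlow
  · rw [← h1]
    exact hne
  · have h3 := Qeq hn2 L k
    rw [show k + 1 + 1 = k + 2 from rfl, h3, h2, ← h1]
    exact hQ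

lemma rho {n : ℕ} (hn : 7 ≤ n) {τ : ℝ} (h0 : 0 ≤ τ) (h1 : τ ≤ 1) :
    (1 + 3 * (1 - τ)) ^ 2 * τ ^ (n - 1) ≤ 1 := by
  have a1 : 1 + 3 * (1 - τ) ≤ Real.exp (3 * (1 - τ)) := by
    have := Real.add_one_le_exp (3 * (1 - τ))
    linarith
  have a2 : τ ≤ Real.exp (-(1 - τ)) := by
    have := Real.add_one_le_exp (-(1 - τ))
    linarith
  have a3 : (1 + 3 * (1 - τ)) ^ 2 ≤ Real.exp (3 * (1 - τ)) ^ 2 :=
    pow_le_pow_left₀ (by linarith) a1 2
  have a4 : τ ^ (n - 1) ≤ Real.exp (-(1 - τ)) ^ (n - 1) := pow_le_pow_left₀ h0 a2 _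
  calc (1 + 3 * (1 - τ)) ^ 2 * τ ^ (n - 1) ≤
      Real.exp (3 * (1 - τ)) ^ 2 * Real.exp (-(1 - τ)) ^ (n - 1) :=
        mul_le_mul a3 a4 (by positivity) (by positivity)
    _ = Real.exp ((7 - n) * (1 - τ)) := by
        rw [← Real.exp_nat_mul, ← Real.exp_nat_mul, ← Real.exp_add]
        congr 1
        rw [Nat.cast_sub (by omega)]
        push_cast
        ring
    _ ≤ 1 := by
        have h2 : (7 : ℝ) ≤ n := by exact_mod_cast hn
        have h3 : Real.exp ((7 - n) * (1 - τ)) ≤ Real.exp 0 :=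
          Real.exp_le_exp.2 (mul_nonpos_of_nonpos_of_nonneg (by linarith) (by linarith))
        rwa [Real.exp_zero] at h3

lemma third_le : (1 / 3 : ℝ) ≤ Real.exp (-1) := by
  rw [Real.exp_neg, ← one_div]
  apply one_div_le_one_div_of_le (Real.exp_pos _)
  have := Real.exp_one_lt_d9
  linarith

lemma pow_small {n : ℕ} (hn : (10 : ℝ) ^ 20 ≤ n) :
    2 * n * (2 * n) * (1 - Real.exp (-1)) ^ (n - 1) ≤ 1 / 100 := by
  have hn0 : (0 : ℝ) < n := lt_of_lt_of_le (by norm_num) hn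
  have hn2 := two_le_of hn
  have h1 := third_le
  have h2 : 1 - Real.exp (-1) ≤ Real.exp (-(1 / 3)) := by
    have := Real.add_one_le_exp (-(1 / 3) : ℝ)
    linarith
  have h3 : 0 ≤ 1 - Real.exp (-1) := by
    have : Real.exp (-1) ≤ Real.exp 0 := Real.exp_le_exp.2 (by norm_num)
    rw [Real.exp_zero] at this
    linarith
  have h4 : (1 - Real.exp (-1)) ^ (n - 1) ≤ Real.exp (-((n - 1) / 3)) := by
    calc (1 - Real.exp (-1)) ^ (n - 1) ≤ Real.exp (-(1 / 3)) ^ (n - 1) := pow_le_pow_left₀ h3 h2 _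
      _ = Real.exp (-((n - 1) / 3)) := by
          rw [← Real.exp_nat_mul, Nat.cast_sub (by omega)]
          congr 1
          push_cast
          ring
  have h5 : ((n : ℝ) / 4) ^ 3 / 6 ≤ Real.exp ((n - 1) / 3) := by
    have a1 := Real.pow_div_factorial_le_exp ((n - 1) / 3 : ℝ) (by linarith) 3
    have a2 : ((3 : ℕ).factorial : ℝ) = 6 := by norm_num [Nat.factorial]
    rw [a2] at a1
    refine le_trans ?_ a1
    apply div_le_div_of_nonneg_right _ (by norm_num)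
    apply pow_le_pow_left₀ (by positivity)
    linarith
  have h6 : 0 < ((n : ℝ) / 4) ^ 3 / 6 := by positivity
  have h7 : Real.exp (-((n - 1) / 3)) ≤ 1 / (((n : ℝ) / 4) ^ 3 / 6) := by
    rw [Real.exp_neg, ← one_div]
    exact one_div_le_one_div_of_le h6 h5
  calc 2 * n * (2 * n) * (1 - Real.exp (-1)) ^ (n - 1) ≤
      2 * n * (2 * n) * (1 / (((n : ℝ) / 4) ^ 3 / 6)) :=
        mul_le_mul_of_nonneg_left (h4.trans h7) (by positivity)
    _ = 1536 / n := by
        field_simp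
        ring
    _ ≤ 1 / 100 := by
        rw [div_le_div_iff₀ hn0 (by norm_num)]
        linarith

/-- The first case. -/
lemma case1 (hCHP : T_CHP) (hCHART : T_CHART) (hSTAY : T_STAY) (hLN : T_LN) (hLIP : T_LIP)
    {n : ℕ} {s : ℕ → ℤ} {k : ℕ} {p : ℂ} (hp : Ch n s k p) (hpM : p ∈ Mp n)
    (hrr : rr s k + 20 ≤ (YY n s p k).re) (him0 : 0 < (YY n s p k).im)
    (him1 : (YY n s p k).im < 2 * Real.pi)
    (hQ : ‖exp p * DD n p k‖ * Real.exp (YY n s p k).re *
      ‖1 + exp (YY n s p k) / n‖ ^ (n - 1) ≤ 1 / 200)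
    (hsm : Real.exp (YY n s p k).re ≤ n / 3) :
    ∃ J : Set ℂ, IsPreconnected J ∧ J ⊆ Mp n ∧ p ∈ J ∧ (∃ S ∈ J, Sp n s k S) ∧
      ∀ L ∈ J, Ch n s k L ∧ |(YY n s L k).re - (YY n s p k).re| ≤ 5 := by
  obtain ⟨Φ, f1, f2, f3, -⟩ := hCHART n s k hp.hn hp.h0
  have hn0 : (0 : ℝ) < n := lt_of_lt_of_le (by norm_num) hp.hn
  have hpi := Real.pi_pos
  have hpi2 := Real.pi_lt_d2
  set Y := YY n s p k with hYdef
  have hmem : ∀ t ∈ uIcc Y.im Real.pi, 0 ≤ t ∧ t ≤ 2 * Real.pi ∧ Real.cos t ≤ Real.cos Y.im := by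
    intro t ht
    rcases le_total Y.im Real.pi with h | h
    · rw [uIcc_of_le h] at ht
      refine ⟨him0.le.trans ht.1, by linarith [ht.2], ?_⟩
      exact Real.cos_le_cos_of_nonneg_of_le_pi him0.le ht.2 ht.1
    · rw [uIcc_of_ge h] at ht
      refine ⟨hpi.le.trans ht.1, by linarith [ht.2], ?_⟩
      rw [← Real.cos_two_pi_sub t, ← Real.cos_two_pi_sub Y.im]
      apply Real.cos_le_cos_of_nonneg_of_le_pi (by linarith) (by linarith [ht.1])
      linarith [ht.2]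
  have hre : ∀ t : ℝ, ((Y.re : ℂ) + t * I).re = Y.re := fun t => by simp
  have himt : ∀ t : ℝ, ((Y.re : ℂ) + t * I).im = t := fun t => by simp
  have hR : ∀ y ∈ (fun t : ℝ => (Y.re : ℂ) + t * I) '' (uIcc Y.im Real.pi),
      rr s k ≤ y.re ∧ y.re ≤ Real.log (4 * n) ∧ |y.im| ≤ 10 := by
    rintro y ⟨t, ht, rfl⟩
    obtain ⟨h1, h2, -⟩ := hmem t ht
    simp only [hre, himt]
    refine ⟨by linarith, hp.hle k le_rfl, ?_⟩
    rw [abs_of_nonneg h1]
    linarith
  have hYS : Y ∈ (fun t : ℝ => (Y.re : ℂ) + t * I) '' (uIcc Y.im Real.pi) :=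
    ⟨Y.im, left_mem_uIcc, re_add_im Y⟩
  refine concl hCHP hSTAY hp hpM f1 f2 f3
    (isPreconnected_uIcc.image (fun t : ℝ => (Y.re : ℂ) + t * I)
      (by fun_prop : Continuous (fun t : ℝ => (Y.re : ℂ) + t * I)).continuousOn) hR hYS ?_ ?_ ?_
  · refine ⟨(Y.re : ℂ) + Real.pi * I, ⟨Real.pi, right_mem_uIcc, rfl⟩, himt _, ?_⟩
    rw [hre]
    have h1 : Y.re ≤ Real.log (n / 3) := by
      rw [Real.le_log_iff_exp_le (by positivity)]
      exact hsm
    rw [Real.log_div hn0.ne' (by norm_num)] at h1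
    have h2 : 1 ≤ Real.log 3 := by
      rw [Real.le_log_iff_exp_le (by norm_num)]
      have := Real.exp_one_lt_d9
      linarith
    linarith
  · rintro y ⟨t, ht, rfl⟩
    obtain ⟨a1, a2, a3⟩ := hR _ ⟨t, ht, rfl⟩
    obtain ⟨h1, h2, h3⟩ := hmem t ht
    obtain ⟨b1, b2⟩ := f1 _ a1 a2 a3
    simp only at b1 b2 a1 a2 a3 ⊢
    have hexpre : Real.exp ((Y.re : ℂ) + t * I).re = Real.exp Y.re := by rw [hre]
    refine trap hCHP b1 b2 ?_ ?_
    · intro h0
      have h4 : ‖exp ((Y.re : ℂ) + t * I)‖ = n := by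
        rw [h0, norm_neg, norm_natCast]
      rw [norm_exp, hre] at h4
      linarith
    · have hD : ‖YY n s (Φ ((Y.re : ℂ) + t * I)) k - YY n s p k‖ ≤ 12 := by
        rw [b2, ← hYdef]
        have e : (Y.re : ℂ) + t * I - Y = ((t - Y.im : ℝ) : ℂ) * I := by
          conv_lhs => rw [← re_add_im Y]
          simp only [add_re, ofReal_re, mul_re, I_re, mul_zero, ofReal_im, I_im, mul_one,
            sub_self, add_zero]
          push_cast
          ring
        rw [e, norm_mul, norm_I, mul_one, Complex.norm_real, Real.norm_eq_abs, abs_le]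
        constructor <;> linarith
      have hA := Arel hCHP hLN hLIP b1 hp hD
      have n1 : ‖zz n (Φ ((Y.re : ℂ) + t * I)) (k + 1)‖ = Real.exp Y.re := by
        rw [(hCHP n s k _ b1).2.2.1 k le_rfl, b2, hre]
      have n2 : ‖zz n p (k + 1)‖ = Real.exp Y.re := (hCHP n s k p hp).2.2.1 k le_rfl
      rw [n1, n2, div_self (Real.exp_pos _).ne', max_self, mul_one] at hA
      have hw : ‖1 + exp ((Y.re : ℂ) + t * I) / n‖ ≤ ‖1 + exp Y / n‖ := by
        rw [← pow_le_pow_iff_left₀ (norm_nonneg _) (norm_nonneg _) two_ne_zero,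
          exp_div, exp_div n Y, hre, himt, nsq, nsq]
        have : 0 ≤ Real.exp Y.re / n := by positivity
        nlinarith
      rw [hexpre]
      calc ‖exp (Φ ((Y.re : ℂ) + t * I)) * DD n (Φ ((Y.re : ℂ) + t * I)) k‖ * Real.exp Y.re *
            ‖1 + exp ((Y.re : ℂ) + t * I) / n‖ ^ (n - 1) ≤
          (2 * ‖exp p * DD n p k‖) * Real.exp Y.re * ‖1 + exp Y / n‖ ^ (n - 1) := by
            gcongr
        _ = 2 * (‖exp p * DD n p k‖ * Real.exp Y.re * ‖1 + exp Y / n‖ ^ (n - 1)) := by ring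
        _ ≤ 1 / 100 := by linarith
  · rintro y ⟨t, ht, rfl⟩
    simp only [hre]
    rw [← hYdef]
    simp

/-- The coordinate of the second case: `w = 1 + z / n`. -/
noncomputable def yw (n : ℕ) (w : ℂ) : ℂ := (Real.log n : ℝ) + Real.pi * I + log (1 - w)

lemma yw_facts {n : ℕ} (hn : 2 ≤ n) {w : ℂ} (hw : ‖w‖ < 1) :
    0 < (1 - w).re ∧ 0 < ‖1 - w‖ ∧ (yw n w).re = Real.log n + Real.log ‖1 - w‖ ∧
    (yw n w).im = Real.pi + (1 - w).arg ∧ |(1 - w).arg| < Real.pi / 2 ∧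
    exp (yw n w) = -(n * (1 - w)) ∧ Real.exp (yw n w).re = n * ‖1 - w‖ ∧
    1 + exp (yw n w) / n = w := by
  have h1 : 0 < (1 - w).re := by
    rw [sub_re, one_re]
    linarith [re_le_norm w]
  have h2 : 1 - w ≠ 0 := by
    intro h
    rw [h] at h1
    exact lt_irrefl _ h1
  have h3 : 0 < ‖1 - w‖ := norm_pos_iff.2 h2
  have hnC : (n : ℂ) ≠ 0 := natCast_ne hn
  have h4 : exp (yw n w) = -(n * (1 - w)) := by
    unfold yw
    rw [exp_add, exp_add, exp_log_nat hn, exp_pi_mul_I, exp_log h2]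
    ring
  have h5 : Real.exp (yw n w).re = n * ‖1 - w‖ := by
    rw [← norm_exp, h4, norm_neg, norm_mul, norm_natCast]
  refine ⟨h1, h3, ?_, ?_, ?_, h4, h5, ?_⟩
  · unfold yw
    rw [add_re, add_re, ofReal_re, re_ofReal_mul, I_re, log_re]
    ring
  · unfold yw
    rw [add_im, add_im, ofReal_im, im_ofReal_mul, I_im, log_im]
    ring
  · rw [abs_arg_lt_pi_div_two_iff]
    exact Or.inl h1
  · rw [h4]
    field_simp
    ring

lemma log24 : Real.log 2 + Real.log 12 ≤ 4 := by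
  rw [← Real.log_mul (by norm_num) (by norm_num), Real.log_le_iff_le_exp (by norm_num)]
  have h1 := Real.exp_one_gt_d9
  have h2 : Real.exp 4 = Real.exp 1 ^ 4 := by
    rw [← Real.exp_nat_mul]
    norm_num
  rw [h2]
  have h3 : (2.7 : ℝ) ^ 4 ≤ Real.exp 1 ^ 4 := pow_le_pow_left₀ (by norm_num) (by linarith) 4
  norm_num at h3 ⊢
  linarith

/-- The second case. -/
lemma case2 (hCHP : T_CHP) (hCHART : T_CHART) (hSTAY : T_STAY) (hLN : T_LN) (hLIP : T_LIP)
    {n : ℕ} {s : ℕ → ℤ} {k : ℕ} {p : ℂ} (hp : Ch n s k p) (hpM : p ∈ Mp n)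
    (hrr : rr s k + 20 ≤ (YY n s p k).re) (him0 : 0 < (YY n s p k).im)
    (him1 : (YY n s p k).im < 2 * Real.pi) {wp : ℂ}
    (hwpdef : 1 + exp (YY n s p k) / n = wp)
    (hQ : ‖exp p * DD n p k‖ * Real.exp (YY n s p k).re * ‖wp‖ ^ (n - 1) ≤ 1 / 200)
    (hbig : (n : ℝ) / 3 < Real.exp (YY n s p k).re) (hw1 : ‖wp‖ < 1)
    {W : Set ℂ} (hW : IsPreconnected W) (hwp : wp ∈ W)
    (hend : ((1 - Real.exp (-1) : ℝ) : ℂ) ∈ W)
    (hG : ∀ w ∈ W, w = wp ∨ (w ≠ 0 ∧ (‖w‖ ≤ 1 - Real.exp (-1) ∨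
      ∃ τ : ℝ, 1 / 4 ≤ τ ∧ τ ≤ 1 ∧ w = τ * wp))) :
    ∃ J : Set ℂ, IsPreconnected J ∧ J ⊆ Mp n ∧ p ∈ J ∧ (∃ S ∈ J, Sp n s k S) ∧
      ∀ L ∈ J, Ch n s k L ∧ |(YY n s L k).re - (YY n s p k).re| ≤ 5 := by
  obtain ⟨Φ, f1, f2, f3, -⟩ := hCHART n s k hp.hn hp.h0
  have hn0 : (0 : ℝ) < n := lt_of_lt_of_le (by norm_num) hp.hn
  have hn2 := two_le_of hp.hn
  have hnC : (n : ℂ) ≠ 0 := natCast_ne hn2
  have hpi := Real.pi_pos
  have hpi2 := Real.pi_lt_d2
  have he3 := third_le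
  have hl24 := log24
  set Y := YY n s p k with hYdef
  obtain ⟨g1, g2, g3, g4, g5, g6, g7, g8⟩ := yw_facts hn2 hw1
  have hexpY : exp (yw n wp) = exp Y := by
    rw [g6, ← hwpdef]
    field_simp
    ring
  have hYw : yw n wp = Y := by
    apply exp_inj hexpY
    rw [g4, abs_lt]
    have h1 := (abs_lt.1 g5).1
    have h2 := (abs_lt.1 g5).2
    constructor <;> linarith
  have hYre : Real.exp Y.re = n * ‖1 - wp‖ := by rw [← hYw, g7]
  have hwp3 : 1 / 3 < ‖1 - wp‖ := by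
    rw [hYre] at hbig
    have h1 : (n : ℝ) * (1 / 3) < n * ‖1 - wp‖ := by linarith
    exact lt_of_mul_lt_mul_left h1 hn0.le
  have htwo : ∀ w : ℂ, ‖w‖ < 1 → ‖1 - w‖ ≤ 2 := by
    intro w hw
    have := norm_sub_le (1 : ℂ) w
    rw [norm_one] at this
    linarith
  have htau : ∀ τ : ℝ, 1 / 4 ≤ τ → τ ≤ 1 → ‖(τ : ℂ) * wp‖ < 1 ∧ 1 / 12 ≤ ‖1 - (τ : ℂ) * wp‖ := by
    intro τ h1 h2
    constructor
    · rw [norm_mul, Complex.norm_real, Real.norm_of_nonneg (by linarith)]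
      have := norm_nonneg wp
      nlinarith
    · have e : 1 - (τ : ℂ) * wp = ((1 - τ : ℝ) : ℂ) + (τ : ℂ) * (1 - wp) := by
        push_cast
        ring
      have h3 : τ * ‖1 - wp‖ ≤ ‖1 - (τ : ℂ) * wp‖ := by
        have h0 : 0 ≤ τ * ‖1 - wp‖ := mul_nonneg (by linarith) (norm_nonneg _)
        rw [← pow_le_pow_iff_left₀ h0 (norm_nonneg _) two_ne_zero]
        rw [e, mul_pow, Complex.sq_norm, Complex.sq_norm, normSq_apply, normSq_apply, add_re,
          add_im, ofReal_re, ofReal_im, re_ofReal_mul, im_ofReal_mul]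
        have h4 : 0 ≤ (1 - τ) * τ * (1 - wp).re :=
          mul_nonneg (mul_nonneg (by linarith) (by linarith)) g1.le
        nlinarith [sq_nonneg (1 - τ)]
      have h5 : 1 / 4 * (1 / 3) ≤ τ * ‖1 - wp‖ :=
        mul_le_mul h1 hwp3.le (by norm_num) (by linarith)
      linarith
  have hall : ∀ w ∈ W, ‖w‖ < 1 ∧ 1 / 12 ≤ ‖1 - w‖ := by
    intro w hw
    rcases hG w hw with h | ⟨-, h | ⟨τ, h1, h2, h⟩⟩
    · rw [h]
      exact ⟨hw1, by linarith⟩
    · refine ⟨by linarith, ?_⟩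
      have := norm_sub_norm_le (1 : ℂ) w
      rw [norm_one] at this
      linarith
    · rw [h]
      exact htau τ h1 h2
  have hlog : ∀ w ∈ W, -Real.log 12 ≤ Real.log ‖1 - w‖ ∧ Real.log ‖1 - w‖ ≤ Real.log 2 := by
    intro w hw
    obtain ⟨h1, h2⟩ := hall w hw
    constructor
    · rw [← Real.log_inv, ← one_div]
      exact Real.log_le_log (by norm_num) h2
    · exact Real.log_le_log (by linarith) (htwo w h1)
  have hYre2 : Y.re = Real.log n + Real.log ‖1 - wp‖ := by rw [← hYw, g3]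
  have hR0 : ∀ w ∈ W, rr s k ≤ (yw n w).re ∧ (yw n w).re ≤ Real.log (4 * n) ∧
      |(yw n w).im| ≤ 10 := by
    intro w hw
    obtain ⟨h1, h2⟩ := hall w hw
    obtain ⟨-, -, b3, b4, b5, -, -, -⟩ := yw_facts hn2 h1
    obtain ⟨c1, c2⟩ := hlog w hw
    obtain ⟨d1, d2⟩ := hlog wp hwp
    rw [b3, b4]
    refine ⟨by linarith, ?_, ?_⟩
    · rw [(hLN n hp.hn).2.1]
      have : Real.log 2 ≤ Real.log 4 := Real.log_le_log (by norm_num) (by norm_num)
      linarith
    · rw [abs_le]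
      have h1 := (abs_lt.1 b5).1
      have h2 := (abs_lt.1 b5).2
      constructor <;> linarith
  refine concl hCHP hSTAY hp hpM f1 f2 f3 (S := yw n '' W) (hW.image _ ?_) ?_ ⟨wp, hwp, hYw⟩ ?_
    ?_ ?_
  · unfold yw
    apply continuousOn_const.add
    apply ContinuousOn.clog (continuousOn_const.sub continuousOn_id)
    intro w hw
    obtain ⟨b1, -⟩ := yw_facts hn2 (hall w hw).1
    exact Or.inl b1
  · rintro y ⟨w, hw, rfl⟩
    exact hR0 w hw
  · refine ⟨_, ⟨_, hend, rfl⟩, ?_⟩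
    obtain ⟨h1, -⟩ := hall _ hend
    obtain ⟨-, -, b3, b4, -⟩ := yw_facts hn2 h1
    have e : (1 : ℂ) - ((1 - Real.exp (-1) : ℝ) : ℂ) = ((Real.exp (-1) : ℝ) : ℂ) := by
      push_cast
      ring
    rw [b3, b4, e, arg_ofReal_of_nonneg (Real.exp_pos _).le, Complex.norm_real,
      Real.norm_of_nonneg (Real.exp_pos _).le, Real.log_exp]
    constructor <;> linarith
  · rintro y ⟨w, hw, rfl⟩
    obtain ⟨a1, a2, a3⟩ := hR0 w hw
    obtain ⟨b1, b2⟩ := f1 _ a1 a2 a3
    obtain ⟨w1, w2⟩ := hall w hw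
    obtain ⟨-, e2, e3, e4, e5, e6, e7, e8⟩ := yw_facts hn2 w1
    rcases hG w hw with h | ⟨hne, h⟩
    · rw [h, hYw, f2 p hp]
      exact hpM.1
    · refine trap hCHP b1 b2 ?_ ?_
      · intro h0
        apply hne
        rw [← e8, h0]
        field_simp
        ring
      · rw [e8]
        rcases h with h | ⟨τ, t1, t2, h⟩
        · have hA := Ale hCHP b1
          rw [(hCHP n s k _ b1).2.2.1 k le_rfl, b2] at hA
          have h1 : Real.exp (yw n w).re ≤ 2 * n := by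
            rw [e7]
            have := htwo w w1
            nlinarith
          have h2 : ‖w‖ ^ (n - 1) ≤ (1 - Real.exp (-1)) ^ (n - 1) :=
            pow_le_pow_left₀ (norm_nonneg _) h _
          calc ‖exp (Φ (yw n w)) * DD n (Φ (yw n w)) k‖ * Real.exp (yw n w).re * ‖w‖ ^ (n - 1) ≤
              (2 * n) * (2 * n) * (1 - Real.exp (-1)) ^ (n - 1) := by
                gcongr
                exact hA.trans h1
            _ ≤ 1 / 100 := pow_small hp.hn
        · obtain ⟨c1, c2⟩ := hlog w hw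
          obtain ⟨d1, d2⟩ := hlog wp hwp
          have hD : ‖YY n s (Φ (yw n w)) k - YY n s p k‖ ≤ 12 := by
            rw [b2, ← hYdef, ← hYw]
            have h1 := norm_le_abs_re_add_abs_im (yw n w - yw n wp)
            rw [sub_re, sub_im, e3, e4, g3, g4] at h1
            have h2 : |Real.log n + Real.log ‖1 - w‖ - (Real.log n + Real.log ‖1 - wp‖)| ≤ 4 := by
              rw [abs_le]
              constructor <;> linarith
            have h3 : |Real.pi + (1 - w).arg - (Real.pi + (1 - wp).arg)| ≤ 4 := by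
              have q1 := abs_lt.1 e5
              have q2 := abs_lt.1 g5
              rw [abs_le]
              constructor <;> linarith [q1.1, q1.2, q2.1, q2.2]
            linarith
          have hA := Arel hCHP hLN hLIP b1 hp hD
          rw [(hCHP n s k _ b1).2.2.1 k le_rfl, b2, (hCHP n s k p hp).2.2.1 k le_rfl, ← hYdef,
            e7, hYre] at hA
          set ρ := 1 + 3 * (1 - τ) with hρ
          have hρ1 : 1 ≤ ρ := by linarith
          have h1 : ‖1 - w‖ ≤ ρ * ‖1 - wp‖ := by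
            have q1 : 1 - w = (1 - wp) + ((1 - τ : ℝ) : ℂ) * wp := by
              rw [h]
              push_cast
              ring
            have q2 : ‖1 - w‖ ≤ ‖1 - wp‖ + (1 - τ) * ‖wp‖ := by
              rw [q1]
              refine (norm_add_le _ _).trans ?_
              rw [norm_mul, Complex.norm_real, Real.norm_of_nonneg (by linarith)]
            have q3 : (1 - τ) * ‖wp‖ ≤ (1 - τ) * 1 :=
              mul_le_mul_of_nonneg_left hw1.le (by linarith)
            have q4 : (1 - τ) * 1 ≤ (1 - τ) * (3 * ‖1 - wp‖) :=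
              mul_le_mul_of_nonneg_left (by linarith) (by linarith)
            rw [hρ]
            linarith
          have h2 : max 1 (n * ‖1 - w‖ / (n * ‖1 - wp‖)) ≤ ρ := by
            apply max_le hρ1
            rw [div_le_iff₀ (by positivity)]
            nlinarith
          have h3 : ‖w‖ ^ (n - 1) = τ ^ (n - 1) * ‖wp‖ ^ (n - 1) := by
            rw [h, norm_mul, Complex.norm_real, Real.norm_of_nonneg (by linarith), mul_pow]
          have h4 : ‖exp (Φ (yw n w)) * DD n (Φ (yw n w)) k‖ ≤ 2 * ‖exp p * DD n p k‖ * ρ :=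
            hA.trans (mul_le_mul_of_nonneg_left h2 (by positivity))
          have h5 : Real.exp (yw n w).re ≤ ρ * Real.exp Y.re := by
            rw [e7, hYre]
            nlinarith
          have h6 := rho (n := n) (by
            have : (7 : ℝ) ≤ n := le_trans (by norm_num) hp.hn
            exact_mod_cast this) (by linarith : (0 : ℝ) ≤ τ) t2
          have ht0 : 0 ≤ τ := by linarith
          calc ‖exp (Φ (yw n w)) * DD n (Φ (yw n w)) k‖ * Real.exp (yw n w).re * ‖w‖ ^ (n - 1) ≤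
              (2 * ‖exp p * DD n p k‖ * ρ) * (ρ * Real.exp Y.re) *
                (τ ^ (n - 1) * ‖wp‖ ^ (n - 1)) := by
                rw [h3]
                gcongr
            _ = 2 * (‖exp p * DD n p k‖ * Real.exp Y.re * ‖wp‖ ^ (n - 1)) *
                (ρ ^ 2 * τ ^ (n - 1)) := by ring
            _ ≤ 2 * (‖exp p * DD n p k‖ * Real.exp Y.re * ‖wp‖ ^ (n - 1)) * 1 :=
                mul_le_mul_of_nonneg_left h6 (by positivity)
            _ ≤ 1 / 100 := by linarith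
  · rintro y ⟨w, hw, rfl⟩
    obtain ⟨w1, w2⟩ := hall w hw
    obtain ⟨-, e2, e3, -⟩ := yw_facts hn2 w1
    obtain ⟨c1, c2⟩ := hlog w hw
    obtain ⟨d1, d2⟩ := hlog wp hwp
    rw [← hYdef, hYre2, e3, abs_le]
    constructor <;> linarith

end LEG_

open LEG_

theorem p_LEG (hCHP : T_CHP) (hCHART : T_CHART) (hSTAY : T_STAY) (hLN : T_LN) (hLIP : T_LIP) :
    T_LEG := by
  intro n s k p hp hpM hrr him0 him1 hQ
  have hn0 : (0 : ℝ) < n := lt_of_lt_of_le (by norm_num) hp.hn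
  have hn2 := two_le_of hp.hn
  have he3 := third_le
  have c2 := (hCHP n s k p hp).2.1 k le_rfl
  have c3 := (hCHP n s k p hp).2.2.1 k le_rfl
  rw [Qeq hn2, c3, ← c2] at hQ
  rcases le_or_gt (Real.exp (YY n s p k).re) (n / 3) with hsm | hbig
  · exact case1 hCHP hCHART hSTAY hLN hLIP hp hpM hrr him0 him1 hQ hsm
  · obtain ⟨wp, hwp⟩ : ∃ wp, 1 + exp (YY n s p k) / n = wp := ⟨_, rfl⟩
    rw [hwp] at hQ
    have hw1 : ‖wp‖ < 1 := by
      by_contra h
      push Not at h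
      have h1 : 1 ≤ ‖wp‖ ^ (n - 1) := one_le_pow₀ h
      have h2 := Age hCHP hLN hp
      have h3 : 1 ≤ Real.exp (YY n s p k).re := by
        have : (10 : ℝ) ^ 20 ≤ n := hp.hn
        have h4 : (1 : ℝ) ≤ n / 3 := by
          rw [le_div_iff₀ (by norm_num)]
          linarith
        linarith
      have h4 : 1 * 1 * 1 ≤ ‖exp p * DD n p k‖ * Real.exp (YY n s p k).re * ‖wp‖ ^ (n - 1) := by
        gcongr
      linarith
    have he2 : Real.exp (-1) ≤ 1 / 2 := by
      rw [Real.exp_neg, ← one_div]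
      apply one_div_le_one_div_of_le (by norm_num)
      have := Real.exp_one_gt_d9
      linarith
    rcases eq_or_ne wp 0 with h0 | h0
    · refine case2 hCHP hCHART hSTAY hLN hLIP hp hpM hrr him0 him1 hwp hQ hbig hw1
        (W := (fun r : ℝ => (r : ℂ)) '' Icc 0 (1 - Real.exp (-1)))
        (isPreconnected_Icc.image _ continuous_ofReal.continuousOn) ?_ ?_ ?_
      · rw [h0]
        exact ⟨0, ⟨le_refl _, by linarith⟩, ofReal_zero⟩
      · exact ⟨_, ⟨by linarith, le_refl _⟩, rfl⟩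
      · rintro w ⟨r, hr, rfl⟩
        rcases hr.1.lt_or_eq with h1 | h1
        · right
          refine ⟨show (r : ℂ) ≠ 0 by exact_mod_cast h1.ne', Or.inl ?_⟩
          simp only [Complex.norm_real]
          rw [Real.norm_of_nonneg hr.1]
          exact hr.2
        · left
          rw [← h1, h0]
          exact ofReal_zero
    · have hσ : 0 < ‖wp‖ := norm_pos_iff.2 h0
      have p1 : IsPreconnected ((fun τ : ℝ => (τ : ℂ) * wp) '' Icc (1 / 4) 1) :=
        isPreconnected_Icc.image _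
          (by fun_prop : Continuous (fun τ : ℝ => (τ : ℂ) * wp)).continuousOn
      have p2 : IsPreconnected ((fun θ : ℝ => ((‖wp‖ / 4 : ℝ) : ℂ) * exp (θ * (arg wp) * I)) ''
          Icc 0 1) :=
        isPreconnected_Icc.image _
          (by fun_prop : Continuous (fun θ : ℝ => ((‖wp‖ / 4 : ℝ) : ℂ) *
            exp (θ * (arg wp) * I))).continuousOn
      have p3 : IsPreconnected ((fun r : ℝ => (r : ℂ)) '' Icc (‖wp‖ / 4) (1 - Real.exp (-1))) :=
        isPreconnected_Icc.image _ continuous_ofReal.continuousOn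
      have m1 : ((1 / 4 : ℝ) : ℂ) * wp ∈ (fun τ : ℝ => (τ : ℂ) * wp) '' Icc (1 / 4) 1 :=
        ⟨1 / 4, ⟨le_refl _, by norm_num⟩, rfl⟩
      have m2 : ((1 / 4 : ℝ) : ℂ) * wp ∈
          (fun θ : ℝ => ((‖wp‖ / 4 : ℝ) : ℂ) * exp (θ * (arg wp) * I)) '' Icc 0 1 := by
        refine ⟨1, ⟨by norm_num, le_refl _⟩, ?_⟩
        have h1 := norm_mul_exp_arg_mul_I wp
        conv_rhs => rw [← h1]
        simp only [ofReal_one, one_mul]
        push_cast
        ring
      have m3 : ((‖wp‖ / 4 : ℝ) : ℂ) ∈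
          (fun θ : ℝ => ((‖wp‖ / 4 : ℝ) : ℂ) * exp (θ * (arg wp) * I)) '' Icc 0 1 :=
        ⟨0, ⟨le_refl _, by norm_num⟩, by simp⟩
      have m4 : ((‖wp‖ / 4 : ℝ) : ℂ) ∈
          (fun r : ℝ => (r : ℂ)) '' Icc (‖wp‖ / 4) (1 - Real.exp (-1)) :=
        ⟨‖wp‖ / 4, ⟨le_refl _, by linarith⟩, rfl⟩
      have p12 := IsPreconnected.union _ m1 m2 p1 p2
      have p123 := IsPreconnected.union _ (mem_union_right _ m3) m4 p12 p3
      refine case2 hCHP hCHART hSTAY hLN hLIP hp hpM hrr him0 him1 hwp hQ hbig hw1 p123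
        (Or.inl (Or.inl ⟨1, ⟨by norm_num, le_refl _⟩, by simp⟩))
        (Or.inr ⟨_, ⟨by linarith, le_refl _⟩, rfl⟩) ?_
      rintro w ((⟨τ, hτ, rfl⟩ | ⟨θ, hθ, rfl⟩) | ⟨r, hr, rfl⟩)
      · right
        refine ⟨mul_ne_zero (by exact_mod_cast (by linarith [hτ.1] : (0 : ℝ) < τ).ne') h0,
          Or.inr ⟨τ, hτ.1, hτ.2, rfl⟩⟩
      · right
        refine ⟨mul_ne_zero (by exact_mod_cast (by positivity : (0 : ℝ) < ‖wp‖ / 4).ne')
          (exp_ne_zero _), Or.inl ?_⟩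
        simp only [norm_mul, Complex.norm_real]
        have e : ((θ : ℂ) * (arg wp) * I) = ((θ * arg wp : ℝ) : ℂ) * I := by push_cast; ring
        rw [e, norm_exp_ofReal_mul_I, mul_one, Real.norm_of_nonneg (by positivity)]
        linarith
      · right
        have h1 : 0 < r := by linarith [hr.1]
        refine ⟨show (r : ℂ) ≠ 0 by exact_mod_cast h1.ne', Or.inl ?_⟩
        simp only [Complex.norm_real]
        rw [Real.norm_of_nonneg h1.le]
        exact hr.2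

end Pool.Agent.Modu
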