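import Pool.Agent.Modu.Basic

/-!
# MODU: LIP, Lipschitz estimates between levels
-/

set_option autoImplicit false

open Complex Filter Topology Set
open Pool.Agent.Multibrot Pool.Agent.Limb

namespace Pool.Agent.Modu

namespace LIP_

lemma log_sq (n : ℕ) (hn : (10 : ℝ) ^ 20 ≤ n) :
    (Real.log (4 * n)) ^ 2 ≤ n / (3 * 10 ^ 8) := by
  have hn0 : (0 : ℝ) < n := lt_of_lt_of_le (by norm_num) hn
  set r : ℝ := Real.sqrt (Real.sqrt (4 * n)) with hr
  have h4 : (0 : ℝ) < 4 * n := by positivity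
  have hs0 : 0 < Real.sqrt (4 * n) := Real.sqrt_pos.2 h4
  have hr0 : 0 < r := Real.sqrt_pos.2 hs0
  have hr2 : r ^ 2 = Real.sqrt (4 * n) := Real.sq_sqrt hs0.le
  have hr4 : r ^ 4 = 4 * n := by
    calc r ^ 4 = (r ^ 2) ^ 2 := by ring
      _ = _ := by rw [hr2, Real.sq_sqrt h4.le]
  have h1 : Real.log (4 * n) = 4 * Real.log r := by
    rw [← hr4, Real.log_pow]
    norm_num
  have h2 : Real.log r ≤ r - 1 := Real.log_le_sub_one_of_pos hr0
  have h3 : 0 ≤ Real.log (4 * n) := Real.log_nonneg (by nlinarith)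
  have h5 : Real.log (4 * n) ≤ 4 * r := by
    rw [h1]
    linarith
  have h6 : (Real.log (4 * n)) ^ 2 ≤ 16 * r ^ 2 := by nlinarith
  -- r ^ 2 = sqrt (4 n), and sqrt(4n) >= 2 * 10^10
  have h7 : (2 : ℝ) * 10 ^ 10 ≤ r ^ 2 := by
    rw [hr2]
    apply Real.le_sqrt_of_sq_le
    nlinarith
  have h8 : r ^ 2 * (2 * 10 ^ 10) ≤ 4 * n := by
    rw [← hr4]
    nlinarith [sq_nonneg r]
  rw [le_div_iff₀ (by norm_num)]
  nlinarith

/-- The good convex set. -/
def SL (n : ℕ) : Set ℂ := {X : ℂ | (2 : ℝ) * 10 ^ 9 ≤ X.re} ∩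
  Metric.closedBall 0 (7000 * Real.log (4 * n))

lemma convex_SL (n : ℕ) : Convex ℝ (SL n) :=
  (convex_halfSpace_re_ge _).inter (convex_closedBall 0 _)

noncomputable def zf (n : ℕ) (X : ℂ) : ℂ := n * (exp (X / n) - 1)

lemma zf_near (n : ℕ) (hn : (10 : ℝ) ^ 20 ≤ n) (X : ℂ) (hX : X ∈ SL n) :
    ‖zf n X - X‖ ≤ 1 := by
  have hn0 : (0 : ℝ) < n := lt_of_lt_of_le (by norm_num) hn
  have hnC : (n : ℂ) ≠ 0 := by
    have : (n : ℝ) ≠ 0 := hn0.ne'
    exact_mod_cast this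
  have h1 : ‖X‖ ≤ 7000 * Real.log (4 * n) := by simpa using hX.2
  have h2 := log_sq n hn
  have h3 : ‖X‖ ^ 2 ≤ n / 6 := by
    have h4 : ‖X‖ ^ 2 ≤ (7000 * Real.log (4 * n)) ^ 2 := by
      apply pow_le_pow_left₀ (norm_nonneg _) h1
    have h5 : (7000 * Real.log (4 * n)) ^ 2 = 49000000 * (Real.log (4 * n)) ^ 2 := by ring
    rw [h5] at h4
    refine h4.trans ?_
    calc 49000000 * (Real.log (4 * n)) ^ 2 ≤ 49000000 * ((n:ℝ) / (3 * 10 ^ 8)) := by gcongr
      _ ≤ (n:ℝ) / 6 := by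
        have : (49000000 : ℝ) * (n / (3 * 10 ^ 8)) = n * (49 / 300) := by ring
        rw [this]
        have : (n : ℝ) / 6 = n * (1 / 6) := by ring
        rw [this]
        apply mul_le_mul_of_nonneg_left _ hn0.le
        norm_num
  have h6 : ‖X / n‖ ≤ 1 := by
    rw [norm_div, Complex.norm_natCast, div_le_one hn0]
    have h7 : ‖X‖ ^ 2 ≤ (n : ℝ) ^ 2 := by
      refine h3.trans ?_
      nlinarith
    exact (sq_le_sq₀ (norm_nonneg _) hn0.le).1 h7
  have h8 : ‖exp (X / n) - 1 - X / n‖ ≤ ‖X / n‖ ^ 2 := Complex.norm_exp_sub_one_sub_id_le h6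
  have h9 : zf n X - X = n * (exp (X / n) - 1 - X / n) := by
    unfold zf
    field_simp
  rw [h9, norm_mul, Complex.norm_natCast]
  have h10 : ‖X / n‖ ^ 2 = ‖X‖ ^ 2 / n ^ 2 := by
    rw [norm_div, Complex.norm_natCast, div_pow]
  rw [h10] at h8
  calc (n : ℝ) * ‖exp (X / n) - 1 - X / n‖ ≤ n * (‖X‖ ^ 2 / n ^ 2) := by gcongr
    _ ≤ n * ((n / 6) / n ^ 2) := by gcongr
    _ = 1 / 6 := by field_simp
    _ ≤ 1 := by norm_num

lemma zf_re (n : ℕ) (hn : (10 : ℝ) ^ 20 ≤ n) (X : ℂ) (hX : X ∈ SL n) :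
    (19 : ℝ) * 10 ^ 8 ≤ (zf n X).re := by
  have h1 := zf_near n hn X hX
  have h2 : |(zf n X - X).re| ≤ ‖zf n X - X‖ := Complex.abs_re_le_norm _
  have h3 : (2 : ℝ) * 10 ^ 9 ≤ X.re := hX.1
  rw [sub_re] at h2
  have h4 := (abs_le.1 (h2.trans h1)).1
  linarith

lemma lip (n : ℕ) (hn : (10 : ℝ) ^ 20 ≤ n) (X Y : ℂ) (hX : X ∈ SL n) (hY : Y ∈ SL n) :
    ‖log (zf n Y) - log (zf n X)‖ ≤ 1 / 10 ^ 8 * ‖Y - X‖ := by
  have hn0 : (0 : ℝ) < n := lt_of_lt_of_le (by norm_num) hn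
  have hnC : (n : ℂ) ≠ 0 := by
    have : (n : ℝ) ≠ 0 := hn0.ne'
    exact_mod_cast this
  refine (convex_SL n).norm_image_sub_le_of_norm_hasDerivWithin_le
    (f := fun X => log (zf n X)) (f' := fun X => exp (X / n) / zf n X) ?_ ?_ hX hY
  · intro Z hZ
    have h1 := zf_re n hn Z hZ
    have h2 : zf n Z ∈ slitPlane := by
      rw [mem_slitPlane_iff]
      left
      linarith
    have h3 : HasDerivAt (fun X : ℂ => zf n X) (exp (Z / n)) Z := by
      unfold zf
      have h4 : HasDerivAt (fun X : ℂ => X / n) (1 / n) Z := (hasDerivAt_id Z).div_const _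
      have h5 := (h4.cexp.sub_const 1).const_mul (n : ℂ)
      refine h5.congr_deriv ?_
      field_simp
    exact (h3.clog h2).hasDerivWithinAt
  · intro Z hZ
    have h1 := zf_re n hn Z hZ
    have h2 : (19 : ℝ) * 10 ^ 8 ≤ ‖zf n Z‖ := h1.trans (Complex.re_le_norm _)
    have h3 : zf n Z ≠ 0 := by
      intro h
      rw [h, norm_zero] at h2
      norm_num at h2
    have h4 : exp (Z / n) = 1 + zf n Z / n := by
      unfold zf
      field_simp
      ring
    have h5 : exp (Z / n) / zf n Z = 1 / zf n Z + 1 / n := by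
      rw [h4]
      field_simp
    rw [h5]
    have h6 : ‖(1 : ℂ) / zf n Z‖ ≤ 1 / (19 * 10 ^ 8) := by
      rw [norm_div, norm_one]
      exact one_div_le_one_div_of_le (by norm_num) h2
    have h7 : ‖(1 : ℂ) / n‖ ≤ 1 / 10 ^ 20 := by
      rw [norm_div, norm_one, Complex.norm_natCast]
      exact one_div_le_one_div_of_le (by norm_num) hn
    refine (norm_add_le _ _).trans ((add_le_add h6 h7).trans ?_)
    norm_num

end LIP_

open LIP_ in
theorem p_LIP (h1 : T_CHP) : T_LIP := by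
  intro n s k L L' hL hL'
  have hn := hL.hn
  have hn1 : 1 ≤ n := by
    have : (1 : ℝ) ≤ n := le_trans (by norm_num) hn
    exact_mod_cast this
  have hn0 : (0 : ℝ) < n := lt_of_lt_of_le (by norm_num) hn
  have hnC : (n : ℂ) ≠ 0 := by
    have : (n : ℝ) ≠ 0 := hn0.ne'
    exact_mod_cast this
  -- facts for one point
  have key : ∀ M : ℂ, Ch n s k M → ∀ i, i < k → XX n M (i + 1) ∈ SL n ∧
      YY n s M i = log (zf n (XX n M (i + 1))) := by
    intro M hM i hi
    obtain ⟨-, -, -, c4, -, -, c7, c8, -⟩ := h1 n s k M hM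
    obtain ⟨d1, d2, d3, d4, d5⟩ := c7 (i + 1) (by omega) (by omega)
    have e1 : (21 : ℝ) ≤ rr s i := c8 i hi.le
    have e2 : 4 * Real.exp (rr s i) ≤ rr s (i + 1) := le_max_left _ _
    have e3 := hM.hr (i + 1) (by omega)
    have e4 : Real.exp 21 ≤ Real.exp (rr s i) := Real.exp_le_exp.2 e1
    have e5 : (10 : ℝ) ^ 9 ≤ Real.exp 21 := by
      have h := Real.exp_one_gt_d9
      have h' : Real.exp 21 = Real.exp 1 ^ 21 := by
        rw [← Real.exp_nat_mul]
        norm_num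
      rw [h']
      calc (10 : ℝ) ^ 9 ≤ 2.7182818283 ^ 21 := by norm_num
        _ ≤ Real.exp 1 ^ 21 := pow_le_pow_left₀ (by norm_num) h.le 21
    have e6 : (2 : ℝ) * 10 ^ 9 ≤ (XX n M (i + 1)).re := by linarith
    have e7 : XX n M (i + 1) ∈ SL n := by
      refine ⟨e6, ?_⟩
      simpa using d4
    refine ⟨e7, ?_⟩
    have e8 : zz n M (i + 1) ≠ -n := by
      intro h
      rw [h] at d5
      have f1 : |(-(n : ℂ) - XX n M (i + 1)).re| ≤ ‖-(n : ℂ) - XX n M (i + 1)‖ :=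
        Complex.abs_re_le_norm _
      have f2 := (abs_le.1 (f1.trans d5)).1
      simp only [sub_re, neg_re, natCast_re] at f2
      have f3 : (0 : ℝ) < 1 / 10 ^ 6 := by norm_num
      have f4 : (1 : ℝ) / 10 ^ 6 ≤ 1 := by norm_num
      have f5 : (10 : ℝ) ^ 20 ≤ n := hn
      have f6 : (1 : ℝ) < 10 ^ 20 := by norm_num
      linarith
    have e9 := exp_XX hn1 e8
    rw [(c4 i hi).1]
    congr 1
    unfold zf
    rw [e9]
    field_simp
    ring
  set D : ℕ → ℝ := fun i => ‖YY n s L' i - YY n s L i‖ with hD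
  have D0 : D 0 = ‖L' - L‖ := by
    simp only [hD]
    rw [YY_zero, YY_zero]
    congr 1
    ring
  have hDn : ∀ i, 0 ≤ D i := fun i => norm_nonneg _
  have hstep : ∀ i, i < k → D i ≤ 1 / 10 ^ 8 * (D (i + 1) + D 0) := by
    intro i hi
    obtain ⟨a1, a2⟩ := key L hL i hi
    obtain ⟨b1, b2⟩ := key L' hL' i hi
    have h2 := lip n hn _ _ a1 b1
    simp only [hD] at *
    rw [a2, b2]
    refine h2.trans ?_
    apply mul_le_mul_of_nonneg_left _ (by norm_num)
    have h3 : XX n L' (i + 1) - XX n L (i + 1) =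
        (YY n s L' (i + 1) - YY n s L (i + 1)) - (L' - L) := by
      unfold YY
      ring
    rw [h3, D0]
    exact norm_sub_le _ _
  have hmono : ∀ i, i ≤ k → D 0 ≤ D i := by
    intro i
    induction i with
    | zero => intro _; exact le_rfl
    | succ i ih =>
      intro hi
      have h2 := ih (by omega)
      have h3 := hstep i (by omega)
      have h4 := hDn (i + 1)
      have h5 := hDn i
      nlinarith
  have hs2 : ∀ i, i < k → D i ≤ 1 / 10 ^ 7 * D (i + 1) := by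
    intro i hi
    have h2 := hmono i hi.le
    have h3 := hstep i hi
    have h4 := hDn (i + 1)
    have h5 := hDn i
    nlinarith
  have hfin : ∀ j, j ≤ k → D (k - j) ≤ (1 / 10 ^ 7) ^ j * D k := by
    intro j
    induction j with
    | zero => intro _; simp
    | succ j ih =>
      intro hj
      have h2 := ih (by omega)
      have h3 := hs2 (k - (j + 1)) (by omega)
      have h4 : k - (j + 1) + 1 = k - j := by omega
      rw [h4] at h3
      calc D (k - (j + 1)) ≤ 1 / 10 ^ 7 * D (k - j) := h3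
        _ ≤ 1 / 10 ^ 7 * ((1 / 10 ^ 7) ^ j * D k) := by
          apply mul_le_mul_of_nonneg_left h2 (by norm_num)
        _ = (1 / 10 ^ 7) ^ (j + 1) * D k := by ring
  intro i hi
  have h2 := hfin (k - i) (by omega)
  have h3 : k - (k - i) = i := by omega
  rw [h3] at h2
  exact h2

end Pool.Agent.Modu
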