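import Pool.Agent.Modu.Targets

/-!
# MODU: MAINL, the main theorem in the `L`-plane
-/

set_option autoImplicit false

open Complex Filter Topology Set
open Pool.Agent.Multibrot Pool.Agent.Limb

namespace Pool.Agent.Modu

namespace MAINL_

lemma one_le_exp_it (m : ℕ) : (1 : ℝ) ≤ Real.exp^[m] 1 := by
  induction m with
  | zero => simp
  | succ m ih =>
    rw [Function.iterate_succ_apply']
    have := Real.add_one_le_exp (Real.exp^[m] 1)
    linarith

lemma it_log_ge {k : ℕ} {y : ℝ} (h : Real.exp^[k] 1 ≤ y) : ∀ i, i ≤ k →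
    Real.exp^[k - i] 1 ≤ Real.log^[i] y := by
  intro i
  induction i with
  | zero => intro _; simpa using h
  | succ i ih =>
    intro hi
    have h1 := ih (by omega)
    rw [Function.iterate_succ_apply']
    have h2 : k - i = (k - (i + 1)) + 1 := by omega
    rw [h2, Function.iterate_succ_apply'] at h1
    exact (Real.le_log_iff_exp_le (lt_of_lt_of_le (Real.exp_pos _) h1)).2 h1

lemma it_log_one {k : ℕ} {y : ℝ} (h : Real.exp^[k] 1 ≤ y) {i : ℕ} (hi : i ≤ k) :
    1 ≤ Real.log^[i] y := (one_le_exp_it _).trans (it_log_ge h i hi)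

lemma it_log_le {k : ℕ} {x y : ℝ} (h : Real.exp^[k] 1 ≤ y) (h2 : y ≤ Real.exp^[k + 2] x) :
    ∀ i, i ≤ k + 1 → Real.log^[i] y ≤ Real.exp^[k + 2 - i] x := by
  intro i
  induction i with
  | zero => intro _; simpa using h2
  | succ i ih =>
    intro hi
    have h1 := ih (by omega)
    rw [Function.iterate_succ_apply']
    have h3 : k + 2 - i = (k + 2 - (i + 1)) + 1 := by omega
    rw [h3, Function.iterate_succ_apply'] at h1
    have h4 := it_log_one h (show i ≤ k by omega)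
    exact (Real.log_le_iff_le_exp (by linarith)).2 h1

lemma prod_mono (f : ℕ → ℝ) {a b : ℕ} (hab : a ≤ b) (h : ∀ i, i < b → 1 ≤ f i) :
    1 ≤ ∏ i ∈ Finset.range a, f i ∧
      ∏ i ∈ Finset.range a, f i ≤ ∏ i ∈ Finset.range b, f i := by
  have key : ∀ a, a ≤ b → 1 ≤ ∏ i ∈ Finset.range a, f i := by
    intro a
    induction a with
    | zero => intro _; simp
    | succ a ih =>
      intro ha
      rw [Finset.prod_range_succ]
      have h1 := ih (by omega)
      have h2 := h a (by omega)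
      nlinarith
  refine ⟨key a hab, ?_⟩
  clear key
  induction b, hab using Nat.le_induction with
  | base => exact le_rfl
  | succ b hb ih =>
    rw [Finset.prod_range_succ]
    have h1 := ih (fun i hi => h i (by omega))
    have h2 := h b (by omega)
    have h3 : 1 ≤ ∏ i ∈ Finset.range b, f i := by
      clear ih h1
      have : ∀ c, c ≤ b → 1 ≤ ∏ i ∈ Finset.range c, f i := by
        intro c
        induction c with
        | zero => intro _; simp
        | succ c ih =>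
          intro hc
          rw [Finset.prod_range_succ]
          have h1 := ih (by omega)
          have h2 := h c (by omega)
          nlinarith
      exact this b le_rfl
    nlinarith

/-- Nearly positive exponentials. -/
lemma pos_facts {Y : ℂ} {m : ℤ} {e : ℝ} (hm : |Y.im - 2 * Real.pi * m| ≤ e)
    (he : e ≤ 1 / 101) : 9999 / 10000 * ‖exp Y‖ ≤ (exp Y).re ∧ |(exp Y).im| ≤ e * ‖exp Y‖ := by
  have h0 : (0 : ℝ) ≤ |Y.im - 2 * Real.pi * m| := abs_nonneg _
  have hcos : Real.cos Y.im = Real.cos (Y.im - 2 * Real.pi * m) := by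
    rw [show Y.im - 2 * Real.pi * m = Y.im - m * (2 * Real.pi) by ring,
      Real.cos_sub_int_mul_two_pi]
  have hsin : Real.sin Y.im = Real.sin (Y.im - 2 * Real.pi * m) := by
    rw [show Y.im - 2 * Real.pi * m = Y.im - m * (2 * Real.pi) by ring,
      Real.sin_sub_int_mul_two_pi]
  have h1 : 9999 / 10000 ≤ Real.cos Y.im := by
    rw [hcos]
    have h2 := Real.one_sub_sq_div_two_le_cos (x := Y.im - 2 * Real.pi * m)
    have h3 : (Y.im - 2 * Real.pi * m) ^ 2 ≤ (1 / 101) ^ 2 := by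
      rw [← sq_abs]
      exact pow_le_pow_left₀ h0 (hm.trans he) 2
    norm_num at h3
    linarith
  have h2 : |Real.sin Y.im| ≤ e := by
    rw [hsin]
    exact Real.abs_sin_le_abs.trans hm
  rw [Complex.norm_exp, Complex.exp_re, Complex.exp_im]
  have h3 := Real.exp_pos Y.re
  constructor
  · nlinarith
  · rw [abs_mul, abs_of_pos h3, mul_comm]
    exact mul_le_mul_of_nonneg_right h2 h3.le

lemma XX_re (n : ℕ) (L : ℂ) (i : ℕ) :
    (XX n L i).re = n * Real.log ‖1 + zz n L i / n‖ := by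
  rw [XX, ← Complex.ofReal_natCast, Complex.re_ofReal_mul, Complex.log_re]

lemma reX_ge {n : ℕ} (hn : (10 : ℝ) ^ 20 ≤ n) {L : ℂ} {i : ℕ} (hz : ‖zz n L i‖ ≤ 3 * n)
    (hre : 9999 / 10000 * ‖zz n L i‖ ≤ (zz n L i).re) :
    zz n L i ≠ -n ∧ 1 / 5 * ‖zz n L i‖ ≤ (XX n L i).re := by
  have hn0 : (0 : ℝ) < n := lt_of_lt_of_le (by norm_num) hn
  have hz0 := norm_nonneg (zz n L i)
  constructor
  · intro h
    rw [h] at hre hz0
    have : ((-n : ℂ)).re = -(n : ℝ) := by simp
    rw [this] at hre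
    linarith
  · rw [XX_re]
    set t := 9999 / 10000 * ‖zz n L i‖ / n with ht
    have ht0 : 0 ≤ t := by positivity
    have ht3 : t ≤ 3 := by
      rw [ht, div_le_iff₀ hn0]
      linarith
    have h1 : 1 + t ≤ ‖1 + zz n L i / n‖ := by
      have h2 : (1 + zz n L i / n).re = 1 + (zz n L i).re / n := by
        rw [add_re, one_re, ← Complex.ofReal_natCast, Complex.div_ofReal_re]
      have h3 := Complex.re_le_norm (1 + zz n L i / n)
      rw [h2] at h3
      have h4 : t ≤ (zz n L i).re / n := by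
        rw [ht]
        exact div_le_div_of_nonneg_right hre hn0.le
      linarith
    have h2 : t / 4 ≤ Real.log ‖1 + zz n L i / n‖ := by
      have h3 : Real.log (1 + t) ≤ Real.log ‖1 + zz n L i / n‖ :=
        Real.log_le_log (by linarith) h1
      have h4 := Real.one_sub_inv_le_log_of_pos (show 0 < 1 + t by linarith)
      have h5 : t / 4 ≤ 1 - (1 + t)⁻¹ := by
        rw [← sub_nonneg]
        have h6 : 1 - (1 + t)⁻¹ - t / 4 = t * (3 - t) / (4 * (1 + t)) := by
          field_simp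
          ring
        rw [h6]
        have : 0 ≤ 3 - t := by linarith
        positivity
      linarith
    have h3 : n * (t / 4) ≤ n * Real.log ‖1 + zz n L i / n‖ :=
      mul_le_mul_of_nonneg_left h2 hn0.le
    have h4 : n * (t / 4) = 9999 / 40000 * ‖zz n L i‖ := by
      rw [ht]
      field_simp
      ring
    linarith

/-- The maximal good level. -/
lemma exists_level (P : ℕ → Prop) (k : ℕ) : ∃ m, m ≤ k ∧ (∀ i, 1 ≤ i → i ≤ m → P i) ∧
    (m = k ∨ (m < k ∧ ¬ P (m + 1))) := by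
  induction k with
  | zero => exact ⟨0, le_rfl, fun i h1 h2 => by omega, Or.inl rfl⟩
  | succ k ih =>
    obtain ⟨m, hm, h1, h2⟩ := ih
    rcases h2 with h2 | h2
    · by_cases h3 : P (m + 1)
      · refine ⟨m + 1, by omega, ?_, Or.inl (by omega)⟩
        intro i hi1 hi2
        rcases Nat.lt_or_ge i (m + 1) with h4 | h4
        · exact h1 i hi1 (by omega)
        · rw [show i = m + 1 by omega]
          exact h3
      · exact ⟨m, by omega, h1, Or.inr ⟨by omega, h3⟩⟩
    · exact ⟨m, by omega, h1, Or.inr ⟨by omega, h2.2⟩⟩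

/-- Joining a point to the left. -/
lemma to_left {n : ℕ} {x : ℝ} (hx : 0 ≤ x)
    (hT : ∀ p ∈ Mq n, ∃ J : Set ℂ, IsPreconnected J ∧ J ⊆ Mq n ∧ p ∈ J ∧ (∃ q ∈ J, q.re ≤ -1) ∧
      ∀ L ∈ J, L.re ≤ max (p.re + 11) 85 ∧ min (-1) p.re ≤ L.re ∧ |L.im - p.im| ≤ 7)
    {p : ℂ} (hp : p ∈ Mq n) (hr : p.re ≤ x + 64) :
    ∃ J : Set ℂ, IsPreconnected J ∧ J ⊆ Mq n ∧ p ∈ J ∧ (∃ q ∈ J, q.re ≤ -1) ∧
      ∀ L ∈ J, ‖L - p‖ ≤ x + 93 := by
  by_cases h : p.re ≤ -1
  · refine ⟨{p}, isPreconnected_singleton, by simpa using hp, rfl, ⟨p, rfl, h⟩, ?_⟩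
    intro L hL
    rw [mem_singleton_iff] at hL
    rw [hL, sub_self, norm_zero]
    linarith
  · push Not at h
    obtain ⟨J, h1, h2, h3, h4, h5⟩ := hT p hp
    refine ⟨J, h1, h2, h3, h4, ?_⟩
    intro L hL
    obtain ⟨h6, h7, h8⟩ := h5 L hL
    rw [min_eq_left h.le] at h7
    have h9 : L.re ≤ x + 85 := h6.trans (max_le (by linarith) (by linarith))
    have h10 : |L.re - p.re| ≤ x + 86 := by
      rw [abs_le]
      constructor <;> linarith
    have h11 := Complex.norm_le_abs_re_add_abs_im (L - p)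
    rw [sub_re, sub_im] at h11
    linarith

/-- Joining two points through the central disc. -/
lemma join {n : ℕ} {x : ℝ} (hx : 0 ≤ x)
    (hT : ∀ p ∈ Mq n, ∃ J : Set ℂ, IsPreconnected J ∧ J ⊆ Mq n ∧ p ∈ J ∧ (∃ q ∈ J, q.re ≤ -1) ∧
      ∀ L ∈ J, L.re ≤ max (p.re + 11) 85 ∧ min (-1) p.re ≤ L.re ∧ |L.im - p.im| ≤ 7)
    (hS : ∀ L : ℂ, L.re ≤ -1 → L ∈ Mq n)
    {L1 L2 : ℂ} (h1 : L1 ∈ Mq n) (h2 : L2 ∈ Mq n) (hr : L1.re ≤ x + 63)
    (hd : ‖L2 - L1‖ ≤ 1 / 1000) :
    ∃ J : Set ℂ, IsPreconnected J ∧ J ⊆ Mq n ∧ L1 ∈ J ∧ L2 ∈ J ∧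
      ∀ L ∈ J, ‖L - L1‖ ≤ 2 * x + 200 := by
  have hr2 : L2.re ≤ x + 64 := by
    have := (Complex.abs_re_le_norm (L2 - L1)).trans hd
    rw [sub_re, abs_le] at this
    linarith
  obtain ⟨J1, a1, a2, a3, ⟨q1, a4, a5⟩, a6⟩ := to_left hx hT h1 (by linarith)
  obtain ⟨J2, b1, b2, b3, ⟨q2, b4, b5⟩, b6⟩ := to_left hx hT h2 hr2
  have hb6 : ∀ L ∈ J2, ‖L - L1‖ ≤ x + 94 := by
    intro L hL
    calc ‖L - L1‖ = ‖(L - L2) + (L2 - L1)‖ := by congr 1; ring
      _ ≤ ‖L - L2‖ + ‖L2 - L1‖ := norm_add_le _ _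
      _ ≤ (x + 93) + 1 / 1000 := add_le_add (b6 L hL) hd
      _ ≤ x + 94 := by linarith
  have hseg : IsPreconnected (segment ℝ q1 q2) := (convex_segment q1 q2).isPreconnected
  have hseg1 : segment ℝ q1 q2 ⊆ {z : ℂ | z.re ≤ -1} :=
    (convex_halfSpace_re_le (-1)).segment_subset a5 b5
  have hseg2 : segment ℝ q1 q2 ⊆ Metric.closedBall L1 (x + 94) := by
    refine (convex_closedBall L1 (x + 94)).segment_subset ?_ ?_
    · rw [mem_closedBall_iff_norm]
      have := a6 q1 a4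
      linarith
    · rw [mem_closedBall_iff_norm]
      exact hb6 q2 b4
  have hJ : IsPreconnected ((J1 ∪ segment ℝ q1 q2) ∪ J2) :=
    IsPreconnected.union q2 (Or.inr (right_mem_segment ℝ q1 q2)) b4
      (IsPreconnected.union q1 a4 (left_mem_segment ℝ q1 q2) a1 hseg) b1
  refine ⟨(J1 ∪ segment ℝ q1 q2) ∪ J2, hJ, ?_, Or.inl (Or.inl a3), Or.inr b3, ?_⟩
  · rintro L ((hL | hL) | hL)
    · exact a2 hL
    · exact hS L (hseg1 hL)
    · exact b2 hL
  · rintro L ((hL | hL) | hL)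
    · have := a6 L hL
      linarith
    · have := hseg2 hL
      rw [mem_closedBall_iff_norm] at this
      linarith
    · have := hb6 L hL
      linarith

lemma log_three_le : Real.log 3 ≤ 11 / 10 := by
  rw [Real.log_le_iff_le_exp (by norm_num)]
  have h1 := Real.exp_one_gt_d9
  have h2 : Real.exp (11 / 10) = Real.exp 1 * Real.exp (1 / 10) := by
    rw [← Real.exp_add]
    norm_num
  have h3 := Real.quadratic_le_exp_of_nonneg (show (0 : ℝ) ≤ 1 / 10 by norm_num)
  norm_num at h3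
  rw [h2]
  nlinarith [Real.exp_pos (1 / 10 : ℝ)]

/-- The main step: the first point is in the strip and far to the right. -/
lemma main_p (_h3 : T_TOL) (h4 : T_TW) (h5 : T_SIDE) (h6 : T_PAIR) (h7 : T_HPI) (h8 : T_CHP)
    (h10 : T_LIP) (h11 : T_FRX)
    {n k : ℕ} {x : ℝ} {α : ℕ → ℂ → ℝ} (hn : (10 : ℝ) ^ 20 ≤ n) (hα : IsArg n α)
    (hH : ∀ s k p, HP n s k p → HC n s k p) (hx : 0 ≤ x)
    (hk1 : Real.exp^[k] 1 ≤ n) (hk2 : (n : ℝ) ≤ Real.exp^[k + 2] x) {L1 L2 : ℂ}
    (hL1 : L1 ∈ Mp n) (hL2 : L2 ∈ Mq n) (hr : x + 63 < L1.re)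
    (hd : ‖L2 - L1‖ * ∏ j ∈ Finset.range k, Real.log^[j + 1] n ≤ 1 / 1000) :
    ∃ J : Set ℂ, IsPreconnected J ∧ J ⊆ Mq n ∧ L1 ∈ J ∧ L2 ∈ J ∧
      ∀ L ∈ J, ‖L - L1‖ ≤ 2 * x + 200 := by
  have hn0 : (0 : ℝ) < n := lt_of_lt_of_le (by norm_num) hn
  have hd0 : 0 ≤ ‖L2 - L1‖ := norm_nonneg _
  have hone : ∀ i, i < k → (1 : ℝ) ≤ Real.log^[i + 1] (n : ℝ) :=
    fun i hi => it_log_one hk1 (by omega)
  have hprod1 : (1 : ℝ) ≤ ∏ j ∈ Finset.range k, Real.log^[j + 1] (n : ℝ) :=
    (prod_mono _ le_rfl hone).1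
  have hd1 : ‖L2 - L1‖ ≤ 1 / 1000 := by nlinarith
  have hre2 : L1.re - 1 / 1000 ≤ L2.re := by
    have := (Complex.abs_re_le_norm (L2 - L1)).trans hd1
    rw [sub_re, abs_le] at this
    linarith
  have hmem1 : cc n L1 ∈ MM n := hL1.1
  obtain ⟨κ, hκk, hgood, hκ⟩ := exists_level (fun i => NP n L1 i ∧ FR n L1 i) k
  obtain ⟨s, hCh, hmar, him⟩ := (h7 n α L1 hα hL1 (by linarith)).1 κ
    (fun i hi1 hi2 => (hgood i hi1 hi2).2)
  obtain ⟨c1, c2, c3, c4, c5, c6, c7, c8, c9⟩ := h8 n s κ L1 hCh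
  -- the real parts
  have hre : ∀ i, i ≤ κ → 62 + (i : ℝ) ≤ (YY n s L1 i).re := by
    intro i
    induction i with
    | zero =>
      intro _
      rw [c1.1]
      push_cast
      linarith
    | succ i ih =>
      intro hi
      have e1 := ih (by omega)
      have e2 := (c5 i (by omega)).2
      have e3 : (0 : ℝ) ≤ i := Nat.cast_nonneg i
      push_cast
      linarith
  have hYX : ∀ (L : ℂ) (i : ℕ), (XX n L i).re = (YY n s L i).re - L.re := by
    intro L i
    rw [YY, sub_re, add_re]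
    have : (2 * Real.pi * I * (s i : ℂ)).re = 0 := by
      rw [show (2 * Real.pi * I * (s i : ℂ)) = ((2 * Real.pi * s i : ℝ) : ℂ) * I by
        push_cast; ring]
      rw [Complex.re_ofReal_mul, I_re, mul_zero]
    rw [this]
    ring
  set a : ℕ → ℝ := fun i => ‖zz n L1 (i + 1)‖ with ha
  have ha0 : ∀ i, i ≤ κ → a i = Real.exp (YY n s L1 i).re := fun i hi => c3 i hi
  have hapos : ∀ i, 0 ≤ a i := fun i => norm_nonneg _
  have hloga : ∀ i, i ≤ κ → Real.log (a i) = (YY n s L1 i).re := by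
    intro i hi
    rw [ha0 i hi, Real.log_exp]
  have tw1 : ∀ i, i ≤ κ → Real.exp 58 ≤ a i := by
    intro i hi
    rw [ha0 i hi, Real.exp_le_exp]
    have := hre i hi
    have e3 : (0 : ℝ) ≤ i := Nat.cast_nonneg i
    linarith
  have himX : ∀ i, 1 ≤ i → i ≤ κ →
      |(XX n L1 i).im| ≤ (1 / 2) ^ (i + 10) * (XX n L1 i).re := fun i h1 h2 =>
    (hgood i h1 h2).1
  have hXpos : ∀ i, 1 ≤ i → i ≤ κ → 60 ≤ (XX n L1 i).re := by
    intro i e1 e2
    have e3 := (c7 i e1 e2).1
    have e4 := hre i e2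
    have e5 : (1 : ℝ) ≤ i := by exact_mod_cast e1
    linarith
  have tw2 : ∀ i, i < κ → a i ≤ (1 + (1 / 4) ^ (i + 9)) * Real.log (a (i + 1)) := by
    intro i hi
    have e1 := himX (i + 1) (by omega) (by omega)
    have e2 := (c7 (i + 1) (by omega) (by omega)).2.2.2.2
    have e3 := hXpos (i + 1) (by omega) (by omega)
    have e4 : ‖XX n L1 (i + 1)‖ ≤ (1 + (1 / 4) ^ (i + 11)) * (XX n L1 (i + 1)).re := by
      have e5 : ‖XX n L1 (i + 1)‖ ^ 2 = (XX n L1 (i + 1)).re ^ 2 + (XX n L1 (i + 1)).im ^ 2 := by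
        rw [Complex.sq_norm, Complex.normSq_apply]
        ring
      have e6 : (XX n L1 (i + 1)).im ^ 2 ≤
          (1 / 4) ^ (i + 11) * (XX n L1 (i + 1)).re ^ 2 := by
        rw [← sq_abs]
        calc |(XX n L1 (i + 1)).im| ^ 2 ≤
            ((1 / 2) ^ (i + 1 + 10) * (XX n L1 (i + 1)).re) ^ 2 :=
              pow_le_pow_left₀ (abs_nonneg _) e1 2
          _ = (1 / 4) ^ (i + 11) * (XX n L1 (i + 1)).re ^ 2 := by
              rw [mul_pow, ← pow_mul, show (1 / 4 : ℝ) = (1 / 2) ^ 2 by norm_num, ← pow_mul]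
              congr 2
              ring
      have e7 : (0 : ℝ) ≤ (1 / 4) ^ (i + 11) := by positivity
      refine le_of_sq_le_sq ?_ (by positivity)
      rw [e5]
      have e8 : 0 ≤ (XX n L1 (i + 1)).re ^ 2 := sq_nonneg _
      have e9 : ((1 + (1 / 4) ^ (i + 11)) * (XX n L1 (i + 1)).re) ^ 2 =
          (XX n L1 (i + 1)).re ^ 2 + 2 * ((1 / 4) ^ (i + 11) * (XX n L1 (i + 1)).re ^ 2) +
            ((1 / 4) ^ (i + 11)) ^ 2 * (XX n L1 (i + 1)).re ^ 2 := by ring
      rw [e9]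
      have e10 : 0 ≤ ((1 / 4 : ℝ) ^ (i + 11)) ^ 2 * (XX n L1 (i + 1)).re ^ 2 := by positivity
      have e11 : 0 ≤ (1 / 4 : ℝ) ^ (i + 11) * (XX n L1 (i + 1)).re ^ 2 := by positivity
      linarith
    have e5 : a i ≤ ‖XX n L1 (i + 1)‖ + 1 / 10 ^ 6 := by
      have := norm_sub_norm_le (zz n L1 (i + 1)) (XX n L1 (i + 1))
      simp only [ha]
      linarith
    have e6 : (XX n L1 (i + 1)).re = Real.log (a (i + 1)) - L1.re := by
      rw [hYX, hloga (i + 1) (by omega)]
    have e7 : (1 / 4 : ℝ) ^ (i + 11) ≤ (1 / 4) ^ (i + 9) :=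
      pow_le_pow_of_le_one (by norm_num) (by norm_num) (by omega)
    have e8 : (0 : ℝ) ≤ (1 / 4) ^ (i + 11) := by positivity
    have e9 : 0 ≤ Real.log (a (i + 1)) := by linarith
    rw [e6] at e4 e3
    nlinarith
  have tw3 : a κ ≤ 3 * n := norm_zz_le hn hmem1 (by linarith) (κ + 1)
  -- the final argument from a good angle
  have fin : ∀ θ : ℝ, 3 / 4 * (1 / 2) ^ (κ + 11) ≤ θ → θ ≤ 1 / 100 → 100 ≤ θ * a κ →
      (∀ m : ℤ, θ ≤ |(YY n s L1 κ).im - 2 * Real.pi * m|) →
      (∏ i ∈ Finset.range κ, a i) * ‖L2 - L1‖ ≤ θ / 5 →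
      ∃ J : Set ℂ, IsPreconnected J ∧ J ⊆ Mq n ∧ L1 ∈ J ∧ L2 ∈ J ∧
      ∀ L ∈ J, ‖L - L1‖ ≤ 2 * x + 200 := by
    intro θ t1 t2 t3 t4 t5
    obtain ⟨u1, u2, u3, u4, u5, u6⟩ := h5 n α s κ L1 L2 θ hα hL1 (by linarith) hL2 hCh
      (by linarith) him t1 t2 t3 t4 t5
    have hz1 : ∀ i, 1 ≤ i → i ≤ κ → ‖zz n L1 i‖ ≤ 2 * (XX n L1 i).re := by
      intro i e1 e2
      have e3 := himX i e1 e2
      have e4 := (c7 i e1 e2).2.2.2.2
      have e5 := hXpos i e1 e2
      have e6 := Complex.norm_le_abs_re_add_abs_im (XX n L1 i)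
      rw [abs_of_pos (by linarith : 0 < (XX n L1 i).re)] at e6
      have e7 := norm_sub_norm_le (zz n L1 i) (XX n L1 i)
      have e8 : (1 / 2 : ℝ) ^ (i + 10) ≤ (1 / 2) ^ 10 :=
        pow_le_pow_of_le_one (by norm_num) (by norm_num) (by omega)
      have e9 : (1 / 2 : ℝ) ^ (i + 10) * (XX n L1 i).re ≤ (1 / 2) ^ 10 * (XX n L1 i).re :=
        mul_le_mul_of_nonneg_right e8 (by linarith)
      norm_num at e9 ⊢
      linarith
    have hz2 : ∀ i, 1 ≤ i → i ≤ κ → ‖zz n L2 i‖ ≤ 2 * (XX n L2 i).re := by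
      intro i e1 e2
      obtain ⟨-, -, -, -, -, -, d7, -, -⟩ := h8 n s κ L2 u2
      have e3 := himX i e1 e2
      have e4 := (d7 i e1 e2).2.2.2.2
      have e5 := hXpos i e1 e2
      have e6 := Complex.norm_le_abs_re_add_abs_im (XX n L1 i)
      rw [abs_of_pos (by linarith : 0 < (XX n L1 i).re)] at e6
      have e7 := norm_sub_norm_le (zz n L2 i) (XX n L2 i)
      have e8 : (1 / 2 : ℝ) ^ (i + 10) ≤ (1 / 2) ^ 10 :=
        pow_le_pow_of_le_one (by norm_num) (by norm_num) (by omega)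
      have e9 : (1 / 2 : ℝ) ^ (i + 10) * (XX n L1 i).re ≤ (1 / 2) ^ 10 * (XX n L1 i).re :=
        mul_le_mul_of_nonneg_right e8 (by linarith)
      have l1 := h10 n s κ L1 L2 hCh u2 i e2
      have l2 : (1 / 10 ^ 7 : ℝ) ^ (κ - i) ≤ 1 := pow_le_one₀ (by norm_num) (by norm_num)
      have l3 : ‖YY n s L2 i - YY n s L1 i‖ ≤ 1 / 400 := by
        calc ‖YY n s L2 i - YY n s L1 i‖ ≤ (1 / 10 ^ 7) ^ (κ - i) *
            ‖YY n s L2 κ - YY n s L1 κ‖ := l1
          _ ≤ 1 * ‖YY n s L2 κ - YY n s L1 κ‖ :=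
              mul_le_mul_of_nonneg_right l2 (norm_nonneg _)
          _ ≤ 1 / 400 := by linarith
      have l4 : ‖XX n L2 i - XX n L1 i‖ ≤ 1 / 200 := by
        have : XX n L2 i - XX n L1 i = (YY n s L2 i - YY n s L1 i) - (L2 - L1) := by
          simp only [YY]
          ring
        rw [this]
        have := norm_sub_le (YY n s L2 i - YY n s L1 i) (L2 - L1)
        linarith
      have l5 : ‖XX n L2 i‖ ≤ ‖XX n L1 i‖ + 1 / 200 := by
        have := norm_sub_norm_le (XX n L2 i) (XX n L1 i)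
        linarith
      have l6 : (XX n L1 i).re - 1 / 200 ≤ (XX n L2 i).re := by
        have := (Complex.abs_re_le_norm (XX n L2 i - XX n L1 i)).trans l4
        rw [sub_re, abs_le] at this
        linarith
      norm_num at e9 ⊢
      linarith
    obtain ⟨J, v1, v2, v3, v4, v5⟩ := h6 n α s κ L1 L2 hα hH hL1 u1 hCh u2 him u3
      (by linarith) (by linarith) hz1 hz2 u5 u6 (by linarith)
    refine ⟨J, v1, v2, v3, v4, ?_⟩
    intro L hL
    have := v5 L hL
    linarith
  have haκ : (2 : ℝ) ^ (κ + 62) ≤ a κ := by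
    rw [ha0 κ le_rfl]
    have e1 := hre κ le_rfl
    have e2 : (2 : ℝ) ^ (κ + 62) ≤ Real.exp (62 + κ) := by
      have e3 : Real.exp (62 + κ) = Real.exp 1 ^ (κ + 62) := by
        rw [← Real.exp_nat_mul]
        congr 1
        push_cast
        ring
      rw [e3]
      have := Real.exp_one_gt_d9
      exact pow_le_pow_left₀ (by norm_num) (by linarith) _
    exact e2.trans (Real.exp_le_exp.2 e1)
  have haκ' : (2 : ℝ) ^ 62 ≤ a κ :=
    (pow_le_pow_right₀ (by norm_num) (by omega)).trans haκ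
  by_cases hφ : ∀ m : ℤ, 1 / 101 ≤ |(YY n s L1 κ).im - 2 * Real.pi * m|
  · -- case (i)
    refine fin (1 / 101) ?_ (by norm_num) ?_ hφ ?_
    · have : (1 / 2 : ℝ) ^ (κ + 11) ≤ (1 / 2) ^ 11 :=
        pow_le_pow_of_le_one (by norm_num) (by norm_num) (by omega)
      norm_num at this ⊢
      linarith
    · have : (101 * 100 : ℝ) ≤ 2 ^ 62 := by norm_num
      linarith
    · have e1 := (h4 κ a n tw1 tw2 tw3).2
      have e2 := (prod_mono (fun i => Real.log^[i + 1] (n : ℝ)) hκk hone).2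
      calc (∏ i ∈ Finset.range κ, a i) * ‖L2 - L1‖ ≤
          (11 / 10 * ∏ j ∈ Finset.range k, Real.log^[j + 1] (n : ℝ)) * ‖L2 - L1‖ := by
            refine mul_le_mul_of_nonneg_right (e1.trans ?_) hd0
            exact mul_le_mul_of_nonneg_left e2 (by norm_num)
        _ = 11 / 10 * (‖L2 - L1‖ * ∏ j ∈ Finset.range k, Real.log^[j + 1] (n : ℝ)) := by ring
        _ ≤ 11 / 10 * (1 / 1000) := mul_le_mul_of_nonneg_left hd (by norm_num)
        _ ≤ 1 / 101 / 5 := by norm_num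
  · -- the point is nearly positive
    push Not at hφ
    obtain ⟨m0, hm0⟩ := hφ
    have hexp : exp (YY n s L1 κ) = zz n L1 (κ + 1) := c2 κ le_rfl
    obtain ⟨p1, p2⟩ := pos_facts hm0.le le_rfl
    rw [hexp] at p1 p2
    obtain ⟨q1, q2⟩ := reX_ge hn tw3 p1
    have hFR : FR n L1 (κ + 1) := by
      unfold FR
      have := norm_nonneg (zz n L1 (κ + 1))
      linarith
    obtain ⟨r1, r2, r3⟩ := h11 n L1 (κ + 1) hn hmem1 (by linarith) q1
    obtain ⟨r4, r5⟩ := r3 hFR
    have hlog3n : Real.log (3 * n) = Real.log 3 + Real.log n :=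
      Real.log_mul (by norm_num) hn0.ne'
    have hl3 := log_three_le
    have hlogn : 0 ≤ Real.log n := Real.log_nonneg (le_trans (by norm_num) hn)
    have hreXz : (zz n L1 (κ + 1)).re ≤ (XX n L1 (κ + 1)).re + 1 / 10 ^ 6 := by
      have := (Complex.abs_re_le_norm _).trans r5
      rw [sub_re, abs_le] at this
      linarith
    have tw4 : a κ ≤ 3 * Real.log n := by
      have e1 : a κ ≤ 10001 / 10000 * (zz n L1 (κ + 1)).re + a κ / 10 ^ 6 := by
        simp only [ha]
        have := norm_nonneg (zz n L1 (κ + 1))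
        norm_num at p1 ⊢
        linarith
      rw [hlog3n] at r2
      have e2 : (zz n L1 (κ + 1)).re ≤ Real.log n := by
        norm_num at hreXz
        linarith
      have e3 := hapos κ
      norm_num at e1
      linarith
    obtain ⟨w1, w2⟩ := h4 κ a (Real.log n) tw1 tw2 tw4
    have hit : ∀ i, Real.log^[i] (Real.log (n : ℝ)) = Real.log^[i + 1] (n : ℝ) := fun i =>
      (Function.iterate_succ_apply _ _ _).symm
    rcases hκ with hκ | ⟨hκ, hnot⟩
    · -- case (iii)
      exfalso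
      have e1 : a 0 ≤ 3 * Real.log^[k + 1] (n : ℝ) := by
        rcases Nat.eq_zero_or_pos k with hk | hk
        · have e2 : κ = 0 := by omega
          rw [e2] at tw4
          rw [hk]
          simpa using tw4
        · have e2 := w1 0 (by omega)
          rw [Nat.sub_zero, hit, hκ] at e2
          have e3 := hapos 0
          linarith
      have e2 := it_log_le hk1 hk2 (k + 1) le_rfl
      rw [show k + 2 - (k + 1) = 1 by omega] at e2
      rw [Function.iterate_one] at e2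
      rw [ha0 0 (Nat.zero_le _), c1.1] at e1
      have e3 : Real.exp L1.re ≤ Real.exp (11 / 10 + x) := by
        rw [Real.exp_add]
        have e4 : (3 : ℝ) ≤ Real.exp (11 / 10) :=
          (Real.log_le_iff_le_exp (by norm_num)).1 hl3
        have e5 := Real.exp_pos x
        nlinarith
      rw [Real.exp_le_exp] at e3
      linarith
    · -- case (ii)
      have hNP : ¬ NP n L1 (κ + 1) := fun h => hnot ⟨h, hFR⟩
      unfold NP at hNP
      push Not at hNP
      have hθ0 : (0 : ℝ) < (1 / 2) ^ (κ + 11) := by positivity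
      have hθa : 100 ≤ 3 / 4 * (1 / 2) ^ (κ + 11) * a κ := by
        have e1 : 3 / 4 * (1 / 2 : ℝ) ^ (κ + 11) * 2 ^ (κ + 62) ≤
            3 / 4 * (1 / 2) ^ (κ + 11) * a κ :=
          mul_le_mul_of_nonneg_left haκ (by positivity)
        have e2 : 3 / 4 * (1 / 2 : ℝ) ^ (κ + 11) * 2 ^ (κ + 62) = 3 / 4 * 2 ^ 51 := by
          rw [show κ + 62 = (κ + 11) + 51 by omega, pow_add (2 : ℝ), mul_assoc, ← mul_assoc
            ((1 / 2 : ℝ) ^ (κ + 11)), ← mul_pow]
          norm_num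
        rw [e2] at e1
        norm_num at e1 ⊢
        linarith
      refine fin (3 / 4 * (1 / 2) ^ (κ + 11)) le_rfl ?_ hθa ?_ ?_
      · have : (1 / 2 : ℝ) ^ (κ + 11) ≤ (1 / 2) ^ 11 :=
          pow_le_pow_of_le_one (by norm_num) (by norm_num) (by omega)
        norm_num at this ⊢
        linarith
      · intro m
        by_contra hcon
        push Not at hcon
        have hθ1 : 3 / 4 * (1 / 2 : ℝ) ^ (κ + 11) ≤ 1 / 101 := by
          have : (1 / 2 : ℝ) ^ (κ + 11) ≤ (1 / 2) ^ 11 :=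
            pow_le_pow_of_le_one (by norm_num) (by norm_num) (by omega)
          norm_num at this ⊢
          linarith
        obtain ⟨y1, y2⟩ := pos_facts hcon.le hθ1
        rw [hexp] at y1 y2
        have e1 : (zz n L1 (κ + 1)).re - 1 / 10 ^ 6 ≤ (XX n L1 (κ + 1)).re := by linarith
        have e2 : |(XX n L1 (κ + 1)).im| ≤ |(zz n L1 (κ + 1)).im| + 1 / 10 ^ 6 := by
          have e3 := (Complex.abs_im_le_norm _).trans r5
          rw [sub_im] at e3
          have e4 := abs_sub_abs_le_abs_sub (XX n L1 (κ + 1)).im (zz n L1 (κ + 1)).im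
          rw [abs_sub_comm] at e4
          linarith
        have e3 : (1 / 2 : ℝ) ^ (κ + 1 + 10) = (1 / 2) ^ (κ + 11) := by
          congr 1
        rw [e3] at hNP
        set T : ℝ := (1 / 2) ^ (κ + 11) with hT
        have e4 : T * ((zz n L1 (κ + 1)).re - 1 / 10 ^ 6) ≤ T * (XX n L1 (κ + 1)).re :=
          mul_le_mul_of_nonneg_left e1 hθ0.le
        have e5 : T * (9999 / 10000 * a κ) ≤ T * (zz n L1 (κ + 1)).re :=
          mul_le_mul_of_nonneg_left y1 hθ0.le
        have e6 : 3 / 4 * T * ‖zz n L1 (κ + 1)‖ = 3 / 4 * (T * a κ) := by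
          simp only [ha]
          ring
        rw [e6] at y2
        have e7 : 100 ≤ 3 / 4 * (T * a κ) := by linarith
        have e8 : T ≤ 1 := pow_le_one₀ (by norm_num) (by norm_num)
        have e9 : T * (zz n L1 (κ + 1)).re - T * (1 / 10 ^ 6) ≤ T * (XX n L1 (κ + 1)).re := by
          rw [← mul_sub]
          exact e4
        have e10 : T * (1 / 10 ^ 6) ≤ 1 / 10 ^ 6 := by
          have : (0 : ℝ) ≤ 1 / 10 ^ 6 := by norm_num
          exact mul_le_of_le_one_left this e8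
        have e11 : 9999 / 10000 * (T * a κ) ≤ T * (zz n L1 (κ + 1)).re := by
          calc 9999 / 10000 * (T * a κ) = T * (9999 / 10000 * a κ) := by ring
            _ ≤ _ := e5
        generalize T * (zz n L1 (κ + 1)).re = u1 at e9 e11
        generalize T * (XX n L1 (κ + 1)).re = u2 at e9 hNP
        generalize T * a κ = u3 at e11 e7 y2
        generalize T * (1 / 10 ^ 6) = u4 at e9 e10
        generalize |(zz n L1 (κ + 1)).im| = u5 at e2 y2
        generalize |(XX n L1 (κ + 1)).im| = u6 at e2 hNP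
        norm_num at e2 e10
        linarith
      · have e1 : (∏ i ∈ Finset.range κ, Real.log^[i + 1] (Real.log (n : ℝ))) *
            Real.log n ≤ ∏ j ∈ Finset.range k, Real.log^[j + 1] (n : ℝ) := by
          have e2 := (prod_mono (fun i => Real.log^[i + 1] (n : ℝ))
            (show κ + 1 ≤ k by omega) hone).2
          rw [Finset.prod_range_succ'] at e2
          simp only [zero_add, Function.iterate_one] at e2
          simp only [hit]
          exact e2
        have hlogn1 : a κ / 3 ≤ Real.log n := by linarith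
        have hlogn2 : 0 < Real.log n := by
          have : (0 : ℝ) < 2 ^ 62 := by positivity
          linarith
        set PA := ∏ i ∈ Finset.range κ, a i with hPA
        have e2 : PA * ‖L2 - L1‖ * Real.log n ≤ 11 / 10 * (1 / 1000) := by
          calc PA * ‖L2 - L1‖ * Real.log n ≤
              (11 / 10 * ∏ i ∈ Finset.range κ, Real.log^[i + 1] (Real.log (n : ℝ))) *
                ‖L2 - L1‖ * Real.log n := by
                refine mul_le_mul_of_nonneg_right ?_ hlogn2.le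
                exact mul_le_mul_of_nonneg_right w2 hd0
            _ = 11 / 10 * (‖L2 - L1‖ *
                ((∏ i ∈ Finset.range κ, Real.log^[i + 1] (Real.log (n : ℝ))) *
                  Real.log n)) := by ring
            _ ≤ 11 / 10 * (‖L2 - L1‖ * ∏ j ∈ Finset.range k, Real.log^[j + 1] (n : ℝ)) := by
                refine mul_le_mul_of_nonneg_left ?_ (by norm_num)
                exact mul_le_mul_of_nonneg_left e1 hd0
            _ ≤ _ := mul_le_mul_of_nonneg_left hd (by norm_num)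
        have e3 : PA * ‖L2 - L1‖ ≤ 11 / 10 * (1 / 1000) / Real.log n := by
          rw [le_div_iff₀ hlogn2]
          exact e2
        refine e3.trans ?_
        rw [div_le_iff₀ hlogn2]
        have e4 : 3 / 4 * (1 / 2 : ℝ) ^ (κ + 11) / 5 * (a κ / 3) ≤
            3 / 4 * (1 / 2 : ℝ) ^ (κ + 11) / 5 * Real.log n :=
          mul_le_mul_of_nonneg_left hlogn1 (by positivity)
        have e5 : (100 : ℝ) / 15 ≤ 3 / 4 * (1 / 2 : ℝ) ^ (κ + 11) / 5 * (a κ / 3) := by
          have : 3 / 4 * (1 / 2 : ℝ) ^ (κ + 11) / 5 * (a κ / 3) =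
            3 / 4 * (1 / 2) ^ (κ + 11) * a κ / 15 := by ring
          rw [this]
          linarith
        calc 11 / 10 * (1 / 1000 : ℝ) ≤ 100 / 15 := by norm_num
          _ ≤ _ := e5
          _ ≤ _ := e4

end MAINL_

open MAINL_ in
/-- MAINL: the main theorem in the `L`-plane. -/
theorem p_MAINL (h1 : T_STRIP) (h2 : T_HALL) (h3 : T_TOL) (h4 : T_TW) (h5 : T_SIDE)
    (h6 : T_PAIR) (h7 : T_HPI) (h8 : T_CHP) (_h9 : T_CLOSE) (h10 : T_LIP) (h11 : T_FRX)
    (h12 : T_SLIT) : T_MAINL := by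
  intro n k x hn hx hk1 hk2 L1 hL1 L2 hL2 hd
  obtain ⟨α, hα⟩ := h1 n hn
  have hH := h2 n hn
  have hT := h3 n α hα hH
  have hone : ∀ i, i < k → (1 : ℝ) ≤ Real.log^[i + 1] (n : ℝ) :=
    fun i hi => it_log_one hk1 (by omega)
  have hprod1 : (1 : ℝ) ≤ ∏ j ∈ Finset.range k, Real.log^[j + 1] (n : ℝ) :=
    (prod_mono _ le_rfl hone).1
  have hd0 : 0 ≤ ‖L2 - L1‖ := norm_nonneg _
  have hd1 : ‖L2 - L1‖ ≤ 1 / 1000 := by nlinarith
  by_cases hr : L1.re ≤ x + 63
  · exact join hx hT (fun L hL => ((h12 n L hn).2.1) ((h12 n L hn).1 hL)) hL1 hL2 hr hd1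
  · push Not at hr
    have hper : ∀ (L : ℂ) (m : ℤ), L + 2 * Real.pi * m * I ∈ Mq n ↔ L ∈ Mq n :=
      fun L m => (h12 n L hn).2.2.2 m
    have h2pi : (0 : ℝ) < 2 * Real.pi := by positivity
    set m : ℤ := -⌊L1.im / (2 * Real.pi)⌋ with hm
    set v : ℂ := 2 * Real.pi * m * I with hv
    have hvre : v.re = 0 := by
      rw [hv, show (2 * Real.pi * m * I : ℂ) = ((2 * Real.pi * m : ℝ) : ℂ) * I by
        push_cast; ring, Complex.re_ofReal_mul, I_re, mul_zero]
    have hvim : v.im = 2 * Real.pi * m := by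
      rw [hv, show (2 * Real.pi * m * I : ℂ) = ((2 * Real.pi * m : ℝ) : ℂ) * I by
        push_cast; ring, Complex.im_ofReal_mul, I_im, mul_one]
    have hL1' : L1 + v ∈ Mq n := (hper L1 m).2 hL1
    have hL2' : L2 + v ∈ Mq n := (hper L2 m).2 hL2
    have hfl := Int.floor_le (L1.im / (2 * Real.pi))
    have hfl2 := Int.lt_floor_add_one (L1.im / (2 * Real.pi))
    rw [le_div_iff₀ h2pi] at hfl
    rw [div_lt_iff₀ h2pi] at hfl2
    have him0 : 0 ≤ (L1 + v).im := by
      rw [add_im, hvim, hm]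
      push_cast
      linarith
    have him1 : (L1 + v).im < 2 * Real.pi := by
      rw [add_im, hvim, hm]
      push_cast
      linarith
    have him : 0 < (L1 + v).im := by
      rcases him0.lt_or_eq with h | h
      · exact h
      · exfalso
        have e1 := ((h12 n (L1 + v) hn).2.2.1 hL1' ⟨0, by rw [← h]; simp⟩).2
        rw [add_re, hvre] at e1
        linarith
    have hsub : L2 + v - (L1 + v) = L2 - L1 := by ring
    obtain ⟨J, a1, a2, a3, a4, a5⟩ := main_p h3 h4 h5 h6 h7 h8 h10 h11 hn hα hH hx hk1 hk2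
      (L1 := L1 + v) (L2 := L2 + v) ⟨hL1', him, him1⟩ hL2'
      (by rw [add_re, hvre]; linarith) (by rw [hsub]; exact hd)
    refine ⟨(fun L => L - v) '' J, a1.image _ (by fun_prop), ?_, ⟨L1 + v, a3, by ring⟩,
      ⟨L2 + v, a4, by ring⟩, ?_⟩
    · rintro _ ⟨L, hL, rfl⟩
      have := (hper (L - v) m).1
      have h5 : L - v + 2 * Real.pi * m * I ∈ Mq n := by
        rw [← hv, sub_add_cancel]
        exact a2 hL
      exact this h5
    · rintro _ ⟨L, hL, rfl⟩
      have h5 := a5 L hL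
      have h6 : L - v - L1 = L - (L1 + v) := by ring
      simp only
      rw [h6]
      exact h5

end Pool.Agent.Modu
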