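import Pool.Agent.Modu.Targets

/-!
# MODU-MARG: margins
-/

set_option autoImplicit false

open Complex Filter Topology Set
open Pool.Agent.Multibrot Pool.Agent.Limb

namespace Pool.Agent.Modu

theorem p_MARG (h1 : T_CHP) : T_MARG := by
  intro n s m L hL hch hre hFR
  obtain ⟨c1, -, c3, c4, -, -, c7, c8, -⟩ := h1 n s m L hch
  have key : ∀ i, i ≤ m → rr s i + 30 ≤ (YY n s L i).re := by
    intro i
    induction i with
    | zero =>
      intro _
      rw [c1.1]
      show (21 : ℝ) + 30 ≤ L.re
      linarith
    | succ i ih =>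
      intro him
      have hi := ih (by omega)
      have hFR' : ‖zz n L (i + 1)‖ ≤ 5000 * (XX n L (i + 1)).re := hFR (i + 1) (by omega) him
      have hz := c3 i (by omega)
      have hx := (c7 (i + 1) (by omega) him).2.2.2.2
      have hYr : (YY n s L (i + 1)).re = (XX n L (i + 1)).re + L.re := by
        rw [YY]
        simp
      have hYi : (YY n s L (i + 1)).im = (XX n L (i + 1)).im + L.im -
          2 * Real.pi * (s (i + 1) : ℝ) := by
        rw [YY]
        simp
      have hR0 : 0 < ‖zz n L (i + 1)‖ := by rw [hz]; exact Real.exp_pos _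
      have himb : |(YY n s L (i + 1)).im| ≤ 10 := by
        rcases Nat.lt_or_ge (i + 1) m with h | h
        · exact (c4 (i + 1) h).2.trans (by norm_num)
        · have e : i + 1 = m := by omega
          rw [e]; exact hch.him
      rw [hYr]
      show max (4 * Real.exp (rr s i)) (2 * Real.pi * |(s (i + 1) : ℝ)| / 6000) + 30 ≤ _
      have h5 : Real.exp (rr s i) ≤ Real.exp (-30) * ‖zz n L (i + 1)‖ := by
        rw [hz, ← Real.exp_add]
        exact Real.exp_le_exp.mpr (by linarith)
      have h6 : Real.exp (-30) ≤ 1 / 20000 := by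
        have h7 : (20000 : ℝ) ≤ Real.exp 30 := by
          have h8 : (2 : ℝ) ≤ Real.exp 1 := by
            have := Real.add_one_le_exp (1 : ℝ)
            linarith
          have h9 : Real.exp 30 = Real.exp 1 ^ 30 := by
            rw [← Real.exp_nat_mul]; norm_num
          rw [h9]
          calc (20000 : ℝ) ≤ 2 ^ 30 := by norm_num
            _ ≤ _ := pow_le_pow_left₀ (by norm_num) h8 30
        rw [Real.exp_neg, inv_eq_one_div]
        exact one_div_le_one_div_of_le (by norm_num) h7
      have hp4 := Real.pi_lt_four
      have hp0 := Real.pi_pos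
      rcases max_cases (4 * Real.exp (rr s i)) (2 * Real.pi * |(s (i + 1) : ℝ)| / 6000) with
        h | h
      · rw [h.1]
        have h10 : Real.exp (-30) * ‖zz n L (i + 1)‖ ≤ 1 / 20000 * ‖zz n L (i + 1)‖ :=
          mul_le_mul_of_nonneg_right h6 hR0.le
        linarith
      · rw [h.1]
        have hXi : |(XX n L (i + 1)).im| ≤ 5000 * (XX n L (i + 1)).re + 1 / 10 ^ 6 := by
          have e1 := Complex.abs_im_le_norm (XX n L (i + 1))
          have e2 := norm_sub_norm_le (XX n L (i + 1)) (zz n L (i + 1))
          rw [norm_sub_rev] at e2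
          linarith
        have hs : 2 * Real.pi * |(s (i + 1) : ℝ)| ≤ 5000 * (XX n L (i + 1)).re + 20 := by
          have e3 : 2 * Real.pi * |(s (i + 1) : ℝ)| = |2 * Real.pi * (s (i + 1) : ℝ)| := by
            rw [abs_mul, abs_of_pos (by linarith : (0 : ℝ) < 2 * Real.pi)]
          have e4 : 2 * Real.pi * (s (i + 1) : ℝ) = (XX n L (i + 1)).im + L.im -
            (YY n s L (i + 1)).im := by rw [hYi]; ring
          rw [e3, e4, abs_le]
          obtain ⟨-, hL1, hL2⟩ := hL
          have e5 := abs_le.mp hXi
          have e6 := abs_le.mp himb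
          have hp3 := Real.pi_lt_d2
          constructor <;> norm_num at e5 ⊢ <;> linarith
        linarith
  exact key m le_rfl

end Pool.Agent.Modu
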