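import Pool.Agent.Modu.Targets

/-!
# MUP: towards the centre of a component
-/

set_option autoImplicit false

open Complex Filter Topology Set
open Pool.Agent.Multibrot Pool.Agent.Limb

namespace Pool.Agent.Modu

namespace MUP_

/-- Cauchy estimate for the derivative. -/
lemma cauchy_deriv (f : ℂ → ℂ) (c : ℂ) (R C : ℝ) (hR : 0 < R)
    (hd : ∀ z ∈ Metric.closedBall c R, DifferentiableAt ℂ f z)
    (hC : ∀ z ∈ Metric.closedBall c R, ‖f z‖ ≤ C) : ‖deriv f c‖ ≤ C / R := by
  refine Complex.norm_deriv_le_of_forall_mem_sphere_norm_le hR ?_ ?_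
  · have h1 : DifferentiableOn ℂ f (Metric.closedBall c R) := fun z hz =>
      (hd z hz).differentiableWithinAt
    exact h1.diffContOnCl_ball Subset.rfl
  · intro z hz
    exact hC z (Metric.sphere_subset_closedBall hz)

/-- Lipschitz bound in a smaller ball. -/
lemma cauchy_lip (f : ℂ → ℂ) (c : ℂ) (R r C : ℝ) (hR : 0 < R)
    (hd : ∀ z ∈ Metric.ball c (R + r), DifferentiableAt ℂ f z)
    (hC : ∀ z ∈ Metric.ball c (R + r), ‖f z‖ ≤ C) (x y : ℂ) (hx : x ∈ Metric.ball c r)
    (hy : y ∈ Metric.ball c r) : ‖f y - f x‖ ≤ C / R * ‖y - x‖ := by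
  refine Convex.norm_image_sub_le_of_norm_deriv_le (s := Metric.ball c r) ?_ ?_
    (convex_ball c r) hx hy
  · intro z hz
    refine hd z ?_
    rw [Metric.mem_ball] at hz ⊢
    linarith
  · intro z hz
    have hsub : Metric.closedBall z R ⊆ Metric.ball c (R + r) := by
      intro w hw
      rw [Metric.mem_closedBall] at hw
      rw [Metric.mem_ball] at hz ⊢
      have := dist_triangle w z c
      linarith
    exact cauchy_deriv f z R C hR (fun w hw => hd w (hsub hw)) (fun w hw => hC w (hsub hw))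

/-- Fixed point in a closed ball. -/
lemma fixed (T : ℂ → ℂ) (c : ℂ) (r K : ℝ) (hr : 0 ≤ r) (hK0 : 0 ≤ K) (hK : K < 1)
    (hm : ∀ x ∈ Metric.closedBall c r, T x ∈ Metric.closedBall c r)
    (hL : ∀ x ∈ Metric.closedBall c r, ∀ y ∈ Metric.closedBall c r,
      ‖T x - T y‖ ≤ K * ‖x - y‖) : ∃ x ∈ Metric.closedBall c r, T x = x := by
  have hcl : IsComplete (Metric.closedBall c r) := Metric.isClosed_closedBall.isComplete
  have hmaps : MapsTo T (Metric.closedBall c r) (Metric.closedBall c r) := hm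
  have hct : ContractingWith (⟨K, hK0⟩ : NNReal)
      (hmaps.restrict T (Metric.closedBall c r) (Metric.closedBall c r)) := by
    constructor
    · exact_mod_cast hK
    · refine LipschitzWith.of_dist_le_mul ?_
      intro x y
      have := hL x x.2 y y.2
      rw [Subtype.dist_eq, Subtype.dist_eq, dist_eq_norm, dist_eq_norm]
      exact this
  obtain ⟨x, hx, hfx, -⟩ := hct.exists_fixedPoint' hcl hmaps (x := c)
    (Metric.mem_closedBall_self hr) (by rw [edist_dist]; exact ENNReal.ofReal_ne_top)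
  exact ⟨x, hx, hfx⟩

lemma exp_neg_lip (s t : ℝ) (hs : 0 ≤ s) (ht : 0 ≤ t) :
    |Real.exp (-s) - Real.exp (-t)| ≤ |s - t| := by
  wlog h : s ≤ t generalizing s t
  · have := this t s ht hs (le_of_not_ge h)
    rw [abs_sub_comm, abs_sub_comm s t]
    exact this
  have h1 : Real.exp (-t) ≤ Real.exp (-s) := Real.exp_le_exp.2 (by linarith)
  rw [abs_of_nonneg (by linarith), abs_of_nonpos (by linarith)]
  have h2 : Real.exp (-t) = Real.exp (-s) * Real.exp (-(t - s)) := by
    rw [← Real.exp_add]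
    congr 1
    ring
  have h3 : 1 - (t - s) ≤ Real.exp (-(t - s)) := by
    have := Real.add_one_le_exp (-(t - s))
    linarith
  have h4 : Real.exp (-s) ≤ 1 := Real.exp_le_one_iff.2 (by linarith)
  have h5 : 0 ≤ Real.exp (-s) := (Real.exp_pos _).le
  rw [h2]
  nlinarith

/-- The abstract path. -/
lemma path (xq u0 : ℂ) (g : ℂ → ℂ → ℂ) (ρ : ℂ → ℂ)
    (h1 : ∀ x ∈ Metric.ball xq 1000, ∀ u : ℂ, ‖u‖ < 3 → DifferentiableAt ℂ (fun x => g x u) x)
    (h2 : ∀ x ∈ Metric.ball xq 1000, ∀ u : ℂ, ‖u‖ < 3 → DifferentiableAt ℂ (g x) u)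
    (h3 : ∀ x ∈ Metric.ball xq 1000, ∀ u : ℂ, ‖u‖ < 3 → ‖g x u‖ ≤ 1 / 10 ^ 7 * ‖u‖)
    (h4 : ∀ x ∈ Metric.ball xq 1000, ∀ y ∈ Metric.ball xq 1000,
      ‖ρ x - ρ y‖ ≤ 1 / 10 ^ 9 * ‖x - y‖) (h5 : ρ xq = 0)
    (hu : u0 ≠ 0) (hu1 : ‖u0‖ ≤ 102 / 100) (hd : 1 ≤ ‖1 / u0 + deriv (g xq) u0‖) :
    ∃ ξ : ℝ → ℂ, (∀ t ∈ Icc (0 : ℝ) 6, ∀ s ∈ Icc (0 : ℝ) 6, ‖ξ t - ξ s‖ ≤ 3 * |t - s|) ∧
      ξ 0 = xq ∧ (∀ t ∈ Icc (0 : ℝ) 6, ‖ξ t - xq‖ ≤ 8) ∧
      (∀ t ∈ Icc (0 : ℝ) 6, (u0 * Real.exp (-t)) * exp (g (ξ t) (u0 * Real.exp (-t)) -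
        u0 * Real.exp (-t)) = u0 * exp (g xq u0 - u0) * exp (ξ t - xq + ρ (ξ t))) ∧
      (∀ t ∈ Ioc (0 : ℝ) 6,
        1 < ‖1 / (u0 * Real.exp (-t)) + deriv (g (ξ t)) (u0 * Real.exp (-t))‖) := by
  set U : ℝ → ℂ := fun t => u0 * Real.exp (-t) with hU
  have hU0 : U 0 = u0 := by simp [hU]
  have hUn : ∀ t : ℝ, ‖U t‖ = ‖u0‖ * Real.exp (-t) := by
    intro t
    simp only [hU, norm_mul, norm_real, Real.norm_eq_abs, abs_of_pos (Real.exp_pos _)]
  have hU1 : ∀ t : ℝ, 0 ≤ t → ‖U t‖ ≤ 102 / 100 := by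
    intro t ht
    rw [hUn]
    have h6 : Real.exp (-t) ≤ 1 := Real.exp_le_one_iff.2 (by linarith)
    have h7 : 0 ≤ Real.exp (-t) := (Real.exp_pos _).le
    nlinarith [norm_nonneg u0]
  have hUd : ∀ s t : ℝ, 0 ≤ s → 0 ≤ t → ‖U s - U t‖ ≤ 102 / 100 * |s - t| := by
    intro s t hs ht
    have e : U s - U t = u0 * ((Real.exp (-s) - Real.exp (-t) : ℝ) : ℂ) := by
      simp only [hU]
      push_cast
      ring
    rw [e, norm_mul, norm_real, Real.norm_eq_abs]
    exact mul_le_mul hu1 (exp_neg_lip s t hs ht) (abs_nonneg _) (by norm_num)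
  have hball : ∀ x ∈ Metric.closedBall xq 8, x ∈ Metric.ball xq 500 := by
    intro x hx
    rw [Metric.mem_closedBall] at hx
    rw [Metric.mem_ball]
    linarith
  have hball' : ∀ x ∈ Metric.closedBall xq 8, x ∈ Metric.ball xq 1000 := by
    intro x hx
    rw [Metric.mem_closedBall] at hx
    rw [Metric.mem_ball]
    linarith
  -- Lipschitz in x
  have hLx : ∀ x ∈ Metric.ball xq 500, ∀ y ∈ Metric.ball xq 500, ∀ u : ℂ, ‖u‖ < 3 →
      ‖g x u - g y u‖ ≤ 1 / 10 ^ 9 * ‖x - y‖ := by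
    intro x hx y hy u hu
    have h6 := cauchy_lip (fun x => g x u) xq 500 500 (3 / 10 ^ 7) (by norm_num)
      (fun z hz => h1 z (by norm_num at hz ⊢; exact hz) u hu) (fun z hz => by
        have := h3 z (by norm_num at hz ⊢; exact hz) u hu
        show ‖g z u‖ ≤ 3 / 10 ^ 7
        nlinarith) y x hy hx
    refine h6.trans (mul_le_mul_of_nonneg_right ?_ (norm_nonneg _))
    norm_num
  -- Lipschitz in u
  have hLu : ∀ x ∈ Metric.ball xq 1000, ∀ u v : ℂ, ‖u‖ < 2 → ‖v‖ < 2 →
      ‖g x u - g x v‖ ≤ 3 / 10 ^ 7 * ‖u - v‖ := by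
    intro x hx u v hu hv
    have h6 := cauchy_lip (g x) 0 1 2 (3 / 10 ^ 7) (by norm_num)
      (fun z hz => h2 x hx z (by norm_num at hz; exact hz)) (fun z hz => by
        have h7 : ‖z‖ < 3 := by norm_num at hz; exact hz
        have := h3 x hx z h7
        nlinarith) v u (by simpa using hv) (by simpa using hu)
    simpa using h6
  -- derivative in u
  have hDu : ∀ x ∈ Metric.ball xq 1000, ∀ u : ℂ, ‖u‖ < 2 → ‖deriv (g x) u‖ ≤ 3 / 10 ^ 7 := by
    intro x hx u hu
    have hz : ∀ z ∈ Metric.closedBall u 1, ‖z‖ < 3 := by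
      intro z hz
      rw [Metric.mem_closedBall, dist_eq_norm] at hz
      have := norm_add_le (z - u) u
      rw [sub_add_cancel] at this
      linarith
    have h6 := cauchy_deriv (g x) u 1 (3 / 10 ^ 7) (by norm_num)
      (fun z hz' => h2 x hx z (hz z hz')) (fun z hz' => by
        have := h3 x hx z (hz z hz')
        have h8 := hz z hz'
        nlinarith)
    simpa using h6
  have hDx : ∀ x ∈ Metric.ball xq 500, ∀ y ∈ Metric.ball xq 500, ∀ u : ℂ, ‖u‖ < 2 →
      ‖deriv (g x) u - deriv (g y) u‖ ≤ 1 / 10 ^ 9 * ‖x - y‖ := by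
    intro x hx y hy u hu
    have hx' : x ∈ Metric.ball xq 1000 := Metric.ball_subset_ball (by norm_num) hx
    have hy' : y ∈ Metric.ball xq 1000 := Metric.ball_subset_ball (by norm_num) hy
    have hz : ∀ z ∈ Metric.closedBall u 1, ‖z‖ < 3 := by
      intro z hz
      rw [Metric.mem_closedBall, dist_eq_norm] at hz
      have := norm_add_le (z - u) u
      rw [sub_add_cancel] at this
      linarith
    have hu3 : ‖u‖ < 3 := by linarith
    have h6 := cauchy_deriv (fun v => g x v - g y v) u 1 (1 / 10 ^ 9 * ‖x - y‖) (by norm_num)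
      (fun z hz' => (h2 x hx' z (hz z hz')).sub (h2 y hy' z (hz z hz')))
      (fun z hz' => hLx x hx y hy z (hz z hz'))
    rw [div_one] at h6
    have e : deriv (fun v => g x v - g y v) u = deriv (g x) u - deriv (g y) u :=
      deriv_fun_sub (h2 x hx' u hu3) (h2 y hy' u hu3)
    rwa [e] at h6
  have hDD : ∀ x ∈ Metric.ball xq 1000, ∀ u v : ℂ, ‖u‖ ≤ 102 / 100 → ‖v‖ ≤ 102 / 100 →
      ‖deriv (g x) u - deriv (g x) v‖ ≤ 4 / 10 ^ 7 * ‖u - v‖ := by
    intro x hx u v hu hv
    have h6 := cauchy_lip (deriv (g x)) 0 (9 / 10) (11 / 10) (3 / 10 ^ 7) (by norm_num)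
      (fun z hz => by
        have h7 : ‖z‖ < 2 := by norm_num at hz; exact hz
        have h8 : DifferentiableOn ℂ (g x) (Metric.ball 0 3) := fun w hw =>
          (h2 x hx w (by simpa using hw)).differentiableWithinAt
        have h9 := h8.deriv Metric.isOpen_ball
        exact h9.differentiableAt (Metric.isOpen_ball.mem_nhds (by
          rw [mem_ball_zero_iff]; linarith)))
      (fun z hz => hDu x hx z (by norm_num at hz; exact hz)) v u
      (by rw [mem_ball_zero_iff]; linarith) (by rw [mem_ball_zero_iff]; linarith)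
    refine h6.trans (mul_le_mul_of_nonneg_right ?_ (norm_nonneg _))
    norm_num
  have hxq : xq ∈ Metric.closedBall xq 8 := Metric.mem_closedBall_self (by norm_num)
  -- the map
  set T : ℝ → ℂ → ℂ := fun t x => xq - t + (g x (U t) - g xq u0) - (U t - u0) - ρ x with hT
  have hTm : ∀ t ∈ Icc (0 : ℝ) 6, ∀ x ∈ Metric.closedBall xq 8, ∀ (_ : True),
      T t x ∈ Metric.closedBall xq 8 := by
    intro t ht x hx _
    rw [Metric.mem_closedBall, dist_eq_norm]
    have e : T t x - xq = -(t : ℂ) + (g x (U t) - g xq u0) - (U t - u0) - (ρ x - ρ xq) := by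
      simp only [hT, h5]
      ring
    rw [e]
    have a1 : ‖(t : ℂ)‖ ≤ 6 := by
      rw [norm_real, Real.norm_eq_abs, abs_of_nonneg ht.1]
      exact ht.2
    have a2 : ‖g x (U t)‖ ≤ 1 / 10 ^ 6 := by
      have := h3 x (hball' x hx) (U t) (by linarith [hU1 t ht.1])
      have := hU1 t ht.1
      linarith
    have a3 : ‖g xq u0‖ ≤ 1 / 10 ^ 6 := by
      have := h3 xq (hball' xq hxq) u0 (by linarith)
      linarith
    have a4 : ‖U t - u0‖ ≤ 102 / 100 := by
      have e2 : U t - u0 = u0 * ((Real.exp (-t) - 1 : ℝ) : ℂ) := by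
        simp only [hU]
        push_cast
        ring
      rw [e2, norm_mul, norm_real, Real.norm_eq_abs]
      have h7 : Real.exp (-t) ≤ 1 := Real.exp_le_one_iff.2 (by linarith [ht.1])
      have h8 : 0 ≤ Real.exp (-t) := (Real.exp_pos _).le
      have h9 : |Real.exp (-t) - 1| ≤ 1 := by
        rw [abs_le]
        constructor <;> linarith
      calc ‖u0‖ * |Real.exp (-t) - 1| ≤ 102 / 100 * 1 :=
            mul_le_mul hu1 h9 (abs_nonneg _) (by norm_num)
        _ = _ := by norm_num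
    have a5 : ‖ρ x - ρ xq‖ ≤ 1 / 10 ^ 6 := by
      have h6 := h4 x (hball' x hx) xq (hball' xq hxq)
      have h7 : ‖x - xq‖ ≤ 8 := by rwa [Metric.mem_closedBall, dist_eq_norm] at hx
      linarith
    calc ‖-(t : ℂ) + (g x (U t) - g xq u0) - (U t - u0) - (ρ x - ρ xq)‖
        ≤ ‖(t : ℂ)‖ + (‖g x (U t)‖ + ‖g xq u0‖) + ‖U t - u0‖ + ‖ρ x - ρ xq‖ := by
          refine (norm_sub_le _ _).trans (add_le_add ?_ le_rfl)
          refine (norm_sub_le _ _).trans (add_le_add ?_ le_rfl)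
          refine (norm_add_le _ _).trans (add_le_add ?_ (norm_sub_le _ _))
          rw [norm_neg]
      _ ≤ 8 := by linarith
  have hTd : ∀ t ∈ Icc (0 : ℝ) 6, ∀ s ∈ Icc (0 : ℝ) 6, ∀ x ∈ Metric.closedBall xq 8,
      ∀ y ∈ Metric.closedBall xq 8,
      ‖T t x - T s y‖ ≤ 21 / 10 * |t - s| + 1 / 10 ^ 8 * ‖x - y‖ := by
    intro t ht s hs x hx y hy
    have e : T t x - T s y = -((t - s : ℝ) : ℂ) + (g x (U t) - g y (U t)) +
        (g y (U t) - g y (U s)) - (U t - U s) - (ρ x - ρ y) := by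
      simp only [hT]
      push_cast
      ring
    rw [e]
    have a1 : ‖((t - s : ℝ) : ℂ)‖ = |t - s| := by rw [norm_real, Real.norm_eq_abs]
    have a2 := hLx x (hball x hx) y (hball y hy) (U t) (by linarith [hU1 t ht.1])
    have a3 := hLu y (hball' y hy) (U t) (U s) (by linarith [hU1 t ht.1])
      (by linarith [hU1 s hs.1])
    have a4 := hUd t s ht.1 hs.1
    have a5 := h4 x (hball' x hx) y (hball' y hy)
    have a6 := abs_nonneg (t - s)
    have a7 := norm_nonneg (x - y)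
    calc ‖-((t - s : ℝ) : ℂ) + (g x (U t) - g y (U t)) + (g y (U t) - g y (U s)) - (U t - U s) -
          (ρ x - ρ y)‖
        ≤ ‖((t - s : ℝ) : ℂ)‖ + ‖g x (U t) - g y (U t)‖ + ‖g y (U t) - g y (U s)‖ +
          ‖U t - U s‖ + ‖ρ x - ρ y‖ := by
          refine (norm_sub_le _ _).trans (add_le_add ?_ le_rfl)
          refine (norm_sub_le _ _).trans (add_le_add ?_ le_rfl)
          refine (norm_add_le _ _).trans (add_le_add ?_ le_rfl)
          refine (norm_add_le _ _).trans (add_le_add ?_ le_rfl)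
          rw [norm_neg]
      _ ≤ _ := by
          rw [a1]
          linarith
  have hfix : ∀ t : ℝ, ∃ x : ℂ, t ∈ Icc (0 : ℝ) 6 → x ∈ Metric.closedBall xq 8 ∧ T t x = x := by
    intro t
    by_cases ht : t ∈ Icc (0 : ℝ) 6
    · obtain ⟨x, hx, hx2⟩ := fixed (T t) xq 8 (1 / 10 ^ 8) (by norm_num) (by norm_num)
        (by norm_num) (fun x hx => hTm t ht x hx trivial) (fun x hx y hy => by
          have := hTd t ht t ht x hx y hy
          simpa using this)
      exact ⟨x, fun _ => ⟨hx, hx2⟩⟩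
    · exact ⟨0, fun h => absurd h ht⟩
  choose ξ hξ using hfix
  have hlip : ∀ t ∈ Icc (0 : ℝ) 6, ∀ s ∈ Icc (0 : ℝ) 6, ‖ξ t - ξ s‖ ≤ 3 * |t - s| := by
    intro t ht s hs
    have h6 := hTd t ht s hs (ξ t) (hξ t ht).1 (ξ s) (hξ s hs).1
    rw [(hξ t ht).2, (hξ s hs).2] at h6
    have a6 := abs_nonneg (t - s)
    have a7 := norm_nonneg (ξ t - ξ s)
    linarith
  have h0m : (0 : ℝ) ∈ Icc (0 : ℝ) 6 := by constructor <;> norm_num
  have hξ0 : ξ 0 = xq := by
    have e : T 0 xq = xq := by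
      simp only [hT, hU0, h5]
      push_cast
      ring
    have h6 := hTd 0 h0m 0 h0m (ξ 0) (hξ 0 h0m).1 xq hxq
    rw [(hξ 0 h0m).2, e] at h6
    have a7 := norm_nonneg (ξ 0 - xq)
    have h8 : ‖ξ 0 - xq‖ ≤ 0 := by
      rw [sub_zero, abs_zero] at h6
      linarith
    exact sub_eq_zero.1 (norm_le_zero_iff.1 h8)
  refine ⟨ξ, hlip, hξ0, ?_, ?_, ?_⟩
  · intro t ht
    have := (hξ t ht).1
    rwa [Metric.mem_closedBall, dist_eq_norm] at this
  · intro t ht
    have h6 := (hξ t ht).2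
    have e1 : (Real.exp (-t) : ℂ) = exp (-(t : ℂ)) := by push_cast; rfl
    have e2 : u0 * exp (g xq u0 - u0) * exp (ξ t - xq + ρ (ξ t)) =
        u0 * (exp (-(t : ℂ)) * exp (g (ξ t) (U t) - U t)) := by
      rw [mul_assoc, ← exp_add, ← exp_add]
      congr 2
      have h7 : ξ t = xq - t + (g (ξ t) (U t) - g xq u0) - (U t - u0) - ρ (ξ t) := h6.symm
      linear_combination h7
    rw [e2]
    simp only [hU]
    rw [e1]
    ring
  · intro t ht
    have htI : t ∈ Icc (0 : ℝ) 6 := ⟨ht.1.le, ht.2⟩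
    have ht0 := ht.1
    have hx := (hξ t htI).1
    have hne : (Real.exp (-t) : ℂ) ≠ 0 := by
      exact_mod_cast (Real.exp_pos _).ne'
    have b1 : ‖deriv (g xq) u0‖ ≤ 3 / 10 ^ 7 := hDu xq (hball' xq hxq) u0 (by linarith)
    have b2 : ‖deriv (g (ξ t)) (U t) - deriv (g xq) u0‖ ≤ 1 / 10 ^ 6 * t := by
      have c1 := hDx (ξ t) (hball _ hx) xq (hball _ hxq) (U t) (by linarith [hU1 t ht0.le])
      have c2 := hDD xq (hball' xq hxq) (U t) u0 (hU1 t ht0.le) hu1
      have c3 := hUd t 0 ht0.le le_rfl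
      have c4 := hlip t htI 0 h0m
      rw [hU0, sub_zero, abs_of_pos ht0] at c3
      rw [hξ0, sub_zero, abs_of_pos ht0] at c4
      have c5 := norm_add_le (deriv (g (ξ t)) (U t) - deriv (g xq) (U t))
        (deriv (g xq) (U t) - deriv (g xq) u0)
      rw [sub_add_sub_cancel] at c5
      linarith
    have e3 : 1 / U t + deriv (g (ξ t)) (U t) = (Real.exp t : ℂ) * (1 / u0 + deriv (g xq) u0) -
        ((Real.exp t - 1 : ℝ) : ℂ) * deriv (g xq) u0 +
        (deriv (g (ξ t)) (U t) - deriv (g xq) u0) := by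
      have e4 : 1 / U t = (Real.exp t : ℂ) * (1 / u0) := by
        simp only [hU]
        have e5 : (Real.exp t : ℂ) * (Real.exp (-t) : ℂ) = 1 := by
          rw [← ofReal_mul, ← Real.exp_add, add_neg_cancel, Real.exp_zero, ofReal_one]
        field_simp
        linear_combination -e5
      rw [e4]
      push_cast
      ring
    have e6 : (1 : ℝ) + t ≤ Real.exp t := by
      have := Real.add_one_le_exp t
      linarith
    have hgoal : 1 / (u0 * Real.exp (-t)) + deriv (g (ξ t)) (u0 * Real.exp (-t)) =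
        1 / U t + deriv (g (ξ t)) (U t) := rfl
    rw [hgoal, e3]
    have d1 : Real.exp t ≤ ‖(Real.exp t : ℂ) * (1 / u0 + deriv (g xq) u0)‖ := by
      rw [norm_mul, norm_real, Real.norm_eq_abs, abs_of_pos (Real.exp_pos _)]
      have := Real.exp_pos t
      nlinarith
    have d2 : ‖((Real.exp t - 1 : ℝ) : ℂ) * deriv (g xq) u0‖ ≤
        (Real.exp t - 1) * (3 / 10 ^ 7) := by
      rw [norm_mul, norm_real, Real.norm_eq_abs, abs_of_nonneg (by linarith)]
      exact mul_le_mul_of_nonneg_left b1 (by linarith)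
    have d3 := norm_sub_norm_le ((Real.exp t : ℂ) * (1 / u0 + deriv (g xq) u0) -
        ((Real.exp t - 1 : ℝ) : ℂ) * deriv (g xq) u0)
        (-(deriv (g (ξ t)) (U t) - deriv (g xq) u0))
    have d4 := norm_sub_norm_le ((Real.exp t : ℂ) * (1 / u0 + deriv (g xq) u0))
      (((Real.exp t - 1 : ℝ) : ℂ) * deriv (g xq) u0)
    rw [norm_neg, sub_neg_eq_add] at d3
    linarith

/-- The value `z_{k+2} D_{k+1}` as an exponential. -/
lemma value (h1 : T_CHP) (n : ℕ) (s : ℕ → ℤ) (k : ℕ) (L ζ : ℂ) (hC : Ch n s k L)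
    (hζ : 1 + zz n L (k + 1) / n = exp (ζ / n)) :
    zz n L (k + 2) * DD n L (k + 1) = exp (ζ + L +
      ∑ i ∈ Finset.range k, (YY n s L i - XX n L (i + 1) / n) + YY n s L k - ζ / n) := by
  obtain ⟨-, c2, -, -, -, -, c7, c8, -⟩ := h1 n s k L hC
  have hn0 : (n : ℂ) ≠ 0 := by
    have : (0 : ℝ) < n := lt_of_lt_of_le (by norm_num) hC.hn
    exact_mod_cast this.ne'
  have e1 : zz n L (k + 2) = exp (ζ + L) := by
    rw [zz_succ, Limb.E, hζ, ← exp_nat_mul, ← exp_add]
    congr 1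
    field_simp
    ring
  have e2 : ∀ i ∈ Finset.range k, zz n L (i + 1) / (1 + zz n L (i + 1) / n) =
      exp (YY n s L i - XX n L (i + 1) / n) := by
    intro i hi
    rw [Finset.mem_range] at hi
    rw [exp_sub, c2 i hi.le]
    congr 1
    have h7 := c7 (i + 1) (by omega) (by omega)
    have h8 : 0 < (XX n L (i + 1)).re := by
      have h9 := hC.hr (i + 1) (by omega)
      have h10 := c8 (i + 1) (by omega)
      linarith [h7.1]
    have hne : 1 + zz n L (i + 1) / n ≠ 0 := by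
      intro h0
      rw [XX, h0, log_zero, mul_zero] at h8
      norm_num at h8
    rw [XX, mul_div_cancel_left₀ _ hn0, exp_log hne]
  have e3 : DD n L (k + 1) = exp (∑ i ∈ Finset.range k, (YY n s L i - XX n L (i + 1) / n)) *
      exp (YY n s L k - ζ / n) := by
    rw [DD, Finset.prod_range_succ, Finset.prod_congr rfl e2, ← exp_sum, hζ, exp_sub,
      c2 k le_rfl]
  rw [e1, e3, ← exp_add, ← exp_add]
  congr 1
  ring

lemma log_sub_le (a b : ℂ) (ha : ‖a‖ ≤ 1 / 4) (hb : ‖b‖ ≤ 1 / 4) :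
    ‖log (1 + a) - log (1 + b)‖ ≤ 2 * ‖a - b‖ := by
  have h1 := Convex.norm_image_sub_le_of_norm_deriv_le (f := fun z : ℂ => log (1 + z)) (C := 2)
    (s := Metric.closedBall 0 (1 / 4)) (x := b) (y := a) ?_ ?_ (convex_closedBall _ _)
    (by simpa using hb) (by simpa using ha)
  · exact h1
  · intro z hz
    have hz1 : ‖z‖ ≤ 1 / 4 := by simpa using hz
    have hs : 1 + z ∈ slitPlane := mem_slitPlane_of_norm_lt_one (by linarith)
    exact ((differentiableAt_id.const_add 1).clog hs)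
  · intro z hz
    have hz1 : ‖z‖ ≤ 1 / 4 := by simpa using hz
    have hs : 1 + z ∈ slitPlane := mem_slitPlane_of_norm_lt_one (by linarith)
    have hd : HasDerivAt (fun z : ℂ => log (1 + z)) (1 / (1 + z)) z :=
      ((hasDerivAt_id z).const_add 1).clog hs
    rw [hd.deriv, norm_div, norm_one]
    have h2 : 3 / 4 ≤ ‖1 + z‖ := by
      have h3 := norm_sub_le (1 + z) z
      rw [add_sub_cancel_right, norm_one] at h3
      linarith
    rw [div_le_iff₀ (by linarith)]
    linarith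

lemma log_le (a : ℂ) (ha : ‖a‖ ≤ 1 / 4) : ‖log (1 + a)‖ ≤ 2 * ‖a‖ := by
  have := log_sub_le a 0 ha (by norm_num)
  simpa using this

lemma exp_sub_one_le (a : ℂ) (ha : ‖a‖ ≤ 1) : ‖exp a - 1‖ ≤ 2 * ‖a‖ := by
  have h1 := Complex.norm_exp_sub_one_le ha
  exact h1

end MUP_

open MUP_ in
/-- MUP: towards the centre of a component. -/
theorem p_MUP (h1 : T_CHP) (h2 : T_CHART) (h3 : T_GJD) (_h4 : T_LN) (h5 : T_LIP) : T_MUP := by
  intro n s k q u0 hC hM hrr him hzn hu1 hu2 heq hder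
  obtain ⟨c1, c2, c3, c4, c5, c6, c7, c8, c9⟩ := h1 n s k q hC
  have hn := hC.hn
  have hnp : (0 : ℝ) < n := lt_of_lt_of_le (by norm_num) hn
  have hn0 : (n : ℂ) ≠ 0 := by exact_mod_cast hnp.ne'
  obtain ⟨Φ, p1, p2, p3, p4⟩ := h2 n s k hn hC.h0
  have hq0 : 0 ≤ q.re := by
    have a1 := hC.hr 0 (by omega)
    have a2 := c8 0 (by omega)
    rw [c1.1] at a1
    linarith
  set zq := zz n q (k + 1) with hzq
  set yq := YY n s q k with hyq
  set xq := XX n q (k + 1) with hxq
  have hzq_norm : ‖zq‖ = Real.exp yq.re := c3 k le_rfl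
  have hzq_le : ‖zq‖ ≤ 3 * n := norm_zz_le hn hM hq0 _
  have hyq_le : yq.re ≤ Real.log (3 * n) := by
    rw [Real.le_log_iff_exp_le (by positivity), ← hzq_norm]
    exact hzq_le
  have h21 := c8 k le_rfl
  have he50 : (10 : ℝ) ^ 20 ≤ Real.exp yq.re := by
    have a1 : Real.exp 50 ≤ Real.exp yq.re := Real.exp_le_exp.2 (by linarith)
    have a2 : (10 : ℝ) ^ 20 ≤ Real.exp 50 := by
      have a3 : Real.exp 50 = (Real.exp 1) ^ 50 := by
        rw [← Real.exp_nat_mul]
        norm_num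
      rw [a3]
      have a4 : (2.7182818283 : ℝ) < Real.exp 1 := Real.exp_one_gt_d9
      calc (10 : ℝ) ^ 20 ≤ (2.7182818283 : ℝ) ^ 50 := by norm_num
        _ ≤ _ := pow_le_pow_left₀ (by norm_num) a4.le _
    linarith
  have hzq0 : zq ≠ 0 := by
    rw [← norm_pos_iff, hzq_norm]
    exact Real.exp_pos _
  have h1z : 1 + zq / n ≠ 0 := by
    intro h0
    apply hzn
    field_simp at h0
    linear_combination h0
  have hexq : exp (xq / n) = 1 + zq / n := by
    rw [hxq, XX, mul_div_cancel_left₀ _ hn0, exp_log h1z]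
  -- the functions
  set z : ℂ → ℂ := fun x => n * (exp (x / n) - 1) with hz
  have hzxq : z xq = zq := by
    simp only [hz]
    rw [hexq]
    field_simp
    ring
  set a : ℂ → ℂ := fun x => z x / zq - 1 with ha
  set y : ℂ → ℂ := fun x => yq + log (1 + a x) with hy
  have hzdiff : ∀ x x' : ℂ, z x - z x' = (n + z x') * (exp ((x - x') / n) - 1) := by
    intro x x'
    have e1 : exp (x / n) = exp (x' / n) * exp ((x - x') / n) := by
      rw [← exp_add]
      congr 1
      field_simp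
      ring
    simp only [hz]
    rw [e1]
    ring
  have hnorm_n : ‖(n : ℂ)‖ = n := by simp
  have hdivn : ∀ x x' : ℂ, ‖x - x'‖ ≤ 2000 → ‖exp ((x - x') / n) - 1‖ ≤ 2 * ‖x - x'‖ / n := by
    intro x x' hx
    have a1 : ‖(x - x') / (n : ℂ)‖ = ‖x - x'‖ / n := by rw [norm_div, hnorm_n]
    have a2 : ‖(x - x') / (n : ℂ)‖ ≤ 1 := by
      rw [a1, div_le_one hnp]
      exact hx.trans (le_trans (by norm_num) hn)
    have := exp_sub_one_le _ a2
    rw [a1] at this
    rw [mul_div_assoc]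
    exact this
  have hzq20 : (10 : ℝ) ^ 20 ≤ ‖zq‖ := by rw [hzq_norm]; exact he50
  have hzqp : (0 : ℝ) < ‖zq‖ := lt_of_lt_of_le (by norm_num) hzq20
  have hratio : (n + 11 / 10 * ‖zq‖) / (n * ‖zq‖) ≤ 21 / 10 * (1 / 10 ^ 20) := by
    rw [div_le_iff₀ (by positivity)]
    nlinarith [mul_le_mul hn (le_refl ‖zq‖) hzqp.le hnp.le,
      mul_le_mul hzq20 (le_refl (n : ℝ)) hnp.le hzqp.le]
  have haq : ∀ x ∈ Metric.ball xq 1000, ‖a x‖ ≤ 1 / 10 ^ 16 := by
    intro x hx
    rw [Metric.mem_ball, dist_eq_norm] at hx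
    have e1 : a x = (z x - z xq) / zq := by
      simp only [ha]
      rw [hzxq, sub_div, div_self hzq0]
    rw [e1, hzdiff, hzxq, norm_div, norm_mul]
    have a1 := hdivn x xq (by linarith)
    have a2 : ‖(n : ℂ) + zq‖ ≤ n + ‖zq‖ := (norm_add_le _ _).trans (by rw [hnorm_n])
    have a3 : 2 * ‖x - xq‖ / n ≤ 2000 / n := by
      apply div_le_div_of_nonneg_right _ hnp.le
      linarith
    calc ‖(n : ℂ) + zq‖ * ‖exp ((x - xq) / n) - 1‖ / ‖zq‖ ≤ (n + ‖zq‖) * (2000 / n) / ‖zq‖ := by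
          apply div_le_div_of_nonneg_right _ hzqp.le
          exact mul_le_mul a2 (a1.trans a3) (norm_nonneg _) (by positivity)
      _ = 2000 * ((n + ‖zq‖) / (n * ‖zq‖)) := by
          field_simp
      _ ≤ 2000 * ((n + 11 / 10 * ‖zq‖) / (n * ‖zq‖)) := by
          apply mul_le_mul_of_nonneg_left _ (by norm_num)
          apply div_le_div_of_nonneg_right _ (by positivity)
          linarith
      _ ≤ 2000 * (21 / 10 * (1 / 10 ^ 20)) := by
          apply mul_le_mul_of_nonneg_left hratio (by norm_num)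
      _ ≤ 1 / 10 ^ 16 := by norm_num
  have hzle : ∀ x ∈ Metric.ball xq 1000, ‖z x‖ ≤ 11 / 10 * ‖zq‖ := by
    intro x hx
    have a1 := haq x hx
    have e1 : z x = (1 + a x) * zq := by
      simp only [ha]
      field_simp
      ring
    rw [e1, norm_mul]
    have a2 := norm_add_le (1 : ℂ) (a x)
    rw [norm_one] at a2
    apply mul_le_mul_of_nonneg_right _ hzqp.le
    linarith
  have hadiff : ∀ x ∈ Metric.ball xq 1000, ∀ x' ∈ Metric.ball xq 1000,
      ‖a x - a x'‖ ≤ 1 / 10 ^ 18 * ‖x - x'‖ := by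
    intro x hx x' hx'
    have e1 : a x - a x' = (z x - z x') / zq := by
      simp only [ha]
      ring
    have hxx : ‖x - x'‖ ≤ 2000 := by
      rw [Metric.mem_ball, dist_eq_norm] at hx hx'
      have := norm_sub_le (x - xq) (x' - xq)
      rw [sub_sub_sub_cancel_right] at this
      linarith
    rw [e1, hzdiff, norm_div, norm_mul]
    have a1 := hdivn x x' hxx
    have a2 : ‖(n : ℂ) + z x'‖ ≤ n + 11 / 10 * ‖zq‖ :=
      (norm_add_le _ _).trans (by rw [hnorm_n]; linarith [hzle x' hx'])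
    calc ‖(n : ℂ) + z x'‖ * ‖exp ((x - x') / n) - 1‖ / ‖zq‖
        ≤ (n + 11 / 10 * ‖zq‖) * (2 * ‖x - x'‖ / n) / ‖zq‖ := by
          apply div_le_div_of_nonneg_right _ hzqp.le
          exact mul_le_mul a2 a1 (norm_nonneg _) (by positivity)
      _ = 2 * ((n + 11 / 10 * ‖zq‖) / (n * ‖zq‖)) * ‖x - x'‖ := by
          field_simp
      _ ≤ 1 / 10 ^ 18 * ‖x - x'‖ := by
          apply mul_le_mul_of_nonneg_right _ (norm_nonneg _)
          calc 2 * ((n + 11 / 10 * ‖zq‖) / (n * ‖zq‖)) ≤ 2 * (21 / 10 * (1 / 10 ^ 20)) := by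
                apply mul_le_mul_of_nonneg_left hratio (by norm_num)
            _ ≤ _ := by norm_num
  have hydiff : ∀ x ∈ Metric.ball xq 1000, ∀ x' ∈ Metric.ball xq 1000,
      ‖y x - y x'‖ ≤ 1 / 10 ^ 17 * ‖x - x'‖ := by
    intro x hx x' hx'
    have e1 : y x - y x' = log (1 + a x) - log (1 + a x') := by
      simp only [hy]
      ring
    rw [e1]
    have a1 := log_sub_le (a x) (a x') ((haq x hx).trans (by norm_num))
      ((haq x' hx').trans (by norm_num))
    have a2 := hadiff x hx x' hx'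
    have a3 := norm_nonneg (x - x')
    linarith
  have hxqb : xq ∈ Metric.ball xq 1000 := Metric.mem_ball_self (by norm_num)
  have haxq : a xq = 0 := by
    simp only [ha]
    rw [hzxq, div_self hzq0, sub_self]
  have hyxq : y xq = yq := by
    simp only [hy]
    rw [haxq, add_zero, log_one, add_zero]
  have hyq2 : ∀ x ∈ Metric.ball xq 1000, ‖y x - yq‖ ≤ 1 / 10 ^ 14 := by
    intro x hx
    have a1 := hydiff x hx xq hxqb
    rw [hyxq] at a1
    rw [Metric.mem_ball, dist_eq_norm] at hx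
    linarith
  have hlog43 : Real.log (3 * n) + 1 / 100 < Real.log (4 * n) := by
    have e1 : Real.log (4 * n) = Real.log (3 * n) + Real.log (4 / 3) := by
      rw [← Real.log_mul (by positivity) (by norm_num)]
      congr 1
      ring
    have e2 : 1 - (4 / 3 : ℝ)⁻¹ ≤ Real.log (4 / 3) := Real.one_sub_inv_le_log_of_pos (by norm_num)
    norm_num at e2
    rw [e1]
    linarith
  have hyre : ∀ x ∈ Metric.ball xq 1000, |(y x).re - yq.re| ≤ 1 / 10 ^ 14 := by
    intro x hx
    have := (Complex.abs_re_le_norm (y x - yq)).trans (hyq2 x hx)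
    rwa [sub_re] at this
  have hyim : ∀ x ∈ Metric.ball xq 1000, |(y x).im - yq.im| ≤ 1 / 10 ^ 14 := by
    intro x hx
    have := (Complex.abs_im_le_norm (y x - yq)).trans (hyq2 x hx)
    rwa [sub_im] at this
  have hin : ∀ x ∈ Metric.ball xq 1000, rr s k < (y x).re ∧ (y x).re < Real.log (4 * n) ∧
      |(y x).im| < 10 := by
    intro x hx
    have a1 := abs_le.1 (hyre x hx)
    have a2 := hyim x hx
    have a3 : |(y x).im| ≤ |yq.im| + |(y x).im - yq.im| := by
      have := abs_add_le yq.im ((y x).im - yq.im)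
      rwa [add_sub_cancel] at this
    refine ⟨?_, ?_, ?_⟩
    · linarith
    · linarith
    · linarith
  set L : ℂ → ℂ := fun x => Φ (y x) with hL
  have hCL : ∀ x ∈ Metric.ball xq 1000, Ch n s k (L x) := by
    intro x hx
    obtain ⟨b1, b2, b3⟩ := hin x hx
    exact (p1 (y x) b1.le b2.le b3.le).1
  have hYL : ∀ x ∈ Metric.ball xq 1000, YY n s (L x) k = y x := by
    intro x hx
    obtain ⟨b1, b2, b3⟩ := hin x hx
    exact (p1 (y x) b1.le b2.le b3.le).2
  have hLq : L xq = q := by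
    simp only [hL]
    rw [hyxq]
    exact p2 q hC
  have hone : ∀ x ∈ Metric.ball xq 1000, zz n (L x) (k + 1) = z x := by
    intro x hx
    have a1 := (h1 n s k (L x) (hCL x hx)).2.1 k le_rfl
    rw [← a1, hYL x hx]
    simp only [hy]
    have a2 := haq x hx
    have a3 : 1 + a x ≠ 0 := by
      intro h0
      have a4 : a x = -1 := by linear_combination h0
      rw [a4] at a2
      norm_num at a2
    rw [exp_add, exp_log a3, c2 k le_rfl]
    simp only [ha]
    rw [← hzq]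
    field_simp
    ring
  have hone' : ∀ x ∈ Metric.ball xq 1000, 1 + zz n (L x) (k + 1) / n = exp (x / n) := by
    intro x hx
    rw [hone x hx]
    simp only [hz]
    field_simp
    ring
  have hzne : ∀ x ∈ Metric.ball xq 1000, zz n (L x) (k + 1) ≠ -n := by
    intro x hx h0
    have := hone' x hx
    rw [h0, neg_div, div_self hn0, add_neg_cancel] at this
    exact exp_ne_zero _ this.symm
  have hLdist : ∀ x ∈ Metric.ball xq 1000, ∀ x' ∈ Metric.ball xq 1000, ∀ i, i ≤ k →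
      ‖YY n s (L x) i - YY n s (L x') i‖ ≤ (1 / 10 ^ 7) ^ (k - i) * ‖y x - y x'‖ := by
    intro x hx x' hx' i hi
    have := h5 n s k (L x') (L x) (hCL x' hx') (hCL x hx) i hi
    rwa [hYL x hx, hYL x' hx'] at this
  have hLL : ∀ x ∈ Metric.ball xq 1000, ∀ x' ∈ Metric.ball xq 1000,
      L x - L x' = YY n s (L x) 0 - YY n s (L x') 0 := by
    intro x hx x' hx'
    have a1 := (h1 n s k (L x) (hCL x hx)).1
    have a2 := (h1 n s k (L x') (hCL x' hx')).1
    apply Complex.ext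
    · rw [sub_re, sub_re, a1.1, a2.1]
    · rw [sub_im, sub_im, a1.2, a2.2]
      ring
  -- the rest
  set W : ℂ → ℂ := fun x => L x +
    ∑ i ∈ Finset.range k, (YY n s (L x) i - XX n (L x) (i + 1) / n) + y x - x / n with hW
  set ρ : ℂ → ℂ := fun x => W x - W xq with hρ
  have hval : ∀ x ∈ Metric.ball xq 1000,
      zz n (L x) (k + 2) * DD n (L x) (k + 1) = exp (x + W x) := by
    intro x hx
    rw [value h1 n s k (L x) x (hCL x hx) (hone' x hx), hYL x hx]
    congr 1
    simp only [hW]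
    ring
  have hWdiff : ∀ x ∈ Metric.ball xq 1000, ∀ x' ∈ Metric.ball xq 1000,
      ‖W x - W x'‖ ≤ 1 / 10 ^ 9 * ‖x - x'‖ := by
    intro x hx x' hx'
    set d := ‖y x - y x'‖ with hd
    have hd0 : 0 ≤ d := norm_nonneg _
    have hd1 : d ≤ 1 / 10 ^ 17 * ‖x - x'‖ := hydiff x hx x' hx'
    have b0 : ‖L x - L x'‖ ≤ d := by
      rw [hLL x hx x' hx']
      refine (hLdist x hx x' hx' 0 (by omega)).trans ?_
      have : ((1 : ℝ) / 10 ^ 7) ^ (k - 0) ≤ 1 := pow_le_one₀ (by norm_num) (by norm_num)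
      nlinarith
    have hterm : ∀ i ∈ Finset.range k,
        ‖(YY n s (L x) i - XX n (L x) (i + 1) / n) -
          (YY n s (L x') i - XX n (L x') (i + 1) / n)‖ ≤
          (1 / 10 ^ 7) ^ (k - i) * d + ((1 / 10 ^ 7) ^ (k - (i + 1)) * d +
            (1 / 10 ^ 7) ^ (k - 0) * d) := by
      intro i hi
      rw [Finset.mem_range] at hi
      have e1 : XX n (L x) (i + 1) - XX n (L x') (i + 1) =
          (YY n s (L x) (i + 1) - YY n s (L x') (i + 1)) -
            (YY n s (L x) 0 - YY n s (L x') 0) := by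
        rw [← hLL x hx x' hx']
        simp only [YY]
        ring
      have e2 : (YY n s (L x) i - XX n (L x) (i + 1) / n) -
          (YY n s (L x') i - XX n (L x') (i + 1) / n) =
          (YY n s (L x) i - YY n s (L x') i) -
            (XX n (L x) (i + 1) - XX n (L x') (i + 1)) / n := by ring
      rw [e2]
      have b1 := hLdist x hx x' hx' i hi.le
      have b2 := hLdist x hx x' hx' (i + 1) (by omega)
      have b3 := hLdist x hx x' hx' 0 (by omega)
      have b4 : ‖(XX n (L x) (i + 1) - XX n (L x') (i + 1)) / (n : ℂ)‖ ≤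
          ‖XX n (L x) (i + 1) - XX n (L x') (i + 1)‖ := by
        rw [norm_div, hnorm_n]
        exact div_le_self (norm_nonneg _) (le_trans (by norm_num) hn)
      have b5 : ‖XX n (L x) (i + 1) - XX n (L x') (i + 1)‖ ≤
          (1 / 10 ^ 7) ^ (k - (i + 1)) * d + (1 / 10 ^ 7) ^ (k - 0) * d := by
        rw [e1]
        exact (norm_sub_le _ _).trans (add_le_add b2 b3)
      exact (norm_sub_le _ _).trans (add_le_add b1 (b4.trans b5))
    have hgeo : ∀ i ∈ Finset.range k, (1 / 10 ^ 7 : ℝ) ^ (k - i) * d +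
        ((1 / 10 ^ 7) ^ (k - (i + 1)) * d + (1 / 10 ^ 7) ^ (k - 0) * d) ≤
          (3 * d) * (1 / 2) ^ (k - (i + 1)) := by
      intro i hi
      rw [Finset.mem_range] at hi
      have g1 : ∀ m m' : ℕ, m' ≤ m → ((1 : ℝ) / 10 ^ 7) ^ m ≤ (1 / 2) ^ m' := by
        intro m m' h
        calc ((1 : ℝ) / 10 ^ 7) ^ m ≤ (1 / 2) ^ m := pow_le_pow_left₀ (by norm_num) (by norm_num) _
          _ ≤ (1 / 2) ^ m' := pow_le_pow_of_le_one (by norm_num) (by norm_num) h
      have g2 := g1 (k - i) (k - (i + 1)) (by omega)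
      have g3 := g1 (k - (i + 1)) (k - (i + 1)) le_rfl
      have g4 := g1 (k - 0) (k - (i + 1)) (by omega)
      nlinarith
    have hsum : ‖∑ i ∈ Finset.range k, (YY n s (L x) i - XX n (L x) (i + 1) / n) -
        ∑ i ∈ Finset.range k, (YY n s (L x') i - XX n (L x') (i + 1) / n)‖ ≤ 6 * d := by
      rw [← Finset.sum_sub_distrib]
      refine (norm_sum_le_of_le _ (fun i hi => (hterm i hi).trans (hgeo i hi))).trans ?_
      rw [← Finset.mul_sum]
      have e3 : ∑ i ∈ Finset.range k, (1 / 2 : ℝ) ^ (k - (i + 1)) =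
          ∑ i ∈ Finset.range k, (1 / 2 : ℝ) ^ i := by
        rw [← Finset.sum_range_reflect]
        apply Finset.sum_congr rfl
        intro i hi
        rw [Finset.mem_range] at hi
        congr 1
        omega
      rw [e3]
      have e4 : ∑ i ∈ Finset.range k, (1 / 2 : ℝ) ^ i ≤ 2 := by
        rw [geom_sum_eq (by norm_num)]
        have : (0 : ℝ) < (1 / 2) ^ k := by positivity
        have e5 : (((1 / 2 : ℝ) ^ k - 1) / (1 / 2 - 1)) = 2 * (1 - (1 / 2) ^ k) := by ring
        rw [e5]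
        linarith
      nlinarith
    have e6 : W x - W x' = (L x - L x') +
        (∑ i ∈ Finset.range k, (YY n s (L x) i - XX n (L x) (i + 1) / n) -
          ∑ i ∈ Finset.range k, (YY n s (L x') i - XX n (L x') (i + 1) / n)) +
        (y x - y x') - (x - x') / n := by
      simp only [hW]
      ring
    rw [e6]
    have b7 : ‖(x - x') / (n : ℂ)‖ ≤ 1 / 10 ^ 20 * ‖x - x'‖ := by
      rw [norm_div, hnorm_n, div_le_iff₀ hnp]
      have := norm_nonneg (x - x')
      nlinarith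
    have b8 := norm_nonneg (x - x')
    calc _ ≤ ‖L x - L x'‖ + ‖∑ i ∈ Finset.range k, (YY n s (L x) i - XX n (L x) (i + 1) / n) -
          ∑ i ∈ Finset.range k, (YY n s (L x') i - XX n (L x') (i + 1) / n)‖ + ‖y x - y x'‖ +
            ‖(x - x') / (n : ℂ)‖ := by
          refine (norm_sub_le _ _).trans (add_le_add ?_ le_rfl)
          refine (norm_add_le _ _).trans (add_le_add ?_ le_rfl)
          exact norm_add_le _ _
      _ ≤ d + 6 * d + d + 1 / 10 ^ 20 * ‖x - x'‖ :=
          add_le_add (add_le_add (add_le_add b0 hsum) le_rfl) b7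
      _ ≤ _ := by
          linarith
  have hlow : ∀ x ∈ Metric.ball xq 1000, ∀ i, 1 ≤ i → i ≤ k + 1 →
      (10 : ℝ) ^ 8 ≤ ‖zz n (L x) i‖ ∧ zz n (L x) i ≠ -n := by
    intro x hx i hi1 hi2
    obtain ⟨-, -, d3, -, -, -, d7, d8, -⟩ := h1 n s k (L x) (hCL x hx)
    obtain ⟨j, rfl⟩ : ∃ j, i = j + 1 := ⟨i - 1, by omega⟩
    constructor
    · rw [d3 j (by omega)]
      have b1 := (hCL x hx).hr j (by omega)
      have b2 := d8 j (by omega)
      have b3 : Real.exp 21 ≤ Real.exp (YY n s (L x) j).re := Real.exp_le_exp.2 (by linarith)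
      have b4 : (10 : ℝ) ^ 8 ≤ Real.exp 21 := by
        have a3 : Real.exp 21 = (Real.exp 1) ^ 21 := by
          rw [← Real.exp_nat_mul]
          norm_num
        rw [a3]
        have a4 : (2.7182818283 : ℝ) < Real.exp 1 := Real.exp_one_gt_d9
        calc (10 : ℝ) ^ 8 ≤ (2.7182818283 : ℝ) ^ 21 := by norm_num
          _ ≤ _ := pow_le_pow_left₀ (by norm_num) a4.le _
      linarith
    · rcases Nat.lt_or_ge j k with hj | hj
      · intro h0
        have b1 := d7 (j + 1) (by omega) (by omega)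
        have b2 := (hCL x hx).hr (j + 1) (by omega)
        have b3 := d8 (j + 1) (by omega)
        have b5 : XX n (L x) (j + 1) = 0 := by
          rw [XX, h0, neg_div, div_self hn0, add_neg_cancel, log_zero, mul_zero]
        rw [b5] at b1
        have b6 := b1.1
        rw [zero_re] at b6
        linarith
      · have : j = k := by omega
        rw [this]
        exact hzne x hx
  have hydf : ∀ x ∈ Metric.ball xq 1000, DifferentiableAt ℂ y x := by
    intro x hx
    have a1 : 1 + a x ∈ slitPlane := mem_slitPlane_of_norm_lt_one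
      (lt_of_le_of_lt (haq x hx) (by norm_num))
    have a2 : DifferentiableAt ℂ (fun x => 1 + a x) x := by
      simp only [ha, hz]
      fun_prop
    exact (a2.clog a1).const_add yq
  have hLdf : ∀ x ∈ Metric.ball xq 1000, DifferentiableAt ℂ L x := by
    intro x hx
    obtain ⟨b1, b2, b3⟩ := hin x hx
    exact (p4 (y x) b1 b2 b3).comp x (hydf x hx)
  set g : ℂ → ℂ → ℂ := fun x u => GG n (L x) (k + 1) u with hg
  have G1 : ∀ x ∈ Metric.ball xq 1000, ∀ u : ℂ, ‖u‖ < 3 → DifferentiableAt ℂ (fun x => g x u) x := by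
    intro x hx u hu
    have b1 := h3 n (k + 1) (L x) u hn (hlow x hx) hu
    have b2 : DifferentiableAt ℂ (fun x => (L x, u)) x :=
      (hLdf x hx).prodMk (differentiableAt_const u)
    exact b1.comp x b2
  have G2 : ∀ x ∈ Metric.ball xq 1000, ∀ u : ℂ, ‖u‖ < 3 → DifferentiableAt ℂ (g x) u := by
    intro x hx u hu
    exact (lim_GDISC n (k + 1) (L x) u hn (hlow x hx) hu).2.2.2.2.1
  have G3 : ∀ x ∈ Metric.ball xq 1000, ∀ u : ℂ, ‖u‖ < 3 → ‖g x u‖ ≤ 1 / 10 ^ 7 * ‖u‖ := by
    intro x hx u hu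
    exact (lim_GDISC n (k + 1) (L x) u hn (hlow x hx) hu).1
  have hu0 : u0 ≠ 0 := by
    rw [← norm_pos_iff]
    linarith
  have hgq : g xq = GG n q (k + 1) := by
    simp only [hg]
    rw [hLq]
  obtain ⟨ξ, x1, x2, x3, x4, x5⟩ := path xq u0 g ρ G1 G2 G3 (fun x hx x' hx' => by
      have e1 : ρ x - ρ x' = W x - W x' := by
        simp only [hρ]
        ring
      rw [e1]
      exact hWdiff x hx x' hx') (by simp [hρ]) hu0 hu2 (by rw [hgq]; exact hder)
  have hξb : ∀ t ∈ Icc (0 : ℝ) 6, ξ t ∈ Metric.ball xq 1000 := by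
    intro t ht
    rw [Metric.mem_ball, dist_eq_norm]
    have := x3 t ht
    linarith
  have hkey : ∀ t ∈ Icc (0 : ℝ) 6, (u0 * Real.exp (-t)) *
      exp (GG n (L (ξ t)) (k + 1) (u0 * Real.exp (-t)) - u0 * Real.exp (-t)) =
        zz n (L (ξ t)) (k + 2) * DD n (L (ξ t)) (k + 1) := by
    intro t ht
    have e1 := x4 t ht
    have e2 : u0 * exp (g xq u0 - u0) = exp (xq + W xq) := by
      rw [hgq, heq, ← hval xq hxqb, hLq]
    rw [e2, ← exp_add] at e1
    rw [hval (ξ t) (hξb t ht)]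
    have e3 : xq + W xq + (ξ t - xq + ρ (ξ t)) = ξ t + W (ξ t) := by
      simp only [hρ]
      ring
    rw [e3] at e1
    exact e1
  refine ⟨fun t => L (ξ t), ?_, ?_, ?_, ?_, ?_⟩
  · have hlip : LipschitzOnWith 3 (fun t => L (ξ t)) (Icc (0 : ℝ) 6) := by
      apply LipschitzOnWith.of_dist_le_mul
      intro t ht t' ht'
      rw [dist_eq_norm, Real.dist_eq]
      have b1 := hLL (ξ t) (hξb t ht) (ξ t') (hξb t' ht')
      have b2 := hLdist (ξ t) (hξb t ht) (ξ t') (hξb t' ht') 0 (by omega)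
      have b3 : ((1 : ℝ) / 10 ^ 7) ^ (k - 0) ≤ 1 := pow_le_one₀ (by norm_num) (by norm_num)
      have b4 := hydiff (ξ t) (hξb t ht) (ξ t') (hξb t' ht')
      have b5 := x1 t ht t' ht'
      have b6 := norm_nonneg (y (ξ t) - y (ξ t'))
      have b7 := norm_nonneg (ξ t - ξ t')
      rw [b1]
      have b8 : ‖YY n s (L (ξ t)) 0 - YY n s (L (ξ t')) 0‖ ≤ ‖y (ξ t) - y (ξ t')‖ := by
        refine b2.trans ?_
        nlinarith
      have b9 : ‖y (ξ t) - y (ξ t')‖ ≤ ‖ξ t - ξ t'‖ := by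
        norm_num at b4
        linarith
      have b10 := (b8.trans b9).trans b5
      exact_mod_cast b10
    exact hlip.continuousOn
  · simp only
    rw [x2, hLq]
  · intro t ht
    refine ⟨hCL _ (hξb t ht), ?_, hzne _ (hξb t ht)⟩
    simp only
    rw [hYL _ (hξb t ht)]
    exact (hyq2 _ (hξb t ht)).trans (by norm_num)
  · intro t ht
    have htI : t ∈ Icc (0 : ℝ) 6 := ⟨ht.1.le, ht.2⟩
    have hne : (Real.exp (-t) : ℂ) ≠ 0 := by
      exact_mod_cast (Real.exp_pos _).ne'
    refine ⟨u0 * Real.exp (-t), mul_ne_zero hu0 hne, ?_, hkey t htI, x5 t ht⟩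
    rw [norm_mul, norm_real, Real.norm_eq_abs, abs_of_pos (Real.exp_pos _)]
    have h6 : Real.exp (-t) ≤ 1 := Real.exp_le_one_iff.2 (by linarith [ht.1])
    have h7 : 0 < Real.exp (-t) := Real.exp_pos _
    nlinarith
  · have h6m : (6 : ℝ) ∈ Icc (0 : ℝ) 6 := by constructor <;> norm_num
    rw [← hkey 6 h6m]
    have hU : ‖u0 * (Real.exp (-6) : ℂ)‖ ≤ 26 / 10000 := by
      rw [norm_mul, norm_real, Real.norm_eq_abs, abs_of_pos (Real.exp_pos _)]
      have b1 : Real.exp (-6) ≤ 25 / 10000 := by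
        rw [Real.exp_neg, inv_le_comm₀ (Real.exp_pos _) (by norm_num)]
        have a3 : Real.exp 6 = (Real.exp 1) ^ 6 := by
          rw [← Real.exp_nat_mul]
          norm_num
        rw [a3]
        have a4 : (2.7182818283 : ℝ) < Real.exp 1 := Real.exp_one_gt_d9
        calc (25 / 10000 : ℝ)⁻¹ ≤ (2.7182818283 : ℝ) ^ 6 := by norm_num
          _ ≤ _ := pow_le_pow_left₀ (by norm_num) a4.le _
      have b2 := Real.exp_pos (-6)
      nlinarith [norm_nonneg u0]
    rw [norm_mul]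
    have hg6 := G3 (ξ 6) (hξb 6 h6m) (u0 * (Real.exp (-6) : ℂ)) (by linarith)
    have b3 : ‖exp (GG n (L (ξ 6)) (k + 1) (u0 * (Real.exp (-6) : ℂ)) -
        u0 * (Real.exp (-6) : ℂ))‖ ≤ Real.exp (1 / 100) := by
      rw [norm_exp]
      apply Real.exp_le_exp.2
      refine (re_le_norm _).trans ((norm_sub_le _ _).trans ?_)
      have hg7 : ‖GG n (L (ξ 6)) (k + 1) (u0 * (Real.exp (-6) : ℂ))‖ ≤
        1 / 10 ^ 7 * ‖u0 * (Real.exp (-6) : ℂ)‖ := hg6
      linarith
    have b4 : Real.exp (1 / 100) ≤ 11 / 10 := by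
      have := Real.exp_bound_div_one_sub_of_interval (x := 1 / 100) (by norm_num) (by norm_num)
      refine this.trans ?_
      norm_num
    calc ‖u0 * (Real.exp (-6) : ℂ)‖ * ‖exp (GG n (L (ξ 6)) (k + 1) (u0 * (Real.exp (-6) : ℂ)) -
        u0 * (Real.exp (-6) : ℂ))‖ ≤ 26 / 10000 * (11 / 10) :=
          mul_le_mul hU (b3.trans b4) (norm_nonneg _) (by norm_num)
      _ ≤ 1 / 200 := by norm_num

end Pool.Agent.Modu
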