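import Pool.Agent.Modu.Targets

/-!
# MODU: NC, the Multibrot set has no compact open parts
-/

set_option autoImplicit false

open Complex Filter Topology Set
open Pool.Agent.Multibrot Pool.Agent.Limb

namespace Pool.Agent.Modu

namespace NC_

theorem zero_mem (n : ℕ) (hn : 2 ≤ n) : (0 : ℂ) ∈ MM n := by
  have h : ∀ k, Q n k (0 : ℂ) = 0 := by
    intro k
    induction k with
    | zero => rfl
    | succ k ih =>
      rw [Q_succ, ih, zero_pow (by omega), zero_add]
  intro k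
  rw [h k]
  simp

theorem hasStrict (n : ℕ) (hn : 2 ≤ n) (L : ℂ) :
    HasStrictDerivAt (cc n) (exp (ell n L) * (1 / ((n : ℂ) - 1))) L := by
  have h0 : HasStrictDerivAt (fun L : ℂ => L - ((Real.log n : ℝ) : ℂ)) 1 L :=
    (hasStrictDerivAt_id L).sub_const _
  have h1 : HasStrictDerivAt (fun L : ℂ => (L - (Real.log n : ℝ)) / ((n : ℂ) - 1))
      (1 / ((n : ℂ) - 1)) L :=
    h0.div_const _
  exact h1.cexp

theorem n_sub_one_ne (n : ℕ) (hn : 2 ≤ n) : (n : ℂ) - 1 ≠ 0 := by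
  intro h
  have h1 : (n : ℂ) = ((1 : ℕ) : ℂ) := by
    rw [Nat.cast_one]
    exact sub_eq_zero.1 h
  have h2 : n = 1 := Nat.cast_injective h1
  omega

theorem map_eq (n : ℕ) (hn : 2 ≤ n) (L : ℂ) : Filter.map (cc n) (𝓝 L) = 𝓝 (cc n L) :=
  (hasStrict n hn L).map_nhds_eq (mul_ne_zero (exp_ne_zero _)
    (one_div_ne_zero (n_sub_one_ne n hn)))

theorem main : T_NC := by
  intro n hn A hA hAc hAo
  by_contra hne
  obtain ⟨x0, hx0⟩ := nonempty_iff_ne_empty.2 hne
  have hcont : Continuous (cc n) :=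
    continuous_iff_continuousAt.2 fun x => (hasStrict n hn x).hasDerivAt.continuousAt
  have hC : IsCompact (cc n '' A) := hAc.image hcont
  have hnh : ∀ c ∈ cc n '' A, (cc n '' A) ∪ (MM n)ᶜ ∈ 𝓝 c := by
    rintro _ ⟨x, hx, rfl⟩
    have e1 := eventually_nhdsWithin_iff.1 (hAo x hx)
    rw [← map_eq n hn x]
    refine Filter.mem_map.2 ?_
    filter_upwards [e1] with y hy
    by_cases hy2 : y ∈ Mq n
    · exact Or.inl ⟨y, hy hy2, rfl⟩
    · exact Or.inr hy2
  have hpre := MM_connected hn (interior ((cc n '' A) ∪ (MM n)ᶜ)) (cc n '' A)ᶜ isOpen_interior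
    hC.isClosed.isOpen_compl
    (by
      intro c hc
      by_cases h : c ∈ cc n '' A
      · exact Or.inl (mem_interior_iff_mem_nhds.2 (hnh c h))
      · exact Or.inr h)
    ⟨cc n x0, hA hx0, mem_interior_iff_mem_nhds.2 (hnh _ ⟨x0, hx0, rfl⟩)⟩
    ⟨0, zero_mem n hn, by
      rintro ⟨x, _, hx⟩
      exact exp_ne_zero _ hx⟩
  obtain ⟨c, hc, hc1, hc2⟩ := hpre
  rcases interior_subset hc1 with h | h
  · exact hc2 h
  · exact h hc

end NC_

theorem p_NC : T_NC := NC_.main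

end Pool.Agent.Modu
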