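import Pool.Agent.Modu.Targets

/-!
# PAIR: two close points are joined
-/

set_option autoImplicit false

open Complex Filter Topology Set
open Pool.Agent.Multibrot Pool.Agent.Limb

namespace Pool.Agent.Modu

namespace PAIR_

/-- points of a common chart at bounded distance in the top level are close -/
theorem close (h3 : T_LIP) (h4 : T_CHP) {n : ℕ} {s : ℕ → ℤ} {κ : ℕ} {L1 L : ℂ}
    (hL1 : Ch n s κ L1) (hL : Ch n s κ L)
    (h : |(YY n s L κ).re - (YY n s L1 κ).re| ≤ κ + 31) : ‖L - L1‖ ≤ 60 := by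
  have h5 := h3 n s κ L1 L hL1 hL 0 (Nat.zero_le κ)
  have h6 : YY n s L 0 - YY n s L1 0 = L - L1 := by
    have ha := (h4 n s κ L1 hL1).1
    have hb := (h4 n s κ L hL).1
    apply Complex.ext
    · rw [sub_re, sub_re, ha.1, hb.1]
    · rw [sub_im, sub_im, ha.2, hb.2]
      ring
  rw [h6, Nat.sub_zero] at h5
  have h7 : ‖YY n s L κ - YY n s L1 κ‖ ≤ κ + 51 := by
    refine (norm_le_abs_re_add_abs_im _).trans ?_
    rw [sub_re, sub_im]
    have h8 : |(YY n s L κ).im - (YY n s L1 κ).im| ≤ 20 := by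
      have ha := hL.him
      have hb := hL1.him
      rw [abs_le] at ha hb ⊢
      constructor <;> linarith [ha.1, ha.2, hb.1, hb.2]
    linarith
  have h9 : (1 / 10 ^ 7 : ℝ) ^ κ ≤ (1 / 2) ^ κ :=
    pow_le_pow_left₀ (by norm_num) (by norm_num) κ
  have h10 : (κ : ℝ) ≤ 2 ^ κ := by
    exact_mod_cast (Nat.lt_two_pow_self (n := κ)).le
  have h11 : (1 / 2 : ℝ) ^ κ * 2 ^ κ = 1 := by
    rw [← mul_pow]
    norm_num
  have h12 : (1 / 2 : ℝ) ^ κ ≤ 1 := pow_le_one₀ (by norm_num) (by norm_num)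
  have h13 : (0 : ℝ) ≤ (1 / 2) ^ κ := by positivity
  calc ‖L - L1‖ ≤ (1 / 10 ^ 7) ^ κ * ‖YY n s L κ - YY n s L1 κ‖ := h5
    _ ≤ (1 / 2) ^ κ * (κ + 51) := mul_le_mul h9 h7 (norm_nonneg _) h13
    _ ≤ 60 := by nlinarith

end PAIR_

open PAIR_ in
/-- PAIR (from ATTK, SSEG, LIP, CHP). -/
theorem p_PAIR (h1 : T_ATTK) (h2 : T_SSEG) (h3 : T_LIP) (h4 : T_CHP) : T_PAIR := by
  intro n α s κ L1 L2 hα hHC hM1 hM2 hC1 hC2 hi1 hi2 hr1 hr2 hz1 hz2 hA1 hA2 hd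
  obtain ⟨J1, hpre1, hsub1, hmem1, ⟨S1, hS1, hSp1⟩, hJ1⟩ :=
    h1 n α s κ L1 hα hHC hM1 hC1 hi1 hr1 hz1 hA1
  obtain ⟨J2, hpre2, hsub2, hmem2, ⟨S2, hS2, hSp2⟩, hJ2⟩ :=
    h1 n α s κ L2 hα hHC hM2 hC2 hi2 hr2 hz2 hA2
  obtain ⟨J3, hpre3, hsub3, hS13, hS23, hJ3⟩ :=
    h2 n s κ S1 S2 (hJ1 S1 hS1).1 (hJ2 S2 hS2).1 hSp1 hSp2 (hsub1 hS1)
  have hsubq : Mp n ⊆ Mq n := fun L hL => hL.1
  have hre : |(YY n s L2 κ).re - (YY n s L1 κ).re| ≤ 1 := by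
    have h5 := abs_re_le_norm (YY n s L2 κ - YY n s L1 κ)
    rw [sub_re] at h5
    linarith
  refine ⟨J1 ∪ J3 ∪ J2, ?_, ?_, Or.inl (Or.inl hmem1), Or.inr hmem2, ?_⟩
  · exact (hpre1.union S1 hS1 hS13 hpre3).union S2 (Or.inr hS23) hS2 hpre2
  · rintro L ((h | h) | h)
    · exact hsubq (hsub1 h)
    · exact hsubq (hsub3 h)
    · exact hsubq (hsub2 h)
  · rw [abs_le] at hre
    have hs1 := (hJ1 S1 hS1).2
    have hs2 := (hJ2 S2 hS2).2
    rw [abs_le] at hs1 hs2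
    rintro L ((h | h) | h)
    · refine close h3 h4 hC1 (hJ1 L h).1 ?_
      have h5 := (hJ1 L h).2
      linarith
    · refine close h3 h4 hC1 (hJ3 L h).1 ?_
      obtain ⟨_, _, h5, h6⟩ := hJ3 L h
      rw [abs_le]
      rcases le_total (YY n s S1 κ).re (YY n s S2 κ).re with h7 | h7
      · rw [min_eq_left h7] at h5
        rw [max_eq_right h7] at h6
        constructor <;> linarith [hs1.1, hs1.2, hs2.1, hs2.2, hre.1, hre.2]
      · rw [min_eq_right h7] at h5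
        rw [max_eq_left h7] at h6
        constructor <;> linarith [hs1.1, hs1.2, hs2.1, hs2.2, hre.1, hre.2]
    · refine close h3 h4 hC1 (hJ2 L h).1 ?_
      have h5 := (hJ2 L h).2
      rw [abs_le] at h5 ⊢
      constructor <;> linarith [h5.1, h5.2, hre.1, hre.2]

end Pool.Agent.Modu
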