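import Pool.Agent.Modu.Basic

/-!
# MODU: RC, rightmost continua
-/

set_option autoImplicit false

open Complex Filter Topology Set
open Pool.Agent.Multibrot Pool.Agent.Limb

namespace Pool.Agent.Modu

namespace RC_

lemma cont_zz (n : ℕ) (i : ℕ) : Continuous (fun L => zz n L i) := by
  induction i with
  | zero =>
    have : (fun L => zz n L 0) = fun _ => (0 : ℂ) := by
      funext L
      exact zz_zero n L
    rw [this]
    exact continuous_const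
  | succ i ih =>
    have : (fun L => zz n L (i + 1)) = fun L => exp L * (1 + zz n L i / n) ^ n := by
      funext L
      rw [zz_succ, Limb.E]
    rw [this]
    exact Complex.continuous_exp.mul ((continuous_const.add (ih.div_const _)).pow n)

lemma fr_ne {n : ℕ} (hn : (10 : ℝ) ^ 20 ≤ n) {L : ℂ} {i : ℕ} (h : FR n L i) :
    zz n L i ≠ -n := by
  intro hcon
  have hn0 : (0 : ℝ) < n := lt_of_lt_of_le (by norm_num) hn
  unfold FR at h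
  rw [hcon, norm_neg, norm_natCast] at h
  have h2 : XX n L i = 0 := by
    unfold XX
    rw [hcon]
    have : (n : ℂ) ≠ 0 := by exact_mod_cast hn0.ne'
    rw [neg_div, div_self this]
    simp
  rw [h2, zero_re, mul_zero] at h
  linarith

lemma exp51 {x : ℝ} (h : 51 ≤ x) : (10 : ℝ) ^ 15 ≤ Real.exp x := by
  have h1 : Real.exp 51 ≤ Real.exp x := Real.exp_le_exp.2 h
  have h2 : Real.exp 51 = Real.exp 1 ^ 51 := by
    rw [← Real.exp_nat_mul]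
    norm_num
  have h3 : (2 : ℝ) ≤ Real.exp 1 := by
    have := Real.add_one_le_exp (1 : ℝ)
    linarith
  have h4 : (2 : ℝ) ^ 51 ≤ Real.exp 1 ^ 51 := pow_le_pow_left₀ (by norm_num) h3 51
  calc (10 : ℝ) ^ 15 ≤ 2 ^ 51 := by norm_num
    _ ≤ _ := h4
    _ = _ := h2.symm
    _ ≤ _ := h1

lemma re_ge {n : ℕ} {s : ℕ → ℤ} {k : ℕ} {L : ℂ} (h : Ch n s k L) : 21 ≤ L.re := by
  have := h.hr 0 (by omega)
  rw [YY_zero_re] at this
  exact this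

/-- The conditions on the points of `Y`. -/
def Good (n : ℕ) (α : ℕ → ℂ → ℝ) (B : ℝ) (s : ℕ → ℤ) (k : ℕ) (L : ℂ) : Prop :=
  L ∈ Mp n ∧ Ch n s k L ∧ rr s k + 30 ≤ (YY n s L k).re ∧
    (YY n s L k).im = α (k + 1) L ∧ B ≤ ‖zz n L (k + 1)‖

/-- The conclusion. -/
def Join (n : ℕ) (s : ℕ → ℤ) (k : ℕ) (c1 c2 : ℂ) (e : ℝ) : Prop :=
  ∃ J : Set ℂ, IsPreconnected J ∧ J ⊆ Mp n ∧ c1 ∈ J ∧ c2 ∈ J ∧
    ∀ L ∈ J, Ch n s k L ∧ (YY n s L k).re ≤ max (YY n s c1 k).re (YY n s c2 k).re + e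

/-- Case 1: far right. -/
lemma case1 (h1 : T_STEP) (h2 : T_COV) (h3 : T_DOWN) (h4 : T_COMP) {n : ℕ}
    {α : ℕ → ℂ → ℝ} {B : ℝ} (hα : IsArg n α) {m : ℕ}
    (IH : ∀ (s : ℕ → ℤ) (k : ℕ) (Y : Set ℂ), IsCompact Y → IsPreconnected Y →
      (∀ L ∈ Y, Good n α B s k L) → (∀ L ∈ Y, 4 * (n : ℝ) ≤ 2 ^ m * ‖zz n L (k + 1)‖) →
      ∀ c1 ∈ Y, ∀ c2 ∈ Y, Join n s k c1 c2 12)
    {s : ℕ → ℤ} {k : ℕ} {Y : Set ℂ} (hYc : IsCompact Y) (hYp : IsPreconnected Y)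
    (hY : ∀ L ∈ Y, Good n α B s k L)
    (hYm : ∀ L ∈ Y, 4 * (n : ℝ) ≤ 2 ^ (m + 1) * ‖zz n L (k + 1)‖)
    (hF : ∀ L ∈ Y, FR n L (k + 1)) {c1 c2 : ℂ} (hc1 : c1 ∈ Y) (hc2 : c2 ∈ Y) :
    Join n s k c1 c2 (1 / 1000) ∧ |(XX n c1 (k + 1)).im - (XX n c2 (k + 1)).im| ≤ 24 := by
  have hst : ∀ L ∈ Y, ∃ s' : ℕ → ℤ, (∀ i, i < k → s' i = s i) ∧
      |((s' k : ℤ) : ℝ) - s k| ≤ 1 ∧
      Ch n s' (k + 1) L ∧ rr s' (k + 1) + 40 ≤ (YY n s' L (k + 1)).re ∧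
      (YY n s' L (k + 1)).im = α (k + 2) L ∧ 2 * ‖zz n L (k + 1)‖ ≤ ‖zz n L (k + 2)‖ := by
    intro L hL
    obtain ⟨g1, g2, g3, g4, g5⟩ := hY L hL
    exact h1 n α s k L hα g2 g1 (by linarith) (hF L hL)
  obtain ⟨s', hs'⟩ := h2 n α (k + 1) Y hα hYp (fun L hL => (hY L hL).1) (fun L hL => by
    obtain ⟨s', -, -, g3, -, g5, -⟩ := hst L hL
    exact ⟨s', g3, g5⟩)
  have hs2 : (∀ i, i < k → s' i = s i) ∧ |((s' k : ℤ) : ℝ) - s k| ≤ 1 := by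
    obtain ⟨t, g1, g2, g3, -, g5, -⟩ := hst c1 hc1
    have h5 := (hs' c1 hc1).2.2 t g3 g5
    refine ⟨fun i hi => ?_, ?_⟩
    · rw [← h5 i (by omega)]
      exact g1 i hi
    · rw [← h5 k (by omega)]
      exact g2
  have hgood : ∀ L ∈ Y, Good n α B s' (k + 1) L := by
    intro L hL
    obtain ⟨t, g1, g2, g3, g4, g5, g6⟩ := hst L hL
    obtain ⟨q1, q2, q3⟩ := hs' L hL
    have h5 := q3 t g3 g5
    have h6 : rr s' (k + 1) = rr t (k + 1) := (rr_congr h5).symm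
    have h7 : (YY n s' L (k + 1)).re = (YY n t L (k + 1)).re := by rw [YY_re, YY_re]
    refine ⟨(hY L hL).1, q1, ?_, q2, ?_⟩
    · rw [h6, h7]
      linarith
    · have := (hY L hL).2.2.2.2
      have h0 := norm_nonneg (zz n L (k + 1))
      show B ≤ ‖zz n L (k + 2)‖
      linarith
  have hm' : ∀ L ∈ Y, 4 * (n : ℝ) ≤ 2 ^ m * ‖zz n L (k + 1 + 1)‖ := by
    intro L hL
    obtain ⟨t, g1, g2, g3, g4, g5, g6⟩ := hst L hL
    have h5 := hYm L hL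
    calc 4 * (n : ℝ) ≤ 2 ^ (m + 1) * ‖zz n L (k + 1)‖ := h5
      _ = 2 ^ m * (2 * ‖zz n L (k + 1)‖) := by ring
      _ ≤ 2 ^ m * ‖zz n L (k + 2)‖ := by gcongr
  have hs0 : |(s 0 : ℝ)| ≤ 1 := (hY c1 hc1).2.1.h0
  refine ⟨?_, ?_⟩
  · obtain ⟨J, j1, j2, j3, j4, j5⟩ := IH s' (k + 1) Y hYc hYp hgood hm' c1 hc1 c2 hc2
    refine ⟨J, j1, j2, j3, j4, fun L hL => ?_⟩
    obtain ⟨j6, j7⟩ := j5 L hL
    obtain ⟨d1, -⟩ := h3 n s s' k L j6 hs0 hs2.1 hs2.2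
    refine ⟨d1, ?_⟩
    have hre : ∀ L : ℂ, (YY n s L k).re = (YY n s' L k).re := fun L => by rw [YY_re, YY_re]
    rw [hre L, hre c1, hre c2]
    rcases le_total (YY n s' c1 (k + 1)).re (YY n s' c2 (k + 1)).re with hle | hle
    · rw [max_eq_right hle] at j7
      have h6 := (h4 n s' (k + 1) c2 L (hs' c2 hc2).1 j6 (by linarith)).1 k (by omega)
      exact h6.trans (by linarith [le_max_right (YY n s' c1 k).re (YY n s' c2 k).re])
    · rw [max_eq_left hle] at j7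
      have h6 := (h4 n s' (k + 1) c1 L (hs' c1 hc1).1 j6 (by linarith)).1 k (by omega)
      exact h6.trans (by linarith [le_max_left (YY n s' c1 k).re (YY n s' c2 k).re])
  · rcases le_total (YY n s' c1 (k + 1)).re (YY n s' c2 (k + 1)).re with hle | hle
    · exact (h4 n s' (k + 1) c2 c1 (hs' c2 hc2).1 (hs' c1 hc1).1 (by linarith)).2.1
        (k + 1) (by omega) le_rfl
    · rw [abs_sub_comm]
      exact (h4 n s' (k + 1) c1 c2 (hs' c1 hc1).1 (hs' c2 hc2).1 (by linarith)).2.1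
        (k + 1) (by omega) le_rfl

/-- The comparison of the moduli. -/
lemma modulus {zc zq Xc Xq : ℂ} (h1 : ‖zc - Xc‖ ≤ 1 / 10 ^ 6) (h2 : ‖zq - Xq‖ ≤ 1 / 10 ^ 6)
    (h3 : ‖zq‖ = 5000 * Xq.re) (h4 : |Xc.im - Xq.im| ≤ 24) (h5 : (10 : ℝ) ^ 15 ≤ ‖zc‖)
    (h6 : (10 : ℝ) ^ 15 ≤ ‖zq‖) : ‖zq‖ ≤ (1 + 1 / 10 ^ 6) * ‖zc‖ := by
  have a1 : ‖zq‖ - 1 / 10 ^ 6 ≤ ‖Xq‖ := by
    have := norm_sub_norm_le zq Xq
    linarith
  have a2 : |Xc.im| - 1 / 10 ^ 6 ≤ ‖zc‖ := by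
    have b1 := norm_sub_norm_le Xc zc
    rw [norm_sub_rev] at b1
    have b2 := abs_im_le_norm Xc
    linarith
  have a3 : |Xq.im| ≤ |Xc.im| + 24 := by
    have := abs_sub_abs_le_abs_sub Xq.im Xc.im
    rw [abs_sub_comm] at this
    linarith
  have a4 : ‖Xq‖ ≤ |Xq.re| + |Xq.im| := norm_le_abs_re_add_abs_im Xq
  have a5 : Xq.re ^ 2 + Xq.im ^ 2 = ‖Xq‖ ^ 2 := by
    rw [← Complex.normSq_eq_norm_sq, Complex.normSq_apply]
    ring
  have a6 : Xq.re = ‖zq‖ / 5000 := by linarith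
  have a7 : (1 - 1 / 10 ^ 7) * ‖zq‖ ≤ |Xq.im| := by
    by_contra hcon
    push Not at hcon
    have b1 : Xq.im ^ 2 < ((1 - 1 / 10 ^ 7) * ‖zq‖) ^ 2 := by
      rw [← sq_abs]
      exact pow_lt_pow_left₀ hcon (abs_nonneg _) (by norm_num)
    have b2 : ((1 - 1 / 10 ^ 12) * ‖zq‖) ^ 2 ≤ ‖Xq‖ ^ 2 := by
      apply pow_le_pow_left₀
      · have : (0 : ℝ) ≤ ‖zq‖ := norm_nonneg _
        exact mul_nonneg (by norm_num) this
      · linarith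
    rw [← a5, a6] at b2
    have b3 : 0 < ‖zq‖ ^ 2 := by positivity
    nlinarith
  nlinarith

/-- Case 2: one end. -/
lemma case2 (hCHP : T_CHP) (hFRX : T_FRX) (h1 : T_STEP) (h2 : T_COV) (h3 : T_DOWN)
    (h4 : T_COMP) (hBBL : T_BBL) (hFRC : T_FRC) {n : ℕ}
    {α : ℕ → ℂ → ℝ} {B : ℝ} (hα : IsArg n α)
    (H : ∀ s k p, HP n s k p → B ≤ ‖zz n p (k + 1)‖ → HC n s k p) {m : ℕ}
    (IH : ∀ (s : ℕ → ℤ) (k : ℕ) (Y : Set ℂ), IsCompact Y → IsPreconnected Y →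
      (∀ L ∈ Y, Good n α B s k L) → (∀ L ∈ Y, 4 * (n : ℝ) ≤ 2 ^ m * ‖zz n L (k + 1)‖) →
      ∀ c1 ∈ Y, ∀ c2 ∈ Y, Join n s k c1 c2 12)
    {s : ℕ → ℤ} {k : ℕ} {Y : Set ℂ} (hYc : IsCompact Y) (hYp : IsPreconnected Y)
    (hY : ∀ L ∈ Y, Good n α B s k L)
    (hYm : ∀ L ∈ Y, 4 * (n : ℝ) ≤ 2 ^ (m + 1) * ‖zz n L (k + 1)‖)
    (hF : ¬ ∀ L ∈ Y, FR n L (k + 1)) {c : ℂ} (hc : c ∈ Y) :
    ∃ J : Set ℂ, IsPreconnected J ∧ J ⊆ Mp n ∧ c ∈ J ∧ (∃ S ∈ J, Sp n s k S) ∧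
      ∀ L ∈ J, Ch n s k L ∧ (YY n s L k).re ≤ (YY n s c k).re + 11 := by
  have hn := hα.hn
  have hn0 : (0 : ℝ) < n := lt_of_lt_of_le (by norm_num) hn
  have hn1 : 1 ≤ n := by
    have : (1 : ℝ) ≤ n := le_trans (by norm_num) hn
    exact_mod_cast this
  have hnorm : ∀ L ∈ Y, ‖zz n L (k + 1)‖ = Real.exp (YY n s L k).re := fun L hL =>
    (hCHP n s k L (hY L hL).2.1).2.2.1 k le_rfl
  have hbig : ∀ L ∈ Y, (10 : ℝ) ^ 15 ≤ ‖zz n L (k + 1)‖ := by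
    intro L hL
    rw [hnorm L hL]
    apply exp51
    have := (hY L hL).2.2.1
    have := rr_ge s k
    linarith
  have hHP : ∀ L ∈ Y, NF n L (k + 1) → HC n s k L := by
    intro L hL hNF
    obtain ⟨g1, g2, g3, g4, g5⟩ := hY L hL
    obtain ⟨e1, e2⟩ := hα.nf (k + 1) L (by omega) g1 (re_ge g2)
      ((by norm_num : (10 : ℝ) ^ 8 ≤ 10 ^ 15).trans (hbig L hL)) (Or.inl hNF)
    exact H s k L ⟨g1, g2, g3, by rw [g4]; exact e1, by rw [g4]; exact e2, hNF⟩ g5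
  by_cases hNF : NF n c (k + 1)
  · obtain ⟨J, j1, j2, j3, j4, j5⟩ := hHP c hc hNF
    refine ⟨J, j1, j2, j3, j4, fun L hL => ⟨(j5 L hL).1, ?_⟩⟩
    have := (abs_le.1 (j5 L hL).2).2
    linarith
  · have hFc : FR n c (k + 1) := by
      unfold NF at hNF
      unfold FR
      push Not at hNF
      exact hNF.le
    obtain ⟨hcl, hcont⟩ := hFRC n (k + 1) hn1
    obtain ⟨D, d1, d2, d3, d4, d5, q, hqD, hq⟩ := hBBL Y {L : ℂ | FR n L (k + 1)} c hYc hYp hcl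
      hc hFc (fun hsub => hF (fun L hL => hsub hL))
    have hFq : FR n q (k + 1) := d4 hqD
    have hqY : q ∈ Y := d3 hqD
    have hqne := fr_ne hn hFq
    have hNFq : NF n q (k + 1) := by
      unfold NF
      have c1 : ContinuousAt (fun L => 5000 * (XX n L (k + 1)).re) q :=
        continuousAt_const.mul (hcont q hqne)
      have c2 : ContinuousAt (fun L => ‖zz n L (k + 1)‖) q :=
        (cont_zz n (k + 1)).norm.continuousAt
      have hfreq : ∃ᶠ L in 𝓝 q, L ∈ Y \ {L : ℂ | FR n L (k + 1)} :=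
        mem_closure_iff_frequently.1 hq
      by_contra hcon
      push Not at hcon
      have hev : ∀ᶠ L in 𝓝 q, ‖zz n L (k + 1)‖ < 5000 * (XX n L (k + 1)).re :=
        c2.eventually_lt c1 hcon
      obtain ⟨L, hL1, hL2⟩ := (hfreq.and_eventually hev).exists
      exact hL1.2 (show FR n L (k + 1) from hL2.le)
    obtain ⟨⟨J, j1, j2, j3, j4, j5⟩, himX⟩ := case1 h1 h2 h3 h4 hα IH d1 d2
      (fun L hL => hY L (d3 hL)) (fun L hL => hYm L (d3 hL)) (fun L hL => d4 hL) d5 hqD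
    have hfx : ∀ L ∈ Y, FR n L (k + 1) → ‖zz n L (k + 1) - XX n L (k + 1)‖ ≤ 1 / 10 ^ 6 := by
      intro L hL hFL
      have h21 := re_ge (hY L hL).2.1
      exact ((hFRX n L (k + 1) hn (hY L hL).1.1 (by linarith) (fr_ne hn hFL)).2.2 hFL).2
    have heq : ‖zz n q (k + 1)‖ = 5000 * (XX n q (k + 1)).re := le_antisymm hFq hNFq
    have hmod := modulus (hfx c hc hFc) (hfx q hqY hFq) heq himX (hbig c hc) (hbig q hqY)
    have hre : (YY n s q k).re ≤ (YY n s c k).re + 1 / 10 ^ 6 := by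
      rw [hnorm q hqY, hnorm c hc] at hmod
      have e1 : (1 : ℝ) + 1 / 10 ^ 6 ≤ Real.exp (1 / 10 ^ 6) := by
        have := Real.add_one_le_exp (1 / 10 ^ 6 : ℝ)
        linarith
      have e2 : Real.exp (YY n s q k).re ≤ Real.exp ((YY n s c k).re + 1 / 10 ^ 6) := by
        rw [Real.exp_add]
        calc _ ≤ _ := hmod
          _ ≤ Real.exp (1 / 10 ^ 6) * Real.exp (YY n s c k).re := by gcongr
          _ = _ := mul_comm _ _
      exact Real.exp_le_exp.1 e2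
    obtain ⟨J', k1, k2, k3, k4, k5⟩ := hHP q hqY hNFq
    refine ⟨J ∪ J', j1.union q j4 k3 k1, union_subset j2 k2, Or.inl j3, ?_, ?_⟩
    · obtain ⟨S, hS, hS2⟩ := k4
      exact ⟨S, Or.inr hS, hS2⟩
    · rintro L (hL | hL)
      · obtain ⟨e1, e2⟩ := j5 L hL
        refine ⟨e1, e2.trans ?_⟩
        have : max (YY n s c k).re (YY n s q k).re ≤ (YY n s c k).re + 1 / 10 ^ 6 :=
          max_le (by linarith [show (0 : ℝ) ≤ 1 / 10 ^ 6 by norm_num]) hre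
        have h0 : (1 : ℝ) / 10 ^ 6 ≤ 1 := by norm_num
        linarith
      · refine ⟨(k5 L hL).1, ?_⟩
        have := (abs_le.1 (k5 L hL).2).2
        have h0 : (1 : ℝ) / 10 ^ 6 ≤ 1 := by norm_num
        linarith

end RC_

open RC_ in
theorem p_RC (hCHP : T_CHP) (hSTEP : T_STEP) (hCOV : T_COV) (hDOWN : T_DOWN) (hCOMP : T_COMP)
    (hBBL : T_BBL) (hFRC : T_FRC) (hFRX : T_FRX) (hSSEG : T_SSEG) : T_RC := by
  intro n α B hα H
  have hn := hα.hn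
  have hn0 : (0 : ℝ) < n := lt_of_lt_of_le (by norm_num) hn
  have key : ∀ m : ℕ, ∀ (s : ℕ → ℤ) (k : ℕ) (Y : Set ℂ), IsCompact Y → IsPreconnected Y →
      (∀ L ∈ Y, Good n α B s k L) → (∀ L ∈ Y, 4 * (n : ℝ) ≤ 2 ^ m * ‖zz n L (k + 1)‖) →
      ∀ c1 ∈ Y, ∀ c2 ∈ Y, Join n s k c1 c2 12 := by
    intro m
    induction m with
    | zero =>
      intro s k Y _ _ hY hYm c1 hc1 c2 hc2
      exfalso
      have h1 := hYm c1 hc1
      obtain ⟨g1, g2, -⟩ := hY c1 hc1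
      have h2 := norm_zz_le hn g1.1 (by linarith [re_ge g2]) (k + 1)
      rw [pow_zero, one_mul] at h1
      linarith
    | succ m IH =>
      intro s k Y hYc hYp hY hYm c1 hc1 c2 hc2
      by_cases hF : ∀ L ∈ Y, FR n L (k + 1)
      · obtain ⟨⟨J, j1, j2, j3, j4, j5⟩, -⟩ :=
          case1 hSTEP hCOV hDOWN hCOMP hα IH hYc hYp hY hYm hF hc1 hc2
        exact ⟨J, j1, j2, j3, j4, fun L hL => ⟨(j5 L hL).1, (j5 L hL).2.trans (by linarith)⟩⟩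
      · obtain ⟨J1, a1, a2, a3, ⟨S1, a4, a5⟩, a6⟩ := case2 hCHP hFRX hSTEP hCOV hDOWN hCOMP hBBL
          hFRC hα H IH hYc hYp hY hYm hF hc1
        obtain ⟨J2, b1, b2, b3, ⟨S2, b4, b5⟩, b6⟩ := case2 hCHP hFRX hSTEP hCOV hDOWN hCOMP hBBL
          hFRC hα H IH hYc hYp hY hYm hF hc2
        obtain ⟨J3, e1, e2, e3, e4, e5⟩ := hSSEG n s k S1 S2 (a6 S1 a4).1 (b6 S2 b4).1 a5 b5
          (a2 a4)
        have hu1 : IsPreconnected (J1 ∪ J3) := a1.union S1 a4 e3 e1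
        refine ⟨(J1 ∪ J3) ∪ J2, hu1.union S2 (Or.inr e4) b4 b1,
          union_subset (union_subset a2 e2) b2, Or.inl (Or.inl a3), Or.inr b3, ?_⟩
        have m1 := le_max_left (YY n s c1 k).re (YY n s c2 k).re
        have m2 := le_max_right (YY n s c1 k).re (YY n s c2 k).re
        rintro L ((hL | hL) | hL)
        · exact ⟨(a6 L hL).1, by linarith [(a6 L hL).2]⟩
        · obtain ⟨x1, -, -, x4⟩ := e5 L hL
          refine ⟨x1, x4.trans ?_⟩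
          have y1 := (a6 S1 a4).2
          have y2 := (b6 S2 b4).2
          exact (max_le (a := (YY n s S1 k).re) (b := (YY n s S2 k).re)
            (c := max (YY n s c1 k).re (YY n s c2 k).re + 12) (by linarith) (by linarith))
        · exact ⟨(b6 L hL).1, by linarith [(b6 L hL).2]⟩
  intro s k Y hYc hYp hY c1 hc1 c2 hc2
  obtain ⟨m, hm⟩ : ∃ m : ℕ, 4 * (n : ℝ) ≤ 2 ^ m := by
    obtain ⟨m, hm⟩ := pow_unbounded_of_one_lt (4 * (n : ℝ)) (by norm_num : (1 : ℝ) < 2)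
    exact ⟨m, hm.le⟩
  refine key m s k Y hYc hYp (fun L hL => hY L hL) (fun L hL => ?_) c1 hc1 c2 hc2
  obtain ⟨g1, g2, g3, g4, g5⟩ := hY L hL
  have h1 : (1 : ℝ) ≤ ‖zz n L (k + 1)‖ := by
    rw [(hCHP n s k L g2).2.2.1 k le_rfl]
    have h2 := exp51 (x := (YY n s L k).re) (by
      have := rr_ge s k
      linarith)
    exact (by norm_num : (1 : ℝ) ≤ 10 ^ 15).trans h2
  calc 4 * (n : ℝ) ≤ 2 ^ m := hm
    _ = 2 ^ m * 1 := (mul_one _).symm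
    _ ≤ 2 ^ m * ‖zz n L (k + 1)‖ := by gcongr

end Pool.Agent.Modu
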