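import Pool.Agent.Modu.Targets

/-!
# MODU: SEPC, separation in compact sets
-/

set_option autoImplicit false

open Complex Filter Topology Set

namespace Pool.Agent.Modu

namespace SEPC_

theorem part1 (X U : Set ℂ) (p : ℂ) (hX : IsCompact X) (hp : p ∈ X) (hU : IsOpen U)
    (hc : connectedComponentIn X p ⊆ U) :
    ∃ K : Set ℂ, K ⊆ X ∧ IsCompact K ∧ IsCompact (X \ K) ∧ p ∈ K ∧ K ⊆ U ∧
      ∀ Y : Set ℂ, IsPreconnected Y → Y ⊆ X → (Y ∩ K).Nonempty → Y ⊆ K := by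
  have hcs : CompactSpace X := isCompact_iff_compactSpace.1 hX
  rw [connectedComponentIn_eq_image hp] at hc
  have hne : Nonempty {s : Set X // IsClopen s ∧ (⟨p, hp⟩ : X) ∈ s} :=
    ⟨⟨univ, isClopen_univ, mem_univ _⟩⟩
  obtain ⟨⟨Z, hZ, hpZ⟩, hZU⟩ := exists_subset_nhds_of_compactSpace
    (V := fun s : {s : Set X // IsClopen s ∧ (⟨p, hp⟩ : X) ∈ s} => (s : Set X))
    (U := (Subtype.val : X → ℂ) ⁻¹' U)
    (by
      intro s t
      refine ⟨⟨(s : Set X) ∩ t, s.2.1.inter t.2.1, s.2.2, t.2.2⟩, ?_, ?_⟩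
      · exact inter_subset_left
      · exact inter_subset_right)
    (fun s => s.2.1.1)
    (by
      intro x hx
      rw [← connectedComponent_eq_iInter_isClopen] at hx
      have hxU : (x : ℂ) ∈ U := hc ⟨x, hx, rfl⟩
      exact (hU.preimage continuous_subtype_val).mem_nhds hxU)
  refine ⟨Subtype.val '' Z, ?_, ?_, ?_, ⟨_, hpZ, rfl⟩, ?_, ?_⟩
  · rintro _ ⟨y, _, rfl⟩
    exact y.2
  · exact hZ.1.isCompact.image continuous_subtype_val
  · have h1 : X \ (Subtype.val '' Z) = Subtype.val '' Zᶜ := by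
      ext x
      constructor
      · rintro ⟨hx, hx2⟩
        exact ⟨⟨x, hx⟩, fun h => hx2 ⟨_, h, rfl⟩, rfl⟩
      · rintro ⟨y, hy, rfl⟩
        refine ⟨y.2, ?_⟩
        rintro ⟨z, hz, hzy⟩
        have : z = y := Subtype.ext hzy
        rw [this] at hz
        exact hy hz
    rw [h1]
    exact hZ.compl.1.isCompact.image continuous_subtype_val
  · rintro _ ⟨y, hy, rfl⟩
    exact hZU hy
  · intro Y hY hYX hYK
    have h2 : (Subtype.val : X → ℂ) '' ((Subtype.val : X → ℂ) ⁻¹' Y) = Y := by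
      rw [Subtype.image_preimage_coe]
      exact inter_eq_right.2 hYX
    have h3 : IsPreconnected ((Subtype.val : X → ℂ) ⁻¹' Y) := by
      rw [← Topology.IsInducing.subtypeVal.isPreconnected_image, h2]
      exact hY
    obtain ⟨y, hyY, z, hz, hzy⟩ := hYK
    have h4 : ((Subtype.val : X → ℂ) ⁻¹' Y) ⊆ Z := by
      refine h3.subset_isClopen hZ ⟨z, ?_, hz⟩
      rw [mem_preimage, hzy]
      exact hyY
    intro w hw
    exact ⟨⟨w, hYX hw⟩, h4 hw, rfl⟩

theorem part2 (X P Q : Set ℂ) (hX : IsCompact X) (hP : IsCompact P) (hQ : IsCompact Q)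
    (hPX : P ⊆ X) (hQX : Q ⊆ X)
    (h : ∀ Y : Set ℂ, Y ⊆ X → IsCompact Y → IsPreconnected Y → (Y ∩ P).Nonempty →
      (Y ∩ Q).Nonempty → False) :
    ∃ A B : Set ℂ, IsCompact A ∧ IsCompact B ∧ Disjoint A B ∧ A ∪ B = X ∧ P ⊆ A ∧ Q ⊆ B := by
  have key : ∀ p : ℂ, ∃ K : Set ℂ, p ∈ P → (K ⊆ X ∧ IsCompact K ∧ IsCompact (X \ K) ∧ p ∈ K ∧
      K ⊆ Qᶜ) := by
    intro p
    by_cases hp : p ∈ P
    · have hpX := hPX hp
      have hcs : CompactSpace X := isCompact_iff_compactSpace.1 hX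
      obtain ⟨K, h1, h2, h3, h4, h5, _⟩ := part1 X Qᶜ p hX hpX hQ.isClosed.isOpen_compl (by
        intro x hx hxQ
        refine h (connectedComponentIn X p) (connectedComponentIn_subset _ _) ?_
          isPreconnected_connectedComponentIn ⟨p, mem_connectedComponentIn hpX, hp⟩ ⟨x, hx, hxQ⟩
        rw [connectedComponentIn_eq_image hpX]
        exact isClosed_connectedComponent.isCompact.image continuous_subtype_val)
      exact ⟨K, fun _ => ⟨h1, h2, h3, h4, h5⟩⟩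
    · exact ⟨∅, fun h => absurd h hp⟩
  choose K hK using key
  obtain ⟨t, ht⟩ := hP.elim_finite_subcover_image (b := P) (c := fun p => (X \ K p)ᶜ)
    (fun p hp => (hK p hp).2.2.1.isClosed.isOpen_compl)
    (by
      intro x hx
      exact mem_biUnion hx (fun h => h.2 (hK x hx).2.2.2.1))
  obtain ⟨htP, htf, htc⟩ := ht
  refine ⟨⋃ p ∈ t, K p, X \ ⋃ p ∈ t, K p, ?_, ?_, disjoint_sdiff_self_right, ?_, ?_, ?_⟩
  · exact htf.isCompact_biUnion (fun p hp => (hK p (htP hp)).2.1)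
  · have h1 : X \ (⋃ p ∈ t, K p) = X ∩ ⋂ p ∈ t, (X \ K p) := by
      ext x
      simp only [Set.mem_sdiff, mem_iUnion, mem_inter_iff, mem_iInter, not_exists]
      constructor
      · rintro ⟨a, b⟩
        exact ⟨a, fun p hp => ⟨a, b p hp⟩⟩
      · rintro ⟨a, b⟩
        exact ⟨a, fun p hp => (b p hp).2⟩
    rw [h1]
    exact hX.inter_right (isClosed_biInter fun p hp => (hK p (htP hp)).2.2.1.isClosed)
  · rw [union_sdiff_self]
    exact union_eq_right.2 (iUnion₂_subset fun p hp => (hK p (htP hp)).1)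
  · intro x hx
    obtain ⟨p, hp, hxp⟩ := mem_iUnion₂.1 (htc hx)
    refine mem_biUnion hp ?_
    by_contra hxK
    exact hxp ⟨hPX hx, hxK⟩
  · intro x hx
    refine ⟨hQX hx, ?_⟩
    intro hx2
    obtain ⟨p, hp, hxp⟩ := mem_iUnion₂.1 hx2
    exact (hK p (htP hp)).2.2.2.2 hxp hx

end SEPC_

theorem p_SEPC : T_SEPC := ⟨SEPC_.part1, SEPC_.part2⟩

end Pool.Agent.Modu
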