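import Pool.Agent.Modu.CHP

/-!
# MODU: STEP
-/

set_option autoImplicit false

open Complex Filter Topology Set
open Pool.Agent.Multibrot Pool.Agent.Limb

namespace Pool.Agent.Modu

namespace STEP_

open CHP_

/-- Two points with the same exponential. -/
lemma exp_im_eq {a b : ℂ} (h : exp a = exp b) :
    ∃ m : ℤ, a = b + 2 * Real.pi * I * m := by
  obtain ⟨m, hm⟩ := exp_eq_exp_iff_exists_int.1 h
  exact ⟨m, by rw [hm]; ring⟩

/-- `exp 29` is large. -/
lemma exp29 : (3000000000000 : ℝ) ≤ Real.exp 29 := by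
  have h1 : Real.exp 29 = Real.exp 1 ^ 29 := by
    rw [← Real.exp_nat_mul]
    norm_num
  rw [h1]
  have h2 : (2.7182818283 : ℝ) ≤ Real.exp 1 := Real.exp_one_gt_d9.le
  calc (3000000000000 : ℝ) ≤ (2.7182818283 : ℝ) ^ 29 := by norm_num
    _ ≤ _ := pow_le_pow_left₀ (by norm_num) h2 29

end STEP_

open CHP_ STEP_

theorem p_STEP (h1 : T_CHP) (h2 : T_FRX) : T_STEP := by
  intro n α s k L hα h hL hm hFR
  have hpi := Real.pi_lt_d2
  have hpi3 := Real.pi_gt_three
  have hpi0 := Real.pi_pos
  have hn0 : (0 : ℝ) < n := lt_of_lt_of_le (by norm_num) h.hn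
  obtain ⟨-, hex, hnorm, hlog, -, -, -, -, -⟩ := h1 n s k L h
  have hL0 : 21 ≤ L.re := by
    have := h.hr 0 (by omega)
    rw [YY_zero_re] at this
    exact this
  set z := zz n L (k + 1) with hz
  have hzn : ‖z‖ = Real.exp (YY n s L k).re := hnorm k le_rfl
  have hy : 50 ≤ (YY n s L k).re := by
    have := rr_ge s k
    linarith
  have hz50 : 1300000000 * 30 ≤ ‖z‖ := by
    rw [hzn]
    have := exp_ge (y := (YY n s L k).re) (by linarith)
    linarith
  have hzne : z ≠ -n := by
    intro hcon
    unfold FR at hFR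
    rw [← hz, hcon, norm_neg, norm_natCast] at hFR
    have : XX n L (k + 1) = 0 := by
      unfold XX
      rw [← hz, hcon]
      have : (n : ℂ) ≠ 0 := by exact_mod_cast hn0.ne'
      rw [neg_div, div_self this]
      simp
    rw [this, zero_re, mul_zero] at hFR
    linarith
  obtain ⟨hz2, hX3, hF⟩ := h2 n L (k + 1) h.hn hL.1 (by linarith) hzne
  obtain ⟨hzl, hzX⟩ := hF hFR
  set X := XX n L (k + 1) with hX
  have hFR' : ‖z‖ ≤ 5000 * X.re := hFR
  have hXre : |z.re - X.re| ≤ 1 / 10 ^ 6 := by
    rw [← sub_re]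
    exact (abs_re_le_norm _).trans hzX
  have hXre' := abs_le.1 hXre
  have hzre : 0 < z.re := by linarith
  have hXn : ‖X‖ ≤ ‖z‖ + 1 / 10 ^ 6 := by
    have h5 : X = z + (X - z) := by ring
    rw [h5]
    refine (norm_add_le _ _).trans ?_
    rw [norm_sub_rev]
    linarith
  -- the index `m`
  have hz0 : z ≠ 0 := by
    intro h0
    rw [h0, norm_zero] at hz50
    linarith
  obtain ⟨m, hmm⟩ := exp_im_eq (a := YY n s L k) (b := log z) (by rw [hex k le_rfl, exp_log hz0])
  have harg : |(log z).im| ≤ Real.pi / 2 := by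
    rw [log_im]
    exact abs_arg_le_pi_div_two_iff.2 hzre.le
  have harg' := abs_le.1 harg
  have him10 := abs_le.1 h.him
  have hmim : (YY n s L k).im = (log z).im + 2 * Real.pi * m := by
    rw [hmm, add_im, two_pi_int_im]
  have hm1 : |(m : ℝ)| ≤ 1 := by
    have h5 : |(m : ℝ)| < 2 := by
      rw [abs_lt]
      constructor <;> nlinarith
    have h6 : |m| < 2 := by exact_mod_cast h5
    have h7 : |m| ≤ 1 := by omega
    exact_mod_cast h7
  -- the next index
  have hzz2 : zz n L (k + 1 + 1) = exp (X + L) := hz2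
  have hz2n : ‖zz n L (k + 2)‖ = Real.exp (X.re + L.re) := by
    rw [show k + 2 = k + 1 + 1 from rfl, hzz2, norm_exp, add_re]
  have hXlow : ‖z‖ / 5000 ≤ X.re := by linarith
  have hgrow : 2 * ‖z‖ ≤ ‖zz n L (k + 2)‖ := by
    rw [hz2n]
    have h5 : ‖z‖ / 5000 + 21 ≤ X.re + L.re := by linarith
    have h6 := exp_ge (y := ‖z‖ / 5000 + 21) (by positivity |> fun h : (0:ℝ) ≤ ‖z‖ / 5000 => by linarith)
    have h7 := Real.exp_le_exp.2 h5
    linarith
  have h8 : (10 : ℝ) ^ 8 ≤ ‖zz n L (k + 2)‖ := by linarith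
  have hαarg := hα.arg (k + 2) L (by omega) hL hL0 h8
  have hαlo := hα.lo (k + 2) L (by omega) hL hL0 h8
  have hαhi := hα.hi (k + 2) L (by omega) hL hL0 h8
  have hzz0 : zz n L (k + 2) ≠ 0 := by
    intro h0
    rw [h0, norm_zero] at h8
    norm_num at h8
  obtain ⟨t, ht⟩ := exp_im_eq (a := X + L)
    (b := (α (k + 2) L : ℂ) * I + (Real.log ‖zz n L (k + 2)‖ : ℝ)) (by
      rw [exp_add ((α (k + 2) L : ℂ) * I), ← ofReal_exp,
        Real.exp_log (norm_pos_iff.2 hzz0), hαarg, ← hzz2])
  have htim : X.im + L.im = α (k + 2) L + 2 * Real.pi * t := by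
    have h5 := congrArg Complex.im ht
    rw [add_im, add_im, add_im, two_pi_int_im] at h5
    simpa using h5
  -- the new itinerary
  let s' : ℕ → ℤ := fun i => if i < k then s i else if i = k then s k + m else t
  have hs'1 : ∀ i, i < k → s' i = s i := fun i hi => by simp [s', hi]
  have hs'2 : s' k = s k + m := by simp [s']
  have hs'3 : s' (k + 1) = t := by simp [s']
  have hYk : YY n s' L k = log z := by
    have h5 : YY n s' L k = YY n s L k - 2 * Real.pi * I * m := by
      unfold YY
      rw [hs'2]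
      push_cast
      ring
    rw [h5, hmm]
    ring
  have hYkre : (YY n s' L k).re = (YY n s L k).re := by
    rw [YY_re, YY_re]
  have hYi : ∀ i, i < k → YY n s' L i = YY n s L i := fun i hi => YY_congr (hs'1 i hi)
  have hYre : (YY n s' L (k + 1)).re = X.re + L.re := YY_re _ _ _ _
  have hYim : (YY n s' L (k + 1)).im = α (k + 2) L := by
    rw [YY_im, hs'3]
    linarith
  have hrr : ∀ i, i < k → rr s' i = rr s i :=
    fun i hi => rr_congr (fun j hj => hs'1 j (by omega))
  have hrk : |rr s' k - rr s k| ≤ 1 / 900 := by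
    rcases Nat.eq_zero_or_pos k with h0 | h0
    · subst h0
      simp [rr]
    · obtain ⟨j, rfl⟩ : ∃ j, k = j + 1 := ⟨k - 1, by omega⟩
      have h5 : rr s' (j + 1) = max (4 * Real.exp (rr s j))
          (2 * Real.pi * |(s' (j + 1) : ℝ)| / 6000) := by
        simp only [rr]
        rw [hrr j (by omega)]
      have h6 : rr s (j + 1) = max (4 * Real.exp (rr s j))
          (2 * Real.pi * |(s (j + 1) : ℝ)| / 6000) := rfl
      rw [h5, h6]
      refine (abs_max_sub_max_le_max _ _ _ _).trans ?_
      rw [sub_self, abs_zero, max_le_iff]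
      refine ⟨by norm_num, ?_⟩
      have h7 : 2 * Real.pi * |(s' (j + 1) : ℝ)| / 6000 - 2 * Real.pi * |(s (j + 1) : ℝ)| / 6000 =
          2 * Real.pi / 6000 * (|(s' (j + 1) : ℝ)| - |(s (j + 1) : ℝ)|) := by ring
      rw [h7, abs_mul, abs_of_pos (by positivity)]
      have h8 : |(|(s' (j + 1) : ℝ)| - |(s (j + 1) : ℝ)|)| ≤ 1 := by
        refine (abs_abs_sub_abs_le _ _).trans ?_
        rw [hs'2]
        push_cast
        rw [add_sub_cancel_left]
        exact hm1
      calc 2 * Real.pi / 6000 * |(|(s' (j + 1) : ℝ)| - |(s (j + 1) : ℝ)|)|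
          ≤ 2 * Real.pi / 6000 * 1 := by gcongr
        _ ≤ 1 / 900 := by linarith
  have hrk' := abs_le.1 hrk
  have hlogk : (log z).re = (YY n s L k).re := by rw [← hYk, hYkre]
  -- the margin at the new level
  have hmar : rr s' (k + 1) + 40 ≤ (YY n s' L (k + 1)).re := by
    rw [hYre]
    have h5 : rr s' (k + 1) = max (4 * Real.exp (rr s' k))
        (2 * Real.pi * |(s' (k + 1) : ℝ)| / 6000) := rfl
    have h6 : 4 * Real.exp (rr s' k) ≤ 1 / 100000 * ‖z‖ := by
      have h7 : rr s' k + 28 ≤ (YY n s L k).re := by linarith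
      have h8 : Real.exp (rr s' k) * Real.exp 28 ≤ ‖z‖ := by
        rw [hzn, ← Real.exp_add]
        exact Real.exp_le_exp.2 h7
      have h9 : (400000 : ℝ) ≤ Real.exp 28 := by
        have h10 := exp29
        have h11 : Real.exp 29 = Real.exp 28 * Real.exp 1 := by
          rw [← Real.exp_add]
          norm_num
        have h12 : Real.exp 1 < 2.7182818286 := Real.exp_one_lt_d9
        have h13 := Real.exp_pos 28
        nlinarith
      have h10 := Real.exp_pos (rr s' k)
      nlinarith
    have h7 : |2 * Real.pi * (t : ℝ)| ≤ ‖X‖ + 16 := by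
      have h8 : 2 * Real.pi * (t : ℝ) = X.im + (L.im - α (k + 2) L) := by linarith
      rw [h8]
      refine (abs_add_le _ _).trans ?_
      have h9 := abs_im_le_norm X
      have h10 : |L.im - α (k + 2) L| ≤ 16 := by
        rw [abs_le]
        have := hL.2.1
        have := hL.2.2
        constructor <;> linarith
      linarith
    have h8 : 2 * Real.pi * |(s' (k + 1) : ℝ)| ≤ ‖X‖ + 16 := by
      rw [hs'3]
      rw [abs_mul, abs_of_pos (by positivity : (0:ℝ) < 2 * Real.pi)] at h7
      exact h7
    rw [h5, ← le_sub_iff_add_le, max_le_iff]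
    constructor
    · linarith
    · rw [div_le_iff₀ (by norm_num)]
      linarith
  refine ⟨s', hs'1, ?_, ?_, hmar, hYim, hgrow⟩
  · rw [hs'2]
    push_cast
    rw [add_sub_cancel_left]
    exact hm1
  · refine ⟨h.hn, ?_, ?_, ?_, ?_, ?_⟩
    · rcases Nat.eq_zero_or_pos k with h0 | h0
      · subst h0
        have h5 : (YY n s' L 0).im = L.im - 2 * Real.pi * s' 0 := YY_zero_im _ _ _
        rw [hYk] at h5
        have h6 := hL.2.1
        have h7 := hL.2.2
        have h8 : (-1 : ℝ) < s' 0 := by nlinarith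
        have h9 : (s' 0 : ℝ) < 2 := by nlinarith
        have h10 : (-1 : ℤ) < s' 0 := by exact_mod_cast h8
        have h11 : s' 0 < 2 := by exact_mod_cast h9
        have h12 : |s' 0| ≤ 1 := by
          rw [abs_le]
          omega
        exact_mod_cast h12
      · rw [hs'1 0 h0]
        exact h.h0
    · intro i hi
      rcases Nat.lt_trichotomy i k with h0 | h0 | h0
      · rw [hrr i h0, hYi i h0]
        exact h.hr i h0.le
      · subst h0
        rw [hYkre]
        linarith
      · have h5 : i = k + 1 := by omega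
        subst h5
        linarith
    · intro i hi
      rcases Nat.lt_or_ge i k with h0 | h0
      · rw [hYi i h0]
        exact h.hi i h0
      · have h5 : i = k := by omega
        subst h5
        rw [hYk]
        linarith
    · rw [hYim, abs_le]
      constructor <;> linarith
    · intro i hi
      rcases Nat.lt_trichotomy i k with h0 | h0 | h0
      · rw [hYi i h0]
        exact h.hle i h0.le
      · subst h0
        rw [hYkre]
        exact h.hle i le_rfl
      · have h5 : i = k + 1 := by omega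
        subst h5
        rw [hYre]
        refine hX3.trans (Real.log_le_log (by positivity) (by linarith))

end Pool.Agent.Modu
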