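import Pool.Agent.Modu.CHP
import Pool.Agent.Modu.STEP

/-!
# MODU: SIDE
-/

set_option autoImplicit false

open Complex Filter Topology Set
open Pool.Agent.Multibrot Pool.Agent.Limb

namespace Pool.Agent.Modu

namespace SIDE_

open CHP_

lemma nf_of_eq {n : ℕ} (hn : (0 : ℝ) < n) {L : ℂ} {i : ℕ} (h : zz n L i = -n) : NF n L i := by
  unfold NF XX
  rw [h]
  have : (n : ℂ) ≠ 0 := by exact_mod_cast hn.ne'
  rw [neg_div, div_self this]
  simp

lemma fr_of_not_nf {n : ℕ} {L : ℂ} {i : ℕ} (h : ¬ NF n L i) : FR n L i := by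
  unfold NF at h
  unfold FR
  push Not at h
  exact h.le

lemma sin_low {θ : ℝ} (h0 : 0 < θ) (h1 : θ ≤ 1 / 100) : 749 / 1000 * θ ≤ Real.sin (3 * θ / 4) := by
  have h2 := Real.sin_gt_sub_cube (x := 3 * θ / 4) (by positivity)
  have h3 : (3 * θ / 4) ^ 3 / 6 ≤ 1 / 1000 * θ := by
    have : (3 * θ / 4) ^ 3 / 6 = 9 / 128 * θ ^ 2 * θ := by ring
    rw [this]
    have : θ ^ 2 ≤ 1 / 10000 := by nlinarith
    nlinarith
  linarith

/-- The imaginary part of a number with an argument away from `2 π ℤ`. -/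
lemma im_low {y : ℂ} {θ : ℝ} (h0 : 0 < θ) (h1 : θ ≤ 1 / 100)
    (hd : ∀ m : ℤ, 3 * θ / 4 ≤ |y.im - 2 * Real.pi * m|) (hre : 0 < (exp y).re) :
    749 / 1000 * θ * ‖exp y‖ ≤ |(exp y).im| := by
  have hpi := Real.pi_pos
  -- the nearest multiple
  set m : ℤ := round (y.im / (2 * Real.pi)) with hm
  have h2 : |y.im / (2 * Real.pi) - m| ≤ 1 / 2 := abs_sub_round _
  have h3 : |y.im - 2 * Real.pi * m| ≤ Real.pi := by
    have h4 : y.im - 2 * Real.pi * m = 2 * Real.pi * (y.im / (2 * Real.pi) - m) := by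
      field_simp
    rw [h4, abs_mul, abs_of_pos (by positivity)]
    nlinarith
  set x := y.im - 2 * Real.pi * m with hx
  have hcos : Real.cos y.im = Real.cos x := by
    have : y.im = x + m * (2 * Real.pi) := by rw [hx]; ring
    rw [this, Real.cos_add_int_mul_two_pi]
  have hsin : Real.sin y.im = Real.sin x := by
    have : y.im = x + m * (2 * Real.pi) := by rw [hx]; ring
    rw [this, Real.sin_add_int_mul_two_pi]
  rw [exp_re, hcos] at hre
  have hc : 0 < Real.cos x := by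
    have := Real.exp_pos y.re
    exact (mul_pos_iff_of_pos_left this).1 hre
  have hxl : |x| < Real.pi / 2 := by
    by_contra hcon
    push Not at hcon
    have h5 : Real.cos |x| ≤ 0 :=
      Real.cos_nonpos_of_pi_div_two_le_of_le hcon (by linarith)
    rw [Real.cos_abs] at h5
    linarith
  have h6 : Real.sin (3 * θ / 4) ≤ Real.sin |x| :=
    Real.sin_le_sin_of_le_of_le_pi_div_two (by linarith) hxl.le (hd m)
  have h7 : |Real.sin x| = Real.sin |x| := by
    rcases le_total 0 x with h8 | h8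
    · rw [abs_of_nonneg h8, abs_of_nonneg]
      rw [abs_of_nonneg h8] at hxl
      exact Real.sin_nonneg_of_nonneg_of_le_pi h8 (by linarith)
    · rw [abs_of_nonpos h8, Real.sin_neg, abs_of_nonpos]
      rw [abs_of_nonpos h8] at hxl
      exact Real.sin_nonpos_of_nonpos_of_neg_pi_le h8 (by linarith)
  rw [exp_im, hsin, abs_mul, abs_of_pos (Real.exp_pos _), norm_exp, h7]
  have h8 := sin_low h0 h1
  have h9 := Real.exp_pos y.re
  nlinarith

/-- The alternative at a point of a chart. -/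
lemma key (h2 : T_CHP) (h3 : T_FRX) {n : ℕ} {s : ℕ → ℤ} {κ : ℕ} {L : ℂ} {θ : ℝ}
    (h : Ch n s κ L) (hL : L ∈ Mp n) (hθ : 3 / 4 * (1 / 2) ^ (κ + 11) ≤ θ) (hθ1 : θ ≤ 1 / 100)
    (h99 : 99 ≤ θ * ‖zz n L (κ + 1)‖)
    (hd : ∀ m : ℤ, 3 * θ / 4 ≤ |(YY n s L κ).im - 2 * Real.pi * m|) :
    (NF n L (κ + 1) ∨ 20 ≤ |(XX n L (κ + 1)).im|) ∧ AT n κ L := by
  have hn0 : (0 : ℝ) < n := lt_of_lt_of_le (by norm_num) h.hn
  have hθ0 : 0 < θ := lt_of_lt_of_le (by positivity) hθ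
  by_cases hNF : NF n L (κ + 1)
  · exact ⟨Or.inl hNF, Or.inl hNF⟩
  · have hFR := fr_of_not_nf hNF
    have hne : zz n L (κ + 1) ≠ -n := fun hc => hNF (nf_of_eq hn0 hc)
    have hL0 : 21 ≤ L.re := by
      have := h.hr 0 (by omega)
      rw [YY_zero_re] at this
      exact this
    obtain ⟨-, -, h5⟩ := h3 n L (κ + 1) h.hn hL.1 (by linarith) hne
    obtain ⟨-, h6⟩ := h5 hFR
    obtain ⟨-, hex, -, -, -, -, -, -, -⟩ := h2 n s κ L h
    have hzz := hex κ le_rfl
    have hzpos : 9900 ≤ ‖zz n L (κ + 1)‖ := by nlinarith [norm_nonneg (zz n L (κ + 1))]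
    have hXre : 1 ≤ (XX n L (κ + 1)).re := by
      unfold FR at hFR
      linarith
    have h7 : |(zz n L (κ + 1) - XX n L (κ + 1)).re| ≤ 1 / 10 ^ 6 :=
      (abs_re_le_norm _).trans h6
    have h8 : |(zz n L (κ + 1) - XX n L (κ + 1)).im| ≤ 1 / 10 ^ 6 :=
      (abs_im_le_norm _).trans h6
    rw [sub_re] at h7
    rw [sub_im] at h8
    have hzre : 0 < (zz n L (κ + 1)).re := by
      have := (abs_le.1 h7).1
      linarith
    have h9 := im_low (y := YY n s L κ) hθ0 hθ1 hd (by rw [hzz]; exact hzre)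
    rw [hzz] at h9
    have h10 : |(zz n L (κ + 1)).im| ≤ |(XX n L (κ + 1)).im| + 1 / 10 ^ 6 := by
      have h11 : (zz n L (κ + 1)).im =
          (XX n L (κ + 1)).im + ((zz n L (κ + 1)).im - (XX n L (κ + 1)).im) := by ring
      calc |(zz n L (κ + 1)).im| = |(XX n L (κ + 1)).im +
            ((zz n L (κ + 1)).im - (XX n L (κ + 1)).im)| := by rw [← h11]
        _ ≤ _ := (abs_add_le _ _).trans (by linarith)
    have h12 : 749 / 1000 * (θ * ‖zz n L (κ + 1)‖) ≤ |(XX n L (κ + 1)).im| + 1 / 10 ^ 6 := by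
      calc _ = 749 / 1000 * θ * ‖zz n L (κ + 1)‖ := by ring
        _ ≤ _ := h9
        _ ≤ _ := h10
    refine ⟨Or.inr (by linarith), Or.inr ?_⟩
    have h13 : (1 / 2 : ℝ) ^ (κ + 12) ≤ 2 / 3 * θ := by
      have : (1 / 2 : ℝ) ^ (κ + 12) = 1 / 2 * (1 / 2) ^ (κ + 11) := by ring
      rw [this]
      linarith
    calc (1 / 2 : ℝ) ^ (κ + 12) * ‖zz n L (κ + 1)‖ ≤ 2 / 3 * θ * ‖zz n L (κ + 1)‖ := by gcongr
      _ = 2 / 3 * (θ * ‖zz n L (κ + 1)‖) := by ring
      _ ≤ _ := by linarith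

/-- On the symmetry rays the critical orbit is positive. -/
lemma pos_of_slit {n : ℕ} {L : ℂ} {m : ℤ} (h : L.im = 2 * Real.pi * m) (i : ℕ) :
    ∃ x : ℝ, 0 < x ∧ zz n L (i + 1) = x := by
  have hexp : exp L = (Real.exp L.re : ℝ) := by
    have h1 : L = (L.re : ℂ) + m * (2 * Real.pi * I) := by
      apply Complex.ext
      · simp
      · simp [h]
        ring
    rw [h1, exp_add, exp_int_mul_two_pi_mul_I, mul_one, ofReal_exp]
    simp
  induction i with
  | zero => exact ⟨Real.exp L.re, Real.exp_pos _, by rw [zero_add, zz_one, hexp]⟩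
  | succ i ih =>
    obtain ⟨x, hx, hxe⟩ := ih
    refine ⟨Real.exp L.re * (1 + x / n) ^ n, by positivity, ?_⟩
    rw [zz_succ, Limb.E, hxe, hexp]
    push_cast
    ring

end SIDE_

open CHP_ SIDE_

theorem p_SIDE (h1 : T_CLOSE) (h2 : T_CHP) (h3 : T_FRX) (h4 : T_SLIT) : T_SIDE := by
  intro n α s κ L1 L2 θ hα hL1 h62 hL2 hC hmar hs hθ hθ1 h100 hd hP
  have hpi := Real.pi_pos
  have hpi3 := Real.pi_gt_three
  have hn0 : (0 : ℝ) < n := lt_of_lt_of_le (by norm_num) hα.hn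
  have hθ0 : 0 < θ := lt_of_lt_of_le (by positivity) hθ
  obtain ⟨-, hex, hnorm, -, -, -, -, -, hLow⟩ := h2 n s κ L1 hC
  have hrr := rr_ge s κ
  have hbig : ∀ (s : ℕ → ℤ) (L : ℂ), Ch n s κ L → (10 : ℝ) ^ 8 ≤ ‖zz n L (κ + 1)‖ := by
    intro s L h
    obtain ⟨-, -, hnorm', -, -, -, -, -, -⟩ := h2 n s κ L h
    rw [hnorm' κ le_rfl]
    have h8 := exp_ge ((rr_ge s κ).trans (h.hr κ le_rfl))
    have h9 := (rr_ge s κ).trans (h.hr κ le_rfl)
    linarith
  have h8 := hbig s L1 hC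
  have hlo := hα.lo (κ + 1) L1 (by omega) hL1 (by linarith) h8
  have hhi := hα.hi (κ + 1) L1 (by omega) hL1 (by linarith) h8
  have him9 : |(YY n s L1 κ).im| ≤ 9 := by
    rw [hs, abs_le]
    constructor <;> linarith
  have hle3 : (YY n s L1 κ).re ≤ Real.log (3 * n) := by
    have h5 := norm_zz_le hα.hn hL1.1 (by linarith) (κ + 1)
    rw [hnorm κ le_rfl] at h5
    rw [Real.le_log_iff_exp_le (by positivity)]
    exact h5
  have hPi1 : 1 ≤ ∏ i ∈ Finset.range κ, ‖zz n L1 (i + 1)‖ := by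
    have h5 : ∏ i ∈ Finset.range κ, (1 : ℝ) ≤ ∏ i ∈ Finset.range κ, ‖zz n L1 (i + 1)‖ := by
      apply Finset.prod_le_prod
      · intro i _
        norm_num
      · intro i hi
        have hi' := (Finset.mem_range.1 hi).le
        rw [hnorm i hi']
        have := (rr_ge s i).trans (hC.hr i hi')
        exact Real.one_le_exp (by linarith)
    rwa [Finset.prod_const_one] at h5
  set P := ∏ i ∈ Finset.range κ, ‖zz n L1 (i + 1)‖ with hPdef
  have hclose : ∀ L : ℂ, ‖L - L1‖ ≤ ‖L2 - L1‖ →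
      Ch n s κ L ∧ ‖YY n s L κ - YY n s L1 κ‖ ≤ θ / 4 := by
    intro L hL
    have h5 : P * ‖L - L1‖ ≤ θ / 5 := le_trans (by gcongr) hP
    obtain ⟨h6, h7⟩ := h1 n s κ L1 L hC hmar him9 hle3 (by rw [← hPdef]; linarith)
    exact ⟨h6, by rw [← hPdef] at h7; linarith⟩
  have hDL : ‖L2 - L1‖ ≤ 1 / 500 := by
    have h5 : ‖L2 - L1‖ ≤ P * ‖L2 - L1‖ := by
      have := norm_nonneg (L2 - L1)
      nlinarith
    linarith
  obtain ⟨hC2, hD2⟩ := hclose L2 le_rfl
  have hL2re : 61 ≤ L2.re := by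
    have h5 : |(L2 - L1).re| ≤ 1 / 500 := (abs_re_le_norm _).trans hDL
    rw [sub_re] at h5
    have := (abs_le.1 h5).1
    linarith
  -- no crossing of the slit
  have hcross : ∀ b : ℤ, ¬ ∃ L3 : ℂ, ‖L3 - L1‖ ≤ ‖L2 - L1‖ ∧ L3.im = 2 * Real.pi * b := by
    rintro b ⟨L3, h5, h6⟩
    obtain ⟨hC3, hD3⟩ := hclose L3 h5
    obtain ⟨-, hex3, -, -, -, -, -, -, -⟩ := h2 n s κ L3 hC3
    obtain ⟨x, hx, hxe⟩ := pos_of_slit h6 κ
    have h7 : exp (YY n s L3 κ) = exp ((Real.log x : ℝ) : ℂ) := by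
      rw [hex3 κ le_rfl, hxe, ← ofReal_exp, Real.exp_log hx]
    obtain ⟨m, hm⟩ := STEP_.exp_im_eq h7
    have h8 : (YY n s L3 κ).im = 2 * Real.pi * m := by
      rw [hm, add_im, two_pi_int_im, ofReal_im, zero_add]
    have h9 := hd m
    have h10 : |(YY n s L3 κ - YY n s L1 κ).im| ≤ θ / 4 := (abs_im_le_norm _).trans hD3
    rw [sub_im, h8, abs_sub_comm] at h10
    linarith
  have him1 := hL1.2.1
  have him2 := hL1.2.2
  have hseg : ∀ b : ℝ, (L2.im ≤ b ∧ b < L1.im) ∨ (L1.im < b ∧ b ≤ L2.im) →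
      ∃ L3 : ℂ, ‖L3 - L1‖ ≤ ‖L2 - L1‖ ∧ L3.im = b := by
    intro b hb
    have h5 : L2.im - L1.im ≠ 0 := by
      rcases hb with hb | hb
      · have : L2.im - L1.im < 0 := by linarith [hb.1, hb.2]
        exact this.ne
      · have : 0 < L2.im - L1.im := by linarith [hb.1, hb.2]
        exact this.ne'
    set t : ℝ := (b - L1.im) / (L2.im - L1.im) with ht
    have ht1 : 0 ≤ t ∧ t ≤ 1 := by
      rcases hb with hb | hb
      · have h6 : L2.im - L1.im < 0 := by linarith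
        constructor
        · exact div_nonneg_of_nonpos (by linarith) h6.le
        · rw [ht, div_le_one_of_neg h6]
          linarith
      · have h6 : 0 < L2.im - L1.im := by linarith
        constructor
        · exact div_nonneg (by linarith) h6.le
        · rw [ht, div_le_one h6]
          linarith
    refine ⟨L1 + t * (L2 - L1), ?_, ?_⟩
    · rw [add_sub_cancel_left, norm_mul, norm_real, Real.norm_eq_abs, abs_of_nonneg ht1.1]
      have := norm_nonneg (L2 - L1)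
      nlinarith [ht1.2]
    · have h6 : t * (L2.im - L1.im) = b - L1.im := by
        rw [ht]
        field_simp
      rw [add_im, im_ofReal_mul, sub_im, h6]
      ring
  have hL2p : L2 ∈ Mp n := by
    refine ⟨hL2, ?_, ?_⟩
    · by_contra hcon
      push Not at hcon
      obtain ⟨L3, h5, h6⟩ := hseg 0 (Or.inl ⟨hcon, him1⟩)
      exact hcross 0 ⟨L3, h5, by rw [h6]; simp⟩
    · by_contra hcon
      push Not at hcon
      obtain ⟨L3, h5, h6⟩ := hseg (2 * Real.pi) (Or.inr ⟨him2, hcon⟩)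
      exact hcross 1 ⟨L3, h5, by rw [h6]; simp⟩
  -- the distances
  have hDim : |(YY n s L2 κ).im - (YY n s L1 κ).im| ≤ θ / 4 := by
    rw [← sub_im]
    exact (abs_im_le_norm _).trans hD2
  have hDre : |(YY n s L2 κ).re - (YY n s L1 κ).re| ≤ θ / 4 := by
    rw [← sub_re]
    exact (abs_re_le_norm _).trans hD2
  have hd2 : ∀ m : ℤ, 3 * θ / 4 ≤ |(YY n s L2 κ).im - 2 * Real.pi * m| := by
    intro m
    have h5 := hd m
    have h6 : |(YY n s L1 κ).im - 2 * Real.pi * m| ≤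
        |(YY n s L2 κ).im - 2 * Real.pi * m| + |(YY n s L2 κ).im - (YY n s L1 κ).im| := by
      have h7 : (YY n s L1 κ).im - 2 * Real.pi * m =
          ((YY n s L2 κ).im - 2 * Real.pi * m) - ((YY n s L2 κ).im - (YY n s L1 κ).im) := by ring
      calc _ = |((YY n s L2 κ).im - 2 * Real.pi * m) -
            ((YY n s L2 κ).im - (YY n s L1 κ).im)| := by rw [← h7]
        _ ≤ _ := abs_sub _ _
    linarith
  obtain ⟨-, hex2, hnorm2, -, -, -, -, -, -⟩ := h2 n s κ L2 hC2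
  have h99 : 99 ≤ θ * ‖zz n L2 (κ + 1)‖ := by
    have h5 : Real.exp (-(θ / 4)) * ‖zz n L1 (κ + 1)‖ ≤ ‖zz n L2 (κ + 1)‖ := by
      rw [hnorm κ le_rfl, hnorm2 κ le_rfl, ← Real.exp_add]
      apply Real.exp_le_exp.2
      have := (abs_le.1 hDre).1
      linarith
    have h6 : 99 / 100 ≤ Real.exp (-(θ / 4)) := by
      have := Real.add_one_le_exp (-(θ / 4))
      linarith
    have h7 : 99 / 100 * ‖zz n L1 (κ + 1)‖ ≤ ‖zz n L2 (κ + 1)‖ := by
      have := norm_nonneg (zz n L1 (κ + 1))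
      nlinarith
    nlinarith
  obtain ⟨hk1, hAT1⟩ := key h2 h3 hC hL1 hθ hθ1 (by linarith) (fun m => by
    have := hd m
    linarith)
  obtain ⟨hk2, hAT2⟩ := key h2 h3 hC2 hL2p hθ hθ1 h99 hd2
  have h82 := hbig s L2 hC2
  obtain ⟨ha1, ha2⟩ := hα.nf (κ + 1) L1 (by omega) hL1 (by linarith) h8 hk1
  obtain ⟨hb1, hb2⟩ := hα.nf (κ + 1) L2 (by omega) hL2p (by linarith) h82 hk2
  rw [← hs] at ha1 ha2
  have hy1 : θ ≤ (YY n s L1 κ).im := by
    have := hd 0
    rw [Int.cast_zero, mul_zero, sub_zero, abs_of_pos ha1] at this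
    exact this
  have hy2 : (YY n s L1 κ).im ≤ 2 * Real.pi - θ := by
    have := hd 1
    rw [Int.cast_one, mul_one, abs_of_neg (by linarith)] at this
    linarith
  have hDim' := abs_le.1 hDim
  have heq : (YY n s L2 κ).im = α (κ + 1) L2 := by
    have h5 := hα.arg (κ + 1) L2 (by omega) hL2p (by linarith) h82
    have hz0 : 0 < ‖zz n L2 (κ + 1)‖ := by linarith
    have h6 : exp (YY n s L2 κ) =
        exp ((α (κ + 1) L2 : ℂ) * I + (Real.log ‖zz n L2 (κ + 1)‖ : ℝ)) := by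
      rw [hex2 κ le_rfl, exp_add, ← ofReal_exp, Real.exp_log hz0, h5]
    obtain ⟨m, hm⟩ := STEP_.exp_im_eq h6
    have h7 := congrArg Complex.im hm
    rw [add_im, add_im, two_pi_int_im, ofReal_im, mul_I_im, ofReal_re, add_zero] at h7
    have h8 : -1 < (m : ℝ) := by
      by_contra hcon
      push Not at hcon
      nlinarith
    have h9 : (m : ℝ) < 1 := by
      by_contra hcon
      push Not at hcon
      nlinarith
    have h10 : m = 0 := by
      have h11 : -1 < m := by exact_mod_cast h8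
      have h12 : m < 1 := by exact_mod_cast h9
      omega
    rw [h7, h10]
    simp
  exact ⟨hL2p, hC2, heq, hD2, hAT1, hAT2⟩

end Pool.Agent.Modu
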