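import Pool.Agent.Modu.Targets

/-!
# MODU-SLIT: the central disc and the symmetry rays
-/

set_option autoImplicit false

open Complex Filter Topology Set
open Pool.Agent.Multibrot Pool.Agent.Limb

namespace Pool.Agent.Modu

/-- The central disc in the `L`-plane is a half plane. -/
lemma SLIT_.le_iff {n : ℕ} (hn : 2 ≤ n) (L : ℂ) :
    ‖cc n L‖ ≤ r0 n ↔ L.re ≤ ((n : ℝ) - 1) * Real.log (1 - 1 / n) := by
  have h2 : (2 : ℝ) ≤ n := by exact_mod_cast hn
  have hn1 : (0 : ℝ) < (n : ℝ) - 1 := by linarith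
  have hn0 : (0 : ℝ) < n := by linarith
  have hq : (0 : ℝ) < 1 - 1 / n := by
    rw [sub_pos, div_lt_one hn0]
    linarith
  have hx : x0 n = Real.exp (-(Real.log n / (n - 1))) := by
    unfold x0
    rw [Real.rpow_def_of_pos hn0]
    congr 1
    ring
  have hr : r0 n = Real.exp (-(Real.log n / (n - 1)) + Real.log (1 - 1 / n)) := by
    unfold r0
    rw [hx, Real.exp_add, Real.exp_log hq]
  rw [norm_cc hn, hr, Real.exp_le_exp]
  have h3 : (L.re - Real.log n) / (n - 1) = L.re / (n - 1) - Real.log n / (n - 1) := by ring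
  rw [h3]
  constructor
  · intro h
    have h4 : L.re / ((n : ℝ) - 1) ≤ Real.log (1 - 1 / n) := by linarith
    rw [div_le_iff₀ hn1] at h4
    linarith
  · intro h
    have h4 : L.re / ((n : ℝ) - 1) ≤ Real.log (1 - 1 / n) := by
      rw [div_le_iff₀ hn1]
      linarith
    linarith

lemma SLIT_.lo {n : ℕ} (hn : 2 ≤ n) : -1 ≤ ((n : ℝ) - 1) * Real.log (1 - 1 / n) := by
  have h2 : (2 : ℝ) ≤ n := by exact_mod_cast hn
  have hn1 : (0 : ℝ) < (n : ℝ) - 1 := by linarith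
  have hn0 : (0 : ℝ) < n := by linarith
  have hq : (0 : ℝ) < 1 - 1 / n := by
    rw [sub_pos, div_lt_one hn0]
    linarith
  have h3 := Real.one_sub_inv_le_log_of_pos hq
  have h4 : 1 - (1 - 1 / (n : ℝ))⁻¹ = -(1 / ((n : ℝ) - 1)) := by
    have h5 : (n : ℝ) - 1 ≠ 0 := hn1.ne'
    have h6 : (n : ℝ) ≠ 0 := hn0.ne'
    have h7 : 1 - 1 / (n : ℝ) = ((n : ℝ) - 1) / n := by field_simp
    rw [h7, inv_div]
    field_simp
    ring
  rw [h4] at h3
  calc (-1 : ℝ) = ((n : ℝ) - 1) * (-(1 / ((n : ℝ) - 1))) := by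
        field_simp
    _ ≤ _ := mul_le_mul_of_nonneg_left h3 hn1.le

lemma SLIT_.hi {n : ℕ} (hn : 3 ≤ n) : ((n : ℝ) - 1) * Real.log (1 - 1 / n) < -(1 / 2) := by
  have h2 : (3 : ℝ) ≤ n := by exact_mod_cast hn
  have hn1 : (0 : ℝ) < (n : ℝ) - 1 := by linarith
  have hn0 : (0 : ℝ) < n := by linarith
  have hq : (0 : ℝ) < 1 - 1 / n := by
    rw [sub_pos, div_lt_one hn0]
    linarith
  have h3 := Real.log_le_sub_one_of_pos hq
  have h4 : ((n : ℝ) - 1) * Real.log (1 - 1 / n) ≤ ((n : ℝ) - 1) * (-(1 / n)) := by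
    apply mul_le_mul_of_nonneg_left _ hn1.le
    linarith
  refine lt_of_le_of_lt h4 ?_
  have h5 : ((n : ℝ) - 1) * (-(1 / n)) = -(1 - 1 / n) := by
    field_simp
  rw [h5, neg_lt_neg_iff, lt_sub_iff_add_lt, ← lt_sub_iff_add_lt', div_lt_iff₀ hn0]
  linarith

/-- Rotation invariance of the orbit. -/
lemma SLIT_.Q_rot {n : ℕ} (hn : 2 ≤ n) {w : ℂ} (hw : w ^ (n - 1) = 1) (c : ℂ) (k : ℕ) :
    Q n k (w * c) = w * Q n k c := by
  have hwn : w ^ n = w := by
    have : n = (n - 1) + 1 := by omega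
    rw [this, pow_succ, hw, one_mul]
  induction k with
  | zero => simp [Q_zero]
  | succ k ih =>
    rw [Q_succ, Q_succ, ih, mul_pow, hwn]
    ring

lemma SLIT_.MM_rot {n : ℕ} (hn : 2 ≤ n) {w : ℂ} (hw : w ^ (n - 1) = 1) (c : ℂ) :
    w * c ∈ MM n ↔ c ∈ MM n := by
  have hw1 : ‖w‖ = 1 := by
    have h1 : ‖w‖ ^ (n - 1) = 1 := by rw [← norm_pow, hw, norm_one]
    exact (pow_eq_one_iff_of_nonneg (norm_nonneg _) (by omega)).1 h1
  have h : ∀ k, ‖Q n k (w * c)‖ = ‖Q n k c‖ := by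
    intro k
    rw [SLIT_.Q_rot hn hw, norm_mul, hw1, one_mul]
  constructor
  · intro hc k
    rw [← h k]
    exact hc k
  · intro hc k
    rw [h k]
    exact hc k

/-- The parameter after a vertical translation. -/
lemma SLIT_.cc_add (n : ℕ) (L a : ℂ) :
    cc n (L + a) = exp (a / ((n : ℂ) - 1)) * cc n L := by
  unfold cc ell
  rw [← Complex.exp_add]
  congr 1
  ring

lemma SLIT_.root {n : ℕ} (hn : 2 ≤ n) (m : ℤ) :
    exp (2 * Real.pi * m * I / ((n : ℂ) - 1)) ^ (n - 1) = 1 := by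
  rw [← Complex.exp_nat_mul]
  have h1 : ((n - 1 : ℕ) : ℂ) = (n : ℂ) - 1 := by
    rw [Nat.cast_sub (by omega)]
    simp
  have h2 : (n : ℂ) - 1 ≠ 0 := by
    rw [← h1]
    exact_mod_cast (show n - 1 ≠ 0 by omega)
  rw [h1, mul_div_cancel₀ _ h2]
  have h3 : (2 * Real.pi * m * I : ℂ) = m * (2 * Real.pi * I) := by ring
  rw [h3]
  exact Complex.exp_int_mul_two_pi_mul_I m

theorem p_SLIT : T_SLIT := by
  intro n L hN
  have hn3 : 3 ≤ n := by
    have h1 : (3 : ℝ) ≤ n := le_trans (by norm_num) hN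
    exact_mod_cast h1
  have hn : 2 ≤ n := by omega
  refine ⟨?_, ?_, ?_, ?_⟩
  · intro h
    rw [SLIT_.le_iff hn]
    exact h.trans (SLIT_.lo hn)
  · intro h
    exact disc_sub hn h
  · rintro hL ⟨m, hm⟩
    have h1 : ‖cc n L‖ ≤ r0 n := by
      by_contra hcon
      push Not at hcon
      have h2 : cc n L = ((‖cc n L‖ : ℝ) : ℂ) * exp (2 * Real.pi * m * I / ((n : ℂ) - 1)) := by
        have h3 : L = (L.re : ℂ) + 2 * Real.pi * m * I := by
          apply Complex.ext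
          · simp
          · simp [hm]
        have h4 : cc n ((L.re : ℂ)) = ((‖cc n L‖ : ℝ) : ℂ) := by
          rw [norm_cc hn]
          unfold cc ell
          push_cast
          rfl
        have h5 := SLIT_.cc_add n (L.re : ℂ) (2 * Real.pi * m * I)
        rw [← h3, h4] at h5
        rw [mul_comm]
        exact h5
      have h6 := slit hn hcon (SLIT_.root hn m)
      apply h6
      rw [← h2]
      exact hL
    refine ⟨h1, ?_⟩
    rw [SLIT_.le_iff hn] at h1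
    exact lt_of_le_of_lt h1 (SLIT_.hi hn3)
  · intro m
    show cc n (L + 2 * Real.pi * m * I) ∈ MM n ↔ cc n L ∈ MM n
    rw [SLIT_.cc_add]
    exact SLIT_.MM_rot hn (SLIT_.root hn m) _

end Pool.Agent.Modu
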