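import Pool.Agent.Modu.Basic

/-!
# MODU: SPINE, the points of the spine are in the Multibrot set
-/

set_option autoImplicit false

open Complex Filter Topology Set
open Pool.Agent.Multibrot Pool.Agent.Limb

namespace Pool.Agent.Modu

namespace SPINE_

/-- Sums of fast growing sequences. -/
lemma sum_le (a : ℕ → ℝ) (k : ℕ) (h0 : ∀ i, i ≤ k → 0 ≤ a i)
    (hg : ∀ i, i < k → 100 * a i ≤ a (i + 1)) :
    ∀ m, m ≤ k → ∑ i ∈ Finset.range m, a i ≤ a m ∧ a 0 ≤ a m := by
  intro m
  induction m with
  | zero =>
    intro _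
    simp only [Finset.range_zero, Finset.sum_empty]
    exact ⟨h0 0 (by omega), le_rfl⟩
  | succ m ih =>
    intro hm
    obtain ⟨h1, h2⟩ := ih (by omega)
    have h3 := hg m (by omega)
    have h4 := h0 m (by omega)
    rw [Finset.sum_range_succ]
    exact ⟨by linarith, by linarith⟩

/-- The final numerical estimate. -/
lemma num (t : ℝ) (ht : 21 ≤ t) : Real.exp (3 * t + 1 - Real.exp t) ≤ 1 / 100 := by
  have h1 : 1 + t + t ^ 2 / 2 ≤ Real.exp t := Real.quadratic_le_exp_of_nonneg (by linarith)
  have h2 : 3 * t + 1 - Real.exp t ≤ -178 := by nlinarith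
  have h3 : Real.exp (3 * t + 1 - Real.exp t) ≤ Real.exp (-178) := Real.exp_le_exp.2 h2
  have h4 : (178 : ℝ) + 1 ≤ Real.exp 178 := Real.add_one_le_exp _
  have h5 : Real.exp (-178) ≤ 1 / 100 := by
    rw [Real.exp_neg, ← one_div]
    exact one_div_le_one_div_of_le (by norm_num) (by linarith)
  exact h3.trans h5

end SPINE_

open SPINE_ in
theorem p_SPINE (h1 : T_CHP) (_h2 : T_LN) : T_SPINE := by
  intro n s k L hL hS
  obtain ⟨c1, c2, c3, -, c5, -, -, c8, c9⟩ := h1 n s k L hL
  obtain ⟨hS1, hS2⟩ := hS
  have hn := hL.hn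
  have hn0 : (0 : ℝ) < n := lt_of_lt_of_le (by norm_num) hn
  have hnC : (n : ℂ) ≠ 0 := by
    have : (n : ℝ) ≠ 0 := hn0.ne'
    exact_mod_cast this
  set t : ℝ := (YY n s L k).re with ht
  have ht21 : 21 ≤ t := (c8 k le_rfl).trans (hL.hr k le_rfl)
  -- the point
  have hz : zz n L (k + 1) = -((Real.exp t : ℝ) : ℂ) := by
    rw [← c2 k le_rfl]
    have h3 : YY n s L k = (t : ℂ) + Real.pi * I := by
      apply Complex.ext
      · simp [ht]
      · simp [hS1]
    rw [h3, exp_add, exp_pi_mul_I, ofReal_exp]
    ring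
  have hexp1 : (5 : ℝ) / 2 ≤ Real.exp 1 := by
    have := Real.exp_one_gt_d9
    linarith
  have hetn : Real.exp t ≤ n * (2 / 5) := by
    have h3 : Real.exp t ≤ Real.exp (Real.log n - 1) := Real.exp_le_exp.2 hS2
    rw [Real.exp_sub, Real.exp_log hn0] at h3
    refine h3.trans ?_
    rw [div_le_iff₀ (Real.exp_pos _)]
    have h4 : (0 : ℝ) ≤ n * (2 / 5) := by positivity
    nlinarith
  have het0 : 0 < Real.exp t := Real.exp_pos t
  have hne : zz n L (k + 1) ≠ -n := by
    rw [hz]
    intro h
    have h3 : (Real.exp t : ℂ) = ((n : ℝ) : ℂ) := by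
      have h4 := neg_injective h
      rw [h4]
      norm_cast
    have h4 : Real.exp t = n := by exact_mod_cast h3
    rw [h4] at hetn
    linarith
  -- the tower
  have hlow : Low n (k + 1) L := by
    refine ⟨hn, by omega, ?_, ?_, ?_⟩
    · have := c9.h1
      refine le_trans ?_ this
      norm_num
    · intro i hi1 hi2
      have h3 := c9.hgr i hi1 hi2
      have h4 := norm_nonneg (zz n L i)
      linarith
    · intro i hi1 hi2
      have h3 := c9.hre i hi1 hi2
      linarith
  refine lim_TRAPM n (k + 1) L hlow hne ?_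
  -- the sums
  have hs := sum_le (fun i => (YY n s L i).re) k
    (fun i hi => by
      have h3 := (c8 i hi).trans (hL.hr i hi)
      linarith)
    (fun i hi => (c5 i hi).2) k le_rfl
  obtain ⟨hs1, hs2⟩ := hs
  rw [c1.1] at hs2
  -- the norm of `1 + z / n`
  set σ : ℝ := 1 - Real.exp t / n with hσ
  have hσ1 : (3 : ℝ) / 5 ≤ σ := by
    have h3 : Real.exp t / n ≤ 2 / 5 := by
      rw [div_le_iff₀ hn0]
      linarith
    linarith
  have hσ2 : σ ≤ Real.exp (-(Real.exp t / n)) := by
    have h3 := Real.add_one_le_exp (-(Real.exp t / n))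
    linarith
  have hσe : 1 + zz n L (k + 1) / n = (σ : ℂ) := by
    rw [hz, hσ]
    push_cast
    ring
  have hσn : ‖1 + zz n L (k + 1) / n‖ = σ := by
    rw [hσe, Complex.norm_real, Real.norm_eq_abs, abs_of_nonneg (by linarith)]
  -- `z_{k+2}`
  have hz2 : ‖zz n L (k + 2)‖ ≤ Real.exp (L.re - Real.exp t) := by
    have h3 : zz n L (k + 2) = E n L (zz n L (k + 1)) := zz_succ n L (k + 1)
    rw [h3, Limb.E, norm_mul, norm_pow, hσn, Complex.norm_exp, sub_eq_add_neg, Real.exp_add]
    apply mul_le_mul_of_nonneg_left _ (Real.exp_pos _).le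
    calc σ ^ n ≤ (Real.exp (-(Real.exp t / n))) ^ n :=
          pow_le_pow_left₀ (by linarith) hσ2 n
      _ = Real.exp (-Real.exp t) := by
        rw [← Real.exp_nat_mul]
        congr 1
        field_simp
  -- the product
  have hD : ‖DD n L (k + 1)‖ ≤ Real.exp t * (Real.exp t * Real.exp 1) := by
    unfold DD
    rw [Finset.prod_range_succ, norm_mul, norm_prod]
    apply mul_le_mul _ _ (norm_nonneg _) (Real.exp_pos _).le
    · calc ∏ i ∈ Finset.range k, ‖zz n L (i + 1) / (1 + zz n L (i + 1) / n)‖
          ≤ ∏ i ∈ Finset.range k, Real.exp (YY n s L i).re := by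
            apply Finset.prod_le_prod
            · intro i _
              exact norm_nonneg _
            · intro i hi
              have hi' : i < k := Finset.mem_range.1 hi
              have h3 : 1 ≤ (zz n L (i + 1)).re := c9.hre (i + 1) (by omega) (by omega)
              have h4 : (1 : ℝ) ≤ ‖1 + zz n L (i + 1) / n‖ := by
                have h5 : (1 + zz n L (i + 1) / n).re = 1 + (zz n L (i + 1)).re / n := by
                  rw [add_re, one_re]
                  congr 1
                  have h6 : (n : ℂ) = ((n : ℝ) : ℂ) := by norm_cast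
                  rw [h6, Complex.div_ofReal_re]
                have h6 : (1 + zz n L (i + 1) / n).re ≤ ‖1 + zz n L (i + 1) / n‖ :=
                  Complex.re_le_norm _
                rw [h5] at h6
                have h7 : 0 ≤ (zz n L (i + 1)).re / n := by positivity
                linarith
              rw [norm_div, ← c3 i hi'.le]
              exact div_le_self (norm_nonneg _) h4
        _ = Real.exp (∑ i ∈ Finset.range k, (YY n s L i).re) := by
            rw [Real.exp_sum]
        _ ≤ Real.exp t := Real.exp_le_exp.2 hs1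
    · rw [norm_div, hσn, c3 k le_rfl, div_le_iff₀ (by linarith), ← ht]
      have h3 : 1 ≤ Real.exp 1 * σ := by nlinarith
      calc Real.exp t = Real.exp t * 1 := (mul_one _).symm
        _ ≤ Real.exp t * (Real.exp 1 * σ) := by
          apply mul_le_mul_of_nonneg_left h3 het0.le
        _ = Real.exp t * Real.exp 1 * σ := by ring
  rw [norm_mul]
  calc ‖zz n L (k + 1 + 1)‖ * ‖DD n L (k + 1)‖
      ≤ Real.exp (L.re - Real.exp t) * (Real.exp t * (Real.exp t * Real.exp 1)) := by
        apply mul_le_mul hz2 hD (norm_nonneg _) (Real.exp_pos _).le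
    _ = Real.exp (L.re - Real.exp t + (t + (t + 1))) := by
        rw [Real.exp_add, Real.exp_add t, Real.exp_add t]
    _ ≤ Real.exp (3 * t + 1 - Real.exp t) := by
        apply Real.exp_le_exp.2
        linarith
    _ ≤ 1 / 100 := num t ht21

end Pool.Agent.Modu
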