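import Pool.Agent.Modu.Targets

/-!
# MODU-SSEG: segments of the spine
-/

set_option autoImplicit false

open Complex Filter Topology Set
open Pool.Agent.Multibrot Pool.Agent.Limb

namespace Pool.Agent.Modu

theorem p_SSEG (h1 : T_CHART) (h2 : T_SPINE) (h3 : T_STAY) : T_SSEG := by
  intro n s k S1 S2 c1 c2 hS1 hS2 hM
  obtain ⟨Φ, hΦ1, hΦ2, hΦ3, -⟩ := h1 n s k c1.hn c1.h0
  set t1 := (YY n s S1 k).re with ht1
  set t2 := (YY n s S2 k).re with ht2
  have hpi1 := Real.pi_pos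
  have hpi2 := Real.pi_lt_four
  have hlo : rr s k ≤ min t1 t2 := le_min (c1.hr k le_rfl) (c2.hr k le_rfl)
  have hhi : max t1 t2 ≤ Real.log (4 * n) := max_le (c1.hle k le_rfl) (c2.hle k le_rfl)
  have hhi' : max t1 t2 ≤ Real.log n - 1 := max_le hS1.2 hS2.2
  set seg : Set ℂ := {y : ℂ | y.im = Real.pi ∧ min t1 t2 ≤ y.re ∧ y.re ≤ max t1 t2} with hseg
  have hsegc : Convex ℝ seg := by
    intro x hx y hy a b ha hb hab
    obtain ⟨x1, x2, x3⟩ := hx
    obtain ⟨y1, y2, y3⟩ := hy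
    refine ⟨?_, ?_, ?_⟩
    · simp only [Complex.add_im, Complex.smul_im, smul_eq_mul, x1, y1]
      rw [← add_mul, hab, one_mul]
    · simp only [Complex.add_re, Complex.smul_re, smul_eq_mul]
      calc min t1 t2 = a * min t1 t2 + b * min t1 t2 := by rw [← add_mul, hab, one_mul]
        _ ≤ a * x.re + b * y.re :=
          add_le_add (mul_le_mul_of_nonneg_left x2 ha) (mul_le_mul_of_nonneg_left y2 hb)
    · simp only [Complex.add_re, Complex.smul_re, smul_eq_mul]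
      calc a * x.re + b * y.re ≤ a * max t1 t2 + b * max t1 t2 :=
          add_le_add (mul_le_mul_of_nonneg_left x3 ha) (mul_le_mul_of_nonneg_left y3 hb)
        _ = max t1 t2 := by rw [← add_mul, hab, one_mul]
  have hin : ∀ y ∈ seg, rr s k ≤ y.re ∧ y.re ≤ Real.log (4 * n) ∧ |y.im| ≤ 10 := by
    rintro y ⟨e1, e2, e3⟩
    refine ⟨hlo.trans e2, e3.trans hhi, ?_⟩
    rw [e1, abs_of_pos hpi1]
    linarith
  have hcont : ContinuousOn Φ seg := by
    have hlip : LipschitzOnWith 1 Φ seg := by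
      refine LipschitzOnWith.of_dist_le_mul fun x hx y hy => ?_
      obtain ⟨x1, x2, x3⟩ := hin x hx
      obtain ⟨y1, y2, y3⟩ := hin y hy
      rw [dist_eq_norm, dist_eq_norm]
      refine (hΦ3 x y x1 x2 x3 y1 y2 y3).trans ?_
      refine mul_le_mul_of_nonneg_right ?_ (norm_nonneg _)
      rw [NNReal.coe_one]
      exact pow_le_one₀ (by norm_num) (by norm_num)
    exact hlip.continuousOn
  have hJ : IsPreconnected (Φ '' seg) := hsegc.isPreconnected.image Φ hcont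
  have hJp : ∀ L ∈ Φ '' seg, Ch n s k L ∧ Sp n s k L ∧ min t1 t2 ≤ (YY n s L k).re ∧
      (YY n s L k).re ≤ max t1 t2 := by
    rintro _ ⟨y, hy, rfl⟩
    obtain ⟨e1, e2, e3⟩ := hin y hy
    obtain ⟨f1, f2⟩ := hΦ1 y e1 e2 e3
    refine ⟨f1, ?_, ?_, ?_⟩
    · rw [Sp, f2]
      exact ⟨hy.1, hy.2.2.trans hhi'⟩
    · rw [f2]; exact hy.2.1
    · rw [f2]; exact hy.2.2
  have hS1J : S1 ∈ Φ '' seg := ⟨YY n s S1 k, ⟨hS1.1, min_le_left _ _, le_max_left _ _⟩, hΦ2 S1 c1⟩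
  have hS2J : S2 ∈ Φ '' seg := ⟨YY n s S2 k, ⟨hS2.1, min_le_right _ _, le_max_right _ _⟩,
    hΦ2 S2 c2⟩
  have hJq : Φ '' seg ⊆ Mq n := fun L hL => h2 n s k L (hJp L hL).1 (hJp L hL).2.1
  have hJM : Φ '' seg ⊆ Mp n := h3 n _ S1 c1.hn hJ hJq (fun L hL => by
    have e := (hJp L hL).1.hr 0 (Nat.zero_le _)
    have e2 : (YY n s L 0).re = L.re := by
      rw [YY, XX]
      have e3 : zz n L 0 = 0 := rfl
      rw [e3]
      simp
    rw [e2] at e
    have e4 : rr s 0 = 21 := rfl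
    rw [e4] at e
    linarith) hS1J hM
  exact ⟨Φ '' seg, hJ, hJM, hS1J, hS2J, hJp⟩

end Pool.Agent.Modu
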