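import Pool.Agent.Modu.Targets

/-!
# STAY: connected sets cannot cross the slit
-/

set_option autoImplicit false

open Complex Filter Topology Set
open Pool.Agent.Multibrot Pool.Agent.Limb

namespace Pool.Agent.Modu

/-- STAY -/
theorem p_STAY (h1 : T_SLIT) : T_STAY := by
  intro n J L0 hn hJ hJM hre hL0 hL0p L hL
  have hno : ∀ L ∈ J, ∀ m : ℤ, L.im ≠ 2 * Real.pi * m := by
    intro L hL m hm
    have h2 := ((h1 n L hn).2.2.1 (hJM hL) ⟨m, hm⟩).2
    linarith [hre L hL]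
  have hc : ContinuousOn Complex.im J := continuous_im.continuousOn
  refine ⟨hJM hL, ?_, ?_⟩
  · by_contra h
    have h3 : (0 : ℝ) ∈ Icc L.im L0.im := ⟨not_lt.1 h, hL0p.2.1.le⟩
    obtain ⟨L', hL', h4⟩ := hJ.intermediate_value hL hL0 hc h3
    exact hno L' hL' 0 (by rw [h4]; simp)
  · by_contra h
    have h3 : 2 * Real.pi ∈ Icc L0.im L.im := ⟨hL0p.2.2.le, not_lt.1 h⟩
    obtain ⟨L', hL', h4⟩ := hJ.intermediate_value hL0 hL hc h3
    exact hno L' hL' 1 (by rw [h4]; simp)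

end Pool.Agent.Modu
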