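import Pool.Agent.Modu.Targets
import Pool.Agent.Limb.CROSS

/-!
# MODU: the true arguments
-/

set_option autoImplicit false

open Complex Filter Topology Set
open Pool.Agent.Multibrot Pool.Agent.Limb

namespace Pool.Agent.Modu

namespace STRIP_

open Classical in
/-- The candidates. -/
noncomputable def A (n : ℕ) : ℕ → ℕ → ℂ → ℝ
  | 0, _, _ => 0
  | m + 1, i, L =>
    if i = 1 then L.im
    else if FR n L i then
      (if 0 ≤ (XX n L i).im + L.im - A n m (i + 1) L then arg (zz n L i)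
        else arg (zz n L i) + 2 * Real.pi)
    else arg (-(zz n L i)) + Real.pi

/-- The domains. -/
def D (n m i : ℕ) : Set ℂ :=
  {L | L ∈ Mp n ∧ 21 ≤ L.re ∧ (10 : ℝ) ^ 8 ≤ ‖zz n L i‖ ∧ 4 * (n : ℝ) ≤ 2 ^ m * ‖zz n L i‖}

/-- The induction hypothesis. -/
structure PP (n m : ℕ) : Prop where
  cont : ∀ i, 1 ≤ i → ContinuousOn (A n m i) (D n m i)
  arg : ∀ i L, 1 ≤ i → L ∈ D n m i → exp (A n m i L * I) * ‖zz n L i‖ = zz n L i
  lo : ∀ i L, 1 ≤ i → L ∈ D n m i → -2 < A n m i L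
  hi : ∀ i L, 1 ≤ i → L ∈ D n m i → A n m i L < 9
  nf : ∀ i L, 1 ≤ i → L ∈ D n m i → (NF n L i ∨ 20 ≤ |(XX n L i).im|) →
    0 < A n m i L ∧ A n m i L < 2 * Real.pi

lemma arg0 (z : ℂ) : exp ((arg z : ℝ) * I) * ‖z‖ = z := by
  rw [mul_comm]
  exact Complex.norm_mul_exp_arg_mul_I z

lemma arg1 (z : ℂ) : exp (((arg z + 2 * Real.pi : ℝ) : ℂ) * I) * ‖z‖ = z := by
  have h : (((arg z + 2 * Real.pi : ℝ) : ℂ) * I) = (arg z : ℝ) * I + 2 * Real.pi * I := by
    push_cast
    ring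
  rw [h, Complex.exp_add, Complex.exp_two_pi_mul_I, mul_one]
  exact arg0 z

lemma arg2 (z : ℂ) : exp (((arg (-z) + Real.pi : ℝ) : ℂ) * I) * ‖z‖ = z := by
  have h : (((arg (-z) + Real.pi : ℝ) : ℂ) * I) = (arg (-z) : ℝ) * I + Real.pi * I := by
    push_cast
    ring
  rw [h, Complex.exp_add, Complex.exp_pi_mul_I]
  have h2 := arg0 (-z)
  rw [norm_neg] at h2
  linear_combination (-1 : ℂ) * h2

lemma arg_int {z : ℂ} (hz : z ≠ 0) {a b : ℝ} (ha : exp (a * I) * ‖z‖ = z)
    (hb : exp (b * I) * ‖z‖ = z) : ∃ t : ℤ, a = b + 2 * Real.pi * t := by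
  have hn : (‖z‖ : ℂ) ≠ 0 := by
    exact_mod_cast (norm_pos_iff.mpr hz).ne'
  have h : exp (a * I) = exp (b * I) := mul_right_cancel₀ hn (ha.trans hb.symm)
  obtain ⟨t, ht⟩ := Complex.exp_eq_exp_iff_exists_int.mp h
  refine ⟨t, ?_⟩
  have h2 := congrArg Complex.im ht
  simp at h2
  rw [h2]
  ring

lemma arg_unique {z : ℂ} (hz : z ≠ 0) {a b : ℝ} (ha : exp (a * I) * ‖z‖ = z)
    (hb : exp (b * I) * ‖z‖ = z) (h1 : a - b < 2 * Real.pi) (h2 : b - a < 2 * Real.pi) :
    a = b := by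
  obtain ⟨t, ht⟩ := arg_int hz ha hb
  have hp := Real.pi_pos
  have h3 : (t : ℝ) < 1 := by
    by_contra hc
    rw [not_lt] at hc
    nlinarith
  have h4 : (-1 : ℝ) < t := by
    by_contra hc
    rw [not_lt] at hc
    nlinarith
  have h5 : t < 1 := by exact_mod_cast h3
  have h6 : -1 < t := by exact_mod_cast h4
  have h7 : t = 0 := by omega
  rw [ht, h7]
  simp

lemma npos {n : ℕ} (hn : (10 : ℝ) ^ 20 ≤ n) : (0 : ℝ) < n :=
  lt_of_lt_of_le (by norm_num) hn

lemma XX_re (n : ℕ) (L : ℂ) (i : ℕ) :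
    (XX n L i).re = n * Real.log ‖1 + zz n L i / n‖ := by
  rw [XX]
  have h : ((n : ℂ) * log (1 + zz n L i / n)).re = (n : ℝ) * (log (1 + zz n L i / n)).re := by
    have : (n : ℂ) = ((n : ℝ) : ℂ) := by push_cast; rfl
    rw [this, Complex.re_ofReal_mul]
  rw [h, Complex.log_re]

lemma nf_slit {n : ℕ} (hn : (10 : ℝ) ^ 20 ≤ n) {L : ℂ} {i : ℕ}
    (hz : (10 : ℝ) ^ 8 ≤ ‖zz n L i‖) (hz3 : ‖zz n L i‖ ≤ 3 * n) (hN : NF n L i) :
    -(zz n L i) ∈ slitPlane := by
  by_contra hc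
  rw [Complex.mem_slitPlane_iff, not_or, not_lt, not_not] at hc
  have hn0 := npos hn
  obtain ⟨hr, hi⟩ := hc
  rw [Complex.neg_re] at hr
  rw [Complex.neg_im, neg_eq_zero] at hi
  have hre : 0 ≤ (zz n L i).re := by linarith
  have hz0 : zz n L i = (((zz n L i).re : ℝ) : ℂ) := by
    apply Complex.ext
    · simp
    · simp [hi]
  set r : ℝ := (zz n L i).re with hrdef
  have hnorm : ‖zz n L i‖ = r := by
    rw [hz0, Complex.norm_real, Real.norm_eq_abs, abs_of_nonneg hre]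
  have hw : ‖1 + zz n L i / n‖ = 1 + r / n := by
    rw [hz0]
    have : (1 : ℂ) + ((r : ℝ) : ℂ) / n = ((1 + r / n : ℝ) : ℂ) := by push_cast; rfl
    rw [this, Complex.norm_real, Real.norm_eq_abs, abs_of_nonneg]
    positivity
  unfold NF at hN
  rw [XX_re, hw, hnorm] at hN
  rw [hnorm] at hz hz3
  have hu : (0 : ℝ) < 1 + r / n := by positivity
  have hlog := Real.one_sub_inv_le_log_of_pos hu
  have hu3 : r / n ≤ 3 := by
    rw [div_le_iff₀ hn0]
    exact hz3
  have hu0 : 0 ≤ r / n := by positivity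
  have h1 : (r / n) / 4 ≤ 1 - (1 + r / n)⁻¹ := by
    have : 1 - (1 + r / n)⁻¹ = (r / n) / (1 + r / n) := by
      field_simp
      ring
    rw [this]
    exact div_le_div_of_nonneg_left hu0 hu (by linarith)
  have h2 : r / 4 ≤ n * Real.log (1 + r / n) := by
    have h3 : n * ((r / n) / 4) ≤ n * Real.log (1 + r / n) :=
      mul_le_mul_of_nonneg_left (h1.trans hlog) hn0.le
    have h4 : n * ((r / n) / 4) = r / 4 := by field_simp
    rw [h4] at h3
    exact h3
  have h5 : (10 : ℝ) ^ 8 ≤ r := hz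
  have h6 : (0 : ℝ) < 10 ^ 8 := by norm_num
  linarith

lemma exp21 : (10000 : ℝ) ≤ Real.exp 21 := by
  have h1 : (2 : ℝ) ≤ Real.exp 1 := by
    have := Real.add_one_le_exp (1 : ℝ)
    linarith
  have h2 : Real.exp 1 ^ 21 = Real.exp 21 := by
    rw [Real.exp_one_pow]
    norm_num
  rw [← h2]
  calc (10000 : ℝ) ≤ 2 ^ 21 := by norm_num
    _ ≤ Real.exp 1 ^ 21 := pow_le_pow_left₀ (by norm_num) h1 21

/-- Facts about points far to the right. -/
lemma fr_facts (h1 : T_FRX) {n : ℕ} (hn : (10 : ℝ) ^ 20 ≤ n) {L : ℂ} {i : ℕ} (hL : L ∈ Mp n)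
    (h21 : 21 ≤ L.re) (hz : (10 : ℝ) ^ 8 ≤ ‖zz n L i‖) (hF : FR n L i) :
    zz n L i ≠ -n ∧ zz n L (i + 1) = exp (XX n L i + L) ∧ ‖zz n L i - XX n L i‖ ≤ 1 / 10 ^ 6 ∧
      20000 ≤ (XX n L i).re ∧ 2 * ‖zz n L i‖ ≤ ‖zz n L (i + 1)‖ ∧ 10000 ≤ (zz n L i).re := by
  have hn0 := npos hn
  unfold FR at hF
  have hre : 20000 ≤ (XX n L i).re := by
    have : (10 : ℝ) ^ 8 = 5000 * 20000 := by norm_num
    rw [this] at hz
    linarith
  have hne : zz n L i ≠ -n := by
    intro hc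
    have hX : XX n L i = 0 := by
      rw [XX, hc]
      have : (1 : ℂ) + -(n : ℂ) / n = 0 := by
        have hnc : (n : ℂ) ≠ 0 := by
          exact_mod_cast hn0.ne'
        field_simp
        ring
      rw [this, Complex.log_zero, mul_zero]
    rw [hX] at hre
    simp at hre
    linarith
  have hL0 : 0 ≤ L.re := by linarith
  obtain ⟨e1, e2, e3⟩ := h1 n L i hn hL.1 hL0 hne
  obtain ⟨e4, e5⟩ := e3 hF
  refine ⟨hne, e1, e5, hre, ?_, ?_⟩
  · rw [e1, Complex.norm_exp, Complex.add_re]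
    have h5 : ‖zz n L i‖ / 5000 + 21 ≤ (XX n L i).re + L.re := by
      have : ‖zz n L i‖ / 5000 ≤ (XX n L i).re := by
        rw [div_le_iff₀ (by norm_num : (0 : ℝ) < 5000)]
        linarith
      linarith
    have h6 : Real.exp (‖zz n L i‖ / 5000 + 21) ≤ Real.exp ((XX n L i).re + L.re) :=
      Real.exp_le_exp.mpr h5
    have h7 : Real.exp (‖zz n L i‖ / 5000 + 21)
        = Real.exp (‖zz n L i‖ / 5000) * Real.exp 21 := Real.exp_add _ _
    have h8 := Real.add_one_le_exp (‖zz n L i‖ / 5000)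
    have h9 := exp21
    have h10 : 0 ≤ ‖zz n L i‖ := norm_nonneg _
    have h11 : 2 * ‖zz n L i‖ ≤ (‖zz n L i‖ / 5000 + 1) * 10000 := by
      have : (‖zz n L i‖ / 5000 + 1) * 10000 = 2 * ‖zz n L i‖ + 10000 := by ring
      rw [this]
      linarith
    calc 2 * ‖zz n L i‖ ≤ (‖zz n L i‖ / 5000 + 1) * 10000 := h11
      _ ≤ Real.exp (‖zz n L i‖ / 5000) * Real.exp 21 :=
          mul_le_mul h8 h9 (by norm_num) (Real.exp_pos _).le
      _ = Real.exp (‖zz n L i‖ / 5000 + 21) := h7.symm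
      _ ≤ Real.exp ((XX n L i).re + L.re) := h6
  · have h6 := (Complex.abs_re_le_norm (zz n L i - XX n L i)).trans e5
    rw [Complex.sub_re] at h6
    have h7 := (abs_le.mp h6).1
    have h8 : (1 : ℝ) / 10 ^ 6 ≤ 1 := by norm_num
    linarith

lemma im_near {n : ℕ} {L : ℂ} {i : ℕ} (h : ‖zz n L i - XX n L i‖ ≤ 1 / 10 ^ 6) :
    (XX n L i).im - 1 ≤ (zz n L i).im ∧ (zz n L i).im ≤ (XX n L i).im + 1 := by
  have h6 := (Complex.abs_im_le_norm (zz n L i - XX n L i)).trans h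
  rw [Complex.sub_im] at h6
  have h7 := abs_le.mp h6
  have h8 : (1 : ℝ) / 10 ^ 6 ≤ 1 := by norm_num
  constructor <;> linarith [h7.1, h7.2]

/-- far to the right and not far to the right: the imaginary part is large -/
lemma big_im {n : ℕ} {L : ℂ} {i : ℕ} (hz : (10 : ℝ) ^ 8 ≤ ‖zz n L i‖)
    (hF : FR n L i) (hN : NF n L i)
    (h : ‖zz n L i - XX n L i‖ ≤ 1 / 10 ^ 6) : 20 ≤ |(XX n L i).im| := by
  unfold FR at hF
  unfold NF at hN
  have h1 : ‖zz n L i‖ ≤ ‖zz n L i - XX n L i‖ + ‖XX n L i‖ := by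
    have := norm_add_le (zz n L i - XX n L i) (XX n L i)
    rwa [sub_add_cancel] at this
  have h2 := Complex.norm_le_abs_re_add_abs_im (XX n L i)
  have h3 : (0 : ℝ) ≤ (XX n L i).re := by
    have := norm_nonneg (zz n L i)
    linarith
  rw [abs_of_nonneg h3] at h2
  have h8 : (1 : ℝ) / 10 ^ 6 ≤ 1 := by norm_num
  have h9 : (10 : ℝ) ^ 8 = 100000000 := by norm_num
  rw [h9] at hz
  linarith

lemma D_next (h1 : T_FRX) {n m i : ℕ} (hn : (10 : ℝ) ^ 20 ≤ n) {L : ℂ}
    (hL : L ∈ D n (m + 1) i) (hF : FR n L i) : L ∈ D n m (i + 1) := by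
  obtain ⟨a, b, c, d⟩ := hL
  obtain ⟨_, _, _, _, e, _⟩ := fr_facts h1 hn a b c hF
  have h0 : 0 ≤ ‖zz n L i‖ := norm_nonneg _
  refine ⟨a, b, by linarith, ?_⟩
  have h2 : (2 : ℝ) ^ (m + 1) * ‖zz n L i‖ = 2 ^ m * (2 * ‖zz n L i‖) := by
    rw [pow_succ]
    ring
  rw [h2] at d
  exact d.trans (mul_le_mul_of_nonneg_left e (by positivity))

/-- the number of turns -/
lemma turns (h1 : T_FRX) {n m i : ℕ} (hn : (10 : ℝ) ^ 20 ≤ n) (hP : PP n m) {L : ℂ}
    (hL : L ∈ D n (m + 1) i) (hF : FR n L i) :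
    ∃ t : ℤ, (XX n L i).im + L.im - A n m (i + 1) L = 2 * Real.pi * t := by
  have hD := D_next h1 hn hL hF
  have e := hP.arg (i + 1) L (by omega) hD
  obtain ⟨_, e1, _, _, _, _⟩ := fr_facts h1 hn hL.1 hL.2.1 hL.2.2.1 hF
  have hz : zz n L (i + 1) ≠ 0 := by
    rw [e1]
    exact Complex.exp_ne_zero _
  have e2 : exp ((((XX n L i).im + L.im : ℝ) : ℂ) * I) * ‖zz n L (i + 1)‖ = zz n L (i + 1) := by
    rw [e1, Complex.norm_exp, Complex.ofReal_exp, ← Complex.exp_add]
    congr 1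
    apply Complex.ext
    · simp
    · simp
  obtain ⟨t, ht⟩ := arg_int hz e2 e
  exact ⟨t, by rw [ht]; ring⟩

lemma A_one (n m : ℕ) (L : ℂ) : A n (m + 1) 1 L = L.im := by
  unfold A
  simp

lemma A_FR {n m i : ℕ} {L : ℂ} (hi : i ≠ 1) (hF : FR n L i) :
    A n (m + 1) i L = if 0 ≤ (XX n L i).im + L.im - A n m (i + 1) L then arg (zz n L i)
        else arg (zz n L i) + 2 * Real.pi := by
  rw [A]
  rw [if_neg hi, if_pos hF]

lemma A_NF {n m i : ℕ} {L : ℂ} (hi : i ≠ 1) (hF : ¬ FR n L i) :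
    A n (m + 1) i L = arg (-(zz n L i)) + Real.pi := by
  rw [A]
  rw [if_neg hi, if_neg hF]

lemma arg_small {z : ℂ} (hz : 10000 ≤ z.re) : -(Real.pi / 2) < arg z ∧ arg z < Real.pi / 2 := by
  have h : |arg z| < Real.pi / 2 := by
    rw [Complex.abs_arg_lt_pi_div_two_iff]
    left
    linarith
  exact abs_lt.mp h

lemma fr_arg (h1 : T_FRX) {n m i : ℕ} (hn : (10 : ℝ) ^ 20 ≤ n) (hi : i ≠ 1) {L : ℂ}
    (hF : FR n L i) :
    exp (A n (m + 1) i L * I) * ‖zz n L i‖ = zz n L i := by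
  rw [A_FR hi hF]
  split_ifs
  · exact arg0 _
  · exact arg1 _

lemma fr_lo (h1 : T_FRX) {n m i : ℕ} (hn : (10 : ℝ) ^ 20 ≤ n) (hi : i ≠ 1) {L : ℂ}
    (hL : L ∈ D n (m + 1) i) (hF : FR n L i) :
    -2 < A n (m + 1) i L ∧ A n (m + 1) i L < 9 := by
  obtain ⟨_, _, _, _, _, e6⟩ := fr_facts h1 hn hL.1 hL.2.1 hL.2.2.1 hF
  have h := arg_small e6
  have hp := Real.pi_lt_d2
  have hp0 := Real.pi_pos
  rw [A_FR hi hF]
  split_ifs
  · constructor <;> linarith [h.1, h.2]
  · constructor <;> linarith [h.1, h.2]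

lemma fr_nf (h1 : T_FRX) {n m i : ℕ} (hn : (10 : ℝ) ^ 20 ≤ n) (hP : PP n m) (hi : i ≠ 1)
    {L : ℂ} (hL : L ∈ D n (m + 1) i) (hF : FR n L i) (h20 : NF n L i ∨ 20 ≤ |(XX n L i).im|) :
    0 < A n (m + 1) i L ∧ A n (m + 1) i L < 2 * Real.pi := by
  obtain ⟨_, _, e3, _, _, e6⟩ := fr_facts h1 hn hL.1 hL.2.1 hL.2.2.1 hF
  have hb : 20 ≤ |(XX n L i).im| := by
    rcases h20 with h | h
    · exact big_im hL.2.2.1 hF h e3
    · exact h
  have hD := D_next h1 hn hL hF
  have lo := hP.lo (i + 1) L (by omega) hD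
  have hi9 := hP.hi (i + 1) L (by omega) hD
  obtain ⟨t, ht⟩ := turns h1 hn hP hL hF
  have hp := Real.pi_gt_three
  have hp4 := Real.pi_le_four
  have hp2 := Real.pi_lt_d2
  have hI0 : 0 < L.im := hL.1.2.1
  have hI1 : L.im < 2 * Real.pi := hL.1.2.2
  have hnear := im_near e3
  have hsm := arg_small e6
  have hz0 : zz n L i ≠ 0 := by
    intro hc
    rw [hc] at e6
    simp at e6
    linarith
  rw [A_FR hi hF]
  rcases le_abs.mp hb with hpos | hneg
  · have hT : 0 ≤ (XX n L i).im + L.im - A n m (i + 1) L := by linarith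
    rw [if_pos hT]
    have him : 0 < (zz n L i).im := by linarith [hnear.1]
    have ha : 0 ≤ arg (zz n L i) := Complex.arg_nonneg_iff.mpr him.le
    have hane : arg (zz n L i) ≠ 0 := by
      intro hc
      rw [Complex.arg_eq_zero_iff] at hc
      linarith [hc.2]
    exact ⟨lt_of_le_of_ne ha (Ne.symm hane), by linarith [hsm.2]⟩
  · have hT : ¬ 0 ≤ (XX n L i).im + L.im - A n m (i + 1) L := by
      rw [not_le]
      linarith
    rw [if_neg hT]
    have him : (zz n L i).im < 0 := by linarith [hnear.2]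
    have ha : arg (zz n L i) < 0 := Complex.arg_neg_iff.mpr him
    exact ⟨by linarith [hsm.1], by linarith⟩

lemma nf_of_not_FR {n i : ℕ} {L : ℂ} (h : ¬ FR n L i) : NF n L i := by
  unfold FR at h
  unfold NF
  rw [not_le] at h
  exact h.le

lemma nf_vals {n : ℕ} (hn : (10 : ℝ) ^ 20 ≤ n) {L : ℂ} {i : ℕ} (hL : L ∈ Mp n)
    (h21 : 21 ≤ L.re) (hz : (10 : ℝ) ^ 8 ≤ ‖zz n L i‖) (hN : NF n L i) :
    0 < arg (-(zz n L i)) + Real.pi ∧ arg (-(zz n L i)) + Real.pi < 2 * Real.pi := by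
  have hs := nf_slit hn hz (norm_zz_le hn hL.1 (by linarith) i) hN
  have h1 := Complex.neg_pi_lt_arg (-(zz n L i))
  have h2 := Complex.arg_le_pi (-(zz n L i))
  have h3 : arg (-(zz n L i)) ≠ Real.pi := (Complex.mem_slitPlane_iff_arg.mp hs).1
  have h4 : arg (-(zz n L i)) < Real.pi := lt_of_le_of_ne h2 h3
  constructor <;> linarith

/-- both formulas agree -/
lemma agree (h1 : T_FRX) {n m i : ℕ} (hn : (10 : ℝ) ^ 20 ≤ n) (hP : PP n m) (hi : i ≠ 1)
    {L : ℂ} (hL : L ∈ D n (m + 1) i) (hN : NF n L i) :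
    A n (m + 1) i L = arg (-(zz n L i)) + Real.pi := by
  by_cases hF : FR n L i
  · have hz0 : zz n L i ≠ 0 := by
      intro hc
      have := hL.2.2.1
      rw [hc, norm_zero] at this
      have h9 : (0 : ℝ) < 10 ^ 8 := by norm_num
      linarith
    have a1 := fr_arg (m := m) h1 hn hi hF
    have a2 := arg2 (zz n L i)
    have b1 := fr_nf h1 hn hP hi hL hF (Or.inl hN)
    have b2 := nf_vals hn hL.1 hL.2.1 hL.2.2.1 hN
    exact arg_unique hz0 a1 a2 (by linarith [b1.1, b1.2, b2.1, b2.2])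
      (by linarith [b1.1, b1.2, b2.1, b2.2])
  · exact A_NF hi hF

lemma cont_XX {n i : ℕ} {L0 : ℂ} (h : 1 + zz n L0 i / n ∈ slitPlane) :
    ContinuousAt (fun L => XX n L i) L0 := by
  have h1 : ContinuousAt (fun L => 1 + zz n L i / n) L0 := by
    have := (CROSS_.continuous_zz n i).continuousAt (x := L0)
    exact continuousAt_const.add (this.div_const _)
  have h2 : ContinuousAt (fun L => (n : ℂ) * log (1 + zz n L i / n)) L0 :=
    continuousAt_const.mul (h1.clog h)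
  exact h2

lemma slit_of_re {n : ℕ} {z : ℂ} (hn : (0 : ℝ) < n) (hz : 10000 ≤ z.re) :
    1 + z / n ∈ slitPlane := by
  rw [Complex.mem_slitPlane_iff]
  left
  have h : (z / n).re = z.re / n := by
    have : (n : ℂ) = ((n : ℝ) : ℂ) := by push_cast; rfl
    rw [this, Complex.div_ofReal_re]
  rw [Complex.add_re, Complex.one_re, h]
  have : 0 ≤ z.re / n := by
    apply div_nonneg (by linarith) hn.le
  linarith

lemma cont_F (h1 : T_FRX) {n m i : ℕ} (hn : (10 : ℝ) ^ 20 ≤ n) (hP : PP n m) (hi : i ≠ 1) :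
    ContinuousOn (A n (m + 1) i) (D n (m + 1) i ∩ {L | FR n L i}) := by
  intro x hx
  have hn0 := npos hn
  set S : Set ℂ := D n (m + 1) i ∩ {L | FR n L i} with hS
  obtain ⟨_, _, _, _, _, e6⟩ := fr_facts h1 hn hx.1.1 hx.1.2.1 hx.1.2.2.1 hx.2
  have hsub : S ⊆ D n m (i + 1) := fun L hL => D_next h1 hn hL.1 hL.2
  have c1 : ContinuousWithinAt (fun L => (XX n L i).im) S x :=
    (Complex.continuous_im.continuousAt.comp
      (cont_XX (slit_of_re hn0 e6))).continuousWithinAt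
  have c2 : ContinuousWithinAt (fun L : ℂ => L.im) S x :=
    Complex.continuous_im.continuousWithinAt
  have c3 : ContinuousWithinAt (A n m (i + 1)) S x :=
    ((hP.cont (i + 1) (by omega)) x (hsub hx)).mono hsub
  have c4 : ContinuousWithinAt (fun L => (XX n L i).im + L.im - A n m (i + 1) L) S x :=
    (c1.add c2).sub c3
  have ev : ∀ᶠ L in 𝓝[S] x, |((XX n L i).im + L.im - A n m (i + 1) L) -
      ((XX n x i).im + x.im - A n m (i + 1) x)| < Real.pi := by
    have := Metric.tendsto_nhds.mp c4 Real.pi Real.pi_pos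
    filter_upwards [this] with L hL
    rw [Real.dist_eq] at hL
    exact hL
  have eq : A n (m + 1) i =ᶠ[𝓝[S] x] fun L =>
      if 0 ≤ (XX n x i).im + x.im - A n m (i + 1) x then arg (zz n L i)
        else arg (zz n L i) + 2 * Real.pi := by
    filter_upwards [ev, self_mem_nhdsWithin] with L hL hLS
    obtain ⟨t, ht⟩ := turns h1 hn hP hLS.1 hLS.2
    obtain ⟨t', ht'⟩ := turns h1 hn hP hx.1 hx.2
    rw [A_FR hi hLS.2]
    rw [ht, ht'] at hL
    have hp := Real.pi_pos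
    have hb := abs_lt.mp hL
    have h3 : (t : ℝ) - t' < 1 := by
      by_contra hc
      rw [not_lt] at hc
      nlinarith [hb.1, hb.2]
    have h4 : (-1 : ℝ) < (t : ℝ) - t' := by
      by_contra hc
      rw [not_lt] at hc
      nlinarith [hb.1, hb.2]
    have h5 : t - t' < 1 := by exact_mod_cast h3
    have h6 : -1 < t - t' := by exact_mod_cast h4
    have h7 : t = t' := by omega
    rw [ht, ht', h7]
  refine ContinuousWithinAt.congr_of_eventuallyEq ?_ eq ?_
  · have ca : ContinuousAt (fun L => arg (zz n L i)) x := by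
      have hs : zz n x i ∈ slitPlane := by
        rw [Complex.mem_slitPlane_iff]
        left
        linarith
      exact ContinuousAt.comp (g := arg) (f := fun L => zz n L i) (Complex.continuousAt_arg hs)
        ((CROSS_.continuous_zz n i).continuousAt)
    by_cases hT : 0 ≤ (XX n x i).im + x.im - A n m (i + 1) x
    · simp only [hT, if_true]
      exact ca.continuousWithinAt
    · simp only [hT, if_false]
      exact (ca.add continuousAt_const).continuousWithinAt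
  · rw [A_FR hi hx.2]

lemma cont_N (h1 : T_FRX) {n m i : ℕ} (hn : (10 : ℝ) ^ 20 ≤ n) (hP : PP n m) (hi : i ≠ 1) :
    ContinuousOn (A n (m + 1) i) (D n (m + 1) i ∩ {L | NF n L i}) := by
  have h : ContinuousOn (fun L => arg (-(zz n L i)) + Real.pi)
      (D n (m + 1) i ∩ {L | NF n L i}) := by
    intro x hx
    have hs := nf_slit hn hx.1.2.2.1
      (norm_zz_le hn hx.1.1.1 (by linarith [hx.1.2.1]) i) hx.2
    have ca : ContinuousAt (fun L => arg (-(zz n L i))) x :=
      ContinuousAt.comp (g := arg) (f := fun L => -(zz n L i)) (Complex.continuousAt_arg hs)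
        ((CROSS_.continuous_zz n i).neg.continuousAt)
    exact (ca.add continuousAt_const).continuousWithinAt
  exact h.congr (fun L hL => agree h1 hn hP hi hL.1 hL.2)

lemma closed_N (h2 : T_FRC) {n i : ℕ} (hn : (10 : ℝ) ^ 20 ≤ n) : IsClosed {L : ℂ | NF n L i} := by
  have hn0 := npos hn
  have hn1 : 1 ≤ n := by exact_mod_cast hn0
  rw [← isOpen_compl_iff, isOpen_iff_mem_nhds]
  intro x hx
  have hx' : ¬ (5000 * (XX n x i).re ≤ ‖zz n x i‖) := hx
  rw [not_le] at hx'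
  have hne : zz n x i ≠ -n := by
    intro hc
    have hX : XX n x i = 0 := by
      rw [XX, hc]
      have : (1 : ℂ) + -(n : ℂ) / n = 0 := by
        have hnc : (n : ℂ) ≠ 0 := by
          exact_mod_cast hn0.ne'
        field_simp
        ring
      rw [this, Complex.log_zero, mul_zero]
    rw [hX] at hx'
    simp at hx'
    have := norm_nonneg (zz n x i)
    linarith
  have c1 := (h2 n i hn1).2 x hne
  have c2 : ContinuousAt (fun L => ‖zz n L i‖) x :=
    (CROSS_.continuous_zz n i).norm.continuousAt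
  have c3 : ContinuousAt (fun L => 5000 * (XX n L i).re) x := continuousAt_const.mul c1
  have ev := c2.eventually_lt c3 hx'
  filter_upwards [ev] with L hL
  show ¬ (5000 * (XX n L i).re ≤ ‖zz n L i‖)
  rw [not_le]
  exact hL

lemma cont_all (h1 : T_FRX) (h2 : T_FRC) {n m i : ℕ} (hn : (10 : ℝ) ^ 20 ≤ n) (hP : PP n m)
    (hi : i ≠ 1) : ContinuousOn (A n (m + 1) i) (D n (m + 1) i) := by
  have hn0 := npos hn
  have hn1 : 1 ≤ n := by exact_mod_cast hn0
  have hun : D n (m + 1) i = (D n (m + 1) i ∩ {L | FR n L i}) ∪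
      (D n (m + 1) i ∩ {L | NF n L i}) := by
    ext L
    constructor
    · intro hL
      by_cases hF : FR n L i
      · exact Or.inl ⟨hL, hF⟩
      · exact Or.inr ⟨hL, nf_of_not_FR hF⟩
    · rintro (h | h)
      · exact h.1
      · exact h.1
  have cF := cont_F h1 hn hP hi
  have cN := cont_N h1 hn hP hi
  have clF := (h2 n i hn1).1
  have clN := closed_N (i := i) h2 hn
  intro x hx
  rw [hun]
  apply ContinuousWithinAt.union
  · by_cases hF : FR n x i
    · exact cF x ⟨hx, hF⟩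
    · apply continuousWithinAt_of_notMem_closure
      intro hc
      have := closure_mono (inter_subset_right (s := D n (m + 1) i) (t := {L | FR n L i})) hc
      rw [clF.closure_eq] at this
      exact hF this
  · by_cases hN : NF n x i
    · exact cN x ⟨hx, hN⟩
    · apply continuousWithinAt_of_notMem_closure
      intro hc
      have := closure_mono (inter_subset_right (s := D n (m + 1) i) (t := {L | NF n L i})) hc
      rw [clN.closure_eq] at this
      exact hN this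

lemma PP_zero {n : ℕ} (hn : (10 : ℝ) ^ 20 ≤ n) : PP n 0 := by
  have hemp : ∀ i L, L ∉ D n 0 i := by
    intro i L hL
    have h := norm_zz_le hn hL.1.1 (by linarith [hL.2.1]) i
    have h2 := hL.2.2.2
    rw [pow_zero, one_mul] at h2
    have := npos hn
    linarith
  refine ⟨?_, ?_, ?_, ?_, ?_⟩
  · intro i _ L hL
    exact absurd hL (hemp i L)
  · intro i L _ hL
    exact absurd hL (hemp i L)
  · intro i L _ hL
    exact absurd hL (hemp i L)
  · intro i L _ hL
    exact absurd hL (hemp i L)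
  · intro i L _ hL
    exact absurd hL (hemp i L)

lemma arg_one (n m : ℕ) (L : ℂ) :
    exp (A n (m + 1) 1 L * I) * ‖zz n L 1‖ = zz n L 1 := by
  rw [A_one, zz_one, Complex.norm_exp, Complex.ofReal_exp, ← Complex.exp_add]
  congr 1
  apply Complex.ext
  · simp
  · simp

lemma PP_succ (h1 : T_FRX) (h2 : T_FRC) {n m : ℕ} (hn : (10 : ℝ) ^ 20 ≤ n) (hP : PP n m) :
    PP n (m + 1) := by
  have hp := Real.pi_gt_three
  have hp2 := Real.pi_lt_d2
  refine ⟨?_, ?_, ?_, ?_, ?_⟩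
  · intro i _
    by_cases hi1 : i = 1
    · subst hi1
      have : A n (m + 1) 1 = fun L : ℂ => L.im := by
        funext L
        exact A_one n m L
      rw [this]
      exact Complex.continuous_im.continuousOn
    · exact cont_all h1 h2 hn hP hi1
  · intro i L _ hL
    by_cases hi1 : i = 1
    · subst hi1
      exact arg_one n m L
    · by_cases hF : FR n L i
      · exact fr_arg h1 hn hi1 hF
      · rw [A_NF hi1 hF]
        exact arg2 _
  · intro i L _ hL
    by_cases hi1 : i = 1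
    · subst hi1
      rw [A_one]
      have := hL.1.2.1
      linarith
    · by_cases hF : FR n L i
      · exact (fr_lo h1 hn hi1 hL hF).1
      · rw [A_NF hi1 hF]
        have := (nf_vals hn hL.1 hL.2.1 hL.2.2.1 (nf_of_not_FR hF)).1
        linarith
  · intro i L _ hL
    by_cases hi1 : i = 1
    · subst hi1
      rw [A_one]
      have := hL.1.2.2
      linarith
    · by_cases hF : FR n L i
      · exact (fr_lo h1 hn hi1 hL hF).2
      · rw [A_NF hi1 hF]
        have := (nf_vals hn hL.1 hL.2.1 hL.2.2.1 (nf_of_not_FR hF)).2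
        linarith
  · intro i L _ hL h20
    by_cases hi1 : i = 1
    · subst hi1
      rw [A_one]
      exact ⟨hL.1.2.1, hL.1.2.2⟩
    · by_cases hF : FR n L i
      · exact fr_nf h1 hn hP hi1 hL hF h20
      · rw [A_NF hi1 hF]
        exact nf_vals hn hL.1 hL.2.1 hL.2.2.1 (nf_of_not_FR hF)

lemma PP_all (h1 : T_FRX) (h2 : T_FRC) {n : ℕ} (hn : (10 : ℝ) ^ 20 ≤ n) (m : ℕ) : PP n m := by
  induction m with
  | zero => exact PP_zero hn
  | succ m ih => exact PP_succ h1 h2 hn ih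

end STRIP_

open STRIP_ in
theorem p_STRIP (h1 : T_FRX) (h2 : T_FRC) (_h3 : T_SLIT) : T_STRIP := by
  intro n hn
  obtain ⟨M, hM⟩ := pow_unbounded_of_one_lt (4 * (n : ℝ)) (by norm_num : (1 : ℝ) < 2)
  have hP := PP_all h1 h2 hn (M + 1)
  have hsub : ∀ i (L : ℂ), L ∈ Mp n → 21 ≤ L.re → (10 : ℝ) ^ 8 ≤ ‖zz n L i‖ →
      L ∈ D n (M + 1) i := by
    intro i L a b c
    refine ⟨a, b, c, ?_⟩
    have h9 : (1 : ℝ) ≤ ‖zz n L i‖ := le_trans (by norm_num) c
    have h10 : (2 : ℝ) ^ M ≤ 2 ^ (M + 1) := pow_le_pow_right₀ (by norm_num) (by omega)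
    have h11 : (0 : ℝ) < 2 ^ (M + 1) := by positivity
    calc 4 * (n : ℝ) ≤ 2 ^ (M + 1) := hM.le.trans h10
      _ = 2 ^ (M + 1) * 1 := (mul_one _).symm
      _ ≤ 2 ^ (M + 1) * ‖zz n L i‖ := mul_le_mul_of_nonneg_left h9 h11.le
  refine ⟨fun i L => A n (M + 1) i L, ?_⟩
  refine ⟨hn, ?_, ?_, ?_, ?_, ?_, ?_⟩
  · intro L
    exact A_one n M L
  · intro i hi
    exact (hP.cont i hi).mono (fun L hL => hsub i L hL.1 hL.2.1 hL.2.2)
  · intro i L hi a b c
    exact hP.arg i L hi (hsub i L a b c)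
  · intro i L hi a b c
    exact hP.lo i L hi (hsub i L a b c)
  · intro i L hi a b c
    exact hP.hi i L hi (hsub i L a b c)
  · intro i L hi a b c h20
    exact hP.nf i L hi (hsub i L a b c) h20

end Pool.Agent.Modu
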