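import Pool.Agent.Modu.Targets

/-!
# MODU: TL, the topological lemma
-/

set_option autoImplicit false

open Complex Filter Topology Set

namespace Pool.Agent.Modu

namespace TL_

theorem main (h1 : T_SEPC) : T_TL := by
  intro M K V f a m b ham hmb hf hM hKM hKc hK hVM hVc hV hKV hY hex
  have hQc : IsCompact ((V ∩ {x | f x = m}) \ K) := by
    have hcl : IsClosed ((V ∩ {x | f x = m}) \ K) := by
      apply isClosed_of_closure_subset
      intro x hx
      have hx1 : x ∈ V ∩ {x | f x = m} := by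
        have hc : IsClosed (V ∩ {x | f x = m}) :=
          hVc.isClosed.inter (isClosed_eq hf continuous_const)
        have := closure_mono (s := (V ∩ {x | f x = m}) \ K) (t := V ∩ {x | f x = m})
          (fun y hy => hy.1) hx
        rwa [hc.closure_eq] at this
      refine ⟨hx1, fun hxK => ?_⟩
      have hfr := mem_closure_iff_frequently.1 hx
      have hev := eventually_nhdsWithin_iff.1 (hK x hxK (by
        have : f x = m := hx1.2
        rw [this]; exact hmb))
      obtain ⟨y, hy, hy2⟩ := (hfr.and_eventually hev).exists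
      exact hy.2 (hy2 (hVM hy.1.1))
    exact hVc.of_isClosed_subset hcl (fun x hx => hx.1.1)
  obtain ⟨A2, B2, hA2, hB2, hd, hu, hPA, hQB⟩ := h1.2 (V ∩ {x | m ≤ f x}) (K ∩ {x | f x = m})
    ((V ∩ {x | f x = m}) \ K)
    (hVc.inter_right (isClosed_le continuous_const hf))
    (hKc.inter_right (isClosed_eq hf continuous_const)) hQc
    (by
      rintro x ⟨hx, hx2⟩
      have hx3 : f x = m := hx2
      exact ⟨hKV x hx (by rw [hx3]; exact ham.le), le_of_eq hx3.symm⟩)
    (by
      rintro x ⟨⟨hx, hx2⟩, _⟩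
      have hx3 : f x = m := hx2
      exact ⟨hx, le_of_eq hx3.symm⟩)
    (by
      rintro Y hYV hYc hYp ⟨c1, hc1, hc1K, hc1m⟩ ⟨c2, hc2, ⟨hc2V, hc2m⟩, hc2K⟩
      exact hc2K (hY Y (fun y hy => (hYV hy).1) hYc hYp (fun y hy => (hYV hy).2) c1 hc1 c2 hc2
        hc1m hc2m hc1K))
  have hA2s : A2 ⊆ V ∩ {x | m ≤ f x} := fun x hx => hu ▸ Or.inl hx
  have hnotB : ∀ x ∈ A2, x ∉ B2 := fun x hx hxB => disjoint_left.1 hd hx hxB
  have hnotA : ∀ x ∈ V, m ≤ f x → x ∉ B2 → x ∈ A2 := by
    intro x hx hm hxB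
    have : x ∈ A2 ∪ B2 := hu ▸ ⟨hx, hm⟩
    exact this.resolve_right hxB
  have hAe := hM ((K ∩ {x | f x ≤ m}) ∪ A2)
    (by
      rintro x (⟨hx, _⟩ | hx)
      · exact hKM hx
      · exact hVM (hA2s hx).1)
    ((hKc.inter_right (isClosed_le hf continuous_const)).union hA2)
    (by
      intro x hx
      rcases lt_trichotomy (f x) m with h | h | h
      · have hxK : x ∈ K := by
          rcases hx with ⟨hx, _⟩ | hx
          · exact hx
          · exact absurd h (not_lt.2 (hA2s hx).2)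
        have e1 := hK x hxK (h.trans hmb)
        have e2 : ∀ᶠ y in 𝓝[M] x, f y < m :=
          nhdsWithin_le_nhds ((hf.tendsto x).eventually_lt_const h)
        filter_upwards [e1, e2] with y hy1 hy2
        exact Or.inl ⟨hy1, hy2.le⟩
      · have hxA : x ∈ K ∧ x ∈ A2 := by
          rcases hx with ⟨hx, _⟩ | hx
          · exact ⟨hx, hPA ⟨hx, h⟩⟩
          · refine ⟨?_, hx⟩
            by_contra hxK
            exact hnotB x hx (hQB ⟨⟨(hA2s hx).1, h⟩, hxK⟩)
        have e1 := hK x hxA.1 (by rw [h]; exact hmb)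
        have e2 := hV x (hA2s hxA.2).1 (by rw [h]; exact ham)
        have e3 : ∀ᶠ y in 𝓝[M] x, y ∈ B2ᶜ :=
          nhdsWithin_le_nhds (hB2.isClosed.isOpen_compl.mem_nhds (hnotB x hxA.2))
        filter_upwards [e1, e2, e3] with y hy1 hy2 hy3
        rcases le_total (f y) m with h | h
        · exact Or.inl ⟨hy1, h⟩
        · exact Or.inr (hnotA y hy2 h hy3)
      · have hxA : x ∈ A2 := by
          rcases hx with ⟨_, hx⟩ | hx
          · exact absurd h (not_lt.2 hx)
          · exact hx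
        have e2 := hV x (hA2s hxA).1 (ham.trans h)
        have e3 : ∀ᶠ y in 𝓝[M] x, y ∈ B2ᶜ :=
          nhdsWithin_le_nhds (hB2.isClosed.isOpen_compl.mem_nhds (hnotB x hxA))
        have e4 : ∀ᶠ y in 𝓝[M] x, m < f y :=
          nhdsWithin_le_nhds ((hf.tendsto x).eventually_const_lt h)
        filter_upwards [e2, e3, e4] with y hy2 hy3 hy4
        exact Or.inr (hnotA y hy2 hy4.le hy3))
  obtain ⟨x, hx, hxm⟩ := hex
  have hxA : x ∈ (K ∩ {x | f x ≤ m}) ∪ A2 := Or.inl ⟨hx, hxm.le⟩
  rw [hAe] at hxA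
  exact hxA

end TL_

theorem p_TL (h1 : T_SEPC) : T_TL := TL_.main h1

end Pool.Agent.Modu
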