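import Pool.Agent.Modu.Targets

/-!
# TOL: every point is joined to the central disc
-/

set_option autoImplicit false

open Complex Filter Topology Set
open Pool.Agent.Multibrot Pool.Agent.Limb

namespace Pool.Agent.Modu

namespace TOL_

lemma zz0 (n : ℕ) (L : ℂ) : zz n L 0 = 0 := rfl

lemma XX0 (n : ℕ) (L : ℂ) : XX n L 0 = 0 := by
  unfold XX
  rw [zz0]
  simp

lemma YY0 (n : ℕ) (L : ℂ) : YY n (fun _ => 0) L 0 = L := by
  unfold YY
  rw [XX0]
  simp

/-- points of the real axis line charts of level `0` -/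
lemma Ch0 (n : ℕ) (L : ℂ) (hn : (10 : ℝ) ^ 20 ≤ n) (h1 : 21 ≤ L.re) (h2 : |L.im| ≤ 10)
    (h3 : L.re ≤ Real.log (4 * n)) : Ch n (fun _ => 0) 0 L where
  hn := hn
  h0 := by simp
  hr := by
    intro i hi
    obtain rfl : i = 0 := by omega
    rw [YY0]
    exact h1
  hi := by
    intro i hi
    omega
  him := by
    rw [YY0]
    exact h2
  hle := by
    intro i hi
    obtain rfl : i = 0 := by omega
    rw [YY0]
    exact h3

lemma norm_cc_mono (n : ℕ) (hn : 2 ≤ n) {L L' : ℂ} (h : L.re ≤ L'.re) :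
    ‖cc n L‖ ≤ ‖cc n L'‖ := by
  unfold cc
  rw [Complex.norm_exp, Complex.norm_exp]
  apply Real.exp_le_exp.2
  unfold ell
  have h2 : (2 : ℝ) ≤ n := by exact_mod_cast hn
  have e : ∀ M : ℂ, ((M - (Real.log n : ℂ)) / ((n : ℂ) - 1)).re =
      (M.re - Real.log n) / ((n : ℝ) - 1) := by
    intro M
    have : ((n : ℂ) - 1) = (((n : ℝ) - 1 : ℝ) : ℂ) := by push_cast; rfl
    rw [this, Complex.div_ofReal_re, Complex.sub_re, Complex.ofReal_re]
  rw [e, e]
  apply div_le_div_of_nonneg_right (by linarith) (by linarith)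

/-- the conclusion for points with imaginary part in `[0, 2 π)` -/
lemma main (h1 : T_DESC) (h2 : T_CORE) (h3 : T_SSEG) (h4 : T_SLIT) (h5 : T_CHP)
    (n : ℕ) (α : ℕ → ℂ → ℝ) (hα : IsArg n α) (hH : ∀ s k p, HP n s k p → HC n s k p)
    (p : ℂ) (hp : p ∈ Mq n) (hp0 : 0 ≤ p.im) (hp1 : p.im < 2 * Real.pi) :
    ∃ J : Set ℂ, IsPreconnected J ∧ J ⊆ Mq n ∧ p ∈ J ∧ (∃ q ∈ J, q.re ≤ -1) ∧
    ∀ L ∈ J, L.re ≤ max (p.re + 11) 85 ∧ min (-1) p.re ≤ L.re ∧ |L.im - p.im| ≤ 7 := by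
  have hn := hα.hn
  have hn2 : 2 ≤ n := by
    have : (2 : ℝ) ≤ n := by
      have : (2 : ℝ) ≤ 10 ^ 20 := by norm_num
      linarith
    exact_mod_cast this
  have hpi3 := Real.pi_gt_three
  have hpi4 := Real.pi_lt_d2
  have hsub : Mp n ⊆ Mq n := fun L hL => hL.1
  -- the points with imaginary part zero
  rcases eq_or_lt_of_le hp0 with him | him
  · have hS := h4 n p hn
    obtain ⟨hb1, hb2⟩ := hS.2.2.1 hp ⟨0, by rw [← him]; simp⟩
    by_cases hre : p.re ≤ -1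
    · refine ⟨{p}, isPreconnected_singleton, by simpa using hp, rfl, ⟨p, rfl, hre⟩, ?_⟩
      intro L hL
      rw [mem_singleton_iff] at hL
      subst hL
      refine ⟨le_max_of_le_left (by linarith), min_le_right _ _, by simp⟩
    · push Not at hre
      refine ⟨segment ℝ p (-1 : ℂ), (convex_segment _ _).isPreconnected, ?_,
        left_mem_segment ℝ _ _, ⟨-1, right_mem_segment ℝ _ _, by simp⟩, ?_⟩
      · rintro L ⟨a, b, ha, hb, hab, rfl⟩
        apply (h4 n _ hn).2.1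
        refine le_trans (norm_cc_mono n hn2 ?_) hb1
        simp only [Complex.real_smul, Complex.add_re, Complex.mul_re, Complex.ofReal_re,
          Complex.ofReal_im, Complex.neg_re, Complex.one_re, Complex.neg_im, Complex.one_im]
        nlinarith
      · rintro L ⟨a, b, ha, hb, hab, rfl⟩
        have e1 : (a • p + b • (-1 : ℂ)).re = a * p.re - b := by
          simp [Complex.real_smul]
          ring
        have e2 : (a • p + b • (-1 : ℂ)).im = a * p.im := by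
          simp [Complex.real_smul]
        rw [e1, e2]
        refine ⟨le_max_of_le_left ?_, ?_, ?_⟩
        · nlinarith
        · apply le_trans (min_le_left _ _)
          nlinarith
        · rw [← him]
          simp
  -- the other points
  have hpM : p ∈ Mp n := ⟨hp, him, hp1⟩
  have hMim : ∀ L ∈ Mp n, |L.im - p.im| ≤ 7 := by
    intro L hL
    have a1 := hL.2.1
    have a2 := hL.2.2
    rw [abs_le]
    constructor <;> linarith
  have hCOR : ∀ q ∈ Mp n, q.re ≤ 64 → (q.re ≤ p.re ∧ 21 ≤ q.re ∨ q = p) →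
      ∃ J : Set ℂ, IsPreconnected J ∧ J ⊆ Mq n ∧ q ∈ J ∧
      (∃ q' ∈ J, q'.re ≤ -1) ∧
      ∀ L ∈ J, L.re ≤ max (p.re + 11) 85 ∧ min (-1) p.re ≤ L.re ∧ |L.im - p.im| ≤ 7 := by
    intro q hq hq64 hor
    obtain ⟨J, hJ1, hJ2, hJ3, hJ4, hJ5⟩ := h2 n α hα hH q hq hq64
    refine ⟨J, hJ1, hJ2, hJ3, hJ4, ?_⟩
    intro L hL
    obtain ⟨b1, b2, b3, b4⟩ := hJ5 L hL
    refine ⟨le_max_of_le_right b1, ?_, ?_⟩
    · refine le_trans ?_ b2
      rcases hor with ⟨c1, c2⟩ | c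
      · rw [min_eq_left (by linarith : (-1 : ℝ) ≤ q.re)]
        exact min_le_left _ _
      · rw [c]
    · rw [abs_le]
      constructor <;> linarith
  by_cases hp64 : p.re ≤ 64
  · exact hCOR p hpM hp64 (Or.inr rfl)
  push Not at hp64
  obtain ⟨J, hJ1, hJ2, hJ3, ⟨q, hqJ, hq⟩, hJ5⟩ := h1 n α hα hH 0 p hpM (by linarith)
    (fun i hi hi' => absurd hi (by omega))
  have hre : ∀ L ∈ J, ‖zz n L 1‖ = Real.exp L.re ∧ 21 ≤ L.re := by
    intro L hL
    obtain ⟨⟨s, hs, -⟩, -⟩ := hJ5 L hL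
    have hc := h5 n s 0 L hs
    have e1 := hc.2.2.1 0 (le_refl 0)
    rw [hc.1.1] at e1
    have e2 := hs.hr 0 (le_refl 0)
    rw [hc.1.1] at e2
    exact ⟨e1, e2⟩
  have hJb : ∀ L ∈ J, L.re ≤ p.re + 11 ∧ 21 ≤ L.re := by
    intro L hL
    have e1 := (hJ5 L hL).2
    simp only [zero_add] at e1
    rw [(hre L hL).1, (hre p hJ3).1, Real.log_exp, Real.log_exp] at e1
    exact ⟨e1, (hre L hL).2⟩
  have hJc : ∀ L ∈ J, L.re ≤ max (p.re + 11) 85 ∧ min (-1) p.re ≤ L.re ∧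
      |L.im - p.im| ≤ 7 := by
    intro L hL
    refine ⟨le_max_of_le_left (hJb L hL).1, ?_, hMim L (hJ2 hL)⟩
    refine le_trans (min_le_left _ _) ?_
    linarith [(hJb L hL).2]
  by_cases hq51 : q.re ≤ 51
  · obtain ⟨J', g1, g2, g3, g4, g5⟩ := hCOR q (hJ2 hqJ) (by linarith)
      (Or.inl ⟨by linarith, (hJb q hqJ).2⟩)
    refine ⟨J ∪ J', hJ1.union q hqJ g3 g1, union_subset (hJ2.trans hsub) g2,
      Or.inl hJ3, ?_, ?_⟩
    · obtain ⟨q', hq', hq''⟩ := g4
      exact ⟨q', Or.inr hq', hq''⟩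
    · rintro L (hL | hL)
      · exact hJc L hL
      · exact g5 L hL
  push Not at hq51
  have hq' : q.im = Real.pi ∧ q.re ≤ Real.log n - 1 := by
    rcases hq with ⟨i, hi1, hi2, -⟩ | hq | hq
    · omega
    · linarith
    · exact hq.2
  have hlog : Real.log n ≤ Real.log (4 * n) := by
    have h0 : (0 : ℝ) < n := by
      have : (0 : ℝ) < 10 ^ 20 := by norm_num
      linarith
    apply Real.log_le_log h0
    linarith
  set S2 : ℂ := ⟨51, Real.pi⟩ with hS2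
  have hc1 : Ch n (fun _ => 0) 0 q := by
    apply Ch0 n q hn (hJb q hqJ).2
    · rw [hq'.1, abs_of_pos Real.pi_pos]
      linarith
    · linarith [hq'.2]
  have hc2 : Ch n (fun _ => 0) 0 S2 := by
    apply Ch0 n S2 hn
    · show (21 : ℝ) ≤ 51
      norm_num
    · show |Real.pi| ≤ 10
      rw [abs_of_pos Real.pi_pos]
      linarith
    · show (51 : ℝ) ≤ _
      linarith [hq'.2]
  have hs1 : Sp n (fun _ => 0) 0 q := by
    refine ⟨?_, ?_⟩
    · rw [YY0]
      exact hq'.1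
    · rw [YY0]
      exact hq'.2
  have hs2 : Sp n (fun _ => 0) 0 S2 := by
    refine ⟨?_, ?_⟩
    · rw [YY0]
    · rw [YY0]
      show (51 : ℝ) ≤ _
      linarith [hq'.2]
  obtain ⟨J2, k1, k2, k3, k4, k5⟩ := h3 n (fun _ => 0) 0 q S2 hc1 hc2 hs1 hs2 (hJ2 hqJ)
  have hS2re : S2.re = 51 := rfl
  obtain ⟨J', g1, g2, g3, g4, g5⟩ := hCOR S2 (k2 k4) (by rw [hS2re]; norm_num)
      (Or.inl ⟨by rw [hS2re]; linarith, by rw [hS2re]; norm_num⟩)
  have hk5 : ∀ L ∈ J2, L.re ≤ max (p.re + 11) 85 ∧ min (-1) p.re ≤ L.re ∧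
      |L.im - p.im| ≤ 7 := by
    intro L hL
    obtain ⟨-, -, b1, b2⟩ := k5 L hL
    rw [YY0, YY0, YY0, hS2re] at b1 b2
    have b3 := (hJb q hqJ).1
    rw [min_eq_right hq51.le] at b1
    rw [max_eq_left hq51.le] at b2
    refine ⟨le_max_of_le_left (by linarith), ?_, hMim L (k2 hL)⟩
    refine le_trans (min_le_left _ _) ?_
    linarith
  refine ⟨(J ∪ J2) ∪ J', (hJ1.union q hqJ k3 k1).union S2 (Or.inr k4) g3 g1,
    union_subset (union_subset (hJ2.trans hsub) (k2.trans hsub)) g2,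
      Or.inl (Or.inl hJ3), ?_, ?_⟩
  · obtain ⟨q', hq', hq''⟩ := g4
    exact ⟨q', Or.inr hq', hq''⟩
  · rintro L ((hL | hL) | hL)
    · exact hJc L hL
    · exact hk5 L hL
    · exact g5 L hL

end TOL_

theorem p_TOL (h1 : T_DESC) (h2 : T_CORE) (h3 : T_SSEG) (h4 : T_SLIT) (h5 : T_CHP) : T_TOL := by
  intro n α hα hH p hp
  have h2pi : 0 < 2 * Real.pi := by positivity
  -- translate
  obtain ⟨m, hm0, hm1⟩ : ∃ m : ℤ, 0 ≤ p.im + 2 * Real.pi * m ∧
      p.im + 2 * Real.pi * m < 2 * Real.pi := by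
    refine ⟨-⌊p.im / (2 * Real.pi)⌋, ?_, ?_⟩
    · have := Int.floor_le (p.im / (2 * Real.pi))
      rw [le_div_iff₀ h2pi] at this
      push_cast
      nlinarith
    · have := Int.lt_floor_add_one (p.im / (2 * Real.pi))
      rw [div_lt_iff₀ h2pi] at this
      push_cast
      nlinarith
  have hper : ∀ (L : ℂ) (m : ℤ), (L + 2 * Real.pi * m * I ∈ Mq n ↔ L ∈ Mq n) := fun L m =>
    (h4 n L hα.hn).2.2.2 m
  have hre : ∀ (L : ℂ) (m : ℤ), (L + 2 * Real.pi * m * I).re = L.re := by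
    intro L m
    simp
  have him : ∀ (L : ℂ) (m : ℤ), (L + 2 * Real.pi * m * I).im = L.im + 2 * Real.pi * m := by
    intro L m
    simp
  obtain ⟨J, g1, g2, g3, ⟨q, hq1, hq2⟩, g5⟩ := TOL_.main h1 h2 h3 h4 h5 n α hα hH
    (p + 2 * Real.pi * m * I) ((hper p m).2 hp) (by rw [him]; exact hm0) (by rw [him]; exact hm1)
  set τ : ℂ → ℂ := fun L => L + 2 * Real.pi * ((-m : ℤ) : ℂ) * I with hτ
  have hinv : ∀ L : ℂ, τ (L + 2 * Real.pi * m * I) = L := by
    intro L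
    simp only [hτ]
    push_cast
    ring
  refine ⟨τ '' J, g1.image τ (by fun_prop), ?_, ⟨_, g3, hinv p⟩, ⟨τ q, ⟨q, hq1, rfl⟩, ?_⟩, ?_⟩
  · rintro _ ⟨L, hL, rfl⟩
    exact (hper L (-m)).2 (g2 hL)
  · show (q + 2 * Real.pi * ((-m : ℤ) : ℂ) * I).re ≤ -1
    rw [hre]
    exact hq2
  · rintro _ ⟨L, hL, rfl⟩
    obtain ⟨b1, b2, b3⟩ := g5 L hL
    rw [hre] at b1 b2
    rw [him] at b3
    have e1 : (τ L).re = L.re := hre L (-m)
    have e2 : (τ L).im = L.im - 2 * Real.pi * m := by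
      have := him L (-m)
      rw [show τ L = L + 2 * Real.pi * ((-m : ℤ) : ℂ) * I from rfl, this]
      push_cast
      ring
    rw [e1, e2]
    refine ⟨b1, b2, ?_⟩
    have e3 : L.im - 2 * Real.pi * m - p.im = L.im - (p.im + 2 * Real.pi * m) := by ring
    rw [e3]
    exact b3

end Pool.Agent.Modu
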