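import Pool.Agent.Modu.Targets
import Mathlib

/-!
# TW: towers of real numbers
-/

namespace Pool.Agent.Modu

namespace TW_

lemma prod_bound (k : ℕ) :
    ∏ i ∈ Finset.range k, (1 + (1 / 4 : ℝ) ^ (i + 8)) ≤ 11 / 10 - (1 / 4) ^ (k + 7) := by
  induction k with
  | zero => norm_num
  | succ k ih =>
    rw [Finset.prod_range_succ]
    have hx : (0 : ℝ) < (1 / 4) ^ (k + 8) := by positivity
    have e1 : (1 / 4 : ℝ) ^ (k + 7) = 4 * (1 / 4) ^ (k + 8) := by
      rw [pow_succ (1 / 4 : ℝ) (k + 7)]; ring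
    rw [e1] at ih
    have e2 : k + 1 + 7 = k + 8 := by ring
    rw [e2]
    set x := (1 / 4 : ℝ) ^ (k + 8)
    calc (∏ i ∈ Finset.range k, (1 + (1 / 4 : ℝ) ^ (i + 8))) * (1 + x)
        ≤ (11 / 10 - 4 * x) * (1 + x) := by
          apply mul_le_mul_of_nonneg_right ih; positivity
      _ ≤ 11 / 10 - x := by nlinarith [sq_nonneg x]

lemma big : (10 : ℝ) ^ 8 ≤ Real.exp 57 := by
  have h1 : (2 : ℝ) ≤ Real.exp 1 := by
    have := Real.add_one_le_exp (1 : ℝ); linarith
  have h2 : Real.exp 57 = Real.exp 1 ^ 57 := by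
    rw [← Real.exp_nat_mul]; norm_num
  rw [h2]
  calc (10 : ℝ) ^ 8 ≤ 2 ^ 57 := by norm_num
    _ ≤ Real.exp 1 ^ 57 := pow_le_pow_left₀ (by norm_num) h1 57

lemma big58 : (10 : ℝ) ^ 8 ≤ Real.exp 58 :=
  big.trans (Real.exp_le_exp.2 (by norm_num))

lemma growth (κ : ℕ) (a : ℕ → ℝ) (ha : ∀ i, i ≤ κ → Real.exp 58 ≤ a i)
    (h : ∀ i, i < κ → a i ≤ (1 + (1 / 4) ^ (i + 9)) * Real.log (a (i + 1))) :
    ∀ i, i ≤ κ → (10 : ℝ) ^ 8 * 4 ^ i ≤ a i := by
  intro i
  induction i with
  | zero => intro _; simpa using big58.trans (ha 0 (by omega))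
  | succ i ih =>
    intro hi
    have h0 := ih (by omega)
    have h1 := h i (by omega)
    have h2 : (1 / 4 : ℝ) ^ (i + 9) ≤ 1 := pow_le_one₀ (by norm_num) (by norm_num)
    have h3 : (0 : ℝ) < (1 / 4 : ℝ) ^ (i + 9) := by positivity
    have hap : 0 < a (i + 1) := (Real.exp_pos _).trans_le (ha _ hi)
    have hai : (10 : ℝ) ^ 8 ≤ a i := big58.trans (ha i (by omega))
    have hlog : 0 < Real.log (a (i + 1)) := by
      have := ha (i + 1) hi
      have h5 := (Real.le_log_iff_exp_le hap).2 this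
      linarith
    have h4 : a i ≤ 2 * Real.log (a (i + 1)) := by
      refine h1.trans ?_
      apply mul_le_mul_of_nonneg_right _ hlog.le
      linarith
    have h5 : Real.exp (a i / 2) ≤ a (i + 1) := by
      rw [← Real.le_log_iff_exp_le hap]; linarith
    have h6 : 4 * a i ≤ Real.exp (a i / 2) := by
      have h7 := Real.quadratic_le_exp_of_nonneg (x := a i / 2) (by linarith)
      nlinarith
    calc (10 : ℝ) ^ 8 * 4 ^ (i + 1) = 4 * (10 ^ 8 * 4 ^ i) := by ring
      _ ≤ 4 * a i := by linarith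
      _ ≤ a (i + 1) := h6.trans h5

lemma claim (κ : ℕ) (a : ℕ → ℝ) (A : ℝ) (ha : ∀ i, i ≤ κ → Real.exp 58 ≤ a i)
    (h : ∀ i, i < κ → a i ≤ (1 + (1 / 4) ^ (i + 9)) * Real.log (a (i + 1)))
    (hA : a κ ≤ 3 * A) :
    ∀ d, ∀ i, i + (d + 1) = κ →
      a i ≤ (1 + (1 / 4) ^ (i + 8)) * Real.log^[d + 1] A ∧ 1 ≤ Real.log^[d + 1] A := by
  intro d
  induction d with
  | zero =>
    intro i hi
    have hi' : i + 1 = κ := by omega
    have hg := growth κ a ha h i (by omega)
    have h1 := h i (by omega)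
    have e1 : (1 / 4 : ℝ) ^ (i + 8) = 4 * (1 / 4) ^ (i + 9) := by
      rw [pow_succ (1 / 4 : ℝ) (i + 8)]; ring
    have hx : (0 : ℝ) < (1 / 4) ^ (i + 9) := by positivity
    have hx1 : (1 / 4 : ℝ) ^ (i + 9) ≤ 1 := pow_le_one₀ (by norm_num) (by norm_num)
    have hap : 0 < a (i + 1) := (Real.exp_pos _).trans_le (ha _ (by omega))
    rw [hi'] at h1 hap
    have hA0 : 0 < A := by linarith
    have h2 : Real.log (a κ) ≤ Real.log 3 + Real.log A := by
      rw [← Real.log_mul (by norm_num) hA0.ne']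
      exact Real.log_le_log hap hA
    have h3 : Real.log 3 ≤ 2 := by
      have := Real.log_le_sub_one_of_pos (show (0 : ℝ) < 3 by norm_num)
      linarith
    have h4 : (10 : ℝ) ^ 8 * 4 ^ i ≤ 2 * (2 + Real.log A) := by
      refine hg.trans (h1.trans ?_)
      have hlog : 0 ≤ Real.log (a κ) := by
        by_contra hneg
        push Not at hneg
        have : a i ≤ 0 := h1.trans (by
          have : (1 + (1 / 4 : ℝ) ^ (i + 9)) * Real.log (a κ) < 0 :=
            mul_neg_of_pos_of_neg (by linarith) hneg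
          exact this.le)
        have h9 : (0 : ℝ) < a i := (Real.exp_pos _).trans_le (ha i (by omega))
        linarith
      calc (1 + (1 / 4 : ℝ) ^ (i + 9)) * Real.log (a κ) ≤ 2 * Real.log (a κ) :=
            mul_le_mul_of_nonneg_right (by linarith) hlog
        _ ≤ 2 * (2 + Real.log A) := by linarith
    have h5 : (1 : ℝ) ≤ 4 ^ i := one_le_pow₀ (by norm_num)
    have hLA : (10 : ℝ) ^ 7 * 4 ^ i ≤ Real.log A := by nlinarith
    have h6 : (1 / 4 : ℝ) ^ (i + 9) * ((10 : ℝ) ^ 7 * 4 ^ i) ≥ 4 := by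
      have e2 : (1 / 4 : ℝ) ^ (i + 9) * ((10 : ℝ) ^ 7 * 4 ^ i) =
          ((1 / 4 : ℝ) * 4) ^ i * ((1 / 4) ^ 9 * 10 ^ 7) := by
        rw [mul_pow, pow_add]; ring
      rw [e2]; norm_num
    have h7 : (4 : ℝ) ≤ (1 / 4 : ℝ) ^ (i + 9) * Real.log A :=
      h6.le.trans (mul_le_mul_of_nonneg_left hLA hx.le)
    have hL : Real.log^[0 + 1] A = Real.log A := rfl
    rw [hL, e1]
    set x := (1 / 4 : ℝ) ^ (i + 9)
    constructor
    · calc a i ≤ (1 + x) * Real.log (a κ) := h1
        _ ≤ (1 + x) * (2 + Real.log A) := by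
            apply mul_le_mul_of_nonneg_left _ (by linarith); linarith
        _ ≤ (1 + 4 * x) * Real.log A := by nlinarith
    · nlinarith
  | succ d ih =>
    intro i hi
    obtain ⟨ih1, ih2⟩ := ih (i + 1) (by omega)
    have h1 := h i (by omega)
    have hB : Real.log^[d + 1 + 1] A = Real.log (Real.log^[d + 1] A) :=
      Function.iterate_succ_apply' _ _ _
    rw [hB]
    set B := Real.log^[d + 1] A with hBdef
    have hBpos : 0 < B := by linarith
    have e1 : (1 / 4 : ℝ) ^ (i + 8) = 4 * (1 / 4) ^ (i + 9) := by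
      rw [pow_succ (1 / 4 : ℝ) (i + 8)]; ring
    have e2 : i + 1 + 8 = i + 9 := by ring
    rw [e2] at ih1
    rw [e1]
    have hx : (0 : ℝ) < (1 / 4) ^ (i + 9) := by positivity
    have hx1 : (1 / 4 : ℝ) ^ (i + 9) ≤ 1 := pow_le_one₀ (by norm_num) (by norm_num)
    set x := (1 / 4 : ℝ) ^ (i + 9)
    have hap : 0 < a (i + 1) := (Real.exp_pos _).trans_le (ha _ (by omega))
    have h2 : Real.log (a (i + 1)) ≤ x + Real.log B := by
      calc Real.log (a (i + 1)) ≤ Real.log ((1 + x) * B) := Real.log_le_log hap ih1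
        _ = Real.log (1 + x) + Real.log B := Real.log_mul (by linarith) hBpos.ne'
        _ ≤ x + Real.log B := by
            have := Real.log_le_sub_one_of_pos (show (0 : ℝ) < 1 + x by linarith)
            linarith
    have h3 : a i ≤ (1 + x) * (x + Real.log B) :=
      h1.trans (mul_le_mul_of_nonneg_left h2 (by linarith))
    have h4 : (10 : ℝ) ^ 8 ≤ a i := big58.trans (ha i (by omega))
    have h5 : 1 ≤ Real.log B := by
      by_contra hneg
      push Not at hneg
      have : (1 + x) * (x + Real.log B) ≤ 2 * 2 := by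
        calc (1 + x) * (x + Real.log B) ≤ (1 + x) * 2 :=
              mul_le_mul_of_nonneg_left (by linarith) (by linarith)
          _ ≤ 2 * 2 := by linarith
      linarith
    constructor
    · refine h3.trans ?_
      nlinarith
    · exact h5

end TW_

open TW_ in
theorem p_TW : T_TW := by
  intro κ a A ha h hA
  have key : ∀ i, i < κ → a i ≤ (1 + (1 / 4) ^ (i + 8)) * Real.log^[κ - i] A ∧
      1 ≤ Real.log^[κ - i] A := by
    intro i hi
    have := claim κ a A ha h hA (κ - i - 1) i (by omega)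
    have e : κ - i - 1 + 1 = κ - i := by omega
    rw [e] at this
    exact this
  constructor
  · intro i hi
    obtain ⟨h1, h2⟩ := key i hi
    refine h1.trans ?_
    apply mul_le_mul_of_nonneg_right _ (by linarith)
    have : (1 / 4 : ℝ) ^ (i + 8) ≤ (1 / 4) ^ 8 :=
      pow_le_pow_of_le_one (by norm_num) (by norm_num) (by omega)
    have h3 : (1 / 4 : ℝ) ^ 8 ≤ 1 / 10 := by norm_num
    linarith
  · have e1 : ∏ i ∈ Finset.range κ, Real.log^[κ - i] A =
        ∏ i ∈ Finset.range κ, Real.log^[i + 1] A := by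
      rw [← Finset.prod_range_reflect]
      apply Finset.prod_congr rfl
      intro i hi
      rw [Finset.mem_range] at hi
      congr 2
      omega
    have hpos : 0 ≤ ∏ i ∈ Finset.range κ, Real.log^[i + 1] A := by
      rw [← e1]
      apply Finset.prod_nonneg
      intro i hi
      have := (key i (Finset.mem_range.1 hi)).2
      linarith
    calc ∏ i ∈ Finset.range κ, a i
        ≤ ∏ i ∈ Finset.range κ, ((1 + (1 / 4) ^ (i + 8)) * Real.log^[κ - i] A) := by
          apply Finset.prod_le_prod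
          · intro i hi
            exact (Real.exp_pos _).le.trans (ha i (Finset.mem_range.1 hi).le)
          · intro i hi
            exact (key i (Finset.mem_range.1 hi)).1
      _ = (∏ i ∈ Finset.range κ, (1 + (1 / 4 : ℝ) ^ (i + 8))) *
          ∏ i ∈ Finset.range κ, Real.log^[i + 1] A := by
          rw [Finset.prod_mul_distrib, e1]
      _ ≤ 11 / 10 * ∏ i ∈ Finset.range κ, Real.log^[i + 1] A := by
          apply mul_le_mul_of_nonneg_right _ hpos
          refine (prod_bound κ).trans ?_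
          have : (0 : ℝ) < (1 / 4) ^ (κ + 7) := by positivity
          linarith

end Pool.Agent.Modu
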