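import Pool.Agent.Modu.Targets

/-!
# MODU: UPPER, transfer of the upper bound to the parameter plane
-/

set_option autoImplicit false

open Complex Filter Topology Set
open Pool.Agent.Multibrot Pool.Agent.Limb

namespace Pool.Agent.Modu

namespace UPPER_

/-- If `exp^[k] 1 ≤ n`, then `log^[j+1] n ≥ 1` for `j < k`. -/
lemma one_le_iter {k : ℕ} : ∀ {y : ℝ}, Real.exp^[k] 1 ≤ y → ∀ j, j ≤ k → 1 ≤ Real.log^[j] y := by
  induction k with
  | zero =>
    intro y hy j hj
    obtain rfl : j = 0 := by omega
    simpa using hy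
  | succ k ih =>
    intro y hy j hj
    have h1 : (1 : ℝ) ≤ Real.exp^[k] 1 := by
      have : ∀ m : ℕ, (1 : ℝ) ≤ Real.exp^[m] 1 := by
        intro m
        induction m with
        | zero => simp
        | succ m ihm =>
          rw [Function.iterate_succ_apply']
          exact Real.one_le_exp (by linarith)
      exact this k
    rw [Function.iterate_succ_apply'] at hy
    have hy0 : 0 < y := lt_of_lt_of_le (Real.exp_pos _) hy
    have h2 : Real.exp^[k] 1 ≤ Real.log y := by
      rw [Real.le_log_iff_exp_le hy0]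
      exact hy
    rcases Nat.eq_zero_or_pos j with h0 | h0
    · subst h0
      have h3 : (1 : ℝ) ≤ Real.exp (Real.exp^[k] 1) := Real.one_le_exp (by linarith)
      simpa using h3.trans hy
    · obtain ⟨j', rfl⟩ : ∃ j', j = j' + 1 := ⟨j - 1, by omega⟩
      rw [Function.iterate_succ_apply]
      exact ih h2 j' (by omega)

lemma one_le_prod {k : ℕ} {y : ℝ} (h : Real.exp^[k] 1 ≤ y) :
    1 ≤ ∏ j ∈ Finset.range k, Real.log^[j + 1] y := by
  have h1 : ∏ j ∈ Finset.range k, (1 : ℝ) ≤ ∏ j ∈ Finset.range k, Real.log^[j + 1] y := by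
    refine Finset.prod_le_prod (fun _ _ => zero_le_one) (fun j hj => ?_)
    exact one_le_iter h (j + 1) (by have := Finset.mem_range.1 hj; omega)
  simpa using h1

/-- The logarithmic coordinate. -/
lemma cc_log {n : ℕ} (hn : 2 ≤ n) {v : ℂ} :
    cc n ((n - 1) * v + (Real.log n : ℝ)) = exp v := by
  have h : (n : ℂ) - 1 ≠ 0 := by
    have h2 : ((n : ℂ) - 1) = ((n - 1 : ℝ) : ℂ) := by push_cast; ring
    rw [h2]
    have : (2 : ℝ) ≤ n := by exact_mod_cast hn
    exact_mod_cast (by linarith : (n - 1 : ℝ) ≠ 0)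
  unfold cc ell
  congr 1
  field_simp
  ring

lemma cc_add {n : ℕ} (L M : ℂ) : cc n M = cc n L * exp ((M - L) / (n - 1)) := by
  unfold cc ell
  rw [← exp_add]
  congr 1
  ring

lemma cc_continuous (n : ℕ) : Continuous (cc n) := by
  unfold cc ell
  fun_prop

/-- `|log (1 + w)| ≤ 2 |w|` for small `w`. -/
lemma norm_log_le {w : ℂ} (hw : ‖w‖ ≤ 1 / 2) : ‖log (1 + w)‖ ≤ 2 * ‖w‖ := by
  have h1 := Complex.norm_log_one_add_sub_self_le (z := w) (lt_of_le_of_lt hw (by norm_num))
  have h3 : (1 - ‖w‖)⁻¹ ≤ 2 := by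
    rw [inv_le_comm₀ (by linarith) (by norm_num)]
    linarith
  have h4 : 0 ≤ ‖w‖ := norm_nonneg _
  have h5 : ‖log (1 + w)‖ ≤ ‖log (1 + w) - w‖ + ‖w‖ := by
    have := norm_add_le (log (1 + w) - w) w
    rwa [sub_add_cancel] at this
  have h6 : ‖w‖ ^ 2 * (1 - ‖w‖)⁻¹ ≤ ‖w‖ ^ 2 * 2 := mul_le_mul_of_nonneg_left h3 (by positivity)
  nlinarith

end UPPER_

open UPPER_ in
theorem p_UPPER (h1 : T_MAINL) : T_UPPER := by
  refine ⟨1 / 4000, 10 ^ 22, by norm_num, by norm_num, ?_⟩
  intro k n x hn hx hk1 hk2 a ha b hb hab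
  have hnR : (2 : ℝ) ≤ n := by exact_mod_cast hn
  have hn0 : (0 : ℝ) < n := by linarith
  have hP := one_le_prod hk1
  set P : ℝ := ∏ j ∈ Finset.range k, Real.log^[j + 1] (n : ℝ) with hPdef
  have hab' : dist a b ≤ 1 / 4000 / n := by
    refine hab.trans ?_
    apply div_le_div_of_nonneg_left (by norm_num) hn0
    nlinarith
  have hbd : ∀ z ∈ MM n, ‖z‖ ≤ 2 := fun z hz => by
    have h2 := MM_bound hn hz
    have h3 : (2 : ℝ) / n ≤ 1 := by
      rw [div_le_one hn0]
      exact hnR
    linarith
  rcases lt_or_ge (n : ℝ) (10 ^ 20) with hsm | hbig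
  · refine ⟨MM n, MM_connected hn, subset_rfl, ha, hb, fun z hz => ?_⟩
    have h2 : dist a z ≤ 4 := by
      rw [dist_eq_norm]
      refine (norm_sub_le a z).trans ?_
      have := hbd a ha
      have := hbd z hz
      linarith
    refine h2.trans ?_
    rw [le_div_iff₀ hn0]
    nlinarith
  have hn1 : (0 : ℝ) < n - 1 := by linarith
  have hnc : (n : ℂ) - 1 = ((n - 1 : ℝ) : ℂ) := by push_cast; ring
  have hnc0 : (n : ℂ) - 1 ≠ 0 := by
    rw [hnc]
    exact_mod_cast hn1.ne'
  have hnn : ‖(n : ℂ) - 1‖ = n - 1 := by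
    rw [hnc, norm_real, Real.norm_of_nonneg hn1.le]
  rcases lt_or_ge ‖a‖ (1 / 2) with hA | hA
  · -- the central disc
    have hr : 3 / 4 ≤ r0 n := by
      have h2 := r0_lower hn
      have h3 := log_nat_le hbig
      have h4 : 0 ≤ Real.log 2 := Real.log_nonneg (by norm_num)
      have h5 : (1 + 2 * Real.log n) / n ≤ 1 / 4 := by
        rw [div_le_iff₀ hn0]
        have h6 : Real.log n ≤ n / 10 ^ 17 := by linarith
        linarith
      linarith
    have hb1 : ‖b‖ ≤ 3 / 4 := by
      have h2 : ‖b‖ ≤ ‖a‖ + dist a b := by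
        have := norm_sub_le a (a - b)
        rw [sub_sub_cancel] at this
        rw [dist_eq_norm]
        exact this
      have h3 : (1 : ℝ) / 4000 / n ≤ 1 / 4 := by
        rw [div_le_iff₀ hn0]
        linarith
      linarith
    refine ⟨segment ℝ a b, (convex_segment a b).isPreconnected, ?_, left_mem_segment ℝ a b,
      right_mem_segment ℝ a b, ?_⟩
    · intro z hz
      apply disc_sub hn
      have h2 : segment ℝ a b ⊆ Metric.closedBall (0 : ℂ) (3 / 4) :=
        (convex_closedBall 0 _).segment_subset (by simp; linarith) (by simp; linarith)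
      have h3 := h2 hz
      rw [mem_closedBall_zero_iff] at h3
      linarith
    · intro z hz
      have h2 : segment ℝ a b ⊆ Metric.closedBall a (dist a b) :=
        (convex_closedBall a _).segment_subset (Metric.mem_closedBall_self dist_nonneg)
          (by rw [Metric.mem_closedBall, dist_comm])
      have h3 := h2 hz
      rw [Metric.mem_closedBall, dist_comm] at h3
      refine h3.trans (hab'.trans ?_)
      apply div_le_div_of_nonneg_right _ hn0.le
      nlinarith
  · -- the logarithmic coordinate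
    have ha0 : a ≠ 0 := by
      intro h0
      rw [h0, norm_zero] at hA
      norm_num at hA
    set La : ℂ := (n - 1) * log a + (Real.log n : ℝ) with hLa
    have eLa : cc n La = a := by rw [hLa, cc_log hn, exp_log ha0]
    set w : ℂ := (b - a) / a with hw
    have hwn : ‖w‖ ≤ 2 * dist a b := by
      rw [hw, norm_div, div_le_iff₀ (norm_pos_iff.2 ha0), dist_comm, dist_eq_norm]
      have := norm_nonneg (b - a)
      nlinarith
    have hab2 : dist a b ≤ 1 / 8 := by
      refine hab'.trans ?_
      rw [div_le_iff₀ hn0]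
      linarith
    have hw2 : ‖w‖ ≤ 1 / 2 := by linarith
    have hw1 : 1 + w ≠ 0 := by
      intro h0
      have h2 : w = -1 := by linear_combination h0
      rw [h2, norm_neg, norm_one] at hw2
      norm_num at hw2
    have hlog := norm_log_le hw2
    set Lb : ℂ := La + (n - 1) * log (1 + w) with hLb
    have eLb : cc n Lb = b := by
      rw [cc_add La Lb, eLa]
      have h2 : (Lb - La) / (n - 1) = log (1 + w) := by
        rw [hLb]
        field_simp
        ring
      rw [h2, exp_log hw1, hw]
      field_simp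
      ring
    have hD : ‖Lb - La‖ ≤ 4 * n * dist a b := by
      have h2 : Lb - La = (n - 1) * log (1 + w) := by
        rw [hLb]
        ring
      rw [h2, norm_mul, hnn]
      have h3 : 0 ≤ dist a b := dist_nonneg
      have h4 : 0 ≤ ‖log (1 + w)‖ := norm_nonneg _
      calc ((n : ℝ) - 1) * ‖log (1 + w)‖ ≤ n * ‖log (1 + w)‖ :=
            mul_le_mul_of_nonneg_right (by linarith) h4
        _ ≤ n * (4 * dist a b) := mul_le_mul_of_nonneg_left (by linarith) hn0.le
        _ = _ := by ring
    have hDP : ‖Lb - La‖ * P ≤ 1 / 1000 := by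
      have hP0 : 0 < P := by linarith
      calc ‖Lb - La‖ * P ≤ (4 * n * dist a b) * P := mul_le_mul_of_nonneg_right hD hP0.le
        _ ≤ (4 * n * (1 / 4000 / (n * P))) * P := by
          apply mul_le_mul_of_nonneg_right _ hP0.le
          exact mul_le_mul_of_nonneg_left hab (by positivity)
        _ = 1 / 1000 := by
          field_simp
          norm_num
    obtain ⟨J, J1, J2, J3, J4, J5⟩ := h1 n k x hbig hx hk1 hk2 La
      (by show cc n La ∈ MM n; rw [eLa]; exact ha) Lb
      (by show cc n Lb ∈ MM n; rw [eLb]; exact hb) hDP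
    refine ⟨cc n '' J, J1.image _ (cc_continuous n).continuousOn, ?_, ⟨La, J3, eLa⟩,
      ⟨Lb, J4, eLb⟩, ?_⟩
    · rintro _ ⟨L, hL, rfl⟩
      exact J2 hL
    · rintro _ ⟨L, hL, rfl⟩
      have hL1 := J5 L hL
      have h4 : dist a (cc n L) ≤ 4 := by
        rw [dist_eq_norm]
        refine (norm_sub_le a _).trans ?_
        have := hbd a ha
        have := hbd _ (J2 hL)
        linarith
      have key : dist a (cc n L) ≤ 4 * (2 * x + 200) / (n - 1) := by
        rcases le_total ‖L - La‖ (n - 1) with h5 | h5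
        · have h6 : a - cc n L = -(a * (exp ((L - La) / (n - 1)) - 1)) := by
            rw [cc_add La L, eLa]
            ring
          have h7 : ‖(L - La) / (n - 1)‖ = ‖L - La‖ / (n - 1) := by rw [norm_div, hnn]
          have h8 : ‖(L - La) / ((n : ℂ) - 1)‖ ≤ 1 := by
            rw [h7, div_le_one hn1]
            exact h5
          have h9 := Complex.norm_exp_sub_one_le h8
          rw [dist_eq_norm, h6, norm_neg, norm_mul]
          calc ‖a‖ * ‖exp ((L - La) / (n - 1)) - 1‖ ≤ 2 * (2 * ‖(L - La) / ((n : ℂ) - 1)‖) :=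
                mul_le_mul (hbd a ha) h9 (norm_nonneg _) (by norm_num)
            _ = 4 * ‖L - La‖ / (n - 1) := by rw [h7]; ring
            _ ≤ _ := by
              apply div_le_div_of_nonneg_right _ hn1.le
              linarith
        · refine h4.trans ?_
          rw [le_div_iff₀ hn1]
          linarith
      refine key.trans ?_
      rw [div_le_div_iff₀ hn1 hn0]
      nlinarith [mul_nonneg hx hn0.le]

end Pool.Agent.Modu
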