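import Pool.Agent.Modu.ADJ
import Pool.Agent.Modu.ADOWN
import Pool.Agent.Modu.ALPHA
import Pool.Agent.Modu.ATTK
import Pool.Agent.Modu.BBL
import Pool.Agent.Modu.CHART
import Pool.Agent.Modu.CHCL
import Pool.Agent.Modu.CHNEAR
import Pool.Agent.Modu.CHP
import Pool.Agent.Modu.CLASS
import Pool.Agent.Modu.CLOSE
import Pool.Agent.Modu.COMP
import Pool.Agent.Modu.CORE
import Pool.Agent.Modu.COV
import Pool.Agent.Modu.DESC
import Pool.Agent.Modu.DOWN
import Pool.Agent.Modu.FATOU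
import Pool.Agent.Modu.FING
import Pool.Agent.Modu.FOL
import Pool.Agent.Modu.FRC
import Pool.Agent.Modu.FRX
import Pool.Agent.Modu.GJD
import Pool.Agent.Modu.HALL
import Pool.Agent.Modu.HPI
import Pool.Agent.Modu.HSTEP
import Pool.Agent.Modu.LEG
import Pool.Agent.Modu.LIP
import Pool.Agent.Modu.LN
import Pool.Agent.Modu.MAINL
import Pool.Agent.Modu.MARG
import Pool.Agent.Modu.MUP
import Pool.Agent.Modu.NC
import Pool.Agent.Modu.PAIR
import Pool.Agent.Modu.PH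
import Pool.Agent.Modu.RC
import Pool.Agent.Modu.SEPC
import Pool.Agent.Modu.SIDE
import Pool.Agent.Modu.SLIT
import Pool.Agent.Modu.SPINE
import Pool.Agent.Modu.SSEG
import Pool.Agent.Modu.STAY
import Pool.Agent.Modu.STEP
import Pool.Agent.Modu.STRIP
import Pool.Agent.Modu.TL
import Pool.Agent.Modu.TOL
import Pool.Agent.Modu.TW
import Pool.Agent.Modu.UPPER

/-!
# MODU: assembly
-/

set_option autoImplicit false

namespace Pool.Agent.Modu

/-- The upper bound for the modulus of local connectivity. -/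
theorem upper : T_UPPER := by
  have eLN := p_LN
  have eSEPC := p_SEPC
  have eTL := p_TL eSEPC
  have eBBL := p_BBL eSEPC
  have eNC := p_NC
  have eSLIT := p_SLIT
  have eSTAY := p_STAY eSLIT
  have eCHP := p_CHP eLN
  have eFRX := p_FRX eLN
  have eCHART := p_CHART eCHP
  have eLIP := p_LIP eCHP
  have eCOMP := p_COMP eCHP eLIP
  have eCHCL := p_CHCL eCHART eCHP
  have eCHNEAR := p_CHNEAR eCHP
  have eFRC := p_FRC
  have eSTRIP := p_STRIP eFRX eFRC eSLIT
  have eSTEP := p_STEP eCHP eFRX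
  have eADJ := p_ADJ eCHP
  have eADOWN := p_ADOWN eADJ eCHP
  have eDOWN := p_DOWN eCHP
  have eALPHA := p_ALPHA eCHP eCHCL
  have eCOV := p_COV eLN eCHP
  have eSPINE := p_SPINE eCHP eLN
  have eSSEG := p_SSEG eCHART eSPINE eSTAY
  have eGJD := p_GJD
  have eCLASS := p_CLASS
  have eFATOU := p_FATOU
  have eMUP := p_MUP eCHP eCHART eGJD eLN eLIP
  have eLEG := p_LEG eCHP eCHART eSTAY eLN eLIP
  have eFING := p_FING eCHP eCLASS eMUP eFATOU eLEG eSTAY
  have eRC := p_RC eCHP eSTEP eCOV eDOWN eCOMP eBBL eFRC eFRX eSSEG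
  have eHSTEP := p_HSTEP eCHP eFRX eFRC eSEPC eTL eNC eSLIT eCHNEAR eCHCL eSTEP eCOV eDOWN
    eCOMP eRC eFING
  have eHALL := p_HALL eHSTEP eSTRIP
  have eMARG := p_MARG eCHP
  have eHPI := p_HPI eSTEP eFRX
  have eFOL := p_FOL eCHART eSPINE eSTAY eMARG eCHP
  have ePH := p_PH eMARG eFOL eALPHA eCHP
  have eDESC := p_DESC ePH eHPI eADOWN eCOV eCOMP eCHP
  have eATTK := p_ATTK eDESC eCOV eDOWN eSTEP eMARG eCHP eCOMP eLIP eFRX eALPHA
  have eCORE := p_CORE eRC eTL eSEPC eNC eSLIT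
  have eTOL := p_TOL eDESC eCORE eSSEG eSLIT eCHP
  have eTW := p_TW
  have eCLOSE := p_CLOSE eCHP eLN
  have eSIDE := p_SIDE eCLOSE eCHP eFRX eSLIT
  have ePAIR := p_PAIR eATTK eSSEG eLIP eCHP
  have eMAINL := p_MAINL eSTRIP eHALL eTOL eTW eSIDE ePAIR eHPI eCHP eCLOSE eLIP eFRX eSLIT
  exact p_UPPER eMAINL

end Pool.Agent.Modu
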