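import Pool.Agent.Modu.Targets

/-!
# MODU-PH: one phase
-/

set_option autoImplicit false

open Complex Filter Topology Set
open Pool.Agent.Multibrot Pool.Agent.Limb

namespace Pool.Agent.Modu

theorem p_PH (h1 : T_MARG) (h2 : T_FOL) (h3 : T_ALPHA) (h4 : T_CHP) : T_PH := by
  intro n α m P q J0 hα hHC hJ0 hJ0M hP hq hJ0c hre hFR hNF hJ0l hql
  obtain ⟨s, hs, hsa⟩ := hJ0c q hq
  have hqM := hJ0M hq
  have hmar := h1 n s m q hqM hs hre hFR
  -- the logarithm of the norm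
  have hlog : ∀ L : ℂ, Ch n s m L → Real.log ‖zz n L (m + 1)‖ = (YY n s L m).re := by
    intro L hL
    obtain ⟨-, -, c3, -⟩ := h4 n s m L hL
    rw [c3 m le_rfl, Real.log_exp]
  obtain ⟨-, -, c3, -, -, -, -, c8, -⟩ := h4 n s m q hs
  have hbig : (10 : ℝ) ^ 8 ≤ ‖zz n q (m + 1)‖ := by
    rw [c3 m le_rfl]
    have e1 := c8 m le_rfl
    have e2 : (51 : ℝ) ≤ (YY n s q m).re := by linarith
    have e3 : Real.exp 51 ≤ Real.exp (YY n s q m).re := Real.exp_le_exp.mpr e2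
    have e4 : (2 : ℝ) ≤ Real.exp 1 := by
      have := Real.add_one_le_exp (1 : ℝ)
      linarith
    have e5 : Real.exp 51 = Real.exp 1 ^ 51 := by
      rw [← Real.exp_nat_mul]; norm_num
    have e6 : (2 : ℝ) ^ 51 ≤ Real.exp 1 ^ 51 := pow_le_pow_left₀ (by norm_num) e4 51
    have e7 : (10 : ℝ) ^ 8 ≤ 2 ^ 51 := by norm_num
    linarith
  have harg := hα.nf (m + 1) q (by omega) hqM (by linarith) hbig (Or.inl hNF)
  have hHP : HP n s m q := ⟨hqM, hs, hmar, by rw [hsa]; exact harg.1, by rw [hsa]; exact harg.2,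
    hNF⟩
  obtain ⟨J', hJ'p, hJ'M, hqJ', ⟨S, hSJ', hSp⟩, hJ'c⟩ := hHC s m q hHP
  have hJ'a := h3 n α s m J' hα hJ'p hJ'M (fun L hL => (hJ'c L hL).1) q hqJ' hsa
  have hU : IsPreconnected (J0 ∪ J') := hJ0.union q hq hqJ' hJ'p
  have hJ'l : ∀ L ∈ J', Real.log ‖zz n L (m + 1)‖ ≤ Real.log ‖zz n P (m + 1)‖ + 11 := by
    intro L hL
    obtain ⟨e1, e2⟩ := hJ'c L hL
    have e3 := (abs_le.mp e2).2
    rw [hlog q hs] at hql
    rw [hlog L e1]
    linarith
  have hUc : ∀ L ∈ J0 ∪ J', ∃ s : ℕ → ℤ, Ch n s m L ∧ (YY n s L m).im = α (m + 1) L := by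
    rintro L (hL | hL)
    · exact hJ0c L hL
    · exact ⟨s, (hJ'c L hL).1, hJ'a L hL⟩
  have hUl : ∀ L ∈ J0 ∪ J', Real.log ‖zz n L (m + 1)‖ ≤ Real.log ‖zz n P (m + 1)‖ + 11 := by
    rintro L (hL | hL)
    · exact hJ0l L hL
    · exact hJ'l L hL
  by_cases hcase : m = 0 ∨ (∃ i, 1 ≤ i ∧ i ≤ m ∧ NF n S i) ∨ S.re ≤ 51
  · refine ⟨J0 ∪ J', subset_union_left, hU, union_subset hJ0M hJ'M, hUc, hUl, S, Or.inr hSJ',
      ?_, ?_⟩
    · intro hm
      rcases hcase with h | h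
      · omega
      · exact h
    · intro hm
      subst hm
      have hc1 := (h4 n s 0 S (hJ'c S hSJ').1).1
      have e1 := hJ'a S hSJ'
      rw [hα.one] at e1
      refine ⟨?_, ?_⟩
      · rw [← e1]; exact hSp.1
      · rw [← hc1.1]; exact hSp.2
  · push Not at hcase
    obtain ⟨hm, hnf, hSre⟩ := hcase
    have hSc := (hJ'c S hSJ').1
    obtain ⟨J'', hJ''p, hJ''M, hSJ'', ⟨q', hq', hq''⟩, hJ''c⟩ := h2 n s m S (hJ'M hSJ') hSc
      (by omega) hSp (fun i hi1 hi2 => by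
        have := hnf i hi1 hi2
        rw [NF, not_le] at this
        exact this.le) hSre.le
    have hJ''a := h3 n α s m J'' hα hJ''p hJ''M (fun L hL => (hJ''c L hL).1) S hSJ''
      (hJ'a S hSJ')
    refine ⟨(J0 ∪ J') ∪ J'', subset_union_left.trans subset_union_left,
      hU.union S (Or.inr hSJ') hSJ'' hJ''p, union_subset (union_subset hJ0M hJ'M) hJ''M, ?_, ?_,
      q', Or.inr hq', fun _ => hq'', fun h => absurd h hm⟩
    · rintro L (hL | hL)
      · exact hUc L hL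
      · exact ⟨s, (hJ''c L hL).1, hJ''a L hL⟩
    · rintro L (hL | hL)
      · exact hUl L hL
      · obtain ⟨e1, e2⟩ := hJ''c L hL
        have e3 := hJ'l S hSJ'
        rw [hlog S hSc] at e3
        rw [hlog L e1]
        linarith

end Pool.Agent.Modu
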